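import Pool.Agent.Lib.MP_b5e4d4_co.AE.Defs

section

set_option autoImplicit false

/-!
# Task A1: existence and uniqueness of the weights

As `W1_exists`, `W1_unique` in `FP/W1.lean` (same proofs with `Closed` replaced by `True`; the private lemmas `W1_split`, `W1_ex` there can
be copied).
-/

namespace Pool.Agent.MP_b5e4d4_co.AE

open Equiv Pool.Agent.MP_b5e4d4_co.FP

private theorem A1_split {α : Type} [Fintype α] [PartialOrder α]
    [DecidableRel ((· ≤ ·) : α → α → Prop)] [DecidableRel ((· < ·) : α → α → Prop)]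
    (W : α → ℤ) (a : α) :
    ∑ b with b ≤ a, W b = W a + ∑ b with b < a, W b := by
  classical
  have h2 : a ∉ Finset.univ.filter fun b : α => b < a := by
    rw [Finset.mem_filter]
    exact fun h => lt_irrefl a h.2
  rw [← Finset.sum_insert h2]
  refine Finset.sum_congr ?_ fun _ _ => rfl
  ext b
  rw [Finset.mem_filter, Finset.mem_insert, Finset.mem_filter, le_iff_eq_or_lt]
  exact ⟨fun h => h.2.imp id fun h => ⟨Finset.mem_univ _, h⟩,
    fun h => ⟨Finset.mem_univ _, h.imp id fun h => h.2⟩⟩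

private theorem A1_ex {α : Type} [Fintype α] [PartialOrder α]
    [DecidableRel ((· ≤ ·) : α → α → Prop)] (F : α → ℤ) :
    ∃ W : α → ℤ, ∀ a, ∑ b with b ≤ a, W b = F a := by
  classical
  have wf : WellFounded ((· < ·) : α → α → Prop) := wellFounded_lt
  let step : (a : α) → ((b : α) → b < a → ℤ) → ℤ := fun a ih =>
    F a - ∑ b : {b : α // b < a}, ih b.1 b.2
  refine ⟨wf.fix step, fun a => ?_⟩
  have h1 : wf.fix step a = F a - ∑ b : {b : α // b < a}, wf.fix step b.1 := by
    rw [WellFounded.fix_eq]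
  have h2 : ∑ b : {b : α // b < a}, wf.fix step b.1 = ∑ b with b < a, wf.fix step b := by
    refine (Finset.sum_subtype (p := fun b => b < a)
      (Finset.univ.filter fun b : α => b < a) ?_ (fun b => wf.fix step b)).symm
    intro b
    rw [Finset.mem_filter]
    exact ⟨fun h => h.2, fun h => ⟨Finset.mem_univ _, h⟩⟩
  rw [A1_split (wf.fix step) a, h1, h2]
  ring

private theorem A1_uniq {α : Type} [Fintype α] [PartialOrder α]
    [DecidableRel ((· ≤ ·) : α → α → Prop)] (F W W' : α → ℤ)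
    (h : ∀ a, ∑ b with b ≤ a, W b = F a) (h' : ∀ a, ∑ b with b ≤ a, W' b = F a) : W = W' := by
  classical
  have wf : WellFounded ((· < ·) : α → α → Prop) := wellFounded_lt
  funext a
  induction a using wf.induction with
  | _ a ih =>
    have h1 := h a
    have h2 := h' a
    rw [A1_split W a] at h1
    rw [A1_split W' a] at h2
    have h3 : ∑ b with b < a, W b = ∑ b with b < a, W' b :=
      Finset.sum_congr rfl fun b hb => ih b (Finset.mem_filter.1 hb).2
    linarith

theorem A1_exists (V : Type) [Fintype V] : ∃ w : Subgroup (G V) → ℤ, IsW w := by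
  classical
  unfold IsW
  exact A1_ex _

theorem A1_unique {V : Type} [Fintype V] (w w' : Subgroup (G V) → ℤ) (h : IsW w) (h' : IsW w') :
    w = w' := by
  classical
  unfold IsW at h h'
  exact A1_uniq _ w w' h h'

end Pool.Agent.MP_b5e4d4_co.AE
end

section

set_option autoImplicit false

/-!
# Task A2: the exact formula

`A2_zero`: by strong induction on `H` (`wellFounded_lt`): `∑ L ≤ H, w L = 0` and all other terms are `0`.
`A2_ind`: the sum over `L ≤ stab D` with `¬ L ≤ S V` is the sum over all `L ≤ stab D` (the other terms are `0` by `A2_zero`), which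
is `1` or `0`; `SC_iff`.
`A2_count`: sum `A2_ind` over `D` and exchange the sums; `W1_fix` (`FP/W1.lean`) with `κ = Bool`. Compare `W1_formula`, `W1_count`.
-/

namespace Pool.Agent.MP_b5e4d4_co.AE

open Equiv Pool.Agent.MP_b5e4d4_co.FP

theorem A2_zero {V : Type} [Fintype V] (w : Subgroup (G V) → ℤ) (hw : IsW w) (H : Subgroup (G V))
    (h : H ≤ S V) : w H = 0 := by
  classical
  have wf : WellFounded ((· < ·) : Subgroup (G V) → Subgroup (G V) → Prop) := wellFounded_lt
  induction H using wf.induction with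
  | _ H ih =>
    have h1 := hw H
    rw [if_pos h, Finset.sum_eq_single H] at h1
    · exact h1
    · intro L hL hne
      have hL' : L ≤ H := (Finset.mem_filter.1 hL).2
      exact ih L (lt_of_le_of_ne hL' hne) (hL'.trans h)
    · intro h2
      exact (h2 (Finset.mem_filter.2 ⟨Finset.mem_univ _, le_refl H⟩)).elim

theorem A2_ind {V : Type} [Fintype V] (w : Subgroup (G V) → ℤ) (hw : IsW w) (D : Arc V → Bool) :
    open scoped Classical in
    sumG (fun H : Subgroup (G V) => ¬ H ≤ S V ∧ H ≤ stab D) w = if SC D then 1 else 0 := by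
  classical
  have h1 := hw (stab D)
  have h2 : sumG (fun H : Subgroup (G V) => ¬ H ≤ S V ∧ H ≤ stab D) w = if stab D ≤ S V then 0 else 1 := by
    rw [← h1]
    unfold sumG
    refine Finset.sum_subset ?_ ?_
    · intro H hH
      simp only [Finset.mem_filter, Finset.mem_univ, true_and] at hH ⊢
      exact hH.2
    · intro H hH hH'
      simp only [Finset.mem_filter, Finset.mem_univ, true_and] at hH hH'
      refine A2_zero w hw H ?_
      by_contra h4
      exact hH' ⟨h4, hH⟩
  rw [h2]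
  by_cases h3 : SC D
  · rw [if_neg ((SC_iff D).1 h3), if_pos h3]
  · rw [if_pos (not_not.1 fun h4 => h3 ((SC_iff D).2 h4)), if_neg h3]

theorem A2_count {V : Type} [Fintype V] (w : Subgroup (G V) → ℤ) (hw : IsW w) :
    (Nat.card {D : Arc V → Bool // SC D} : ℤ) =
      sumG (fun H : Subgroup (G V) => ¬ H ≤ S V) fun H => w H * 2 ^ orb H := by
  classical
  have h1 : (Nat.card {D : Arc V → Bool // SC D} : ℤ) = ∑ D : Arc V → Bool, if SC D then 1 else 0 := by
    rw [Nat.card_eq_fintype_card, Fintype.card_subtype, Finset.card_filter]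
    push_cast
    rfl
  have h2 : ∀ D : Arc V → Bool, (if SC D then (1 : ℤ) else 0) =
      ∑ H : Subgroup (G V) with ¬ H ≤ S V, if H ≤ stab D then w H else 0 := by
    intro D
    have h3 := A2_ind w hw D
    unfold sumG at h3
    rw [← Finset.sum_filter, Finset.filter_filter]
    rw [← h3]
    refine Finset.sum_congr ?_ fun _ _ => rfl
    ext H
    simp only [Finset.mem_filter]
  rw [h1, Finset.sum_congr rfl fun D _ => h2 D, Finset.sum_comm]
  unfold sumG
  refine Finset.sum_congr ?_ fun H _ => ?_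
  · congr 1
  · rw [← Finset.sum_filter, Finset.sum_const, nsmul_eq_mul, mul_comm]
    congr 1
    have h4 := W1_fix (κ := Bool) H
    rw [Nat.card_eq_fintype_card, Fintype.card_subtype, Fintype.card_bool] at h4
    rw [h4]
    push_cast
    rfl

end Pool.Agent.MP_b5e4d4_co.AE
end

section

set_option autoImplicit false

/-!
# Task A3: the weights depend only on the group with the sign

`H ↦ H.map φ` is a bijection from the subgroups of `H` to the subgroups of `H.map φ` (inverse `L ↦ L.comap φ`: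
`(L.comap φ).map φ = L` for `L ≤ φ.range`, `Subgroup.map_comap_eq`, `Subgroup.comap_map_eq_self_of_injective`), and
`H.map φ ≤ S V ↔ H ≤ S V'` (the signs are kept). Strong induction on `H` (`wellFounded_lt`): in
`∑ L ≤ H.map φ, w L = ∑ L' ≤ H, w' L'` all terms with `L' ≠ H` agree (`Finset.sum_bij'` or `Finset.sum_nbij'`).
-/

namespace Pool.Agent.MP_b5e4d4_co.AE

open Equiv Pool.Agent.MP_b5e4d4_co.FP

theorem A3_le {V V' : Type} (φ : G V' →* G V) (hs : ∀ g, (φ g).2 = g.2) (H : Subgroup (G V')) :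
    H.map φ ≤ S V ↔ H ≤ S V' := by
  constructor
  · intro h g hg
    have h1 : (φ g).2 = 1 := h (Subgroup.mem_map_of_mem φ hg)
    show g.2 = 1
    rw [← hs g]
    exact h1
  · intro h
    rintro _ ⟨g, hg, rfl⟩
    show (φ g).2 = 1
    rw [hs]
    exact h hg

theorem A3 {V V' : Type} [Fintype V] [Fintype V'] (w : Subgroup (G V) → ℤ) (hw : IsW w)
    (w' : Subgroup (G V') → ℤ) (hw' : IsW w') (φ : G V' →* G V) (hφ : Function.Injective φ)
    (hs : ∀ g, (φ g).2 = g.2) (H : Subgroup (G V')) : w (H.map φ) = w' H := by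
  classical
  have wf : WellFounded ((· < ·) : Subgroup (G V') → Subgroup (G V') → Prop) := wellFounded_lt
  induction H using wf.induction with
  | _ H ih =>
    have h1 := hw (H.map φ)
    have h2 := hw' H
    have h3 : ∑ L : Subgroup (G V) with L ≤ H.map φ, w L = ∑ L : Subgroup (G V') with L ≤ H, w (L.map φ) := by
      refine (Finset.sum_nbij' (fun L : Subgroup (G V') => L.map φ) (fun L : Subgroup (G V) => L.comap φ)
        ?_ ?_ ?_ ?_ ?_).symm
      · intro L hL
        exact Finset.mem_filter.2 ⟨Finset.mem_univ _, Subgroup.map_mono (Finset.mem_filter.1 hL).2⟩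
      · intro L hL
        refine Finset.mem_filter.2 ⟨Finset.mem_univ _, ?_⟩
        have h4 := Subgroup.comap_mono (f := φ) (Finset.mem_filter.1 hL).2
        rwa [Subgroup.comap_map_eq_self_of_injective hφ] at h4
      · intro L _
        exact Subgroup.comap_map_eq_self_of_injective hφ L
      · intro L hL
        refine Subgroup.map_comap_eq_self ?_
        refine (Finset.mem_filter.1 hL).2.trans ?_
        rintro _ ⟨g, -, rfl⟩
        exact ⟨g, rfl⟩
      · intro L _
        rfl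
    have h4 : (if H.map φ ≤ S V then (0 : ℤ) else 1) = if H ≤ S V' then 0 else 1 := by
      by_cases h5 : H ≤ S V'
      · rw [if_pos h5, if_pos ((A3_le φ hs H).2 h5)]
      · rw [if_neg h5, if_neg fun h6 => h5 ((A3_le φ hs H).1 h6)]
    have h5 : ∑ L : Subgroup (G V') with L ≤ H, (w (L.map φ) - w' L) = 0 := by
      rw [Finset.sum_sub_distrib, ← h3, h1, h2, h4, sub_self]
    rw [Finset.sum_eq_single H] at h5
    · exact sub_eq_zero.1 h5
    · intro L hL hne
      rw [ih L (lt_of_le_of_ne (Finset.mem_filter.1 hL).2 hne), sub_self]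
    · intro h6
      exact (h6 (Finset.mem_filter.2 ⟨Finset.mem_univ _, le_refl H⟩)).elim

end Pool.Agent.MP_b5e4d4_co.AE
end

section

set_option autoImplicit false

/-!
# Task D2: invariance under a renaming of the points

`e : V ≃ V'` gives `G V ≃* G V'`, `(π, ε) ↦ (e.permCongr π, ε)` (`Equiv.Perm.permCongrHom` / `Equiv.permCongr`, `MulEquiv.prodCongr`), and
`H ↦ H.map` is a bijection of the subgroups (`MulEquiv.mapSubgroup` or `Subgroup.mapEquiv`) which keeps `w` (`A3`), `≤ S`, `Mv = univ`, `no` and `orb`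
(`Nat.card_congr` for the quotients; for `orb` one may also use `W1_fix` on both sides).
-/

namespace Pool.Agent.MP_b5e4d4_co.AE

open Equiv Pool.Agent.MP_b5e4d4_co.FP

/-- the renaming of the points as an isomorphism of the groups -/
def D2_eqv {V V' : Type} (e : V ≃ V') : G V ≃* G V' :=
  MulEquiv.prodCongr (Equiv.permCongrHom e) (MulEquiv.refl ℤˣ)

theorem D2_snd {V V' : Type} (e : V ≃ V') (g : G V) : (D2_eqv e g).2 = g.2 := rfl

theorem D2_fst {V V' : Type} (e : V ≃ V') (g : G V) (v : V) :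
    (D2_eqv e g).1 (e v) = e (g.1 v) := by
  show (Equiv.permCongr e g.1) (e v) = e (g.1 v)
  simp [Equiv.permCongr_apply]

/-- the renaming of the arcs -/
def D2_arc {V V' : Type} (e : V ≃ V') : Arc V ≃ Arc V' where
  toFun a := ⟨(e a.1.1, e a.1.2), fun h => a.2 (e.injective h)⟩
  invFun a := ⟨(e.symm a.1.1, e.symm a.1.2), fun h => a.2 (e.symm.injective h)⟩
  left_inv a := by
    refine Subtype.ext (Prod.ext ?_ ?_) <;> simp
  right_inv a := by
    refine Subtype.ext (Prod.ext ?_ ?_) <;> simp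

theorem D2_mv {V V' : Type} (e : V ≃ V') (g : G V) (a : Arc V) :
    mv (D2_eqv e g).1 (D2_arc e a) = D2_arc e (mv g.1 a) := by
  refine Subtype.ext (Prod.ext ?_ ?_)
  · exact D2_fst e g a.1.1
  · exact D2_fst e g a.1.2

theorem D2_smul {V V' : Type} (e : V ≃ V') (g : G V) (a : Arc V) :
    (D2_eqv e g) • (D2_arc e a) = D2_arc e (g • a) := by
  rw [FP.smul_def, FP.smul_def]
  unfold act
  rw [D2_snd, D2_mv]
  by_cases h : g.2 = 1
  · rw [if_pos h, if_pos h]
  · rw [if_neg h, if_neg h]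
    rfl

/-- the number of orbits is invariant -/
theorem D2_card {α β : Type} {A B : Type} [Group A] [Group B] [MulAction A α] [MulAction B β]
    (f : α ≃ β) (h : ∀ x y : α, x ∈ MulAction.orbit A y ↔ f x ∈ MulAction.orbit B (f y)) :
    Nat.card (MulAction.orbitRel.Quotient A α) = Nat.card (MulAction.orbitRel.Quotient B β) := by
  refine Nat.card_congr (Quotient.congr f ?_)
  intro x y
  exact h x y

theorem D2_mem {V V' : Type} (e : V ≃ V') (H : Subgroup (G V)) (g : G V) :
    D2_eqv e g ∈ H.map (D2_eqv e).toMonoidHom ↔ g ∈ H :=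
  Subgroup.mem_map_iff_mem (D2_eqv e).injective

theorem D2_inl {V V' : Type} (e : V ≃ V') (π : Perm V) :
    D2_eqv e (π, 1) = (Equiv.permCongr e π, 1) := rfl

theorem D2_no {V V' : Type} (e : V ≃ V') (H : Subgroup (G V)) :
    no (H.map (D2_eqv e).toMonoidHom) = no H := by
  refine (D2_card e ?_).symm
  intro x y
  rw [MulAction.mem_orbit_iff, MulAction.mem_orbit_iff]
  constructor
  · rintro ⟨⟨π, hπ⟩, h⟩
    refine ⟨⟨Equiv.permCongr e π, ?_⟩, ?_⟩
    · rw [mem_P0, ← D2_inl, D2_mem]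
      exact hπ
    · show (Equiv.permCongr e π) (e y) = e x
      have h' : π y = x := h
      rw [← h']
      simp [Equiv.permCongr_apply]
  · rintro ⟨⟨π, hπ⟩, h⟩
    obtain ⟨σ, rfl⟩ := (Equiv.permCongr e).surjective π
    refine ⟨⟨σ, ?_⟩, ?_⟩
    · rw [mem_P0, ← D2_inl, D2_mem] at hπ
      exact hπ
    · have h' : (Equiv.permCongr e σ) (e y) = e x := h
      show σ y = x
      apply e.injective
      rw [← h']
      simp [Equiv.permCongr_apply]

theorem D2_orb {V V' : Type} (e : V ≃ V') (H : Subgroup (G V)) :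
    orb (H.map (D2_eqv e).toMonoidHom) = orb H := by
  refine (D2_card (D2_arc e) ?_).symm
  intro x y
  rw [MulAction.mem_orbit_iff, MulAction.mem_orbit_iff]
  constructor
  · rintro ⟨⟨g, hg⟩, h⟩
    refine ⟨⟨D2_eqv e g, (D2_mem e H g).2 hg⟩, ?_⟩
    show (D2_eqv e g) • (D2_arc e y) = D2_arc e x
    have h' : g • y = x := h
    rw [D2_smul, h']
  · rintro ⟨⟨g, hg⟩, h⟩
    obtain ⟨k, rfl⟩ := (D2_eqv e).surjective g
    refine ⟨⟨k, (D2_mem e H k).1 hg⟩, ?_⟩
    have h' : (D2_eqv e k) • (D2_arc e y) = D2_arc e x := h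
    rw [D2_smul] at h'
    show k • y = x
    exact (D2_arc e).injective h'

theorem D2_Mv {V V' : Type} (e : V ≃ V') (H : Subgroup (G V)) :
    Mv (H.map (D2_eqv e).toMonoidHom) = Set.univ ↔ Mv H = Set.univ := by
  have key : ∀ v, e v ∈ Mv (H.map (D2_eqv e).toMonoidHom) ↔ v ∈ Mv H := by
    intro v
    constructor
    · rintro ⟨π, hπ, hne⟩
      obtain ⟨σ, rfl⟩ := (Equiv.permCongr e).surjective π
      rw [← D2_inl, D2_mem] at hπ
      refine ⟨σ, hπ, fun h => hne ?_⟩
      simp [Equiv.permCongr_apply, h]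
    · rintro ⟨π, hπ, hne⟩
      refine ⟨Equiv.permCongr e π, ?_, fun h => hne ?_⟩
      · rw [← D2_inl, D2_mem]
        exact hπ
      · apply e.injective
        simpa [Equiv.permCongr_apply] using h
  rw [Set.eq_univ_iff_forall, Set.eq_univ_iff_forall]
  constructor
  · intro h v
    exact (key v).1 (h (e v))
  · intro h v
    obtain ⟨u, rfl⟩ := e.surjective v
    exact (key u).2 (h u)

theorem D2 {V V' : Type} [Fintype V] [Fintype V'] (e : V ≃ V') (w : Subgroup (G V) → ℤ) (hw : IsW w)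
    (w' : Subgroup (G V') → ℤ) (hw' : IsW w') (o : ℕ) : gamV w o = gamV w' o := by
  classical
  unfold gamV
  refine Finset.sum_nbij' (fun H => H.map (D2_eqv e).toMonoidHom)
    (fun H => H.comap (D2_eqv e).toMonoidHom) ?_ ?_ ?_ ?_ ?_
  · intro H hH
    obtain ⟨_, h1, h2, h3⟩ := Finset.mem_filter.1 hH
    refine Finset.mem_filter.2 ⟨Finset.mem_univ _, ?_, (D2_Mv e H).2 h2, (D2_no e H).trans h3⟩
    rw [A3_le (D2_eqv e).toMonoidHom (D2_snd e) H]
    exact h1
  · intro H hH
    obtain ⟨_, h1, h2, h3⟩ := Finset.mem_filter.1 hH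
    have h4 : (H.comap (D2_eqv e).toMonoidHom).map (D2_eqv e).toMonoidHom = H :=
      Subgroup.map_comap_eq_self_of_surjective (D2_eqv e).surjective H
    refine Finset.mem_filter.2 ⟨Finset.mem_univ _, ?_, ?_, ?_⟩
    · rw [← A3_le (D2_eqv e).toMonoidHom (D2_snd e), h4]
      exact h1
    · rw [← D2_Mv e, h4]
      exact h2
    · rw [← D2_no e, h4]
      exact h3
  · intro H _
    exact Subgroup.comap_map_eq_self_of_injective (D2_eqv e).injective H
  · intro H _
    exact Subgroup.map_comap_eq_self_of_surjective (D2_eqv e).surjective H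
  · intro H _
    rw [D2_orb, A3 w' hw' w hw (D2_eqv e).toMonoidHom (D2_eqv e).injective (D2_snd e) H]

end Pool.Agent.MP_b5e4d4_co.AE
end

section

set_option autoImplicit false

/-!
# Task B2: moved points and orbits of an extended group

`phi p τ hτ : G {v // p v} →* G V` (file `Defs`, lemmas `phi_snd`, `phi_pos`, `phi_neg_one`, `phi_neg_neg`, `phi_inj`) extends
`(π, 1)` by the identity outside `p`, and `(π, -1)` by `τ`. The elements of `P0 (H'.map (phi p τ hτ))` are the extensions by the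
identity of the elements of `P0 H'`. So the points outside `p` are fixed, each is an orbit of its own, and the orbits of the points in
`p` are those of `P0 H'`.
`B2_no`: e.g. a bijection of the quotients: `orbitRel.Quotient (P0 (H'.map ..)) V ≃ orbitRel.Quotient (P0 H') {v // p v} ⊕ {v // ¬ p v}`.
-/

namespace Pool.Agent.MP_b5e4d4_co.AE

open Equiv Pool.Agent.MP_b5e4d4_co.FP

/-- an element of sign one of the image -/
private theorem B2_mem {V : Type} (p : V → Prop) [DecidablePred p] (τ : Perm {v // ¬ p v})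
    (hτ : τ * τ = 1) (H' : Subgroup (G {v // p v})) (π : Perm V) :
    (π, (1 : ℤˣ)) ∈ H'.map (phi p τ hτ) ↔ ∃ σ : Perm {v // p v}, (σ, (1 : ℤˣ)) ∈ H' ∧
      (∀ (v : V) (h : p v), π v = (σ ⟨v, h⟩ : V)) ∧ ∀ v : V, ¬ p v → π v = v := by
  constructor
  · intro h
    obtain ⟨g, hg, e⟩ := Subgroup.mem_map.1 h
    have h2 : g.2 = 1 := by
      rw [← phi_snd p τ hτ g, e]
    have h3 : g = (g.1, (1 : ℤˣ)) := Prod.ext rfl h2
    refine ⟨g.1, by rw [← h3]; exact hg, ?_, ?_⟩
    · intro v hv
      have := phi_pos p τ hτ g v hv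
      rw [e] at this
      exact this
    · intro v hv
      have := phi_neg_one p τ hτ g h2 v hv
      rw [e] at this
      exact this
  · rintro ⟨σ, hσ, h1, h2⟩
    refine Subgroup.mem_map.2 ⟨(σ, 1), hσ, ?_⟩
    refine Prod.ext ?_ rfl
    ext v
    by_cases hv : p v
    · rw [phi_pos p τ hτ _ v hv]
      exact (h1 v hv).symm
    · rw [phi_neg_one p τ hτ _ rfl v hv]
      exact (h2 v hv).symm

/-- every element of sign one extends -/
private theorem B2_ext {V : Type} (p : V → Prop) [DecidablePred p] (τ : Perm {v // ¬ p v})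
    (hτ : τ * τ = 1) (H' : Subgroup (G {v // p v})) (σ : Perm {v // p v})
    (hσ : (σ, (1 : ℤˣ)) ∈ H') :
    ∃ π : Perm V, (π, (1 : ℤˣ)) ∈ H'.map (phi p τ hτ) ∧
      (∀ (v : V) (h : p v), π v = (σ ⟨v, h⟩ : V)) ∧ ∀ v : V, ¬ p v → π v = v := by
  refine ⟨(phi p τ hτ (σ, 1)).1, ?_, ?_, ?_⟩
  · exact Subgroup.mem_map.2 ⟨(σ, 1), hσ, Prod.ext rfl rfl⟩
  · intro v hv
    exact phi_pos p τ hτ (σ, 1) v hv
  · intro v hv
    exact phi_neg_one p τ hτ (σ, 1) rfl v hv

theorem B2_Mv {V : Type} (p : V → Prop) [DecidablePred p] (τ : Perm {v // ¬ p v})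
    (hτ : τ * τ = 1) (H' : Subgroup (G {v // p v})) :
    Mv (H'.map (phi p τ hτ)) = Subtype.val '' Mv H' := by
  ext v
  constructor
  · rintro ⟨π, hπ, hne⟩
    obtain ⟨σ, hσ, h1, h2⟩ := (B2_mem p τ hτ H' π).1 hπ
    by_cases hv : p v
    · refine ⟨⟨v, hv⟩, ⟨σ, hσ, fun h => hne ?_⟩, rfl⟩
      rw [h1 v hv, h]
    · exact absurd (h2 v hv) hne
  · rintro ⟨⟨u, hu⟩, ⟨σ, hσ, hne⟩, rfl⟩
    obtain ⟨π, hπ, h1, _⟩ := B2_ext p τ hτ H' σ hσ
    refine ⟨π, hπ, fun h => hne (Subtype.ext ?_)⟩
    rw [← h1 u hu]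
    exact h

theorem B2_le {V : Type} (p : V → Prop) [DecidablePred p] (τ : Perm {v // ¬ p v})
    (hτ : τ * τ = 1) (H' : Subgroup (G {v // p v})) :
    H'.map (phi p τ hτ) ≤ S V ↔ H' ≤ S {v // p v} := by
  constructor
  · intro h g hg
    have h1 := h (Subgroup.mem_map_of_mem (phi p τ hτ) hg)
    exact h1
  · rintro h _ ⟨g, hg, rfl⟩
    exact h hg

theorem B2_no {V : Type} [Fintype V] (p : V → Prop) [DecidablePred p] (τ : Perm {v // ¬ p v})
    (hτ : τ * τ = 1) (H' : Subgroup (G {v // p v})) :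
    no (H'.map (phi p τ hτ)) = no H' + Nat.card {v // ¬ p v} := by
  classical
  let F : V → MulAction.orbitRel.Quotient (P0 H') {v // p v} ⊕ {v // ¬ p v} := fun v =>
    if h : p v then Sum.inl (Quotient.mk'' ⟨v, h⟩) else Sum.inr ⟨v, h⟩
  have F1 : ∀ (v : V) (h : p v), F v = Sum.inl (Quotient.mk'' ⟨v, h⟩) := fun v h => dif_pos h
  have F2 : ∀ (v : V) (h : ¬ p v), F v = Sum.inr ⟨v, h⟩ := fun v h => dif_neg h
  have hF : Function.Surjective F := by
    rintro (q | ⟨v, h⟩)
    · induction q using Quotient.inductionOn' with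
      | h x => exact ⟨x.1, F1 x.1 x.2⟩
    · exact ⟨v, F2 v h⟩
  have hK : MulAction.orbitRel (P0 (H'.map (phi p τ hτ))) V = Setoid.ker F := by
    ext v w
    rw [MulAction.orbitRel_apply, Setoid.ker_def]
    constructor
    · rintro ⟨⟨π, hπ⟩, e⟩
      have e' : π w = v := e
      obtain ⟨σ, hσ, h1, h2⟩ := (B2_mem p τ hτ H' π).1 hπ
      by_cases hw : p w
      · have h3 : (σ ⟨w, hw⟩ : V) = v := by rw [← h1 w hw, e']
        have hv : p v := by rw [← h3]; exact (σ ⟨w, hw⟩).2
        rw [F1 v hv, F1 w hw]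
        congr 1
        refine Quotient.sound' ?_
        show MulAction.orbitRel (P0 H') {v // p v} ⟨v, hv⟩ ⟨w, hw⟩
        rw [MulAction.orbitRel_apply]
        exact ⟨⟨σ, hσ⟩, Subtype.ext h3⟩
      · rw [h2 w hw] at e'
        rw [e']
    · intro h
      by_cases hv : p v
      · by_cases hw : p w
        · rw [F1 v hv, F1 w hw] at h
          have h3 := Quotient.exact' (Sum.inl_injective h)
          have h4 : (⟨v, hv⟩ : {v // p v}) ∈ MulAction.orbit (P0 H') (⟨w, hw⟩ : {v // p v}) := h3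
          obtain ⟨⟨σ, hσ⟩, e⟩ := h4
          obtain ⟨π, hπ, h1, _⟩ := B2_ext p τ hτ H' σ hσ
          refine ⟨⟨π, hπ⟩, ?_⟩
          show π w = v
          rw [h1 w hw]
          exact congrArg Subtype.val e
        · rw [F1 v hv, F2 w hw] at h
          exact absurd h (by simp)
      · by_cases hw : p w
        · rw [F2 v hv, F1 w hw] at h
          exact absurd h (by simp)
        · rw [F2 v hv, F2 w hw] at h
          have h3 := congrArg Subtype.val (Sum.inr_injective h)
          have h4 : v = w := h3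
          rw [h4]
          exact MulAction.mem_orbit_self w
  have e1 : no (H'.map (phi p τ hτ)) = Nat.card (Quotient (Setoid.ker F)) := by
    unfold no
    show Nat.card (Quotient (MulAction.orbitRel (P0 (H'.map (phi p τ hτ))) V)) = _
    rw [hK]
  rw [e1, Nat.card_congr (Setoid.quotientKerEquivOfSurjective F hF)]
  have : Finite (MulAction.orbitRel.Quotient (P0 H') {v // p v}) := Quotient.finite _
  rw [Nat.card_sum]
  rfl

end Pool.Agent.MP_b5e4d4_co.AE
end

section

set_option autoImplicit false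

/-!
# Task B3, B4: the groups with a given set of moved points

`B3`: `H'` has an element `g` of sign `-1`; its image is `phi p τ' hτ' g'` for some `g' ∈ H''`, again of sign `-1` (`phi_snd`). Outside `p`
the first is `τ` and the second is `τ'` (`phi_neg_neg`). So `τ = τ'`, and `H' = H''` as `phi` is injective (`Subgroup.map_injective`).

`B4`: let `g₀ ∈ H` have sign `-1`. If `g ∈ H` has sign `1`, then `g.1` is the identity outside `Mv H`; if it has sign `-1`, then
`g * g₀⁻¹ ∈ H` has sign `1`, so `g.1` and `g₀.1` agree outside `Mv H` once we know that `g₀.1` maps the complement of `Mv H` to itself: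
`Mv H` is invariant under all `g.1`, `g ∈ H` (if `(π, 1) ∈ H` moves `v` then `g (π, 1) g⁻¹ ∈ H` moves `g.1 v`). `g₀ * g₀` has sign `1`, so `g₀.1` is an
involution outside `Mv H`: let `τ` be `g₀.1` outside `p` (`Equiv.Perm.subtypePerm`). Put `H' = H.comap (phi p τ hτ)`. Every `g ∈ H` is
`phi p τ hτ g'` with `g' = (g.1 restricted to p, g.2)`, so `H ≤ range` and `H = (H.comap φ).map φ` (`Subgroup.map_comap_eq`).
`Mv H' = univ`: a point `v` of `p` is moved by some `(π, 1) ∈ H`, hence by its restriction.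
-/

namespace Pool.Agent.MP_b5e4d4_co.AE

open Equiv Pool.Agent.MP_b5e4d4_co.FP

theorem B3 {V : Type} (p : V → Prop) [DecidablePred p] (τ τ' : Perm {v // ¬ p v})
    (hτ : τ * τ = 1) (hτ' : τ' * τ' = 1) (H' H'' : Subgroup (G {v // p v}))
    (h : ¬ H' ≤ S {v // p v}) (e : H'.map (phi p τ hτ) = H''.map (phi p τ' hτ')) :
    H' = H'' ∧ τ = τ' := by
  obtain ⟨g, hg, hgS⟩ := SetLike.not_le_iff_exists.1 h
  have hg2 : g.2 = -1 := (Int.units_eq_one_or g.2).resolve_left hgS
  have h1 : phi p τ hτ g ∈ H'.map (phi p τ hτ) := Subgroup.mem_map_of_mem _ hg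
  rw [e] at h1
  obtain ⟨g', hg', he⟩ := Subgroup.mem_map.1 h1
  have hg2' : g'.2 = -1 := by
    rw [← phi_snd p τ' hτ' g', he, phi_snd, hg2]
  have hττ : τ = τ' := by
    ext ⟨v, hv⟩
    rw [← phi_neg_neg p τ hτ g hg2 v hv, ← he, phi_neg_neg p τ' hτ' g' hg2' v hv]
  subst hττ
  exact ⟨Subgroup.map_injective (phi_inj p τ hτ) e, rfl⟩

private theorem B3_ias {V : Type} (f : Perm V) (v : V) : f⁻¹ (f v) = v := f.symm_apply_apply v

private theorem B3_fix {V : Type} (H : Subgroup (G V)) (g : G V) (hg : g ∈ H) (hs : g.2 = 1) (v : V)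
    (hv : v ∉ Mv H) : g.1 v = v := by
  by_contra hne
  exact hv ⟨g.1, by rw [← hs]; exact hg, hne⟩

private theorem B3_inv {V : Type} (H : Subgroup (G V)) (g : G V) (hg : g ∈ H) (v : V)
    (hv : v ∈ Mv H) : g.1 v ∈ Mv H := by
  obtain ⟨π, hπ, hne⟩ := hv
  have h1 : g * (π, 1) * g⁻¹ ∈ H := H.mul_mem (H.mul_mem hg hπ) (H.inv_mem hg)
  have h2 : g * (π, 1) * g⁻¹ = (g.1 * π * g.1⁻¹, 1) := by
    refine Prod.ext ?_ ?_
    · rfl
    · show g.2 * 1 * g.2⁻¹ = 1
      rw [mul_one, mul_inv_cancel]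
  rw [h2] at h1
  refine ⟨g.1 * π * g.1⁻¹, h1, ?_⟩
  rw [Equiv.Perm.mul_apply, Equiv.Perm.mul_apply, B3_ias]
  exact fun h3 => hne (g.1.injective h3)

private theorem B3_inv_iff {V : Type} (H : Subgroup (G V)) (g : G V) (hg : g ∈ H) (v : V) :
    g.1 v ∈ Mv H ↔ v ∈ Mv H := by
  constructor
  · intro h
    have h1 := B3_inv H g⁻¹ (H.inv_mem hg) (g.1 v) h
    rw [Prod.fst_inv, B3_ias] at h1
    exact h1
  · exact B3_inv H g hg v

theorem B4 {V : Type} (H : Subgroup (G V)) (hH : ¬ H ≤ S V) (p : V → Prop) [DecidablePred p]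
    (hp : ∀ v, p v ↔ v ∈ Mv H) :
    ∃ (τ : Perm {v // ¬ p v}) (hτ : τ * τ = 1) (H' : Subgroup (G {v // p v})),
      H = H'.map (phi p τ hτ) ∧ Mv H' = Set.univ := by
  obtain ⟨g₀, hg₀, hgS⟩ := SetLike.not_le_iff_exists.1 hH
  have hg2 : g₀.2 = -1 := (Int.units_eq_one_or g₀.2).resolve_left hgS
  have hpg : ∀ g ∈ H, ∀ v, p (g.1 v) ↔ p v := fun g hg v => by
    rw [hp, hp]
    exact B3_inv_iff H g hg v
  have hng : ∀ v, ¬ p (g₀.1 v) ↔ ¬ p v := fun v => not_congr (hpg g₀ hg₀ v)
  have hsq : ∀ v, ¬ p v → g₀.1 (g₀.1 v) = v := fun v hv =>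
    B3_fix H (g₀ * g₀) (H.mul_mem hg₀ hg₀) (by
      rw [Prod.snd_mul, hg2]
      decide) v (fun h => hv ((hp v).2 h))
  have hτ : g₀.1.subtypePerm (p := fun v => ¬ p v) hng * g₀.1.subtypePerm (p := fun v => ¬ p v) hng = 1 := by
    ext ⟨v, hv⟩
    exact hsq v hv
  have key : ∀ (g : G V) (hg : g ∈ H), phi p _ hτ (g.1.subtypePerm (p := p) (hpg g hg), g.2) = g := by
    intro g hg
    refine Prod.ext ?_ (phi_snd p _ hτ _)
    ext v
    by_cases hv : p v
    · rw [phi_pos p _ hτ _ v hv]
      rfl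
    · have hvM : v ∉ Mv H := fun h => hv ((hp v).2 h)
      rcases Int.units_eq_one_or g.2 with h1 | h1
      · rw [phi_neg_one p _ hτ _ h1 v hv]
        exact (B3_fix H g hg h1 v hvM).symm
      · rw [phi_neg_neg p _ hτ _ h1 v hv]
        show g₀.1 v = g.1 v
        have h2 : g₀.1 v ∉ Mv H := fun h => hvM ((B3_inv_iff H g₀ hg₀ v).1 h)
        have h3 := B3_fix H (g * g₀⁻¹) (H.mul_mem hg (H.inv_mem hg₀)) (by
          rw [Prod.snd_mul, Prod.snd_inv, hg2, h1]
          decide) (g₀.1 v) h2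
        rw [Prod.fst_mul, Prod.fst_inv, Equiv.Perm.mul_apply, B3_ias] at h3
        exact h3.symm
  have hmap : ∀ (g : G V) (hg : g ∈ H), (g.1.subtypePerm (p := p) (hpg g hg), g.2) ∈ H.comap (phi p _ hτ) := by
    intro g hg
    rw [Subgroup.mem_comap, key g hg]
    exact hg
  refine ⟨_, hτ, H.comap (phi p _ hτ), ?_, ?_⟩
  · apply le_antisymm
    · intro g hg
      exact Subgroup.mem_map.2 ⟨_, hmap g hg, key g hg⟩
    · exact Subgroup.map_comap_le _ _
  · rw [Set.eq_univ_iff_forall]
    rintro ⟨v, hv⟩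
    obtain ⟨π, hπ, hne⟩ := (hp v).1 hv
    refine ⟨_, hmap (π, 1) hπ, ?_⟩
    intro h4
    exact hne (congrArg Subtype.val h4)

end Pool.Agent.MP_b5e4d4_co.AE
end

section

set_option autoImplicit false

/-!
# Task C1: the digraphs fixed by an extended group

`D : Arc V → Bool` fixed by `H'.map (phi p τ hτ)` corresponds to the triple `(D₁, E, D₃)`: `D₁` is `D` on the arcs inside `p`,
`E (m, f) = D (m → f)` (`p m`, `¬ p f`), `D₃` is `D` on the arcs outside `p`. Conversely fix `(π₀, -1) ∈ H'` and put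
`D (f → m) = E (π₀ m, τ f)`. (Uniqueness: `(π₀ ⊕ τ, -1)` maps `f → m` to `π₀ m → τ f`, `smul_neg`.) Invariance: `(π, -1) ∈ H'` maps `f → m` to `π m → τ f` and
`π = (π π₀⁻¹) π₀` with `(π π₀⁻¹, 1) ∈ H'`; it maps `m → f` to `τ f → π m` and `E (π₀ π m, τ τ f) = E (m, f)` as `(π₀ π, 1) ∈ H'`; `(π, 1) ∈ H'` maps
`f → m` to `f → π m` and `(π₀ π π₀⁻¹, 1) ∈ H'`. Use `Nat.card_congr`, `Nat.card_prod`.
-/

namespace Pool.Agent.MP_b5e4d4_co.AE

open Equiv Pool.Agent.MP_b5e4d4_co.FP

section C1aux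

variable {V : Type} (p : V → Prop) [DecidablePred p]

omit [DecidablePred p] in
private theorem C1_ne {m f : V} (hm : p m) (hf : ¬ p f) : m ≠ f := fun h => hf (h ▸ hm)

/-- an arc inside `q` -/
private def C1_in (q : V → Prop) (e : Arc {v // q v}) : Arc V :=
  ⟨(e.1.1.1, e.1.2.1), fun h => e.2 (Subtype.ext h)⟩

omit [DecidablePred p] in
/-- the arc from `m` to `f` -/
private def C1_mf (m : {v // p v}) (f : {v // ¬ p v}) : Arc V := ⟨(m.1, f.1), C1_ne p m.2 f.2⟩

omit [DecidablePred p] in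
/-- the arc from `f` to `m` -/
private def C1_fm (m : {v // p v}) (f : {v // ¬ p v}) : Arc V :=
  ⟨(f.1, m.1), fun h => C1_ne p m.2 f.2 h.symm⟩

omit [DecidablePred p] in
private theorem C1_cases (e : Arc V) : (∃ e', e = C1_in p e') ∨ (∃ m f, e = C1_mf p m f) ∨
    (∃ m f, e = C1_fm p m f) ∨ ∃ e', e = C1_in (fun v => ¬ p v) e' := by
  obtain ⟨⟨u, v⟩, h⟩ := e
  have h' : u ≠ v := h
  by_cases h1 : p u
  · by_cases h2 : p v
    · exact Or.inl ⟨⟨(⟨u, h1⟩, ⟨v, h2⟩), fun h3 => h' (congrArg Subtype.val h3)⟩, rfl⟩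
    · exact Or.inr (Or.inl ⟨⟨u, h1⟩, ⟨v, h2⟩, rfl⟩)
  · by_cases h2 : p v
    · exact Or.inr (Or.inr (Or.inl ⟨⟨v, h2⟩, ⟨u, h1⟩, rfl⟩))
    · exact Or.inr (Or.inr (Or.inr ⟨⟨(⟨u, h1⟩, ⟨v, h2⟩), fun h3 => h' (congrArg Subtype.val h3)⟩, rfl⟩))

/-- the digraph from its four parts -/
private def C1_glue (D₁ : Arc {v // p v} → Bool) (E F : {v // p v} → {v // ¬ p v} → Bool)
    (D₃ : Arc {v // ¬ p v} → Bool) : Arc V → Bool := fun e =>
  if h1 : p e.1.1 then
    if h2 : p e.1.2 then D₁ ⟨(⟨e.1.1, h1⟩, ⟨e.1.2, h2⟩), fun h3 => e.2 (congrArg Subtype.val h3)⟩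
    else E ⟨e.1.1, h1⟩ ⟨e.1.2, h2⟩
  else
    if h2 : p e.1.2 then F ⟨e.1.2, h2⟩ ⟨e.1.1, h1⟩
    else D₃ ⟨(⟨e.1.1, h1⟩, ⟨e.1.2, h2⟩), fun h3 => e.2 (congrArg Subtype.val h3)⟩

variable (D₁ : Arc {v // p v} → Bool) (E F : {v // p v} → {v // ¬ p v} → Bool)
    (D₃ : Arc {v // ¬ p v} → Bool)

private theorem C1_glue_A (e : Arc {v // p v}) : C1_glue p D₁ E F D₃ (C1_in p e) = D₁ e := by
  unfold C1_glue
  rw [dif_pos (show p (C1_in p e).1.1 from e.1.1.2), dif_pos (show p (C1_in p e).1.2 from e.1.2.2)]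
  rfl

private theorem C1_glue_mf (m : {v // p v}) (f : {v // ¬ p v}) :
    C1_glue p D₁ E F D₃ (C1_mf p m f) = E m f := by
  unfold C1_glue
  rw [dif_pos (show p (C1_mf p m f).1.1 from m.2), dif_neg (show ¬ p (C1_mf p m f).1.2 from f.2)]
  rfl

private theorem C1_glue_fm (m : {v // p v}) (f : {v // ¬ p v}) :
    C1_glue p D₁ E F D₃ (C1_fm p m f) = F m f := by
  unfold C1_glue
  rw [dif_neg (show ¬ p (C1_fm p m f).1.1 from f.2), dif_pos (show p (C1_fm p m f).1.2 from m.2)]
  rfl

private theorem C1_glue_B (e : Arc {v // ¬ p v}) :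
    C1_glue p D₁ E F D₃ (C1_in (fun v => ¬ p v) e) = D₃ e := by
  unfold C1_glue
  rw [dif_neg (show ¬ p (C1_in (fun v => ¬ p v) e).1.1 from e.1.1.2),
    dif_neg (show ¬ p (C1_in (fun v => ¬ p v) e).1.2 from e.1.2.2)]
  rfl

omit [DecidablePred p] in
private theorem C1_smul_one (g : G V) (hg : g.2 = 1) (e : Arc V) : g • e = mv g.1 e := by
  rw [FP.smul_def]
  unfold act
  rw [if_pos hg]

omit [DecidablePred p] in
private theorem C1_smul_neg (g : G V) (hg : g.2 = -1) (e : Arc V) : g • e = rev (mv g.1 e) := by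
  rw [FP.smul_def]
  unfold act
  rw [if_neg (by rw [hg]; decide)]

variable (τ : Perm {v // ¬ p v}) (hτ : τ * τ = 1) (π : Perm {v // p v})

private theorem C1_A1 (e : Arc {v // p v}) :
    phi p τ hτ (π, 1) • C1_in p e = C1_in p (mv π e) := by
  rw [C1_smul_one _ rfl]
  refine Subtype.ext (Prod.ext ?_ ?_)
  · exact phi_pos p τ hτ (π, 1) e.1.1.1 e.1.1.2
  · exact phi_pos p τ hτ (π, 1) e.1.2.1 e.1.2.2

private theorem C1_An (e : Arc {v // p v}) :
    phi p τ hτ (π, -1) • C1_in p e = C1_in p (rev (mv π e)) := by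
  rw [C1_smul_neg _ rfl]
  refine Subtype.ext (Prod.ext ?_ ?_)
  · exact phi_pos p τ hτ (π, -1) e.1.2.1 e.1.2.2
  · exact phi_pos p τ hτ (π, -1) e.1.1.1 e.1.1.2

private theorem C1_B1 (e : Arc {v // ¬ p v}) :
    phi p τ hτ (π, 1) • C1_in (fun v => ¬ p v) e = C1_in (fun v => ¬ p v) e := by
  rw [C1_smul_one _ rfl]
  refine Subtype.ext (Prod.ext ?_ ?_)
  · exact phi_neg_one p τ hτ (π, 1) rfl e.1.1.1 e.1.1.2
  · exact phi_neg_one p τ hτ (π, 1) rfl e.1.2.1 e.1.2.2

private theorem C1_Bn (e : Arc {v // ¬ p v}) :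
    phi p τ hτ (π, -1) • C1_in (fun v => ¬ p v) e = C1_in (fun v => ¬ p v) (rev (mv τ e)) := by
  rw [C1_smul_neg _ rfl]
  refine Subtype.ext (Prod.ext ?_ ?_)
  · exact phi_neg_neg p τ hτ (π, -1) rfl e.1.2.1 e.1.2.2
  · exact phi_neg_neg p τ hτ (π, -1) rfl e.1.1.1 e.1.1.2

private theorem C1_mf1 (m : {v // p v}) (f : {v // ¬ p v}) :
    phi p τ hτ (π, 1) • C1_mf p m f = C1_mf p (π m) f := by
  rw [C1_smul_one _ rfl]
  refine Subtype.ext (Prod.ext ?_ ?_)
  · exact phi_pos p τ hτ (π, 1) m.1 m.2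
  · exact phi_neg_one p τ hτ (π, 1) rfl f.1 f.2

private theorem C1_fm1 (m : {v // p v}) (f : {v // ¬ p v}) :
    phi p τ hτ (π, 1) • C1_fm p m f = C1_fm p (π m) f := by
  rw [C1_smul_one _ rfl]
  refine Subtype.ext (Prod.ext ?_ ?_)
  · exact phi_neg_one p τ hτ (π, 1) rfl f.1 f.2
  · exact phi_pos p τ hτ (π, 1) m.1 m.2

private theorem C1_mfn (m : {v // p v}) (f : {v // ¬ p v}) :
    phi p τ hτ (π, -1) • C1_mf p m f = C1_fm p (π m) (τ f) := by
  rw [C1_smul_neg _ rfl]
  refine Subtype.ext (Prod.ext ?_ ?_)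
  · exact phi_neg_neg p τ hτ (π, -1) rfl f.1 f.2
  · exact phi_pos p τ hτ (π, -1) m.1 m.2

private theorem C1_fmn (m : {v // p v}) (f : {v // ¬ p v}) :
    phi p τ hτ (π, -1) • C1_fm p m f = C1_mf p (π m) (τ f) := by
  rw [C1_smul_neg _ rfl]
  refine Subtype.ext (Prod.ext ?_ ?_)
  · exact phi_pos p τ hτ (π, -1) m.1 m.2
  · exact phi_neg_neg p τ hτ (π, -1) rfl f.1 f.2

/-- the glued digraph is fixed -/
private theorem C1_fix (H' : Subgroup (G {v // p v})) (π₀ : Perm {v // p v})
    (h0 : ((π₀, -1) : G {v // p v}) ∈ H') (h1 : H' ≤ stab D₁)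
    (hE : ∀ π ∈ P0 H', ∀ (m : {v // p v}) (f : {v // ¬ p v}), E (π m) f = E m f)
    (h3 : ∀ e, D₃ (rev (mv τ e)) = D₃ e) :
    H'.map (phi p τ hτ) ≤ stab (C1_glue p D₁ E (fun m f => E (π₀ m) (τ f)) D₃) := by
  have hττ : ∀ f, τ (τ f) = f := fun f => congrArg (fun g : Perm {v // ¬ p v} => g f) hτ
  rintro _ ⟨⟨π, ε⟩, hg, rfl⟩ e
  rcases Int.units_eq_one_or ε with rfl | rfl
  · rcases C1_cases p e with ⟨e, rfl⟩ | ⟨m, f, rfl⟩ | ⟨m, f, rfl⟩ | ⟨e, rfl⟩
    · rw [C1_A1, C1_glue_A, C1_glue_A]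
      have := h1 hg e
      rw [smul_one] at this
      exact this
    · rw [C1_mf1, C1_glue_mf, C1_glue_mf]
      exact hE π hg m f
    · rw [C1_fm1, C1_glue_fm, C1_glue_fm]
      have h4 : π₀ * π * π₀⁻¹ ∈ P0 H' := by
        have h5 := H'.mul_mem (H'.mul_mem h0 hg) (H'.inv_mem h0)
        have h6 : ((π₀, -1) : G {v // p v}) * (π, 1) * (π₀, -1)⁻¹ = (π₀ * π * π₀⁻¹, 1) :=
          Prod.ext rfl (by show (-1 : ℤˣ) * 1 * (-1)⁻¹ = 1; decide)
        rw [h6] at h5
        exact h5
      have h7 := hE _ h4 (π₀ m) (τ f)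
      have h8 : (π₀ * π * π₀⁻¹) (π₀ m) = π₀ (π m) := by
        simp [Perm.mul_apply]
      rw [h8] at h7
      exact h7
    · rw [C1_B1]
  · rcases C1_cases p e with ⟨e, rfl⟩ | ⟨m, f, rfl⟩ | ⟨m, f, rfl⟩ | ⟨e, rfl⟩
    · rw [C1_An, C1_glue_A, C1_glue_A]
      have := h1 hg e
      rw [smul_neg] at this
      exact this
    · rw [C1_mfn, C1_glue_fm, C1_glue_mf, hττ]
      have h4 : π₀ * π ∈ P0 H' := by
        have h5 := H'.mul_mem h0 hg
        have h6 : ((π₀, -1) : G {v // p v}) * (π, -1) = (π₀ * π, 1) :=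
          Prod.ext rfl (by show (-1 : ℤˣ) * (-1) = 1; decide)
        rw [h6] at h5
        exact h5
      exact hE _ h4 m f
    · rw [C1_fmn, C1_glue_mf, C1_glue_fm]
      have h4 : π * π₀⁻¹ ∈ P0 H' := by
        have h5 := H'.mul_mem hg (H'.inv_mem h0)
        have h6 : ((π, -1) : G {v // p v}) * (π₀, -1)⁻¹ = (π * π₀⁻¹, 1) :=
          Prod.ext rfl (by show (-1 : ℤˣ) * (-1)⁻¹ = 1; decide)
        rw [h6] at h5
        exact h5
      have h7 := hE _ h4 (π₀ m) (τ f)
      have h8 : (π * π₀⁻¹) (π₀ m) = π m := by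
        simp [Perm.mul_apply]
      rw [h8] at h7
      exact h7
    · rw [C1_Bn, C1_glue_B, C1_glue_B]
      exact h3 e

end C1aux

theorem C1 {V : Type} (p : V → Prop) [DecidablePred p] (τ : Perm {v // ¬ p v})
    (hτ : τ * τ = 1) (H' : Subgroup (G {v // p v})) (h : ¬ H' ≤ S {v // p v}) :
    Nat.card {D : Arc V → Bool // H'.map (phi p τ hτ) ≤ stab D} =
      Nat.card {D : Arc {v // p v} → Bool // H' ≤ stab D} *
        (Nat.card {E : {v // p v} × {v // ¬ p v} → Bool //
            ∀ π ∈ P0 H', ∀ (m : {v // p v}) (f : {v // ¬ p v}), E (π m, f) = E (m, f)} *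
          Nat.card {D : Arc {v // ¬ p v} → Bool // ∀ e, D (rev (mv τ e)) = D e}) := by
  obtain ⟨π₀, h0⟩ : ∃ π₀ : Perm {v // p v}, ((π₀, -1) : G {v // p v}) ∈ H' := by
    rw [SetLike.not_le_iff_exists] at h
    obtain ⟨⟨π, a⟩, hg, hg2⟩ := h
    rcases Int.units_eq_one_or a with rfl | rfl
    · exact absurd (show ((π, 1) : G {v // p v}).2 = 1 from rfl) hg2
    · exact ⟨π, hg⟩
  rw [← Nat.card_prod, ← Nat.card_prod]
  refine Nat.card_congr
    { toFun := fun D => (⟨fun e => D.1 (C1_in p e), fun g hg e => ?_⟩,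
        (⟨fun x => D.1 (C1_mf p x.1 x.2), fun π hπ m f => ?_⟩,
          ⟨fun e => D.1 (C1_in (fun v => ¬ p v) e), fun e => ?_⟩))
      invFun := fun x => ⟨C1_glue p x.1.1 (fun m f => x.2.1.1 (m, f))
        (fun m f => x.2.1.1 (π₀ m, τ f)) x.2.2.1,
        C1_fix p x.1.1 (fun m f => x.2.1.1 (m, f)) x.2.2.1 τ hτ H' π₀ h0 x.1.2 x.2.1.2 x.2.2.2⟩
      left_inv := fun D => ?_
      right_inv := fun x => ?_ }
  · obtain ⟨π, ε⟩ := g
    have h1 := D.2 ⟨(π, ε), hg, rfl⟩ (C1_in p e)
    rcases Int.units_eq_one_or ε with rfl | rfl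
    · rw [C1_A1] at h1
      rw [smul_one]
      exact h1
    · rw [C1_An] at h1
      rw [smul_neg]
      exact h1
  · have h1 := D.2 ⟨(π, 1), hπ, rfl⟩ (C1_mf p m f)
    rw [C1_mf1] at h1
    exact h1
  · have h1 := D.2 ⟨(π₀, -1), h0, rfl⟩ (C1_in (fun v => ¬ p v) e)
    rw [C1_Bn] at h1
    exact h1
  · refine Subtype.ext (funext fun e => ?_)
    rcases C1_cases p e with ⟨e, rfl⟩ | ⟨m, f, rfl⟩ | ⟨m, f, rfl⟩ | ⟨e, rfl⟩
    · exact C1_glue_A p (fun e => D.1 (C1_in p e)) (fun m f => D.1 (C1_mf p m f))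
        (fun m f => D.1 (C1_mf p (π₀ m) (τ f))) (fun e => D.1 (C1_in (fun v => ¬ p v) e)) e
    · exact C1_glue_mf p (fun e => D.1 (C1_in p e)) (fun m f => D.1 (C1_mf p m f))
        (fun m f => D.1 (C1_mf p (π₀ m) (τ f))) (fun e => D.1 (C1_in (fun v => ¬ p v) e)) m f
    · refine (C1_glue_fm p (fun e => D.1 (C1_in p e)) (fun m f => D.1 (C1_mf p m f))
        (fun m f => D.1 (C1_mf p (π₀ m) (τ f))) (fun e => D.1 (C1_in (fun v => ¬ p v) e)) m f).trans ?_
      have h1 := D.2 ⟨(π₀, -1), h0, rfl⟩ (C1_fm p m f)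
      rw [C1_fmn] at h1
      exact h1
    · exact C1_glue_B p (fun e => D.1 (C1_in p e)) (fun m f => D.1 (C1_mf p m f))
        (fun m f => D.1 (C1_mf p (π₀ m) (τ f))) (fun e => D.1 (C1_in (fun v => ¬ p v) e)) e
  · refine Prod.ext ?_ (Prod.ext ?_ ?_)
    · exact Subtype.ext (funext fun e => C1_glue_A p x.1.1 (fun m f => x.2.1.1 (m, f))
        (fun m f => x.2.1.1 (π₀ m, τ f)) x.2.2.1 e)
    · exact Subtype.ext (funext fun e => C1_glue_mf p x.1.1 (fun m f => x.2.1.1 (m, f))
        (fun m f => x.2.1.1 (π₀ m, τ f)) x.2.2.1 e.1 e.2)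
    · exact Subtype.ext (funext fun e => C1_glue_B p x.1.1 (fun m f => x.2.1.1 (m, f))
        (fun m f => x.2.1.1 (π₀ m, τ f)) x.2.2.1 e)

end Pool.Agent.MP_b5e4d4_co.AE
end

section

set_option autoImplicit false

/-!
# Task C2: counting invariant functions

`E` is a function on `orbitRel.Quotient P X × Y` (`Quotient.lift`; compare the proof of `W1_fix` in `FP/W1.lean`).
-/

namespace Pool.Agent.MP_b5e4d4_co.AE

open Equiv Pool.Agent.MP_b5e4d4_co.FP

theorem C2 {X Y : Type} [Fintype X] [Fintype Y] (P : Subgroup (Perm X)) :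
    Nat.card {E : X × Y → Bool // ∀ π ∈ P, ∀ (m : X) (f : Y), E (π m, f) = E (m, f)} =
      2 ^ (Nat.card (MulAction.orbitRel.Quotient P X) * Nat.card Y) := by
  have key : {E : X × Y → Bool // ∀ π ∈ P, ∀ (m : X) (f : Y), E (π m, f) = E (m, f)} ≃
      (MulAction.orbitRel.Quotient P X × Y → Bool) :=
    { toFun := fun E q => Quotient.lift (fun m => E.1 (m, q.2)) (by
        intro a b hab
        have hab' : a ∈ MulAction.orbit P b := hab
        obtain ⟨π, hπ⟩ := hab'
        have h1 : (π : Perm X) b = a := hπ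
        have h2 := E.2 (π : Perm X) π.2 b q.2
        rw [h1] at h2
        exact h2) q.1
      invFun := fun F => ⟨fun p => F (Quotient.mk _ p.1, p.2), by
        intro π hπ m f
        have h1 : (Quotient.mk (MulAction.orbitRel P X) (π m)) =
            Quotient.mk (MulAction.orbitRel P X) m :=
          Quotient.sound ⟨(⟨π, hπ⟩ : P), rfl⟩
        exact congrArg (fun q => F (q, f)) h1⟩
      left_inv := fun E => Subtype.ext rfl
      right_inv := fun F => by
        funext q
        obtain ⟨q1, q2⟩ := q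
        induction q1 using Quotient.inductionOn
        rfl }
  have hfin : Finite (MulAction.orbitRel.Quotient P X) := Quotient.finite _
  rw [Nat.card_congr key, Nat.card_fun, Nat.card_prod]
  simp

end Pool.Agent.MP_b5e4d4_co.AE
end

section

set_option autoImplicit false

/-!
# Task C3: functions invariant under a reversing involution

`ι e = rev (mv τ e)` is an involution of `Arc F`, and the functions with `D ∘ ι = D` are the functions on the pairs `{e, ι e}`. There are
`n (n - 1)` arcs (`n = card F`) and `ι` fixes exactly the arcs `(u, τ u)`, `τ u ≠ u`. So the number of classes is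
`(n (n - 1) + supp) / 2 = n.choose 2 + supp / 2` (both summands are even: the support of an involution is even). E.g. with
`W1_fix (Subgroup.zpowers ((τ, -1) : G F))` and Burnside (`MulAction.sum_card_fixedBy_eq_card_orbits_mul_card_group`), or directly.
-/

namespace Pool.Agent.MP_b5e4d4_co.AE

open Equiv Pool.Agent.MP_b5e4d4_co.FP

private theorem C3_arc {F : Type} [Fintype F] : Nat.card (Arc F) = 2 * (Nat.card F).choose 2 := by
  classical
  have h1 : Nat.card (Arc F) = (Finset.univ : Finset F).offDiag.card := by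
    rw [Nat.card_eq_fintype_card, Fintype.card_subtype]
    congr 1
    ext e
    simp [Finset.mem_offDiag]
  rw [h1, Finset.offDiag_card, Finset.card_univ, Nat.card_eq_fintype_card, Nat.choose_two_right]
  have h2 : 2 ∣ Fintype.card F * (Fintype.card F - 1) := (Nat.even_mul_pred_self _).two_dvd
  rw [Nat.mul_div_cancel' h2, Nat.mul_sub_one]

private theorem C3_fix {F : Type} [Fintype F] (τ : Perm F) (hτ : τ * τ = 1) :
    Nat.card {e : Arc F // rev (mv τ e) = e} = Nat.card {v // τ v ≠ v} := by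
  have hinv : ∀ v, τ (τ v) = v := fun v => by
    have := congrArg (fun f : Perm F => f v) hτ
    simpa using this
  refine Nat.card_congr
    { toFun := fun e => ⟨e.1.1.1, ?_⟩
      invFun := fun v => ⟨⟨(v.1, τ v.1), fun h => v.2 h.symm⟩, ?_⟩
      left_inv := ?_
      right_inv := ?_ }
  · have h1 : τ e.1.1.1 = e.1.1.2 := congrArg (fun x : Arc F => x.1.2) e.2
    rw [h1]
    exact fun h => e.1.2 h.symm
  · apply Subtype.ext
    show (τ (τ v.1), τ v.1) = (v.1, τ v.1)
    rw [hinv]
  · intro e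
    have h1 : τ e.1.1.1 = e.1.1.2 := congrArg (fun x : Arc F => x.1.2) e.2
    apply Subtype.ext
    apply Subtype.ext
    show (e.1.1.1, τ e.1.1.1) = e.1.1
    rw [h1]
  · intro v
    rfl

private theorem C3_orb {F : Type} [Fintype F] (τ : Perm F) (hτ : τ * τ = 1) :
    2 * (Nat.card F).choose 2 + Nat.card {v // τ v ≠ v} =
      2 * orb (Subgroup.zpowers ((τ, -1) : G F)) := by
  classical
  set g : G F := (τ, -1) with hg
  have hgg : g * g = 1 := by
    rw [hg, Prod.mk_mul_mk, hτ]
    simp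
  have hg1 : g ≠ 1 := by
    intro h
    have h2 : (-1 : ℤˣ) = 1 := congrArg (fun x : G F => x.2) h
    exact absurd h2 (by decide)
  set K := Subgroup.zpowers g with hK
  have hgK : g ∈ K := Subgroup.mem_zpowers g
  have hmem : ∀ x : K, x = 1 ∨ x = ⟨g, hgK⟩ := by
    rintro ⟨x, hx⟩
    obtain ⟨k, rfl⟩ := Subgroup.mem_zpowers_iff.1 hx
    rcases Int.even_or_odd' k with ⟨l, hl | hl⟩
    · left
      apply Subtype.ext
      show g ^ k = 1
      rw [hl, zpow_mul, zpow_ofNat, pow_two, hgg, one_zpow]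
    · right
      apply Subtype.ext
      show g ^ k = g
      rw [hl, zpow_add, zpow_mul, zpow_ofNat, pow_two, hgg, one_zpow, zpow_one, one_mul]
  have huniv : (Finset.univ : Finset K) = {1, ⟨g, hgK⟩} := by
    ext x
    simp only [Finset.mem_univ, Finset.mem_insert, Finset.mem_singleton, true_iff]
    exact hmem x
  have hne : (1 : K) ≠ ⟨g, hgK⟩ := fun h => hg1 (congrArg (fun x : K => (x : G F)) h).symm
  have hB := MulAction.sum_card_fixedBy_eq_card_orbits_mul_card_group K (Arc F)
  have hcard : Fintype.card K = 2 := by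
    rw [← Finset.card_univ, huniv, Finset.card_pair hne]
  rw [hcard, huniv, Finset.sum_pair hne] at hB
  have h1 : Fintype.card (MulAction.fixedBy (Arc F) (1 : K)) = 2 * (Nat.card F).choose 2 := by
    rw [← C3_arc, ← Nat.card_eq_fintype_card]
    refine Nat.card_congr ⟨fun e => e.1, fun e => ⟨e, ?_⟩, fun e => rfl, fun e => rfl⟩
    rw [MulAction.mem_fixedBy]
    exact one_smul _ e
  have h2 : Fintype.card (MulAction.fixedBy (Arc F) (⟨g, hgK⟩ : K)) =
      Nat.card {v // τ v ≠ v} := by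
    rw [← C3_fix τ hτ, ← Nat.card_eq_fintype_card]
    refine Nat.card_congr ⟨fun e => ⟨e.1, ?_⟩, fun e => ⟨e.1, ?_⟩, fun e => rfl, fun e => rfl⟩
    · have h3 := e.2
      rw [MulAction.mem_fixedBy] at h3
      have h4 : g • e.1 = e.1 := h3
      exact (FP.smul_neg τ e.1).symm.trans h4
    · rw [MulAction.mem_fixedBy]
      show g • e.1 = e.1
      exact (FP.smul_neg τ e.1).trans e.2
  rw [h1, h2] at hB
  have h3 : orb K = Fintype.card (MulAction.orbitRel.Quotient K (Arc F)) := by
    unfold orb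
    rw [Nat.card_eq_fintype_card]
  rw [h3, hB, mul_comm]

theorem C3 {F : Type} [Fintype F] (τ : Perm F) (hτ : τ * τ = 1) :
    Nat.card {D : Arc F → Bool // ∀ e, D (rev (mv τ e)) = D e} =
      2 ^ ((Nat.card F).choose 2 + Nat.card {v // τ v ≠ v} / 2) := by
  classical
  have h0 := W1_fix (κ := Bool) (Subgroup.zpowers ((τ, -1) : G F))
  have h1 : Nat.card {D : Arc F → Bool // ∀ e, D (rev (mv τ e)) = D e} =
      Nat.card {D : Arc F → Bool // Subgroup.zpowers ((τ, -1) : G F) ≤ stab D} := by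
    refine Nat.card_congr (Equiv.subtypeEquivRight fun D => ?_)
    rw [Subgroup.zpowers_le]
    refine forall_congr' fun e => ?_
    rw [FP.smul_neg]
  have h2 := C3_orb τ hτ
  rw [h1, h0, Fintype.card_bool]
  congr 1
  omega

end Pool.Agent.MP_b5e4d4_co.AE
end

section

set_option autoImplicit false

/-!
# Task C4: the number of orbits of an extended group on the arcs

`W1_fix` (`FP/W1.lean`, `κ = Bool`) for `H'.map (phi p τ hτ)` and for `H'`, `C1`, `C2` (with `P = P0 H'`), `C3`; powers of 2 are equal only if the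
exponents are (`Nat.pow_right_injective`).
-/

namespace Pool.Agent.MP_b5e4d4_co.AE

open Equiv Pool.Agent.MP_b5e4d4_co.FP

theorem C4 {V : Type} [Fintype V] (p : V → Prop) [DecidablePred p] (τ : Perm {v // ¬ p v})
    (hτ : τ * τ = 1) (H' : Subgroup (G {v // p v})) (h : ¬ H' ≤ S {v // p v}) :
    orb (H'.map (phi p τ hτ)) =
      orb H' + no H' * Nat.card {v // ¬ p v} + (Nat.card {v // ¬ p v}).choose 2 +
        Nat.card {v // τ v ≠ v} / 2 := by
  classical
  have e1 := C1 p τ hτ H' h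
  have e2 := W1_fix (κ := Bool) (H'.map (phi p τ hτ))
  have e3 := W1_fix (κ := Bool) H'
  have e4 := C2 (X := {v // p v}) (Y := {v // ¬ p v}) (P0 H')
  have e5 := C3 τ hτ
  rw [e2, e3, e4, e5, Fintype.card_bool, ← pow_add, ← pow_add] at e1
  have e6 := Nat.pow_right_injective (le_refl 2) e1
  unfold no
  omega

end Pool.Agent.MP_b5e4d4_co.AE
end

section

set_option autoImplicit false

/-!
# Task D1: the weighted number of involutions

There are `n! / (2 ^ k k! (n - 2 k)!)` permutations with `τ * τ = 1` and `k` 2-cycles (`Equiv.Perm.card_of_cycleType` with the multiset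
`Multiset.replicate k 2`, and `τ * τ = 1` iff `τ.cycleType = Multiset.replicate k 2` for some `k`, e.g.
`Equiv.Perm.cycleType_of_pow_prime_eq_one`; `τ.support.card = 2 k` is `Equiv.Perm.sum_cycleType`). So the sum of `2 ^ k` is `a n`.
Divisions: `k! (n - 2 k)! 2 ^ k` divides `n!`.
Alternatively prove the recurrence `x (n + 2) = x (n + 1) + 2 (n + 1) x n` for both sides (for `a` see task E13).
-/

namespace Pool.Agent.MP_b5e4d4_co.AE

open Equiv Pool.Agent.MP_b5e4d4_co.FP

theorem D1 (F : Type) [Fintype F] :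
    open scoped Classical in
    ∑ τ : Perm F with τ * τ = 1, 2 ^ (Nat.card {v // τ v ≠ v} / 2) = a (Nat.card F) := by
  classical
  have hct : ∀ τ : Perm F, τ * τ = 1 →
      τ.cycleType = Multiset.replicate (Multiset.card τ.cycleType) 2 := by
    intro τ h
    have : Fact (Nat.Prime 2) := ⟨Nat.prime_two⟩
    exact Equiv.Perm.cycleType_of_pow_prime_eq_one (p := 2) (by rw [pow_two]; exact h)
  have hct2 : ∀ (τ : Perm F) (k : ℕ), τ.cycleType = Multiset.replicate k 2 → τ * τ = 1 := by
    intro τ k h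
    have : Fact (Nat.Prime 2) := ⟨Nat.prime_two⟩
    have h2 : τ ^ 2 = 1 := by
      rw [Equiv.Perm.pow_prime_eq_one_iff]
      intro c hc
      rw [h] at hc
      exact Multiset.eq_of_mem_replicate hc
    rw [pow_two] at h2
    exact h2
  have hsup : ∀ τ : Perm F, τ * τ = 1 → τ.support.card = 2 * Multiset.card τ.cycleType := by
    intro τ h
    have h1 := Equiv.Perm.sum_cycleType τ
    rw [← h1]
    conv_lhs => rw [hct τ h]
    rw [Multiset.sum_replicate, smul_eq_mul, mul_comm]
  have hmv : ∀ τ : Perm F, Nat.card {v // τ v ≠ v} = τ.support.card := by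
    intro τ
    rw [Nat.card_eq_fintype_card, Fintype.card_subtype]
    rfl
  have hmaps : ∀ τ ∈ Finset.univ.filter (fun τ : Perm F => τ * τ = 1),
      Multiset.card τ.cycleType ∈ Finset.range (Nat.card F / 2 + 1) := by
    intro τ hτ
    have h1 := hsup τ (Finset.mem_filter.mp hτ).2
    have h2 : τ.support.card ≤ Nat.card F := by
      rw [Nat.card_eq_fintype_card]
      exact Finset.card_le_univ _
    rw [Finset.mem_range]
    omega
  rw [← Finset.sum_fiberwise_of_maps_to hmaps]
  unfold a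
  refine Finset.sum_congr rfl fun k hk => ?_
  rw [Finset.mem_range] at hk
  have hle : 2 * k ≤ Nat.card F := by omega
  have hset : ((Finset.univ.filter (fun τ : Perm F => τ * τ = 1)).filter
      fun τ => Multiset.card τ.cycleType = k) =
      Finset.univ.filter (fun τ : Perm F => τ.cycleType = Multiset.replicate k 2) := by
    ext τ
    simp only [Finset.mem_filter, Finset.mem_univ, true_and]
    constructor
    · rintro ⟨h1, h2⟩
      have h3 := hct τ h1
      rw [h2] at h3
      exact h3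
    · intro h
      refine ⟨hct2 τ k h, ?_⟩
      rw [h, Multiset.card_replicate]
  have hterm : ∀ τ ∈ ((Finset.univ.filter (fun τ : Perm F => τ * τ = 1)).filter
      fun τ => Multiset.card τ.cycleType = k), 2 ^ (Nat.card {v // τ v ≠ v} / 2) = 2 ^ k := by
    intro τ hτ
    obtain ⟨h1, h2⟩ := Finset.mem_filter.mp hτ
    have h3 := hsup τ (Finset.mem_filter.mp h1).2
    rw [hmv, h3, h2]
    congr 1
    omega
  rw [Finset.sum_congr rfl hterm, Finset.sum_const, smul_eq_mul, hset]
  have hc := Equiv.Perm.card_of_cycleType_mul_eq F (Multiset.replicate k 2)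
  have hcond : (Multiset.replicate k 2).sum ≤ Fintype.card F ∧
      ∀ b ∈ Multiset.replicate k 2, 2 ≤ b := by
    constructor
    · rw [Multiset.sum_replicate, smul_eq_mul, ← Nat.card_eq_fintype_card]
      omega
    · intro b hb
      rw [Multiset.eq_of_mem_replicate hb]
  rw [if_pos hcond] at hc
  have hprod : ∏ n ∈ (Multiset.replicate k 2).toFinset,
      ((Multiset.replicate k 2).count n).factorial = k.factorial := by
    rcases Nat.eq_zero_or_pos k with h0 | h0
    · subst h0
      simp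
    · rw [Multiset.toFinset_replicate, if_neg (by omega), Finset.prod_singleton,
        Multiset.count_replicate_self]
  rw [hprod, Multiset.sum_replicate, Multiset.prod_replicate, smul_eq_mul,
    ← Nat.card_eq_fintype_card, mul_comm k 2] at hc
  symm
  apply Nat.div_eq_of_eq_mul_left
  · exact Nat.mul_pos (Nat.factorial_pos _) (Nat.factorial_pos _)
  · rw [← hc]
    ring

end Pool.Agent.MP_b5e4d4_co.AE
end

section

set_option autoImplicit false

/-!
# Task D3a: the groups with a given set of moved points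

The map `(H', τ) ↦ H'.map (phi p τ hτ)` is a bijection from the pairs (`¬ H' ≤ S`, `Mv H' = univ`, `τ * τ = 1`) to the `H` on the left (`B4`
surjective, `B3` injective, `B2_Mv`, `B2_le`; `Finset.sum_bij'` or `Finset.sum_nbij` over a product / sigma finset). For it
`w H = w' H'` (`A3`, `phi_inj`, `phi_snd`), `no H = no H' + card` (`B2_no`), `orb H = ..` (`C4`). The sum over `τ` is `D1`.
-/

namespace Pool.Agent.MP_b5e4d4_co.AE

open Equiv Pool.Agent.MP_b5e4d4_co.FP

open scoped Classical in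
private theorem D3a_sumG {V : Type} [Fintype V] (P : Subgroup (G V) → Prop) [h : DecidablePred P]
    (f : Subgroup (G V) → ℤ) : sumG P f = ∑ H ∈ Finset.univ.filter P, f H := by
  unfold sumG
  refine Finset.sum_congr ?_ fun _ _ => rfl
  ext H
  simp only [Finset.mem_filter, Finset.mem_univ, true_and]

theorem D3a {V : Type} [Fintype V] (p : V → Prop) [DecidablePred p] (w : Subgroup (G V) → ℤ)
    (hw : IsW w) (w' : Subgroup (G {v // p v}) → ℤ) (hw' : IsW w') (f : ℕ → ℤ) :
    sumG (fun H : Subgroup (G V) => ¬ H ≤ S V ∧ ∀ v, v ∈ Mv H ↔ p v)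
        (fun H => w H * 2 ^ orb H * f (no H)) =
      sumG (fun H' : Subgroup (G {v // p v}) => ¬ H' ≤ S {v // p v} ∧ Mv H' = Set.univ)
        fun H' => w' H' * 2 ^ orb H' *
          (2 ^ (no H' * Nat.card {v // ¬ p v} + (Nat.card {v // ¬ p v}).choose 2) *
            (a (Nat.card {v // ¬ p v}) : ℤ) * f (no H' + Nat.card {v // ¬ p v})) := by
  classical
  rw [D3a_sumG, D3a_sumG]
  have hD : (a (Nat.card {v // ¬ p v}) : ℤ) =
      ∑ τ : Perm {v // ¬ p v} with τ * τ = 1, (2 : ℤ) ^ (Nat.card {v // τ v ≠ v} / 2) := by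
    have h1 := D1 {v // ¬ p v}
    rw [← h1]
    push_cast
    refine Finset.sum_congr ?_ fun _ _ => rfl
    ext τ
    simp
  have hR : ∀ H' : Subgroup (G {v // p v}),
      w' H' * 2 ^ orb H' *
          (2 ^ (no H' * Nat.card {v // ¬ p v} + (Nat.card {v // ¬ p v}).choose 2) *
            (a (Nat.card {v // ¬ p v}) : ℤ) * f (no H' + Nat.card {v // ¬ p v})) =
      ∑ τ : Perm {v // ¬ p v} with τ * τ = 1, w' H' * 2 ^ (orb H' +
          no H' * Nat.card {v // ¬ p v} + (Nat.card {v // ¬ p v}).choose 2 +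
            Nat.card {v // τ v ≠ v} / 2) * f (no H' + Nat.card {v // ¬ p v}) := by
    intro H'
    rw [hD, Finset.mul_sum, Finset.sum_mul, Finset.mul_sum]
    refine Finset.sum_congr rfl fun τ _ => ?_
    ring
  rw [Finset.sum_congr rfl fun H' _ => hR H', ← Finset.sum_product']
  symm
  refine Finset.sum_bij (fun x hx => x.1.map (phi p x.2 (by
    rw [Finset.mem_product, Finset.mem_filter, Finset.mem_filter] at hx
    exact hx.2.2))) ?_ ?_ ?_ ?_
  · rintro ⟨H', τ⟩ hx
    rw [Finset.mem_product, Finset.mem_filter, Finset.mem_filter] at hx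
    have h1 := hx.1.2
    simp only [Finset.mem_filter, Finset.mem_univ, true_and]
    refine ⟨?_, ?_⟩
    · rw [B2_le]
      exact h1.1
    · intro v
      rw [B2_Mv, h1.2]
      simp
  · rintro ⟨H', τ⟩ hx ⟨H'', τ'⟩ hy e
    rw [Finset.mem_product, Finset.mem_filter, Finset.mem_filter] at hx
    obtain ⟨h2, h3⟩ := B3 p τ τ' _ _ H' H'' hx.1.2.1 e
    rw [h2, h3]
  · intro H hH
    rw [Finset.mem_filter] at hH
    have h1 := hH.2
    obtain ⟨τ, hτ, H', h2, h3⟩ := B4 H h1.1 p (fun v => (h1.2 v).symm)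
    refine ⟨(H', τ), ?_, h2.symm⟩
    simp only [Finset.mem_product, Finset.mem_filter, Finset.mem_univ, true_and]
    refine ⟨⟨?_, h3⟩, hτ⟩
    intro h4
    apply h1.1
    rw [h2]
    exact (B2_le p τ hτ H').2 h4
  · rintro ⟨H', τ⟩ hx
    rw [Finset.mem_product, Finset.mem_filter, Finset.mem_filter] at hx
    have h1 := hx.1.2
    have hτ : τ * τ = 1 := hx.2.2
    have e1 : w (H'.map (phi p τ hτ)) = w' H' :=
      A3 w hw w' hw' (phi p τ hτ) (phi_inj p τ hτ) (phi_snd p τ hτ) H'
    have e2 := B2_no p τ hτ H'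
    have e3 := C4 p τ hτ H' h1.1
    have e4 : w' H' * 2 ^ (orb H' + no H' * Nat.card {v // ¬ p v} +
        (Nat.card {v // ¬ p v}).choose 2 + Nat.card {v // τ v ≠ v} / 2) *
          f (no H' + Nat.card {v // ¬ p v}) =
        w (H'.map (phi p τ hτ)) * 2 ^ orb (H'.map (phi p τ hτ)) *
          f (no (H'.map (phi p τ hτ))) := by
      rw [e1, e2, e3]
    exact e4

end Pool.Agent.MP_b5e4d4_co.AE
end

section

set_option autoImplicit false

/-!
# Task E1: numbers of orbits on the points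

`E1_mono`: the quotient of the smaller group maps onto the quotient of the larger group. `E1_no_le`: the points map onto the quotient.
`E1_two`: count the points by orbits: a point outside `Mv H` is an orbit of its own, an orbit inside `Mv H` has at least 2 points; so
`no H ≤ (card V - ncard) + ncard / 2`. `E1_add`: every orbit is a point outside `Mv H` or meets `Mv H`; more directly: the points outside `Mv H` inject into the
quotient. `E1_inv`: if `(π, 1) ∈ H` moves `v` then `g (π, 1) g⁻¹ ∈ H` moves `g.1 v`.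
-/

namespace Pool.Agent.MP_b5e4d4_co.AE

open Equiv Pool.Agent.MP_b5e4d4_co.FP

/-- the orbit of a point -/
def E1_q {V : Type} (H : Subgroup (G V)) (v : V) : MulAction.orbitRel.Quotient (P0 H) V :=
  Quotient.mk'' v

theorem E1_q_eq {V : Type} (H : Subgroup (G V)) (u v : V) :
    E1_q H u = E1_q H v ↔ ∃ π : Perm V, (π, (1 : ℤˣ)) ∈ H ∧ π v = u := by
  unfold E1_q
  rw [Quotient.eq'', MulAction.orbitRel_apply, MulAction.mem_orbit_iff]
  constructor
  · rintro ⟨⟨π, hπ⟩, h⟩
    exact ⟨π, hπ, h⟩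
  · rintro ⟨π, hπ, h⟩
    exact ⟨⟨π, hπ⟩, h⟩

theorem E1_q_surj {V : Type} (H : Subgroup (G V)) : Function.Surjective (E1_q H) :=
  Quotient.mk''_surjective

theorem E1_mono {V : Type} [Fintype V] (H K : Subgroup (G V)) (h : H ≤ K) : no K ≤ no H := by
  classical
  have hfin : Finite (MulAction.orbitRel.Quotient (P0 H) V) :=
    Finite.of_surjective _ (E1_q_surj H)
  choose f hf using E1_q_surj H
  refine Nat.card_le_card_of_surjective (fun q => E1_q K (f q)) ?_
  intro q
  obtain ⟨v, rfl⟩ := E1_q_surj K q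
  refine ⟨E1_q H v, ?_⟩
  obtain ⟨π, hπ, h1⟩ := (E1_q_eq H _ _).1 (hf (E1_q H v))
  exact (E1_q_eq K _ _).2 ⟨π, h hπ, h1⟩

theorem E1_no_le {V : Type} [Fintype V] (H : Subgroup (G V)) : no H ≤ Fintype.card V := by
  rw [← Nat.card_eq_fintype_card]
  exact Nat.card_le_card_of_surjective (E1_q H) (E1_q_surj H)

theorem E1_two {V : Type} [Fintype V] (H : Subgroup (G V)) :
    (Mv H).ncard + 2 * no H ≤ 2 * Fintype.card V := by
  classical
  have hfin : Finite (MulAction.orbitRel.Quotient (P0 H) V) :=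
    Finite.of_surjective _ (E1_q_surj H)
  have hft : Fintype (MulAction.orbitRel.Quotient (P0 H) V) := Fintype.ofFinite _
  have h1 : (Mv H).ncard = (Finset.univ.filter (fun v => v ∈ Mv H)).card := by
    rw [Set.ncard_eq_toFinset_card', Set.toFinset_card, Fintype.card_subtype]
  have h2 : (Finset.univ.filter (fun v => v ∈ Mv H)).card =
      ∑ q, ((Finset.univ.filter (fun v => v ∈ Mv H)).filter (fun v => E1_q H v = q)).card :=
    Finset.card_eq_sum_card_fiberwise (fun _ _ => Finset.mem_coe.2 (Finset.mem_univ _))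
  have h3 : Fintype.card V = ∑ q, (Finset.univ.filter (fun v => E1_q H v = q)).card := by
    rw [← Finset.card_univ]
    exact Finset.card_eq_sum_card_fiberwise (fun _ _ => Finset.mem_coe.2 (Finset.mem_univ _))
  have h4 : 2 * no H = ∑ _q : MulAction.orbitRel.Quotient (P0 H) V, 2 := by
    rw [Finset.sum_const, Finset.card_univ, smul_eq_mul, mul_comm, no, Nat.card_eq_fintype_card]
  rw [h1, h2, h3, h4, Finset.mul_sum, ← Finset.sum_add_distrib]
  refine Finset.sum_le_sum fun q _ => ?_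
  obtain ⟨v, rfl⟩ := E1_q_surj H q
  have hv : v ∈ Finset.univ.filter (fun u => E1_q H u = E1_q H v) :=
    Finset.mem_filter.2 ⟨Finset.mem_univ _, rfl⟩
  by_cases h5 : 2 ≤ (Finset.univ.filter (fun u => E1_q H u = E1_q H v)).card
  · have h6 : ((Finset.univ.filter (fun u => u ∈ Mv H)).filter
        (fun u => E1_q H u = E1_q H v)).card ≤
        (Finset.univ.filter (fun u => E1_q H u = E1_q H v)).card :=
      Finset.card_le_card (Finset.filter_subset_filter _ (Finset.filter_subset _ _))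
    omega
  · have h7 : (Finset.univ.filter (fun u => E1_q H u = E1_q H v)).card = 1 := by
      have := Finset.card_pos.2 ⟨v, hv⟩
      omega
    have h8 : (Finset.univ.filter (fun u => u ∈ Mv H)).filter
        (fun u => E1_q H u = E1_q H v) = ∅ := by
      rw [Finset.filter_eq_empty_iff]
      intro u hu huv
      obtain ⟨π, hπ, hne⟩ := (Finset.mem_filter.1 hu).2
      apply hne
      have h9 : E1_q H (π u) = E1_q H v :=
        ((E1_q_eq H _ _).2 ⟨π, hπ, rfl⟩).trans huv
      exact Finset.card_le_one.1 h7.le _ (Finset.mem_filter.2 ⟨Finset.mem_univ _, h9⟩) _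
        (Finset.mem_filter.2 ⟨Finset.mem_univ _, huv⟩)
    rw [h8, h7, Finset.card_empty]
    norm_num

theorem E1_univ {V : Type} [Fintype V] (H : Subgroup (G V)) (h : Mv H = Set.univ) :
    2 * no H ≤ Fintype.card V := by
  have h1 := E1_two H
  rw [h, Set.ncard_univ, Nat.card_eq_fintype_card] at h1
  omega

theorem E1_add {V : Type} [Fintype V] (H : Subgroup (G V)) :
    Fintype.card V ≤ no H + (Mv H).ncard := by
  classical
  have hfin : Finite (MulAction.orbitRel.Quotient (P0 H) V) :=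
    Finite.of_surjective _ (E1_q_surj H)
  have hft : Fintype (MulAction.orbitRel.Quotient (P0 H) V) := Fintype.ofFinite _
  have h1 : (Mv H).ncard = (Finset.univ.filter (fun v => v ∈ Mv H)).card := by
    rw [Set.ncard_eq_toFinset_card', Set.toFinset_card, Fintype.card_subtype]
  have h2 : (Finset.univ.filter (fun v => v ∉ Mv H)).card ≤ no H := by
    rw [no, Nat.card_eq_fintype_card, ← Finset.card_univ]
    refine Finset.card_le_card_of_injOn (E1_q H) (fun _ _ => Finset.mem_coe.2 (Finset.mem_univ _)) ?_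
    intro u _ v hv huv
    obtain ⟨π, hπ, h3⟩ := (E1_q_eq H _ _).1 huv
    have hv' := (Finset.mem_filter.1 (Finset.mem_coe.1 hv)).2
    by_contra hne
    exact hv' ⟨π, hπ, fun h4 => hne (h3.symm.trans h4)⟩
  have h5 := Finset.card_filter_add_card_filter_not (s := (Finset.univ : Finset V))
    (fun v => v ∈ Mv H)
  rw [Finset.card_univ] at h5
  omega

theorem E1_inv_aux {V : Type} (H : Subgroup (G V)) (g : G V) (hg : g ∈ H) (v : V)
    (h : v ∈ Mv H) : g.1 v ∈ Mv H := by
  obtain ⟨π, hπ, hne⟩ := h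
  refine ⟨g.1 * π * g.1⁻¹, ?_, ?_⟩
  · have h1 := H.mul_mem (H.mul_mem hg hπ) (H.inv_mem hg)
    have h2 : g * ((π, (1 : ℤˣ)) : G V) * g⁻¹ = ((g.1 * π * g.1⁻¹, (1 : ℤˣ)) : G V) := by
      refine Prod.ext rfl ?_
      show g.2 * 1 * g.2⁻¹ = 1
      rw [mul_one, mul_inv_cancel]
    rw [h2] at h1
    exact h1
  · intro h3
    apply hne
    have h4 : g.1 (π v) = g.1 v := by
      have h5 : (g.1 * π * g.1⁻¹) (g.1 v) = g.1 (π v) := by
        simp [Perm.mul_apply]
      rw [← h5]
      exact h3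
    exact g.1.injective h4

theorem E1_inv {V : Type} (H : Subgroup (G V)) (g : G V) (hg : g ∈ H) (v : V) :
    g.1 v ∈ Mv H ↔ v ∈ Mv H := by
  refine ⟨fun h => ?_, E1_inv_aux H g hg v⟩
  have h1 := E1_inv_aux H g⁻¹ (H.inv_mem hg) (g.1 v) h
  have h2 : (g⁻¹).1 (g.1 v) = v := by
    show g.1⁻¹ (g.1 v) = v
    simp
  rw [h2] at h1
  exact h1

end Pool.Agent.MP_b5e4d4_co.AE
end

section

set_option autoImplicit false

/-!
# Task D3b: summation over the set of moved points

Split the left side by the finset `M` of the moved points (`Finset.sum_fiberwise` or the like); the part with `Mv H = M` is `D3a` for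
`p v ↔ v ∈ M` and `f' x = f (card V - x)`. `Nat.card {v // ¬ v ∈ M} = card V - M.card`, `card V - (no H' + (card V - M.card)) = M.card - no H'`. Split the
right side of `D3a` by `o = no H'`, which is at most `M.card` (`E1_no_le`); the part with `no H' = o` is `gamV (w' M) o` times a constant.
-/

namespace Pool.Agent.MP_b5e4d4_co.AE

open Equiv Pool.Agent.MP_b5e4d4_co.FP

open scoped Classical in
private theorem D3b_sumG {V : Type} [Fintype V] (P : Subgroup (G V) → Prop)
    (f : Subgroup (G V) → ℤ) : sumG P f = ∑ H : Subgroup (G V) with P H, f H := rfl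

private theorem D3b_congr {V : Type} [Fintype V] (P : Subgroup (G V) → Prop)
    (f g : Subgroup (G V) → ℤ) (h : ∀ H, P H → f H = g H) : sumG P f = sumG P g := by
  classical
  unfold sumG
  refine Finset.sum_congr rfl fun H hH => h H ?_
  exact (Finset.mem_filter.1 hH).2

private theorem D3b_split {V : Type} [Fintype V] (P : Subgroup (G V) → Prop)
    (f : Subgroup (G V) → ℤ) {κ : Type} [DecidableEq κ] (t : Finset κ) (g : Subgroup (G V) → κ)
    (h : ∀ H, P H → g H ∈ t) :
    sumG P f = ∑ o ∈ t, sumG (fun H => P H ∧ g H = o) f := by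
  classical
  unfold sumG
  rw [← Finset.sum_fiberwise_of_maps_to (s := Finset.univ.filter fun H : Subgroup (G V) => P H)
    (t := t) (g := g) (fun H hH => h H (Finset.mem_filter.1 hH).2) f]
  refine Finset.sum_congr rfl fun o _ => ?_
  rw [Finset.filter_filter]
  refine Finset.sum_congr ?_ fun _ _ => rfl
  ext H
  simp only [Finset.mem_filter, Finset.mem_univ, true_and]

private theorem D3b_gamV {V : Type} [Fintype V] (w : Subgroup (G V) → ℤ) (o : ℕ) (c : ℤ) :
    sumG (fun H : Subgroup (G V) => (¬ H ≤ S V ∧ Mv H = Set.univ) ∧ no H = o)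
      (fun H => w H * 2 ^ orb H * c) = gamV w o * c := by
  classical
  unfold sumG gamV
  rw [Finset.sum_mul]
  refine Finset.sum_congr ?_ fun _ _ => rfl
  ext H
  simp only [Finset.mem_filter, Finset.mem_univ, true_and, and_assoc]

private theorem D3b_inst {V : Type} [Fintype V] (p : V → Prop) [DecidablePred p]
    [i : Fintype {v // p v}] (w : Subgroup (G V) → ℤ)
    (hw : IsW w) (w' : Subgroup (G {v // p v}) → ℤ) (hw' : IsW w') (f : ℕ → ℤ) :
    sumG (fun H : Subgroup (G V) => ¬ H ≤ S V ∧ ∀ v, v ∈ Mv H ↔ p v)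
        (fun H => w H * 2 ^ orb H * f (no H)) =
      sumG (fun H' : Subgroup (G {v // p v}) => ¬ H' ≤ S {v // p v} ∧ Mv H' = Set.univ)
        fun H' => w' H' * 2 ^ orb H' *
          (2 ^ (no H' * Nat.card {v // ¬ p v} + (Nat.card {v // ¬ p v}).choose 2) *
            (a (Nat.card {v // ¬ p v}) : ℤ) * f (no H' + Nat.card {v // ¬ p v})) := by
  have h : i = Subtype.fintype p := Subsingleton.elim _ _
  subst h
  exact D3a p w hw w' hw' f

theorem D3b {V : Type} [Fintype V] [DecidableEq V] (w : Subgroup (G V) → ℤ) (hw : IsW w)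
    (w' : ∀ M : Finset V, Subgroup (G {v // v ∈ M}) → ℤ) (hw' : ∀ M, IsW (w' M)) (f : ℕ → ℤ) :
    sumG (fun H : Subgroup (G V) => ¬ H ≤ S V) (fun H => w H * 2 ^ orb H * f (Fintype.card V - no H)) =
      ∑ M : Finset V, ∑ o ∈ Finset.range (M.card + 1), gamV (w' M) o *
        (2 ^ (o * (Fintype.card V - M.card) + (Fintype.card V - M.card).choose 2) *
          (a (Fintype.card V - M.card) : ℤ) * f (M.card - o)) := by
  classical
  rw [D3b_split (fun H : Subgroup (G V) => ¬ H ≤ S V) _ Finset.univ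
    (fun H => Finset.univ.filter fun v => v ∈ Mv H) (fun H _ => Finset.mem_univ _)]
  refine Finset.sum_congr rfl fun M _ => ?_
  have e1 : sumG (fun H : Subgroup (G V) => ¬ H ≤ S V ∧
      (Finset.univ.filter fun v => v ∈ Mv H) = M)
      (fun H => w H * 2 ^ orb H * f (Fintype.card V - no H)) =
      sumG (fun H : Subgroup (G V) => ¬ H ≤ S V ∧ ∀ v, v ∈ Mv H ↔ v ∈ M)
        (fun H => w H * 2 ^ orb H * f (Fintype.card V - no H)) := by
    congr 1
    funext H
    refine propext (and_congr_right fun _ => ?_)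
    rw [Finset.ext_iff]
    simp only [Finset.mem_filter, Finset.mem_univ, true_and]
  have hN : Nat.card {v // ¬ v ∈ M} = Fintype.card V - M.card := by
    rw [Nat.card_eq_fintype_card, Fintype.card_subtype_compl, Fintype.card_coe]
  have hM : M.card ≤ Fintype.card V := Finset.card_le_univ M
  have e2 := D3b_inst (fun v => v ∈ M) w hw (w' M) (hw' M) (fun x => f (Fintype.card V - x))
  have e3 : ∀ H' : Subgroup (G {v // v ∈ M}), no H' ≤ M.card := by
    intro H'
    have := E1_no_le H'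
    rwa [Fintype.card_coe] at this
  refine e1.trans (e2.trans ?_)
  rw [hN]
  rw [D3b_split (fun H' : Subgroup (G {v // v ∈ M}) => ¬ H' ≤ S {v // v ∈ M} ∧ Mv H' = Set.univ)
    _ (Finset.range (M.card + 1)) no (fun H' _ => Finset.mem_range.2 (Nat.lt_succ_of_le (e3 H')))]
  refine Finset.sum_congr rfl fun o _ => ?_
  rw [← D3b_gamV]
  refine D3b_congr _ _ _ fun H' hH' => ?_
  rw [hH'.2]
  have e4 : Fintype.card V - (o + (Fintype.card V - M.card)) = M.card - o := by omega
  simp only [e4]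

end Pool.Agent.MP_b5e4d4_co.AE
end

section

set_option autoImplicit false

/-!
# Task D5: vanishing of `γ(m, o)` and `γ(0, 0) = 1`

`D5_zero`: `gamV` is an empty sum: `Mv H = univ` implies `2 * no H ≤ card V` (`E1_univ`). `D5_zero'`: `no H = 0` implies that `V` is empty (a quotient of a
nonempty finite type is nonempty). `D5_one`: on `Fin 0` the group `G (Fin 0)` has the two elements `(1, 1)`, `(1, -1)`; the only subgroup
which is not contained in `S` is `⊤`, `Mv = univ` (no points), `no = 0`, `orb = 0`, and `w ⊤ = 1` (`∑ L ≤ ⊤, w L = w ⊥ + w ⊤ = 1`, `w ⊥ = 0`: apply `IsW` to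
`⊥` and `⊤`).
-/

namespace Pool.Agent.MP_b5e4d4_co.AE

open Equiv Pool.Agent.MP_b5e4d4_co.FP

theorem D5_zero (w : ∀ m : ℕ, Subgroup (G (Fin m)) → ℤ) (m o : ℕ) (h : m < 2 * o) : gam w m o = 0 := by
  classical
  unfold gam gamV
  apply Finset.sum_eq_zero
  intro H hH
  exfalso
  simp only [Finset.mem_filter, Finset.mem_univ, true_and] at hH
  obtain ⟨-, h1, h2⟩ := hH
  have h3 := E1_univ H h1
  rw [Fintype.card_fin] at h3
  omega

theorem D5_zero' (w : ∀ m : ℕ, Subgroup (G (Fin m)) → ℤ) (m : ℕ) (h : 0 < m) : gam w m 0 = 0 := by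
  classical
  unfold gam gamV
  apply Finset.sum_eq_zero
  intro H hH
  exfalso
  simp only [Finset.mem_filter, Finset.mem_univ, true_and] at hH
  obtain ⟨-, -, h2⟩ := hH
  have h0 : Nonempty (Fin m) := ⟨⟨0, h⟩⟩
  have h1 : Nonempty (MulAction.orbitRel.Quotient (P0 H) (Fin m)) :=
    ⟨Quotient.mk _ h0.some⟩
  have h3 : Finite (MulAction.orbitRel.Quotient (P0 H) (Fin m)) :=
    Finite.of_surjective (fun v : Fin m => (Quotient.mk _ v :
      MulAction.orbitRel.Quotient (P0 H) (Fin m))) Quotient.mk_surjective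
  have h4 : 0 < Nat.card (MulAction.orbitRel.Quotient (P0 H) (Fin m)) := Nat.card_pos
  unfold no at h2
  omega

theorem D5_one (w : ∀ m : ℕ, Subgroup (G (Fin m)) → ℤ) (hw : ∀ m, IsW (w m)) : gam w 0 0 = 1 := by
  classical
  have hn : ((-1 : ℤˣ)) ≠ 1 := by decide
  have key : ∀ H : Subgroup (G (Fin 0)), ¬ H ≤ S (Fin 0) → H = ⊤ := by
    intro H hH
    rw [SetLike.not_le_iff_exists] at hH
    obtain ⟨g, hg, hg2⟩ := hH
    have hg3 : g.2 = -1 := by
      rcases Int.units_eq_one_or g.2 with h | h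
      · exact absurd h hg2
      · exact h
    rw [eq_top_iff]
    intro x _
    rcases Int.units_eq_one_or x.2 with h | h
    · have : x = 1 := Prod.ext (Subsingleton.elim _ _) h
      rw [this]
      exact H.one_mem
    · have : x = g := Prod.ext (Subsingleton.elim _ _) (h.trans hg3.symm)
      rw [this]
      exact hg
  have hS : ¬ (⊤ : Subgroup (G (Fin 0))) ≤ S (Fin 0) := by
    intro h
    have h1 : ((1, -1) : G (Fin 0)) ∈ S (Fin 0) := h (Subgroup.mem_top _)
    exact hn h1
  have hbot : ∀ H : Subgroup (G (Fin 0)), H ≤ S (Fin 0) → H = ⊥ := by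
    intro H hH
    rw [eq_bot_iff]
    intro x hx
    have h1 : x.2 = 1 := hH hx
    have : x = 1 := Prod.ext (Subsingleton.elim _ _) h1
    rw [this]
    exact Subgroup.one_mem _
  have hw0 : w 0 ⊥ = 0 := by
    have h := hw 0 ⊥
    rw [if_pos bot_le] at h
    have h2 : (Finset.univ.filter fun L : Subgroup (G (Fin 0)) => L ≤ ⊥) = {⊥} := by
      ext L
      simp
    have h3 : ∑ L : Subgroup (G (Fin 0)) with L ≤ ⊥, w 0 L = w 0 ⊥ := by
      rw [h2, Finset.sum_singleton]
    rw [← h3]
    convert h using 2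
    ext L
    simp
  have hw1 : w 0 ⊤ = 1 := by
    have h := hw 0 ⊤
    rw [if_neg hS] at h
    have h3 : ∑ L : Subgroup (G (Fin 0)) with L ≤ ⊤, w 0 L = w 0 ⊤ := by
      refine Finset.sum_eq_single_of_mem ⊤ ?_ ?_
      · simp
      · intro L _ hL
        by_cases hLS : L ≤ S (Fin 0)
        · rw [hbot L hLS]
          exact hw0
        · exact absurd (key L hLS) hL
    rw [← h3]
    convert h using 2
    ext L
    simp
  have hMv : Mv (⊤ : Subgroup (G (Fin 0))) = Set.univ :=
    Set.eq_univ_of_forall fun v => v.elim0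
  have hno : no (⊤ : Subgroup (G (Fin 0))) = 0 := by
    unfold no
    have : IsEmpty (MulAction.orbitRel.Quotient (P0 (⊤ : Subgroup (G (Fin 0)))) (Fin 0)) :=
      ⟨fun q => by
        induction q using Quotient.inductionOn with
        | _ v => exact v.elim0⟩
    exact Nat.card_of_isEmpty
  have horb : orb (⊤ : Subgroup (G (Fin 0))) = 0 := by
    unfold orb
    have : IsEmpty (MulAction.orbitRel.Quotient (⊤ : Subgroup (G (Fin 0))) (Arc (Fin 0))) :=
      ⟨fun q => by
        induction q using Quotient.inductionOn with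
        | _ v => exact v.1.1.elim0⟩
    exact Nat.card_of_isEmpty
  unfold gam gamV
  rw [Finset.sum_eq_single_of_mem (⊤ : Subgroup (G (Fin 0)))]
  · rw [horb, hw1]
    norm_num
  · simp only [Finset.mem_filter, Finset.mem_univ, true_and]
    exact ⟨hS, hMv, hno⟩
  · intro L hL hL2
    simp only [Finset.mem_filter, Finset.mem_univ, true_and] at hL
    exact absurd (key L hL.1) hL2

end Pool.Agent.MP_b5e4d4_co.AE
end

section

set_option autoImplicit false

/-!
# Task D4: the expansion on `Fin p`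

`D3b` for `V = Fin p` with any weights `w' M` (`A1_exists`); `gamV (w' M) o = gam w M.card o` by `D2` (`{v // v ∈ M} ≃ Fin M.card`: `M.equivFin`). Group the
sum over `M` by the cardinality: `Finset.sum_powerset_apply_card` (`Finset.univ = Finset.powerset Finset.univ`), a factor `p.choose m`.
`D4`: then sort by `j = m - o`: the terms with `m < 2 o` vanish (`D5_zero`), so `o = m - j` and `j ≤ m ≤ 2 j`; terms with `m > p` vanish as
`p.choose m = 0`.
-/

namespace Pool.Agent.MP_b5e4d4_co.AE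

open Equiv Pool.Agent.MP_b5e4d4_co.FP

theorem D4_double (w : ∀ m : ℕ, Subgroup (G (Fin m)) → ℤ) (hw : ∀ m, IsW (w m)) (p : ℕ) (f : ℕ → ℤ) :
    sumG (fun H : Subgroup (G (Fin p)) => ¬ H ≤ S (Fin p))
        (fun H => w p H * 2 ^ orb H * f (p - no H)) =
      ∑ m ∈ Finset.range (p + 1), ∑ o ∈ Finset.range (m + 1), (p.choose m : ℤ) * (gam w m o *
        (2 ^ (o * (p - m) + (p - m).choose 2) * (a (p - m) : ℤ) * f (m - o))) := by
  choose w' hw' using fun M : Finset (Fin p) => A1_exists {v // v ∈ M}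
  have h1 := D3b (w p) (hw p) w' hw' f
  rw [Fintype.card_fin] at h1
  rw [h1]
  have h2 : ∀ M : Finset (Fin p), ∀ o, gamV (w' M) o = gam w M.card o := fun M o =>
    D2 M.equivFin (w' M) (hw' M) (w M.card) (hw M.card) o
  have h3 : (∑ M : Finset (Fin p), ∑ o ∈ Finset.range (M.card + 1), gamV (w' M) o *
        (2 ^ (o * (p - M.card) + (p - M.card).choose 2) * (a (p - M.card) : ℤ) * f (M.card - o))) =
      ∑ M ∈ (Finset.univ : Finset (Fin p)).powerset,
        (fun m : ℕ => ∑ o ∈ Finset.range (m + 1), gam w m o *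
        (2 ^ (o * (p - m) + (p - m).choose 2) * (a (p - m) : ℤ) * f (m - o))) M.card := by
    rw [Finset.powerset_univ]
    refine Finset.sum_congr rfl (fun M _ => ?_)
    refine Finset.sum_congr rfl (fun o _ => ?_)
    rw [h2]
  have h4 := Finset.sum_powerset_apply_card (α := ℤ) (fun m : ℕ => ∑ o ∈ Finset.range (m + 1), gam w m o *
        (2 ^ (o * (p - m) + (p - m).choose 2) * (a (p - m) : ℤ) * f (m - o)))
        (x := (Finset.univ : Finset (Fin p)))
  rw [Finset.card_univ, Fintype.card_fin] at h4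
  refine (h3.trans h4).trans ?_
  refine Finset.sum_congr rfl (fun m _ => ?_)
  rw [nsmul_eq_mul, Finset.mul_sum]

/-- the terms of the expansion -/
noncomputable def D4_F (w : ∀ m : ℕ, Subgroup (G (Fin m)) → ℤ) (p j m : ℕ) : ℤ :=
  (p.choose m : ℤ) * gam w m (m - j) * 2 ^ ((m - j) * (p - m) + (p - m).choose 2) *
    (a (p - m) : ℤ)

theorem D4_F_lt (w : ∀ m : ℕ, Subgroup (G (Fin m)) → ℤ) {p j m : ℕ} (h : p < m) :
    D4_F w p j m = 0 := by
  unfold D4_F
  rw [Nat.choose_eq_zero_of_lt h]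
  simp

theorem D4_F_two (w : ∀ m : ℕ, Subgroup (G (Fin m)) → ℤ) {p j m : ℕ} (h : 2 * j < m) :
    D4_F w p j m = 0 := by
  unfold D4_F
  rw [D5_zero w m (m - j) (by omega)]
  simp

theorem D4_t (w : ∀ m : ℕ, Subgroup (G (Fin m)) → ℤ) (p j : ℕ) :
    t (gam w) j p = ∑ m ∈ Finset.Icc j (2 * j), D4_F w p j m := rfl

theorem D4_sum (w : ∀ m : ℕ, Subgroup (G (Fin m)) → ℤ) (p j : ℕ) :
    ∑ m ∈ Finset.Icc j p, D4_F w p j m = t (gam w) j p := by
  rw [D4_t]
  have h1 : ∑ m ∈ Finset.Icc j p, D4_F w p j m = ∑ m ∈ Finset.Icc j (max p (2 * j)), D4_F w p j m := by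
    refine Finset.sum_subset (Finset.Icc_subset_Icc_right (le_max_left _ _)) ?_
    intro m hm hm'
    rw [Finset.mem_Icc] at hm hm'
    exact D4_F_lt w (by omega)
  have h2 : ∑ m ∈ Finset.Icc j (2 * j), D4_F w p j m =
      ∑ m ∈ Finset.Icc j (max p (2 * j)), D4_F w p j m := by
    refine Finset.sum_subset (Finset.Icc_subset_Icc_right (le_max_right _ _)) ?_
    intro m hm hm'
    rw [Finset.mem_Icc] at hm hm'
    exact D4_F_two w (by omega)
  rw [h1, h2]

theorem D4_t_lt (w : ∀ m : ℕ, Subgroup (G (Fin m)) → ℤ) {p j : ℕ} (h : p < j) :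
    t (gam w) j p = 0 := by
  rw [← D4_sum, Finset.Icc_eq_empty (by omega), Finset.sum_empty]

theorem D4 (w : ∀ m : ℕ, Subgroup (G (Fin m)) → ℤ) (hw : ∀ m, IsW (w m)) (p : ℕ) (f : ℕ → ℤ) :
    sumG (fun H : Subgroup (G (Fin p)) => ¬ H ≤ S (Fin p))
        (fun H => w p H * 2 ^ orb H * f (p - no H)) =
      ∑ j ∈ Finset.range (p + 1), f j * t (gam w) j p := by
  rw [D4_double w hw p f]
  have h1 : ∀ m ∈ Finset.range (p + 1), (∑ o ∈ Finset.range (m + 1), (p.choose m : ℤ) * (gam w m o *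
        (2 ^ (o * (p - m) + (p - m).choose 2) * (a (p - m) : ℤ) * f (m - o)))) =
      ∑ j ∈ Finset.range (m + 1), f j * D4_F w p j m := by
    intro m _
    rw [← Finset.sum_range_reflect]
    refine Finset.sum_congr rfl (fun j hj => ?_)
    rw [Finset.mem_range] at hj
    have e1 : m + 1 - 1 - j = m - j := by omega
    have e2 : m - (m - j) = j := by omega
    rw [e1, e2]
    unfold D4_F
    ring
  rw [Finset.sum_congr rfl h1]
  have h2 : ∀ j ∈ Finset.range (p + 1), f j * t (gam w) j p =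
      ∑ m ∈ Finset.Icc j p, f j * D4_F w p j m := by
    intro j _
    rw [← D4_sum, Finset.mul_sum]
  rw [Finset.sum_congr rfl h2]
  refine Finset.sum_comm' ?_
  intro m j
  simp only [Finset.mem_range, Finset.mem_Icc]
  omega

/-- the truncated sum -/
theorem D4_TJ (w : ∀ m : ℕ, Subgroup (G (Fin m)) → ℤ) (hw : ∀ m, IsW (w m)) (p J : ℕ) :
    TJ (w p) J = ∑ j ∈ Finset.range (J + 1), t (gam w) j p := by
  have h1 := D4 w hw p (fun j => if j ≤ J then 1 else 0)
  have h2 : TJ (w p) J = sumG (fun H : Subgroup (G (Fin p)) => ¬ H ≤ S (Fin p))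
        (fun H => w p H * 2 ^ orb H * (if p - no H ≤ J then 1 else 0)) := by
    unfold TJ sumG
    rw [Fintype.card_fin, Finset.sum_filter, Finset.sum_filter]
    refine Finset.sum_congr rfl (fun H _ => ?_)
    by_cases h0 : ¬ H ≤ S (Fin p)
    swap
    · rw [if_neg (fun h => h0 h.1), if_neg h0]
    rw [if_pos h0]
    by_cases h : p ≤ no H + J
    · have h' : p - no H ≤ J := by omega
      rw [if_pos ⟨h0, h⟩, if_pos h', mul_one]
    · have h' : ¬ p - no H ≤ J := by omega
      rw [if_neg (fun h1 => h h1.2), if_neg h', mul_zero]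
  rw [h2, h1]
  have h3 : ∀ j ∈ Finset.range (p + 1), (if j ≤ J then (1 : ℤ) else 0) * t (gam w) j p =
      if j ∈ Finset.range (J + 1) then t (gam w) j p else 0 := by
    intro j _
    by_cases h : j ≤ J
    · rw [if_pos h, if_pos (Finset.mem_range.2 (by omega)), one_mul]
    · rw [if_neg h, if_neg (fun h' => h (by rw [Finset.mem_range] at h'; omega)), zero_mul]
  rw [Finset.sum_congr rfl h3, Finset.sum_ite_mem]
  refine Finset.sum_subset Finset.inter_subset_right ?_
  intro j hj hj'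
  rw [Finset.mem_inter] at hj'
  refine D4_t_lt w ?_
  by_contra h4
  exact hj' ⟨Finset.mem_range.2 (by omega), hj⟩

end Pool.Agent.MP_b5e4d4_co.AE
end

section

set_option autoImplicit false

/-!
# Task D5v: the first values

`card_two`, `card_three`: `decide` (4 and 64 functions), e.g. with `Nat.card_eq_fintype_card` and an encoding of the functions `Arc (Fin p) → Bool`
in which the kernel can decide quickly (`Fintype.card_congr` to `Fin 2 → Bool` and `Fin 6 → Bool`, or `Fin 64` with `Nat.testBit`); no `native_decide`.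
`D5v`: `A2_count` and `D4` with `f = 1` say `s p = ∑ j ∈ range (p + 1), t (gam w) j p`. For `p = 2` this is `6 + γ(2, 1) = 4` and for `p = 3` it is
`56 + 3 * γ(2, 1) * 2 + γ(3, 1) = 40`, as `γ(0, 0) = 1` and `γ(1, 0)`, `γ(1, 1)`, `γ(2, 2)`, `γ(2, 0)`, `γ(3, 2)`, ... vanish (`D5_zero`, `D5_zero'`); `a 0 = a 1 = 1`,
`a 2 = 3`, `a 3 = 7` by `decide`.
-/

namespace Pool.Agent.MP_b5e4d4_co.AE

open Equiv Pool.Agent.MP_b5e4d4_co.FP

theorem card_two : Nat.card {D : Arc (Fin 2) → Bool // SC D} = 4 := by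
  have h : ∀ D : Arc (Fin 2) → Bool, SC D ↔ ∃ π : Perm (Fin 2), ∀ e, D (rev (mv π e)) = D e :=
    fun D => Iff.rfl
  rw [Nat.card_congr (Equiv.subtypeEquivRight h), Nat.card_eq_fintype_card]
  decide +kernel

theorem card_three : Nat.card {D : Arc (Fin 3) → Bool // SC D} = 40 := by
  have h : ∀ D : Arc (Fin 3) → Bool, SC D ↔ ∃ π : Perm (Fin 3), ∀ e, D (rev (mv π e)) = D e :=
    fun D => Iff.rfl
  rw [Nat.card_congr (Equiv.subtypeEquivRight h), Nat.card_eq_fintype_card]
  decide +kernel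

private theorem D5v_two (γ : ℕ → ℕ → ℤ) (h0 : γ 0 0 = 1) (h1 : γ 1 0 = 0) (h2 : γ 2 0 = 0) :
    ∑ j ∈ Finset.range 3, (1 : ℤ) * t γ j 2 = 6 + γ 2 1 := by
  have e1 : Finset.Icc 1 (2 * 1) = {1, 2} := by decide
  have e2 : Finset.Icc 2 (2 * 2) = {2, 3, 4} := by decide
  have a0 : a 0 = 1 := by decide
  have a1 : a 1 = 1 := by decide
  have a2 : a 2 = 3 := by decide
  simp [Finset.sum_range_succ, t, e1, e2, h0, h1, h2, a0, a1, a2, Nat.choose]

private theorem D5v_three (γ : ℕ → ℕ → ℤ) (h0 : γ 0 0 = 1) (h1 : γ 1 0 = 0) (h2 : γ 2 0 = 0)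
    (h3 : γ 3 0 = 0) :
    ∑ j ∈ Finset.range 4, (1 : ℤ) * t γ j 3 = 56 + 6 * γ 2 1 + γ 3 1 := by
  have e1 : Finset.Icc 1 (2 * 1) = {1, 2} := by decide
  have e2 : Finset.Icc 2 (2 * 2) = {2, 3, 4} := by decide
  have e3 : Finset.Icc 3 (2 * 3) = {3, 4, 5, 6} := by decide
  have a0 : a 0 = 1 := by decide
  have a1 : a 1 = 1 := by decide
  have a2 : a 2 = 3 := by decide
  have a3 : a 3 = 7 := by decide
  simp [Finset.sum_range_succ, t, e1, e2, e3, h0, h1, h2, h3, a0, a1, a2, a3, Nat.choose]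
  ring

theorem D5v (w : ∀ m : ℕ, Subgroup (G (Fin m)) → ℤ) (hw : ∀ m, IsW (w m)) :
    gam w 2 1 = -2 ∧ gam w 3 1 = -4 := by
  have h0 := D5_one w hw
  have h1 := D5_zero' w 1 (by norm_num)
  have h2 := D5_zero' w 2 (by norm_num)
  have h3 := D5_zero' w 3 (by norm_num)
  have c2 := A2_count (w 2) (hw 2)
  have c3 := A2_count (w 3) (hw 3)
  have d2 := D4 w hw 2 (fun _ => 1)
  have d3 := D4 w hw 3 (fun _ => 1)
  simp only [mul_one] at d2 d3
  rw [card_two, d2, D5v_two (gam w) h0 h1 h2] at c2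
  rw [card_three, d3, D5v_three (gam w) h0 h1 h2 h3] at c3
  push_cast at c2 c3
  constructor
  · linarith
  · linarith

end Pool.Agent.MP_b5e4d4_co.AE
end

section

set_option autoImplicit false

/-!
# Task D6a: the exponential generating function of the numbers `a n`

`A` is the power series `∑ a n X ^ n / n!`; the claim is `A = exp X * exp (X ^ 2)`: `a n / n! = ∑ k, 1 / (k! (n - 2 k)!)` (the divisions in `a` are exact: `k! (n - 2 k)!` divides `n!`);
`PowerSeries.coeff_mul`, the antidiagonal sum restricted to the pairs with even second component.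
-/

namespace Pool.Agent.MP_b5e4d4_co.AE

open Equiv Pool.Agent.MP_b5e4d4_co.FP

private theorem D6a_dvd (n k : ℕ) (h : 2 * k ≤ n) :
    k.factorial * (n - 2 * k).factorial ∣ n.factorial := by
  have h1 : (n - 2 * k).factorial * (2 * k).factorial ∣ n.factorial := by
    have h2 := Nat.factorial_mul_factorial_dvd_factorial h
    rw [mul_comm]
    exact h2
  have h3 : k.factorial ∣ (2 * k).factorial := Nat.factorial_dvd_factorial (by omega)
  rw [mul_comm]
  exact (mul_dvd_mul_left _ h3).trans h1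

private theorem D6a_a (n : ℕ) : (a n : ℚ) / n.factorial =
    ∑ k ∈ Finset.range (n / 2 + 1), (1 : ℚ) / ((k.factorial : ℚ) * ((n - 2 * k).factorial : ℚ)) := by
  unfold a
  rw [Nat.cast_sum, Finset.sum_div]
  refine Finset.sum_congr rfl fun k hk => ?_
  have hk' : 2 * k ≤ n := by
    have := Finset.mem_range.1 hk
    omega
  have h1 : ((k.factorial : ℚ) * ((n - 2 * k).factorial : ℚ)) ≠ 0 := by positivity
  have h2 : (n.factorial : ℚ) ≠ 0 := by positivity
  rw [Nat.cast_div (D6a_dvd n k hk') (by exact_mod_cast h1)]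
  push_cast
  field_simp

theorem D6_A : A = PowerSeries.exp ℚ *
    PowerSeries.mk fun n => if Even n then (1 : ℚ) / ((n / 2).factorial) else 0 := by
  ext n
  rw [A, PowerSeries.coeff_mk, PowerSeries.coeff_mul, D6a_a,
    ← Finset.Nat.sum_antidiagonal_swap]
  simp only [Prod.fst_swap, Prod.snd_swap, PowerSeries.coeff_exp, PowerSeries.coeff_mk]
  rw [Finset.Nat.sum_antidiagonal_eq_sum_range_succ
    (fun i j => (algebraMap ℚ ℚ) (1 / (j.factorial : ℚ)) *
      (if Even i then (1 : ℚ) / ((i / 2).factorial) else 0)) n]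
  symm
  have h1 : ∀ i ∈ Finset.range n.succ, i ∉ (Finset.range (n / 2 + 1)).image (fun k => 2 * k) →
      (algebraMap ℚ ℚ) (1 / ((n - i).factorial : ℚ)) *
      (if Even i then (1 : ℚ) / ((i / 2).factorial) else 0) = 0 := by
    intro i hi hni
    have hne : ¬ Even i := by
      rintro ⟨k, hk⟩
      refine hni (Finset.mem_image.2 ⟨k, Finset.mem_range.2 ?_, by omega⟩)
      have := Finset.mem_range.1 hi
      omega
    rw [if_neg hne, mul_zero]
  have hsub : (Finset.range (n / 2 + 1)).image (fun k => 2 * k) ⊆ Finset.range n.succ := by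
    intro i hi
    obtain ⟨k, hk, rfl⟩ := Finset.mem_image.1 hi
    have := Finset.mem_range.1 hk
    exact Finset.mem_range.2 (by omega)
  rw [← Finset.sum_subset hsub h1, Finset.sum_image (fun x _ y _ h => by simpa using h)]
  refine Finset.sum_congr rfl fun k hk => ?_
  have he : Even (2 * k) := even_two_mul k
  have h2 : 2 * k / 2 = k := by omega
  rw [if_pos he, h2]
  simp only [Algebra.algebraMap_self, RingHom.id_apply]
  rw [one_div_mul_one_div, mul_comm]

end Pool.Agent.MP_b5e4d4_co.AE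
end

section

set_option autoImplicit false

/-!
# Task E6s: few small orbits

Let `P = P0 K`, `s = card V`, `(π₀, -1) ∈ K`. Let `e = (u, v)` be an arc whose `K`-orbit has at most 3 elements. The `P`-orbit `P e` is contained in the `K`-orbit and has at least 2
elements (some `(π, 1) ∈ K` moves `u`), as many as `(π₀, -1) • (P e)`, which is also a `P`-orbit (`P` is normalised by `K`); if these were different, hence disjoint, the `K`-orbit would
have at least 4 elements. So `(π₀, -1) • e = (π₀ v, π₀ u)` lies in `P e`, and `π₀ v` lies in the `P`-orbit of `u`, which has at most 3 elements (it is the image of `P e` under the first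
coordinate). So for every `u` there are at most 3 points `v`.
-/

namespace Pool.Agent.MP_b5e4d4_co.AE

open Equiv Pool.Agent.MP_b5e4d4_co.FP

/-- The reversed arc lies in the orbit of the elements of sign `1`. -/
private theorem E6s_step {V : Type} [Fintype V] (K : Subgroup (G V)) (hM : Mv K = Set.univ)
    (π₀ : Perm V) (h₀ : ((π₀, -1) : G V) ∈ K) (e : Arc V)
    (he : (MulAction.orbit K e).ncard ≤ 3) :
    ∃ σ : Perm V, ((σ, 1) : G V) ∈ K ∧ σ e.1.1 = π₀ e.1.2 := by
  classical
  have hu : e.1.1 ∈ Mv K := by rw [hM]; exact Set.mem_univ _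
  obtain ⟨π, hπ, hπu⟩ := hu
  by_contra hcon
  push Not at hcon
  -- the cross terms are different
  have key : ∀ τ σ : Perm V, ((τ, 1) : G V) ∈ K → ((σ, 1) : G V) ∈ K →
      ((π₀, -1) : G V) • (((τ, 1) : G V) • e) ≠ ((σ, 1) : G V) • e := by
    intro τ σ hτ hσ h
    have hρ : ((π₀ * τ * π₀⁻¹, 1) : G V) ∈ K := by
      have h1 := K.mul_mem (K.mul_mem h₀ hτ) (K.inv_mem h₀)
      have h2 : (((π₀, -1) : G V) * (τ, 1) * (π₀, -1)⁻¹) = (π₀ * τ * π₀⁻¹, 1) := by
        refine Prod.ext rfl ?_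
        simp
      rwa [h2] at h1
    have hρi := K.inv_mem hρ
    have h3 : ((π₀, -1) : G V) • e =
        (((π₀ * τ * π₀⁻¹, 1) : G V)⁻¹ * ((σ, 1) : G V)) • e := by
      rw [mul_smul, ← h, ← mul_smul, ← mul_smul]
      congr 1
      refine Prod.ext ?_ ?_
      · simp [mul_assoc]
      · simp
    have h4 : (((π₀ * τ * π₀⁻¹, 1) : G V)⁻¹ * ((σ, 1) : G V)) =
        ((π₀ * τ * π₀⁻¹)⁻¹ * σ, 1) := by
      refine Prod.ext rfl ?_
      simp
    have h5 : (((π₀ * τ * π₀⁻¹)⁻¹ * σ, 1) : G V) ∈ K := by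
      rw [← h4]
      exact K.mul_mem hρi hσ
    rw [h4, smul_one, smul_neg] at h3
    have h6 := congrArg (fun a : Arc V => a.1.1) h3
    exact hcon _ h5 h6.symm
  have h1K : ((1, 1) : G V) ∈ K := K.one_mem
  have hone : ((1, 1) : G V) • e = e := one_smul _ e
  have hne : ((π, 1) : G V) • e ≠ e := by
    intro h
    rw [smul_one] at h
    exact hπu (congrArg (fun a : Arc V => a.1.1) h)
  have hne2 : ((π₀, -1) : G V) • (((π, 1) : G V) • e) ≠ ((π₀, -1) : G V) • e := by
    intro h
    exact hne (smul_left_cancel _ h)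
  have c1 : ((π₀, -1) : G V) • (((π, 1) : G V) • e) ≠ ((π, 1) : G V) • e := key π π hπ hπ
  have c2 : ((π₀, -1) : G V) • (((π, 1) : G V) • e) ≠ e := by
    have := key π 1 hπ h1K
    rwa [hone] at this
  have c3 : ((π₀, -1) : G V) • e ≠ ((π, 1) : G V) • e := by
    have := key 1 π h1K hπ
    rwa [hone] at this
  have c4 : ((π₀, -1) : G V) • e ≠ e := by
    have := key 1 1 h1K h1K
    rwa [hone] at this
  have horb : ∀ g : G V, g ∈ K → ∀ x ∈ MulAction.orbit K e, g • x ∈ MulAction.orbit K e := by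
    rintro g hg x ⟨k, rfl⟩
    exact ⟨⟨g, hg⟩ * k, mul_smul g (k : G V) e⟩
  have me : e ∈ MulAction.orbit K e := MulAction.mem_orbit_self e
  have m1 := horb _ hπ e me
  have m2 := horb _ h₀ e me
  have m3 := horb _ h₀ _ m1
  have hsub : (({e, ((π, 1) : G V) • e, ((π₀, -1) : G V) • e,
      ((π₀, -1) : G V) • (((π, 1) : G V) • e)} : Finset (Arc V)) : Set (Arc V)) ⊆
      MulAction.orbit K e := by
    intro x hx
    simp only [Finset.coe_insert, Finset.coe_singleton, Set.mem_insert_iff,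
      Set.mem_singleton_iff] at hx
    rcases hx with rfl | rfl | rfl | rfl
    · exact me
    · exact m1
    · exact m2
    · exact m3
  have hcard : ({e, ((π, 1) : G V) • e, ((π₀, -1) : G V) • e,
      ((π₀, -1) : G V) • (((π, 1) : G V) • e)} : Finset (Arc V)).card = 4 := by
    rw [Finset.card_insert_of_notMem, Finset.card_insert_of_notMem,
      Finset.card_insert_of_notMem, Finset.card_singleton]
    · simp only [Finset.mem_singleton]
      exact fun h => hne2 h.symm
    · simp only [Finset.mem_insert, Finset.mem_singleton, not_or]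
      exact ⟨fun h => c3 h.symm, fun h => c1 h.symm⟩
    · simp only [Finset.mem_insert, Finset.mem_singleton, not_or]
      exact ⟨fun h => hne h.symm, fun h => c4 h.symm, fun h => c2 h.symm⟩
  have hle := Set.ncard_le_ncard hsub (Set.toFinite _)
  rw [Set.ncard_coe_finset, hcard] at hle
  omega

theorem E6_small {V : Type} [Fintype V] (K : Subgroup (G V)) (hK : ¬ K ≤ S V) (hM : Mv K = Set.univ) :
    {e : Arc V | (MulAction.orbit K e).ncard ≤ 3}.ncard ≤ 3 * Fintype.card V := by
  classical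
  rw [SetLike.not_le_iff_exists] at hK
  obtain ⟨⟨π₀, ε⟩, h₀, hε⟩ := hK
  have hε' : ε = -1 := by
    rcases Int.units_eq_one_or ε with rfl | rfl
    · exact absurd (show ((π₀, 1) : G V).2 = 1 from rfl) hε
    · rfl
  subst hε'
  set T : Finset (Arc V) := Finset.univ.filter fun e => (MulAction.orbit K e).ncard ≤ 3 with hT
  have hTe : {e : Arc V | (MulAction.orbit K e).ncard ≤ 3} = (T : Set (Arc V)) := by
    ext e
    simp [hT]
  rw [hTe, Set.ncard_coe_finset]
  have h1 : T.card ≤ 3 * (T.image fun e : Arc V => e.1.1).card := by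
    refine Finset.card_le_mul_card_image T 3 ?_
    intro u hu
    obtain ⟨e₀, he₀, hu₀⟩ := Finset.mem_image.1 hu
    have hsm₀ : (MulAction.orbit K e₀).ncard ≤ 3 := (Finset.mem_filter.1 he₀).2
    set Q : Set V := {x | ∃ σ : Perm V, ((σ, 1) : G V) ∈ K ∧ σ u = x} with hQ
    have hQc : Q.ncard ≤ 3 := by
      have hsub : Q ⊆ (fun a : Arc V => a.1.1) '' MulAction.orbit K e₀ := by
        rintro x ⟨σ, hσ, rfl⟩
        refine ⟨((σ, 1) : G V) • e₀, ⟨⟨(σ, 1), hσ⟩, rfl⟩, ?_⟩
        rw [smul_one]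
        show σ e₀.1.1 = σ u
        rw [hu₀]
      exact (Set.ncard_le_ncard hsub (Set.toFinite _)).trans
        ((Set.ncard_image_le (Set.toFinite _)).trans hsm₀)
    have hinj : Set.InjOn (fun a : Arc V => π₀ a.1.2)
        ((T.filter fun e : Arc V => e.1.1 = u : Finset (Arc V)) : Set (Arc V)) := by
      intro a ha b hb hab
      have ha1 := (Finset.mem_filter.1 (Finset.mem_coe.1 ha)).2
      have hb1 := (Finset.mem_filter.1 (Finset.mem_coe.1 hb)).2
      have h2 : a.1.2 = b.1.2 := π₀.injective hab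
      exact Subtype.ext (Prod.ext (ha1.trans hb1.symm) h2)
    have himg : (fun a : Arc V => π₀ a.1.2) ''
        ((T.filter fun e : Arc V => e.1.1 = u : Finset (Arc V)) : Set (Arc V)) ⊆ Q := by
      rintro _ ⟨a, ha, rfl⟩
      obtain ⟨ha1, ha2⟩ := Finset.mem_filter.1 (Finset.mem_coe.1 ha)
      obtain ⟨σ, hσ, h3⟩ := E6s_step K hM π₀ h₀ a (Finset.mem_filter.1 ha1).2
      exact ⟨σ, hσ, by rw [← ha2]; exact h3⟩
    have h4 := Set.ncard_le_ncard himg (Set.toFinite _)
    rw [hinj.ncard_image, Set.ncard_coe_finset] at h4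
    exact h4.trans hQc
  exact h1.trans (Nat.mul_le_mul_left 3 (Finset.card_le_univ _))

end Pool.Agent.MP_b5e4d4_co.AE
end

section

set_option autoImplicit false

/-!
# Task E6: few orbits on the arcs if there is no fixed point

Every orbit of `K` on the arcs has at least 2 elements (some `(π, 1) ∈ K` moves the first point of the arc). So `4 * orb K ≤ (number of arcs) + (number of the arcs in orbits with at most 3
elements)`: an orbit with `n ≥ 4` elements satisfies `4 ≤ n`, one with `n = 2, 3` satisfies `4 ≤ n + n`; sum over the orbits. By `E6_small` this is at most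
`s (s - 1) + 3 s = s (s + 2)`. `E6_sq`: `orb K` is at most the number of arcs.
-/

namespace Pool.Agent.MP_b5e4d4_co.AE

open Equiv Pool.Agent.MP_b5e4d4_co.FP

private theorem E6_two {V : Type} [Fintype V] (K : Subgroup (G V)) (hM : Mv K = Set.univ) (e : Arc V) :
    2 ≤ (MulAction.orbit K e).ncard := by
  obtain ⟨π, hπ, hm⟩ : e.1.1 ∈ Mv K := by rw [hM]; trivial
  have h1 : e ∈ MulAction.orbit K e := MulAction.mem_orbit_self e
  have h2 : mv π e ∈ MulAction.orbit K e := by
    refine ⟨⟨(π, 1), hπ⟩, ?_⟩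
    show ((π, 1) : G V) • e = mv π e
    exact smul_one π e
  have h3 : mv π e ≠ e := fun h => hm (congrArg (fun x : Arc V => x.1.1) h)
  have h4 : ({mv π e, e} : Set (Arc V)) ⊆ MulAction.orbit K e := by
    rintro x (rfl | rfl)
    · exact h2
    · exact h1
  have h5 := Set.ncard_le_ncard h4 (Set.toFinite _)
  rwa [Set.ncard_pair h3] at h5

theorem E6 {V : Type} [Fintype V] (K : Subgroup (G V)) (hK : ¬ K ≤ S V) (hM : Mv K = Set.univ) :
    4 * orb K ≤ Fintype.card V * (Fintype.card V + 2) := by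
  classical
  let Q := MulAction.orbitRel.Quotient K (Arc V)
  let f : Arc V → Q := fun e => Quotient.mk _ e
  have hf : Function.Surjective f := Quotient.mk_surjective
  have : Fintype Q := Fintype.ofSurjective f hf
  have hfe : ∀ e e' : Arc V, f e' = f e ↔ e' ∈ MulAction.orbit K e := by
    intro e e'
    exact Quotient.eq.trans MulAction.orbitRel_apply
  let T : Finset (Arc V) := Finset.univ.filter fun e => (MulAction.orbit K e).ncard ≤ 3
  have hT : T.card ≤ 3 * Fintype.card V := by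
    have h1 := E6_small K hK hM
    rwa [Set.ncard_eq_toFinset_card', Set.toFinset_ofPred] at h1
  have h1 : (Finset.univ : Finset (Arc V)).card =
      ∑ q : Q, ((Finset.univ : Finset (Arc V)).filter fun e => f e = q).card :=
    Finset.card_eq_sum_card_fiberwise (f := f) (t := Finset.univ) (fun _ _ => Finset.mem_coe.2 (Finset.mem_univ _))
  have h2 : T.card = ∑ q : Q, (T.filter fun e => f e = q).card :=
    Finset.card_eq_sum_card_fiberwise (f := f) (t := Finset.univ) (fun _ _ => Finset.mem_coe.2 (Finset.mem_univ _))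
  have h3 : ∀ q : Q, 4 ≤ ((Finset.univ : Finset (Arc V)).filter fun e => f e = q).card +
      (T.filter fun e => f e = q).card := by
    intro q
    obtain ⟨e, rfl⟩ := hf q
    have h4 : ((Finset.univ : Finset (Arc V)).filter fun e' => f e' = f e).card =
        (MulAction.orbit K e).ncard := by
      rw [Set.ncard_eq_toFinset_card']
      congr 1
      ext e'
      simp [hfe]
    have h5 := E6_two K hM e
    by_cases h6 : (MulAction.orbit K e).ncard ≤ 3
    · have h7 : (T.filter fun e' => f e' = f e) =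
          ((Finset.univ : Finset (Arc V)).filter fun e' => f e' = f e) := by
        ext e'
        simp only [T, Finset.mem_filter, Finset.mem_univ, true_and, and_iff_right_iff_imp]
        intro h8
        rw [hfe] at h8
        rw [MulAction.orbit_eq_iff.2 h8]
        exact h6
      rw [h7, h4]
      omega
    · rw [h4]
      omega
  have h4 : ∑ _q : Q, 4 ≤ ∑ q : Q, (((Finset.univ : Finset (Arc V)).filter fun e => f e = q).card +
      (T.filter fun e => f e = q).card) := Finset.sum_le_sum fun q _ => h3 q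
  rw [Finset.sum_add_distrib, ← h1, ← h2, Finset.sum_const, smul_eq_mul, Finset.card_univ,
    Finset.card_univ] at h4
  have h5 : orb K = Fintype.card Q := Nat.card_eq_fintype_card
  have h6 : Fintype.card (Arc V) + Fintype.card V = Fintype.card V * Fintype.card V := by
    have h7 : Fintype.card (Arc V) = Fintype.card (V × V) - Fintype.card {e : V × V // e.1 = e.2} := by
      have := Fintype.card_subtype_compl (fun e : V × V => e.1 = e.2)
      exact this
    have h8 : Fintype.card {e : V × V // e.1 = e.2} = Fintype.card V := by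
      refine Fintype.card_congr ⟨fun e => e.1.1, fun v => ⟨(v, v), rfl⟩, ?_, fun _ => rfl⟩
      rintro ⟨⟨u, v⟩, h⟩
      simp only at h
      subst h
      rfl
    have h9 : Fintype.card {e : V × V // e.1 = e.2} ≤ Fintype.card (V × V) :=
      Fintype.card_subtype_le _
    rw [h7, ← h8, Nat.sub_add_cancel h9, h8, Fintype.card_prod]
  rw [h5]
  nlinarith [h4, h6, hT]

theorem E6_sq {V : Type} [Fintype V] (K : Subgroup (G V)) : orb K ≤ Fintype.card V ^ 2 := by
  classical
  have h1 : orb K ≤ Nat.card (Arc V) := by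
    refine Nat.card_le_card_of_surjective (fun e : Arc V => (Quotient.mk _ e : MulAction.orbitRel.Quotient K (Arc V))) ?_
    exact Quotient.mk_surjective
  refine h1.trans ?_
  rw [Nat.card_eq_fintype_card, sq, ← Fintype.card_prod]
  exact Fintype.card_subtype_le _

end Pool.Agent.MP_b5e4d4_co.AE
end

section

set_option autoImplicit false

/-!
# Task E7: the number of orbits on the arcs in general

`B4` with `p v ↔ v ∈ Mv K` (classical): `K = H'.map (phi p τ hτ)`, `Mv H' = univ`, `¬ H' ≤ S` (`B2_le`); `s = card {v // p v} = (Mv K).ncard`, `f = card {v // ¬ p v} = card V - s`. `C4`: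
`orb K = orb H' + no H' * f + f.choose 2 + (moved points of τ) / 2`, and the last term is `kk K g` (`g ∈ K` has sign `-1`, so it is `phi` of an element of sign `-1`, and acts as `τ` outside
`p`, `phi_neg_neg`). `E7_a`: `4 * orb H' ≤ s (s + 2)` (`E6`), `2 * no H' ≤ s` (`E1_univ`). `E7_b`: `no K = no H' + f` (`B2_no`), so `no H' ≤ s - r`; `orb H' ≤ s ^ 2` (`E6_sq`).
-/

namespace Pool.Agent.MP_b5e4d4_co.AE

open Equiv Pool.Agent.MP_b5e4d4_co.FP

private theorem E7_aux {V : Type} [Fintype V] (K : Subgroup (G V)) (g : G V) (hg : g ∈ K) (hs : g.2 = -1)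
    (s : ℕ) (h : (Mv K).ncard = s) :
    s ≤ Fintype.card V ∧ ∃ a b : ℕ, 4 * a ≤ s * (s + 2) ∧ a ≤ s ^ 2 ∧ 2 * b ≤ s ∧ no K = b + (Fintype.card V - s) ∧
      orb K = a + b * (Fintype.card V - s) + (Fintype.card V - s).choose 2 + kk K g := by
  classical
  have hKS : ¬ K ≤ S V := by
    intro hle
    have h1 : g.2 = 1 := hle hg
    rw [hs] at h1
    exact absurd h1 (by decide)
  obtain ⟨τ, hτ, H', hK, hM⟩ := B4 K hKS (fun v => v ∈ Mv K) (fun v => Iff.rfl)
  have hH' : ¬ H' ≤ S {v // v ∈ Mv K} := by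
    intro hle
    apply hKS
    rw [hK]
    exact (B2_le (fun v => v ∈ Mv K) τ hτ H').2 hle
  have hcard : Fintype.card {v // v ∈ Mv K} = s := by
    rw [← h, ← Nat.card_eq_fintype_card]
    rfl
  have hcn : Nat.card {v // ¬ v ∈ Mv K} = Fintype.card V - s := by
    rw [Nat.card_eq_fintype_card, Fintype.card_subtype_compl, hcard]
  have hsle : s ≤ Fintype.card V := by
    rw [← hcard]
    exact Fintype.card_subtype_le _
  refine ⟨hsle, orb H', no H', ?_, ?_, ?_, ?_, ?_⟩
  · have := E6 H' hH' hM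
    rw [hcard] at this
    exact this
  · have := E6_sq H'
    rw [hcard] at this
    exact this
  · have := E1_univ H' hM
    rw [hcard] at this
    exact this
  · have := B2_no (fun v => v ∈ Mv K) τ hτ H'
    rw [← hK, hcn] at this
    exact this
  · have h1 := C4 (fun v => v ∈ Mv K) τ hτ H' hH'
    rw [← hK, hcn] at h1
    rw [h1]
    congr 1
    unfold kk
    congr 1
    -- the element g
    have hgK : g ∈ H'.map (phi (fun v => v ∈ Mv K) τ hτ) := by
      rw [← hK]
      exact hg
    obtain ⟨g', hg', hgg⟩ := Subgroup.mem_map.1 hgK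
    have hs' : g'.2 = -1 := by
      have := phi_snd (fun v => v ∈ Mv K) τ hτ g'
      rw [hgg] at this
      rw [← this]
      exact hs
    have hact : ∀ (v : V) (hv : ¬ v ∈ Mv K), g.1 v = (τ ⟨v, hv⟩ : V) := by
      intro v hv
      have := phi_neg_neg (fun v => v ∈ Mv K) τ hτ g' hs' v hv
      rw [hgg] at this
      exact this
    refine Nat.card_congr ⟨fun v => ⟨v.1.1, v.1.2, ?_⟩, fun v => ⟨⟨v.1, v.2.1⟩, ?_⟩, ?_, ?_⟩
    · intro h2
      apply v.2
      rw [hact v.1.1 v.1.2] at h2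
      exact Subtype.ext h2
    · intro h2
      apply v.2.2
      rw [hact v.1 v.2.1, h2]
    · intro v
      rfl
    · intro v
      rfl

theorem E7_a {V : Type} [Fintype V] (K : Subgroup (G V)) (g : G V) (hg : g ∈ K) (hs : g.2 = -1)
    (s : ℕ) (h : (Mv K).ncard = s) :
    orb K ≤ (s * (s + 2) + 2 * s * (Fintype.card V - s)) / 4 + (Fintype.card V - s).choose 2 +
      kk K g := by
  obtain ⟨hle, a, b, h1, h2, h3, h4, h5⟩ := E7_aux K g hg hs s h
  rw [h5]
  have h6 : a + b * (Fintype.card V - s) ≤ (s * (s + 2) + 2 * s * (Fintype.card V - s)) / 4 := by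
    rw [Nat.le_div_iff_mul_le (by norm_num)]
    have h7 : 2 * b * (Fintype.card V - s) ≤ s * (Fintype.card V - s) := Nat.mul_le_mul_right _ h3
    nlinarith
  omega

theorem E7_b {V : Type} [Fintype V] (K : Subgroup (G V)) (g : G V) (hg : g ∈ K) (hs : g.2 = -1)
    (s r : ℕ) (h : (Mv K).ncard = s) (hr : no K + r ≤ Fintype.card V) :
    orb K ≤ s ^ 2 + (s - r) * (Fintype.card V - s) + (Fintype.card V - s).choose 2 + kk K g := by
  obtain ⟨hle, a, b, h1, h2, h3, h4, h5⟩ := E7_aux K g hg hs s h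
  rw [h5]
  have hb : b ≤ s - r := by omega
  have h7 : b * (Fintype.card V - s) ≤ (s - r) * (Fintype.card V - s) := Nat.mul_le_mul_right _ hb
  omega

end Pool.Agent.MP_b5e4d4_co.AE
end

section

set_option autoImplicit false

/-!
# Task E8: the generators of the groups with given moved points

Let `(g, α)` be as in the sum, `M = Mv (cl g α)`. `(α i, 1) ∈ cl g α` fixes all points outside `M` and so maps `M` onto `M`: `α i` is given by a permutation of `M`
(`s!` choices, `s = M.card`). `g.1` maps `M` onto `M` (`E1_inv`) and `g * g` has sign `1`, so `g.1` is given by a permutation of `M` (`s!` choices) and an involution `τ` of the complement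
(`Equiv.Perm.subtypeCongr`); `kk (cl g α) g` is half the number of the points moved by `τ`. So the sum is at most `(s!) ^ (n + 1)` times the sum in `D1` for `F = {v // v ∉ M}`
(inject the index set into `(Fin (n + 1) → Perm {v // v ∈ M}) × Perm {v // v ∉ M}`; `Finset.sum_le_sum_of_injOn` or `Finset.sum_nbij`, `Finset.sum_product`).
-/

namespace Pool.Agent.MP_b5e4d4_co.AE

open Equiv Pool.Agent.MP_b5e4d4_co.FP

open scoped Classical in
/-- the restriction of a permutation to an invariant set -/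
private noncomputable def E8_r {V : Type} (π : Perm V) (p : V → Prop) : Perm {v // p v} :=
  if h : ∀ v, p (π v) ↔ p v then π.subtypePerm h else 1

private theorem E8_r_apply {V : Type} (π : Perm V) (p : V → Prop) (h : ∀ v, p (π v) ↔ p v)
    (v : {v // p v}) : ((E8_r π p v : {v // p v}) : V) = π v := by
  unfold E8_r
  rw [dif_pos h]
  rfl

private theorem E8_mem {V : Type} {n : ℕ} (g : G V) (α : Fin n → Perm V) (i : Fin n) :
    ((α i, 1) : G V) ∈ cl g α :=
  Subgroup.subset_closure (Or.inr ⟨i, rfl⟩)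

private theorem E8_memg {V : Type} {n : ℕ} (g : G V) (α : Fin n → Perm V) : g ∈ cl g α :=
  Subgroup.subset_closure (Or.inl rfl)

theorem E8 {V : Type} [Fintype V] (n : ℕ) (M : Finset V) :
    open scoped Classical in
    ∑ x : G V × (Fin n → Perm V) with x.1.2 = -1 ∧ Mv (cl x.1 x.2) = (M : Set V),
        2 ^ kk (cl x.1 x.2) x.1 ≤
      M.card.factorial ^ (n + 1) * a (Fintype.card V - M.card) := by
  classical
  -- basic facts
  have hg : ∀ x : G V × (Fin n → Perm V), Mv (cl x.1 x.2) = (M : Set V) →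
      ∀ v, x.1.1 v ∈ M ↔ v ∈ M := by
    intro x hx v
    have h1 := E1_inv (cl x.1 x.2) x.1 (E8_memg x.1 x.2) v
    rw [hx] at h1
    simpa using h1
  have hgc : ∀ x : G V × (Fin n → Perm V), Mv (cl x.1 x.2) = (M : Set V) →
      ∀ v, x.1.1 v ∉ M ↔ v ∉ M := fun x hx v => not_congr (hg x hx v)
  have hfix : ∀ x : G V × (Fin n → Perm V), Mv (cl x.1 x.2) = (M : Set V) →
      ∀ π : Perm V, (π, (1 : ℤˣ)) ∈ cl x.1 x.2 → ∀ v, v ∉ M → π v = v := by
    intro x hx π hπ v hv
    by_contra h
    have h1 : v ∈ Mv (cl x.1 x.2) := ⟨π, hπ, h⟩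
    rw [hx] at h1
    exact hv (by simpa using h1)
  have hinv : ∀ x : G V × (Fin n → Perm V), Mv (cl x.1 x.2) = (M : Set V) →
      ∀ π : Perm V, (π, (1 : ℤˣ)) ∈ cl x.1 x.2 → ∀ v, π v ∈ M ↔ v ∈ M := by
    intro x hx π hπ v
    have h1 := E1_inv (cl x.1 x.2) (π, 1) hπ v
    rw [hx] at h1
    simpa using h1
  have hsq : ∀ x : G V × (Fin n → Perm V), x.1.2 = -1 → Mv (cl x.1 x.2) = (M : Set V) →
      ∀ v, v ∉ M → x.1.1 (x.1.1 v) = v := by
    intro x hs hx v hv
    refine hfix x hx (x.1.1 * x.1.1) ?_ v hv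
    have h1 := mul_mem (E8_memg x.1 x.2) (E8_memg x.1 x.2)
    have h2 : x.1 * x.1 = (x.1.1 * x.1.1, (1 : ℤˣ)) := by
      refine Prod.ext rfl ?_
      show x.1.2 * x.1.2 = 1
      rw [hs]
      decide
    rwa [h2] at h1
  -- the data
  let Y := (Fin (n + 1) → Perm {v : V // v ∈ M}) × Perm {v : V // v ∉ M}
  let Φ : G V × (Fin n → Perm V) → Y := fun x =>
    (Fin.cons (E8_r x.1.1 (fun v => v ∈ M)) (fun i => E8_r (x.2 i) (fun v => v ∈ M)),
      E8_r x.1.1 (fun v => v ∉ M))
  let W : Y → ℕ := fun y => 2 ^ (Nat.card {v // y.2 v ≠ v} / 2)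
  let s : Finset (G V × (Fin n → Perm V)) :=
    Finset.univ.filter fun x => x.1.2 = -1 ∧ Mv (cl x.1 x.2) = (M : Set V)
  have hW : ∀ x ∈ s, 2 ^ kk (cl x.1 x.2) x.1 = W (Φ x) := by
    intro x hx
    obtain ⟨hs, hM⟩ := (Finset.mem_filter.1 hx).2
    show 2 ^ kk (cl x.1 x.2) x.1 = 2 ^ (Nat.card {v // (E8_r x.1.1 (fun v => v ∉ M)) v ≠ v} / 2)
    unfold kk
    rw [hM]
    congr 2
    have e : {v : V // v ∉ (M : Set V) ∧ x.1.1 v ≠ v} ≃ {v : {v : V // v ∉ M} // x.1.1 v ≠ v} :=
      (Equiv.subtypeEquivRight (p := fun v : V => v ∉ (M : Set V) ∧ x.1.1 v ≠ v)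
        (q := fun v : V => v ∉ M ∧ x.1.1 v ≠ v) (fun v => by simp)).trans
        (Equiv.subtypeSubtypeEquivSubtypeInter (fun v : V => v ∉ M) (fun v => x.1.1 v ≠ v)).symm
    refine Nat.card_congr (e.trans (Equiv.subtypeEquivRight fun v => ?_))
    rw [not_iff_not, Subtype.ext_iff, E8_r_apply _ _ (hgc x hM)]
  have hinj : Set.InjOn Φ s := by
    intro x hx y hy hxy
    obtain ⟨hs, hM⟩ := (Finset.mem_filter.1 (Finset.mem_coe.1 hx)).2
    obtain ⟨hs', hM'⟩ := (Finset.mem_filter.1 (Finset.mem_coe.1 hy)).2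
    have h1 := congrArg Prod.fst hxy
    have h2 := congrArg Prod.snd hxy
    have h3 : E8_r x.1.1 (fun v => v ∈ M) = E8_r y.1.1 (fun v => v ∈ M) := congrFun h1 0
    have h4 : ∀ i, E8_r (x.2 i) (fun v => v ∈ M) = E8_r (y.2 i) (fun v => v ∈ M) :=
      fun i => congrFun h1 i.succ
    refine Prod.ext (Prod.ext ?_ (hs.trans hs'.symm)) ?_
    · ext v
      by_cases hv : v ∈ M
      · have := E8_r_apply x.1.1 (fun v => v ∈ M) (hg x hM) ⟨v, hv⟩
        rw [h3, E8_r_apply y.1.1 (fun v => v ∈ M) (hg y hM') ⟨v, hv⟩] at this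
        exact this.symm
      · have := E8_r_apply x.1.1 (fun v => v ∉ M) (hgc x hM) ⟨v, hv⟩
        have h2' : E8_r x.1.1 (fun v => v ∉ M) = E8_r y.1.1 (fun v => v ∉ M) := h2
        rw [h2', E8_r_apply y.1.1 (fun v => v ∉ M) (hgc y hM') ⟨v, hv⟩] at this
        exact this.symm
    · funext i
      ext v
      by_cases hv : v ∈ M
      · have := E8_r_apply (x.2 i) (fun v => v ∈ M) (hinv x hM (x.2 i) (E8_mem _ _ i)) ⟨v, hv⟩
        rw [h4 i, E8_r_apply (y.2 i) (fun v => v ∈ M) (hinv y hM' (y.2 i) (E8_mem _ _ i)) ⟨v, hv⟩] at this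
        exact this.symm
      · rw [hfix x hM (x.2 i) (E8_mem _ _ i) v hv, hfix y hM' (y.2 i) (E8_mem _ _ i) v hv]
  have himg : s.image Φ ⊆ (Finset.univ : Finset (Fin (n + 1) → Perm {v : V // v ∈ M})) ×ˢ
      (Finset.univ.filter fun τ : Perm {v : V // v ∉ M} => τ * τ = 1) := by
    intro y hy
    obtain ⟨x, hx, rfl⟩ := Finset.mem_image.1 hy
    obtain ⟨hs, hM⟩ := (Finset.mem_filter.1 hx).2
    refine Finset.mem_product.2 ⟨Finset.mem_univ _, Finset.mem_filter.2 ⟨Finset.mem_univ _, ?_⟩⟩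
    show E8_r x.1.1 (fun v => v ∉ M) * E8_r x.1.1 (fun v => v ∉ M) = 1
    ext v
    rw [Perm.mul_apply, E8_r_apply _ _ (hgc x hM), E8_r_apply _ _ (hgc x hM), hsq x hs hM _ v.2]
    rfl
  calc ∑ x ∈ s, 2 ^ kk (cl x.1 x.2) x.1 = ∑ x ∈ s, W (Φ x) := Finset.sum_congr rfl hW
    _ = ∑ y ∈ s.image Φ, W y := (Finset.sum_image hinj).symm
    _ ≤ ∑ y ∈ (Finset.univ : Finset (Fin (n + 1) → Perm {v : V // v ∈ M})) ×ˢ
      (Finset.univ.filter fun τ : Perm {v : V // v ∉ M} => τ * τ = 1), W y :=
        Finset.sum_le_sum_of_subset himg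
    _ = M.card.factorial ^ (n + 1) * a (Fintype.card V - M.card) := by
      rw [Finset.sum_product]
      have h1 := D1 {v : V // v ∉ M}
      have h2 : Nat.card {v : V // v ∉ M} = Fintype.card V - M.card := by
        rw [Nat.card_eq_fintype_card, Fintype.card_subtype_compl]
        simp
      rw [h2] at h1
      have h3 : ∀ f ∈ (Finset.univ : Finset (Fin (n + 1) → Perm {v : V // v ∈ M})),
          ∑ τ : Perm {v : V // v ∉ M} with τ * τ = 1, W (f, τ) =
          a (Fintype.card V - M.card) := by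
        intro f _
        rw [← h1]
        refine Finset.sum_congr ?_ fun _ _ => rfl
        ext τ
        simp
      rw [Finset.sum_congr rfl h3, Finset.sum_const, smul_eq_mul, Finset.card_univ, Fintype.card_fun,
        Fintype.card_perm, Fintype.card_fin]
      simp

end Pool.Agent.MP_b5e4d4_co.AE
end

section

set_option autoImplicit false

/-!
# Task E9g: sum over the generators

Split the sum by the finset `M = Mv (cl g α)`; in the part of `M`, `2 ^ orb ≤ 2 ^ (B s) * 2 ^ kk` with `s = M.card`, and `E8`; there are `(card V).choose s` finsets with `s` elements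
(`Finset.sum_powerset_apply_card` or `Finset.sum_fiberwise`, `Finset.card_powersetCard`).
-/

namespace Pool.Agent.MP_b5e4d4_co.AE

open Equiv Pool.Agent.MP_b5e4d4_co.FP

theorem E9_gen {V : Type} [Fintype V] (n : ℕ) (P : G V → (Fin n → Perm V) → Prop) (B : ℕ → ℕ)
    (lo hi : ℕ) (h : ∀ (g : G V) (α : Fin n → Perm V), g.2 = -1 → P g α →
      lo ≤ (Mv (cl g α)).ncard ∧ (Mv (cl g α)).ncard ≤ hi ∧
        orb (cl g α) ≤ B (Mv (cl g α)).ncard + kk (cl g α) g) :
    sumC n P ≤ ∑ s ∈ Finset.Icc lo hi, (Fintype.card V).choose s *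
      (s.factorial ^ (n + 1) * a (Fintype.card V - s)) * 2 ^ B s := by
  classical
  unfold sumC
  have hM : ∀ (x : G V × (Fin n → Perm V)) (M : Finset V),
      (Mv (cl x.1 x.2)).toFinite.toFinset = M → Mv (cl x.1 x.2) = (M : Set V) := by
    intro x M hx
    rw [← hx, Set.Finite.coe_toFinset]
  have hF : ∀ M : Finset V,
      ∑ x ∈ (Finset.univ.filter fun x : G V × (Fin n → Perm V) => x.1.2 = -1 ∧ P x.1 x.2) with
          (Mv (cl x.1 x.2)).toFinite.toFinset = M, 2 ^ orb (cl x.1 x.2) ≤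
        if M.card ∈ Finset.Icc lo hi then
          (M.card.factorial ^ (n + 1) * a (Fintype.card V - M.card)) * 2 ^ B M.card else 0 := by
    intro M
    split_ifs with hc
    · have h8 := E8 (V := V) n M
      refine le_trans ?_ (Nat.mul_le_mul_right (2 ^ B M.card) h8)
      rw [Finset.sum_mul]
      refine le_trans (Finset.sum_le_sum (g := fun x : G V × (Fin n → Perm V) =>
        2 ^ kk (cl x.1 x.2) x.1 * 2 ^ B M.card) ?_) ?_
      · intro x hx
        simp only [Finset.mem_filter, Finset.mem_univ, true_and] at hx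
        obtain ⟨⟨h1, h2⟩, h3⟩ := hx
        have h4 := (h x.1 x.2 h1 h2).2.2
        rw [hM x M h3, Set.ncard_coe_finset] at h4
        rw [← pow_add]
        exact Nat.pow_le_pow_right (by norm_num) (by omega)
      · refine Finset.sum_le_sum_of_subset ?_
        intro x hx
        simp only [Finset.mem_filter, Finset.mem_univ, true_and] at hx ⊢
        exact ⟨hx.1.1, hM x M hx.2⟩
    · refine le_of_eq (Finset.sum_eq_zero ?_)
      intro x hx
      exfalso
      simp only [Finset.mem_filter, Finset.mem_univ, true_and] at hx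
      obtain ⟨⟨h1, h2⟩, h3⟩ := hx
      have h4 := h x.1 x.2 h1 h2
      rw [hM x M h3, Set.ncard_coe_finset] at h4
      exact hc (Finset.mem_Icc.2 ⟨h4.1, h4.2.1⟩)
  rw [← Finset.sum_fiberwise (Finset.univ.filter fun x : G V × (Fin n → Perm V) => x.1.2 = -1 ∧ P x.1 x.2)
    (fun x => (Mv (cl x.1 x.2)).toFinite.toFinset)]
  refine le_trans (Finset.sum_le_sum fun M _ => hF M) ?_
  have hp := Finset.sum_powerset_apply_card (fun s : ℕ => if s ∈ Finset.Icc lo hi then
      (s.factorial ^ (n + 1) * a (Fintype.card V - s)) * 2 ^ B s else 0) (x := (Finset.univ : Finset V))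
  rw [Finset.powerset_univ] at hp
  rw [hp, Finset.card_univ]
  have h5 : ∀ m ∈ Finset.range (Fintype.card V + 1), (Fintype.card V).choose m •
      (if m ∈ Finset.Icc lo hi then
        (m.factorial ^ (n + 1) * a (Fintype.card V - m)) * 2 ^ B m else 0) =
      if m ∈ Finset.Icc lo hi then (Fintype.card V).choose m *
        (m.factorial ^ (n + 1) * a (Fintype.card V - m)) * 2 ^ B m else 0 := by
    intro m _
    split_ifs
    · rw [smul_eq_mul]; ring
    · simp
  rw [Finset.sum_congr rfl h5, ← Finset.sum_filter]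
  refine Finset.sum_le_sum_of_subset ?_
  intro m hm
  exact (Finset.mem_filter.1 hm).2

end Pool.Agent.MP_b5e4d4_co.AE
end

section

set_option autoImplicit false

/-!
# Task E5g: few generators, few orbits

Induction on `r`. Given `α` for `r` with `no (cl g α) + r ≤ card V`: if `no (cl g α) + (r + 1) ≤ card V`, add `1`. Otherwise `no K < no (cl g α)`, so `P0 K` does
not preserve all orbits of `P0 (cl g α)`: there are `β ∈ P0 K` and `v` with `β v` not in the orbit of `v` (else the orbits of `P0 K` and of `P0 (cl g α)` would be the same, as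
`cl g α ≤ K`). Adding `β` merges two orbits, so `no` drops (a surjective non-injective map of finite quotients).
-/

namespace Pool.Agent.MP_b5e4d4_co.AE

open Equiv Pool.Agent.MP_b5e4d4_co.FP

private theorem E5g_smul {V : Type} (H : Subgroup (G V)) (β : P0 H) (v : V) : β • v = (β : Perm V) v := rfl

private theorem E5g_map {V : Type} (H K : Subgroup (G V))
    (h : ∀ β ∈ P0 H, ∀ v : V, β v ∈ MulAction.orbit (P0 K) v) :
    ∃ f : MulAction.orbitRel.Quotient (P0 H) V → MulAction.orbitRel.Quotient (P0 K) V,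
      Function.Surjective f ∧ ∀ v : V, f (Quotient.mk'' v) = Quotient.mk'' v := by
  refine ⟨Quotient.map' id ?_, ?_, fun v => rfl⟩
  · intro a b hab
    rw [MulAction.orbitRel_apply] at hab
    rw [MulAction.orbitRel_apply]
    obtain ⟨β, hβ⟩ := hab
    have h1 : (β : Perm V) b = a := hβ
    show a ∈ MulAction.orbit (P0 K) b
    rw [← h1]
    exact h β β.2 b
  · intro x
    induction x using Quotient.inductionOn' with
    | h v => exact ⟨Quotient.mk'' v, rfl⟩

private theorem E5g_orbit {V : Type} {H K : Subgroup (G V)} (hle : H ≤ K) (β : Perm V) (hβ : β ∈ P0 H) (v : V) :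
    β v ∈ MulAction.orbit (P0 K) v := by
  have h1 : β ∈ P0 K := hle hβ
  exact ⟨⟨β, h1⟩, rfl⟩

private theorem E5g_lt {V : Type} [Fintype V] {H K : Subgroup (G V)} (hle : H ≤ K) (β : Perm V) (hβ : β ∈ P0 K)
    (v : V) (hv : β v ∉ MulAction.orbit (P0 H) v) : no K < no H := by
  classical
  obtain ⟨f, hf, hf'⟩ := E5g_map H K (fun β hβ v => E5g_orbit hle β hβ v)
  have hfin : Finite (MulAction.orbitRel.Quotient (P0 H) V) := Quotient.finite _
  have hfin' : Finite (MulAction.orbitRel.Quotient (P0 K) V) := Quotient.finite _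
  have i1 := Fintype.ofFinite (MulAction.orbitRel.Quotient (P0 H) V)
  have i2 := Fintype.ofFinite (MulAction.orbitRel.Quotient (P0 K) V)
  unfold no
  rw [Nat.card_eq_fintype_card, Nat.card_eq_fintype_card]
  refine Fintype.card_lt_of_surjective_not_injective f hf ?_
  intro hinj
  have h1 : f (Quotient.mk'' (β v)) = f (Quotient.mk'' v) := by
    rw [hf', hf']
    exact Quotient.sound' ⟨⟨β, hβ⟩, rfl⟩
  have h2 : MulAction.orbitRel (P0 H) V (β v) v := Quotient.exact' (hinj h1)
  exact hv h2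

private theorem E5g_le {V : Type} [Fintype V] {H K : Subgroup (G V)}
    (h : ∀ β ∈ P0 K, ∀ v : V, β v ∈ MulAction.orbit (P0 H) v) : no H ≤ no K := by
  obtain ⟨f, hf, -⟩ := E5g_map K H h
  have hfin : Finite (MulAction.orbitRel.Quotient (P0 K) V) := Quotient.finite _
  exact Nat.card_le_card_of_surjective f hf

private theorem E5g_cons {V : Type} (g : G V) {r : ℕ} (α : Fin r → Perm V) (β : Perm V) :
    cl g α ≤ cl g (Fin.cons β α : Fin (r + 1) → Perm V) ∧
      ((β, 1) : G V) ∈ cl g (Fin.cons β α : Fin (r + 1) → Perm V) := by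
  constructor
  · unfold cl
    apply Subgroup.closure_mono
    rintro h (rfl | ⟨i, rfl⟩)
    · exact Or.inl rfl
    · exact Or.inr ⟨i.succ, rfl⟩
  · exact Subgroup.subset_closure (Or.inr ⟨0, rfl⟩)

theorem E5_greedy {V : Type} [Fintype V] (K : Subgroup (G V)) (g : G V) (hg : g ∈ K) (r : ℕ)
    (h : no K + r ≤ Fintype.card V) :
    ∃ α : Fin r → Perm V, (∀ i, α i ∈ P0 K) ∧ no (cl g α) + r ≤ Fintype.card V := by
  induction r with
  | zero =>
    refine ⟨Fin.elim0, fun i => i.elim0, ?_⟩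
    rw [add_zero]
    exact E1_no_le _
  | succ r ih =>
    obtain ⟨α, hα, hno⟩ := ih (by omega)
    by_cases hc : no (cl g α) + (r + 1) ≤ Fintype.card V
    · refine ⟨Fin.cons 1 α, ?_, ?_⟩
      · intro i
        refine Fin.cases ?_ (fun j => ?_) i
        · rw [Fin.cons_zero]
          exact one_mem _
        · rw [Fin.cons_succ]
          exact hα j
      · have h1 := E1_mono _ _ (E5g_cons g α 1).1
        omega
    · have hlt : no K < no (cl g α) := by omega
      have hex : ∃ β ∈ P0 K, ∃ v : V, β v ∉ MulAction.orbit (P0 (cl g α)) v := by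
        by_contra hcon
        push Not at hcon
        have h1 := E5g_le hcon
        omega
      obtain ⟨β, hβ, v, hv⟩ := hex
      refine ⟨Fin.cons β α, ?_, ?_⟩
      · intro i
        refine Fin.cases ?_ (fun j => ?_) i
        · rw [Fin.cons_zero]
          exact hβ
        · rw [Fin.cons_succ]
          exact hα j
      · have h1 := E5g_lt (E5g_cons g α β).1 β (E5g_cons g α β).2 v hv
        omega

end Pool.Agent.MP_b5e4d4_co.AE
end

section

set_option autoImplicit false

/-!
# Task E5u: moved points of a group with several generators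

Let `U` be the union on the right. The set of the `h : G V` such that `h.1` maps `U` onto `U`, and outside `U` acts as
the identity if `h.2 = 1` and as `g.1` if `h.2 = -1`, is a subgroup: `U` is invariant under `g` (`E1_inv`), `(g.1 * g.1, 1) ∈ cl g _`, so `g.1 * g.1` is the identity outside `U`.
It contains `g` and the `(α i, 1)`, hence `cl g α` (`Subgroup.closure_le` or `Subgroup.closure_induction`).
-/

namespace Pool.Agent.MP_b5e4d4_co.AE

open Equiv Pool.Agent.MP_b5e4d4_co.FP

theorem E5_union {V : Type} {n : ℕ} (g : G V) (hg : g.2 = -1) (α : Fin (n + 1) → Perm V) :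
    Mv (cl g α) ⊆ ⋃ i, Mv (cl g fun _ : Fin 1 => α i) := by
  classical
  set U : Set V := ⋃ i, Mv (cl g fun _ : Fin 1 => α i) with hU
  have hn1 : ((-1 : ℤˣ)) ≠ 1 := by decide
  have hgm : ∀ i, g ∈ cl g (fun _ : Fin 1 => α i) := fun i => Subgroup.subset_closure (Or.inl rfl)
  have ham : ∀ i, ((α i, 1) : G V) ∈ cl g (fun _ : Fin 1 => α i) :=
    fun i => Subgroup.subset_closure (Or.inr ⟨0, rfl⟩)
  have hgU : ∀ v, g.1 v ∈ U ↔ v ∈ U := by
    intro v
    rw [hU, Set.mem_iUnion, Set.mem_iUnion]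
    exact exists_congr fun i => E1_inv _ g (hgm i) v
  have hgg : ∀ v, v ∉ U → g.1 (g.1 v) = v := by
    intro v hv
    by_contra h
    apply hv
    rw [hU, Set.mem_iUnion]
    refine ⟨0, g.1 * g.1, ?_, h⟩
    have e : ((g.1 * g.1, (1 : ℤˣ)) : G V) = g * g := by
      refine Prod.ext rfl ?_
      show (1 : ℤˣ) = g.2 * g.2
      rw [hg]
      rfl
    rw [e]
    exact mul_mem (hgm 0) (hgm 0)
  have hαf : ∀ i v, v ∉ U → α i v = v := by
    intro i v hv
    by_contra h
    apply hv
    rw [hU, Set.mem_iUnion]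
    exact ⟨i, α i, ham i, h⟩
  have hαU : ∀ i v, α i v ∈ U ↔ v ∈ U := by
    intro i v
    constructor
    · intro h
      by_contra hv
      rw [hαf i v hv] at h
      exact hv h
    · intro h
      by_contra hv
      have h1 := hαf i _ hv
      have h2 := (α i).injective h1
      rw [h2] at hv
      exact hv h
  let M : Subgroup (G V) :=
    { carrier := {h | (∀ v, h.1 v ∈ U ↔ v ∈ U) ∧ ∀ v, v ∉ U → h.1 v = if h.2 = 1 then v else g.1 v}
      one_mem' := ⟨fun v => Iff.rfl, fun v _ => by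
        show v = if (1 : ℤˣ) = 1 then v else g.1 v
        rw [if_pos rfl]⟩
      mul_mem' := by
        rintro ⟨a, ea⟩ ⟨b, eb⟩ ⟨ha, ha'⟩ ⟨hb, hb'⟩
        refine ⟨fun v => (ha (b v)).trans (hb v), fun v hv => ?_⟩
        have hbv : b v ∉ U := fun h => hv ((hb v).1 h)
        show a (b v) = if ea * eb = 1 then v else g.1 v
        have h1 : a (b v) = if ea = 1 then b v else g.1 (b v) := ha' (b v) hbv
        have h2 : b v = if eb = 1 then v else g.1 v := hb' v hv
        rcases Int.units_eq_one_or ea with rfl | rfl <;> rcases Int.units_eq_one_or eb with rfl | rfl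
        · rw [h1, if_pos rfl, h2, if_pos rfl, if_pos (by decide)]
        · rw [h1, if_pos rfl, h2, if_neg hn1, if_neg (by decide)]
        · rw [h1, if_neg hn1, h2, if_pos rfl, if_neg (by decide)]
        · rw [h1, if_neg hn1, h2, if_neg hn1, if_pos (by decide), hgg v hv]
      inv_mem' := by
        rintro ⟨a, ea⟩ ⟨ha, ha'⟩
        have hiv : ∀ v, a⁻¹ v ∈ U ↔ v ∈ U := by
          intro v
          have h := ha (a⁻¹ v)
          rw [show a (a⁻¹ v) = v from Equiv.apply_symm_apply a v] at h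
          exact h.symm
        refine ⟨hiv, fun v hv => ?_⟩
        have hw : a⁻¹ v ∉ U := fun h => hv ((hiv v).1 h)
        show a⁻¹ v = if ea⁻¹ = 1 then v else g.1 v
        have h1 : a (a⁻¹ v) = if ea = 1 then a⁻¹ v else g.1 (a⁻¹ v) := ha' _ hw
        rw [show a (a⁻¹ v) = v from Equiv.apply_symm_apply a v] at h1
        rcases Int.units_eq_one_or ea with rfl | rfl
        · rw [if_pos rfl] at h1
          rw [if_pos (by decide)]
          exact h1.symm
        · rw [if_neg hn1] at h1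
          rw [if_neg (by decide)]
          have h2 := hgg _ hw
          rw [← h1] at h2
          exact h2.symm }
  have hle : cl g α ≤ M := by
    unfold cl
    rw [Subgroup.closure_le]
    rintro h (rfl | ⟨i, rfl⟩)
    · refine ⟨hgU, fun v _ => ?_⟩
      rw [hg, if_neg hn1]
    · refine ⟨hαU i, fun v hv => ?_⟩
      show α i v = if (1 : ℤˣ) = 1 then v else g.1 v
      rw [if_pos rfl]
      exact hαf i v hv
  rintro v ⟨π, hπ, hne⟩
  by_contra hv
  have h1 : (π, (1 : ℤˣ)) ∈ M := hle hπ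
  have h2 : π v = if (1 : ℤˣ) = 1 then v else g.1 v := h1.2 v hv
  rw [if_pos rfl] at h2
  exact hne h2

end Pool.Agent.MP_b5e4d4_co.AE
end

section

set_option autoImplicit false

/-!
# Task E5: a subgroup with few generators and few orbits

If some `β ∈ P0 K` has `2 r + 1 ≤ ncard (Mv (cl g fun _ => β))`, the first case. Otherwise take `α` from `E5_greedy` (`r = (r - 1) + 1`); by `E5_union`
`ncard ≤ r * (2 r) ≤ 2 r (r + 1)`.
-/

namespace Pool.Agent.MP_b5e4d4_co.AE

open Equiv Pool.Agent.MP_b5e4d4_co.FP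

theorem E5 {V : Type} [Fintype V] (K : Subgroup (G V)) (g : G V) (hg : g ∈ K) (hs : g.2 = -1) (r : ℕ)
    (hr : 1 ≤ r) (h : no K + r ≤ Fintype.card V) :
    (∃ α : Fin 1 → Perm V, (∀ i, α i ∈ P0 K) ∧ 2 * r + 1 ≤ (Mv (cl g α)).ncard) ∨
      ∃ α : Fin r → Perm V, (∀ i, α i ∈ P0 K) ∧ no (cl g α) + r ≤ Fintype.card V ∧
        (Mv (cl g α)).ncard ≤ 2 * r * (r + 1) := by
  classical
  by_cases hex : ∃ β ∈ P0 K, 2 * r + 1 ≤ (Mv (cl g fun _ : Fin 1 => β)).ncard
  · obtain ⟨β, hβ, h1⟩ := hex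
    exact Or.inl ⟨fun _ => β, fun _ => hβ, h1⟩
  · right
    push Not at hex
    obtain ⟨n, rfl⟩ : ∃ n, r = n + 1 := ⟨r - 1, by omega⟩
    obtain ⟨α, hα, h1⟩ := E5_greedy K g hg (n + 1) h
    refine ⟨α, hα, h1, ?_⟩
    have h2 := E5_union g hs α
    have h3 : (Mv (cl g α)).ncard ≤ (⋃ i, Mv (cl g fun _ : Fin 1 => α i)).ncard :=
      Set.ncard_le_ncard h2 (Set.toFinite _)
    have h4 : (⋃ i, Mv (cl g fun _ : Fin 1 => α i)).ncard ≤
        ∑ i : Fin (n + 1), (Mv (cl g fun _ : Fin 1 => α i)).ncard :=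
      Set.ncard_iUnion_le_of_fintype _
    have h5 : ∑ i : Fin (n + 1), (Mv (cl g fun _ : Fin 1 => α i)).ncard ≤
        ∑ _i : Fin (n + 1), 2 * (n + 1) :=
      Finset.sum_le_sum fun i _ => Nat.lt_succ_iff.1 (hex (α i) (hα i))
    rw [Finset.sum_const, Finset.card_univ, Fintype.card_fin, smul_eq_mul] at h5
    calc (Mv (cl g α)).ncard ≤ (n + 1) * (2 * (n + 1)) := h3.trans (h4.trans h5)
      _ ≤ 2 * (n + 1) * (n + 1 + 1) := by nlinarith

end Pool.Agent.MP_b5e4d4_co.AE
end

section

set_option autoImplicit false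

/-!
# Task E9s: from digraphs to generators

For a pair `(D, g)` counted in `NN V r` apply `E5` to `K = stab D`: there is `α` with `cl g α ≤ stab D` and one of the two conditions. So `NN V r` is at most the number of the triples
`(D, g, α)`; for given `(g, α)` the number of `D` with `cl g α ≤ stab D` is `2 ^ orb (cl g α)` (`W1_fix` in `FP/W1.lean`, `κ = Bool`).
-/

namespace Pool.Agent.MP_b5e4d4_co.AE

open Equiv Pool.Agent.MP_b5e4d4_co.FP

/-- the triples `(D, g, α)` -/
private abbrev E9sY (V : Type) (n : ℕ) (P : G V → (Fin n → Perm V) → Prop) : Type :=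
  {y : (Arc V → Bool) × (G V × (Fin n → Perm V)) //
    cl y.2.1 y.2.2 ≤ stab y.1 ∧ y.2.1.2 = -1 ∧ P y.2.1 y.2.2}

private theorem E9s_card {V : Type} [Fintype V] (n : ℕ) (P : G V → (Fin n → Perm V) → Prop) :
    Nat.card (E9sY V n P) = sumC n P := by
  classical
  have e : E9sY V n P ≃ Σ z : {z : G V × (Fin n → Perm V) // z.1.2 = -1 ∧ P z.1 z.2},
      {D : Arc V → Bool // cl z.1.1 z.1.2 ≤ stab D} :=
    { toFun := fun y => ⟨⟨y.1.2, y.2.2⟩, ⟨y.1.1, y.2.1⟩⟩
      invFun := fun s => ⟨(s.2.1, s.1.1), s.2.2, s.1.2⟩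
      left_inv := fun y => rfl
      right_inv := fun s => rfl }
  rw [Nat.card_congr e, Nat.card_sigma]
  have h1 : ∀ z : {z : G V × (Fin n → Perm V) // z.1.2 = -1 ∧ P z.1 z.2},
      Nat.card {D : Arc V → Bool // cl z.1.1 z.1.2 ≤ stab D} = 2 ^ orb (cl z.1.1 z.1.2) := by
    intro z
    rw [W1_fix, Fintype.card_bool]
  rw [Finset.sum_congr rfl fun z _ => h1 z]
  unfold sumC
  symm
  convert Finset.sum_subtype (p := fun z : G V × (Fin n → Perm V) => z.1.2 = -1 ∧ P z.1 z.2)
    (Finset.univ.filter fun z : G V × (Fin n → Perm V) => z.1.2 = -1 ∧ P z.1 z.2) ?_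
    (fun z => 2 ^ orb (cl z.1 z.2)) using 2
  intro z
  simp

private theorem E9s_le {V : Type} [Fintype V] {n : ℕ} (g : G V) (α : Fin n → Perm V)
    (K : Subgroup (G V)) (hg : g ∈ K) (h : ∀ i, α i ∈ P0 K) : cl g α ≤ K := by
  unfold cl
  rw [Subgroup.closure_le]
  rintro x (hx | ⟨i, rfl⟩)
  · rw [Set.mem_singleton_iff.1 hx]
    exact hg
  · exact (mem_P0 K (α i)).1 (h i)

theorem E9_split {V : Type} [Fintype V] (r : ℕ) (hr : 1 ≤ r) :
    NN V r ≤ sumC 1 (fun (g : G V) (α : Fin 1 → Perm V) => 2 * r + 1 ≤ (Mv (cl g α)).ncard) +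
      sumC r (fun (g : G V) (α : Fin r → Perm V) => no (cl g α) + r ≤ Fintype.card V ∧
        (Mv (cl g α)).ncard ≤ 2 * r * (r + 1)) := by
  classical
  rw [← E9s_card, ← E9s_card, ← Nat.card_sum]
  unfold NN
  have key : ∀ x : {x : (Arc V → Bool) × G V //
      x.2 ∈ stab x.1 ∧ x.2.2 = -1 ∧ no (stab x.1) + r ≤ Fintype.card V},
      ∃ y : E9sY V 1 (fun (g : G V) (α : Fin 1 → Perm V) => 2 * r + 1 ≤ (Mv (cl g α)).ncard) ⊕
        E9sY V r (fun (g : G V) (α : Fin r → Perm V) => no (cl g α) + r ≤ Fintype.card V ∧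
          (Mv (cl g α)).ncard ≤ 2 * r * (r + 1)),
        Sum.elim (fun y => (y.1.1, y.1.2.1)) (fun y => (y.1.1, y.1.2.1)) y = x.1 := by
    rintro ⟨⟨D, g⟩, hg, hs, hn⟩
    rcases E5 (stab D) g hg hs r hr hn with ⟨α, h1, h2⟩ | ⟨α, h1, h2, h3⟩
    · exact ⟨Sum.inl ⟨(D, g, α), E9s_le g α _ hg h1, hs, h2⟩, rfl⟩
    · exact ⟨Sum.inr ⟨(D, g, α), E9s_le g α _ hg h1, hs, h2, h3⟩, rfl⟩
  choose F hF using key
  refine Nat.card_le_card_of_injective F fun x y h => ?_
  apply Subtype.ext
  rw [← hF x, ← hF y, h]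

end Pool.Agent.MP_b5e4d4_co.AE
end
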