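import Pool.Agent.Lib.MP_b5e4d4_co.AE.Defs
import Pool.Agent.Lib.MP_b5e4d4_co.Mg.G001

section

set_option autoImplicit false

/-!
# Task D6t: the generating function

The coefficient of `X ^ p` in `Gam γ j * A (X / 2 ^ j)` is the sum over `m ≤ p` of
`γ(m, m - j) / (m! 2 ^ (m.choose 2)) * a (p - m) / ((p - m)! 2 ^ (j (p - m)))` (`Polynomial.coe_monomial`, `PowerSeries.coeff_mul` or `PowerSeries.coeff_monomial_mul`..), and
`p.choose 2 = m.choose 2 + (p - m).choose 2 + m (p - m)`, `(m - j) (p - m) + j (p - m) = m (p - m)`; for `m > p` both terms are `0`.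
-/

namespace Pool.Agent.MP_b5e4d4_co.AE

open Equiv Pool.Agent.MP_b5e4d4_co.FP

private theorem D6t_choose (m k : ℕ) : (m + k).choose 2 = m.choose 2 + k.choose 2 + m * k := by
  induction k with
  | zero => simp
  | succ k ih =>
    rw [← Nat.add_assoc, Nat.choose_succ_succ' (m + k) 1, ih, Nat.choose_succ_succ' k 1]
    simp only [Nat.choose_one_right]
    ring

private theorem D6t_mono (m p : ℕ) (c : ℚ) (F : PowerSeries ℚ) :
    PowerSeries.coeff p (PowerSeries.monomial m c * F) =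
      if m ≤ p then c * PowerSeries.coeff (p - m) F else 0 := by
  have h : PowerSeries.monomial m c = PowerSeries.C c * PowerSeries.X ^ m := by
    ext n
    rw [PowerSeries.coeff_monomial, PowerSeries.coeff_C_mul, PowerSeries.coeff_X_pow]
    split_ifs <;> simp
  rw [h, mul_assoc, PowerSeries.coeff_C_mul, PowerSeries.coeff_X_pow_mul']
  split_ifs <;> simp

theorem D6_t (γ : ℕ → ℕ → ℤ) (j p : ℕ) :
    PowerSeries.coeff p ((Gam γ j : PowerSeries ℚ) * PowerSeries.rescale ((1 / 2 : ℚ) ^ j) A) =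
      (t γ j p : ℚ) / (p.factorial * 2 ^ (p.choose 2)) := by
  have h1 : (Gam γ j : PowerSeries ℚ) = ∑ m ∈ Finset.Icc j (2 * j),
      PowerSeries.monomial m ((γ m (m - j) : ℚ) / (m.factorial * 2 ^ (m.choose 2))) := by
    unfold Gam
    rw [← Polynomial.coeToPowerSeries.ringHom_apply, map_sum]
    apply Finset.sum_congr rfl
    intro m _
    rw [Polynomial.coeToPowerSeries.ringHom_apply, Polynomial.coe_monomial]
  rw [h1, Finset.sum_mul, map_sum]
  unfold t
  rw [Int.cast_sum, Finset.sum_div]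
  apply Finset.sum_congr rfl
  intro m hm
  have hjm : j ≤ m := (Finset.mem_Icc.1 hm).1
  rw [D6t_mono]
  split_ifs with hmp
  · obtain ⟨k, rfl⟩ := Nat.exists_eq_add_of_le hmp
    obtain ⟨i, rfl⟩ := Nat.exists_eq_add_of_le hjm
    rw [Nat.add_sub_cancel_left, Nat.add_sub_cancel_left, PowerSeries.coeff_rescale]
    unfold A
    rw [PowerSeries.coeff_mk, D6t_choose (j + i) k]
    have h2 : ((j + i + k).choose (j + i) : ℚ) * ((j + i).factorial * k.factorial) =
        (j + i + k).factorial := by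
      have := Nat.choose_mul_factorial_mul_factorial (Nat.le_add_right (j + i) k)
      rw [Nat.add_sub_cancel_left] at this
      rw [← mul_assoc]
      exact_mod_cast this
    have h3 : ((j + i).factorial : ℚ) ≠ 0 := by exact_mod_cast (Nat.factorial_pos _).ne'
    have h4 : (k.factorial : ℚ) ≠ 0 := by exact_mod_cast (Nat.factorial_pos _).ne'
    have h5 : ((j + i + k).factorial : ℚ) ≠ 0 := by exact_mod_cast (Nat.factorial_pos _).ne'
    push_cast
    rw [← h2] at h5 ⊢
    rw [← pow_mul, div_pow, one_pow]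
    have h6 : ((j + i + k).choose (j + i) : ℚ) ≠ 0 := by
      exact_mod_cast (Nat.choose_pos (Nat.le_add_right _ _)).ne'
    field_simp
    ring
  · rw [Nat.choose_eq_zero_of_lt (not_le.1 hmp)]
    simp

end Pool.Agent.MP_b5e4d4_co.AE
end

section

set_option autoImplicit false

/-!
# Task E10a: numerical estimate for large moved sets

`p.choose 2 - (p - s).choose 2 = p s - s (s + 1) / 2` for `s ≤ p`; `p.choose s * s! ≤ p ^ s`, `s! ≤ p ^ s`, so it is enough that `(p + 1) ^ (2 s + 1) * 2 ^ (r p) ≤ C * 2 ^ E` with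
`E = p s - s (s + 1) / 2 - (s (s + 2) + 2 s (p - s)) / 4 ≥ s (2 p - s - 4) / 4` (real numbers). For `2 r + 1 ≤ s ≤ 8 r + 8`: `E ≥ s p / 2 - c ≥ r p + p / 2 - c` with a constant `c` (depending on `r`), and
`(p + 1) ^ (2 s + 1) 2 ^ (- p / 2)` is bounded. For `8 r + 8 ≤ s ≤ p`: `s (2 p - s - 4) / 4 ≥ s (p - 4) / 4`; with `L = log₂ (p + 1)`: `s ((p - 4) / 4 - 2 L) - L ≥ (8 r + 8) ((p - 4) / 4 - 2 L) - L ≥ r p` for all
large `p`, and finitely many pairs `(p, s)` remain (`s ≤ p`), which are covered by the constant `C`.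
-/

namespace Pool.Agent.MP_b5e4d4_co.AE

open Equiv Pool.Agent.MP_b5e4d4_co.FP

private theorem E10a_choose (s q : ℕ) :
    2 * (s + q).choose 2 + s = s * s + 2 * (s * q) + 2 * q.choose 2 := by
  induction q with
  | zero =>
    have h : 2 * s.choose 2 + s = s * s := by
      induction s with
      | zero => rfl
      | succ s ih =>
        rw [Nat.choose_succ_succ, Nat.choose_one_right]
        nlinarith
    simp only [add_zero, Nat.mul_zero, Nat.choose_zero_succ]
    exact h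
  | succ q ih =>
    have h1 : (s + (q + 1)).choose 2 = (s + q) + (s + q).choose 2 := by
      rw [← add_assoc, Nat.choose_succ_succ, Nat.choose_one_right]
    have h2 : (q + 1).choose 2 = q + q.choose 2 := by
      rw [Nat.choose_succ_succ, Nat.choose_one_right]
    rw [h1, h2]
    nlinarith

private theorem E10a_pow (K k : ℕ) (hk : 4 * K ≤ k) : K * (k + 1) ≤ 2 ^ k := by
  have h1 : k / 2 + 1 ≤ 2 ^ (k / 2) := Nat.lt_two_pow_self
  have h2 : 2 ^ (k / 2) * 2 ^ (k / 2) ≤ 2 ^ k := by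
    rw [← pow_add]
    exact Nat.pow_le_pow_right (by norm_num) (by omega)
  have h3 : k + 1 ≤ 2 * (k / 2 + 1) := by omega
  have h4 : 2 * K ≤ k / 2 + 1 := by omega
  calc K * (k + 1) ≤ K * (2 * (k / 2 + 1)) := Nat.mul_le_mul_left _ h3
    _ = (2 * K) * (k / 2 + 1) := by ring
    _ ≤ (k / 2 + 1) * (k / 2 + 1) := Nat.mul_le_mul_right _ h4
    _ ≤ 2 ^ (k / 2) * 2 ^ (k / 2) := Nat.mul_le_mul h1 h1
    _ ≤ _ := h2

private theorem E10a_num (r s p L : ℤ) (hr : 0 ≤ r) (hs : 2 * r + 1 ≤ s) (hp : s ≤ p) (hL : 1 ≤ L)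
    (hK : 100 * (r + 1) ^ 2 * L ≤ p) :
    4 * (2 * s + 1) * L + 4 * r * p ≤ s * (2 * p - s - 4) := by
  have h100 : 100 * L ≤ p := by
    have : (1 : ℤ) ≤ (r + 1) ^ 2 := by nlinarith
    nlinarith
  rcases le_total (8 * r + 8) s with h | h
  · have h1 : s * (100 * L) ≤ s * p := mul_le_mul_of_nonneg_left h100 (by linarith)
    have h2 : (8 * r + 8) * p ≤ s * p := mul_le_mul_of_nonneg_right h (by linarith)
    have h3 : s * s ≤ s * p := mul_le_mul_of_nonneg_left hp (by linarith)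
    have h4 : 1 * p ≤ s * p := mul_le_mul_of_nonneg_right (by linarith) (by linarith)
    nlinarith
  · have h1 : (2 * r + 1) * p ≤ s * p := mul_le_mul_of_nonneg_right hs (by linarith)
    have h2 : s * L ≤ (8 * r + 8) * L := mul_le_mul_of_nonneg_right h (by linarith)
    have h3 : s * s ≤ (8 * r + 8) * (8 * r + 8) := mul_le_mul h h (by linarith) (by linarith)
    have h4 : 0 ≤ r * L := by positivity
    have h5 : 0 ≤ r * r * (L - 1) := mul_nonneg (mul_nonneg hr hr) (by linarith)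
    have h6 : 0 ≤ r * (L - 1) := mul_nonneg hr (by linarith)
    have h7 : 0 ≤ r * r := mul_nonneg hr hr
    nlinarith

theorem E10_a (r : ℕ) : ∃ C : ℕ, ∀ p s : ℕ, 2 * r + 1 ≤ s → s ≤ p →
    p.choose s * s.factorial ^ 2 * 2 ^ ((s * (s + 2) + 2 * s * (p - s)) / 4 + (p - s).choose 2) *
      2 ^ (r * p) * (p + 1) ≤ C * 2 ^ p.choose 2 := by
  set K := 100 * (r + 1) ^ 2 with hK
  set p0 := 2 ^ (4 * K) with hp0
  set F : ℕ → ℕ → ℕ := fun p s => p.choose s * s.factorial ^ 2 *
    2 ^ ((s * (s + 2) + 2 * s * (p - s)) / 4 + (p - s).choose 2) * 2 ^ (r * p) * (p + 1) with hF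
  refine ⟨(∑ p ∈ Finset.range p0, ∑ s ∈ Finset.range p0, F p s) + 1, fun p s hs hp => ?_⟩
  change F p s ≤ _
  rcases lt_or_ge p p0 with h | h
  · have h1 : F p s ≤ ∑ p ∈ Finset.range p0, ∑ s ∈ Finset.range p0, F p s := by
      calc F p s ≤ ∑ s ∈ Finset.range p0, F p s :=
            Finset.single_le_sum (f := fun s => F p s) (fun _ _ => Nat.zero_le _)
              (Finset.mem_range.2 (lt_of_le_of_lt hp h))
        _ ≤ _ := Finset.single_le_sum (f := fun p => ∑ s ∈ Finset.range p0, F p s)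
              (fun _ _ => Nat.zero_le _) (Finset.mem_range.2 h)
    calc F p s ≤ (∑ p ∈ Finset.range p0, ∑ s ∈ Finset.range p0, F p s) + 1 := by omega
      _ ≤ _ := Nat.le_mul_of_pos_right _ (by positivity)
  · -- large `p`
    have hp1 : p ≠ 0 := by
      have : 0 < p0 := Nat.two_pow_pos _
      omega
    set k := Nat.log 2 p with hk
    have hk4 : 4 * K ≤ k := (Nat.le_log_iff_pow_le (by norm_num) hp1).2 h
    have hkp : 2 ^ k ≤ p := Nat.pow_log_le_self 2 hp1
    have hpk : p + 1 ≤ 2 ^ (k + 1) := Nat.lt_pow_succ_log_self (by norm_num) p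
    have hKL : K * (k + 1) ≤ p := (E10a_pow K k hk4).trans hkp
    have h0 : (100 * ((r : ℤ) + 1) ^ 2 * ((k : ℤ) + 1)) ≤ p := by
      have h0' : ((K * (k + 1) : ℕ) : ℤ) ≤ p := Int.ofNat_le.2 hKL
      rw [hK] at h0'
      push_cast at h0'
      exact h0'
    have hs0 : 2 * (r : ℤ) + 1 ≤ s := by
      have := Int.ofNat_le.2 hs
      push_cast at this
      exact this
    have hk0 : (1 : ℤ) ≤ (k : ℤ) + 1 := by
      have := Int.natCast_nonneg k
      linarith
    have hnum := E10a_num (r : ℤ) s p ((k : ℤ) + 1) (Int.natCast_nonneg r) hs0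
      (Int.ofNat_le.2 hp) hk0 h0
    obtain ⟨q, rfl⟩ := Nat.exists_eq_add_of_le hp
    have e1 : s + q - s = q := by omega
    have hcs := E10a_choose s q
    have hexp : (2 * s + 1) * (k + 1) + (((s * (s + 2) + 2 * s * q) / 4 + q.choose 2) +
        r * (s + q)) ≤ (s + q).choose 2 := by
      have h1 : 4 * ((s * (s + 2) + 2 * s * q) / 4) ≤ s * (s + 2) + 2 * s * q :=
        Nat.mul_div_le _ _
      have h2 : 4 * ((2 * s + 1) * (k + 1)) + 4 * (r * (s + q)) + (s * (s + 2) + 2 * s * q) + 4 * q.choose 2 ≤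
          4 * (s + q).choose 2 := by
        zify at hcs ⊢
        push_cast at hnum
        nlinarith
      omega
    have h3 : (s + q).choose s * s.factorial ^ 2 * (s + q + 1) ≤
        2 ^ ((2 * s + 1) * (k + 1)) := by
      have h4 : (s + q).choose s * s.factorial ≤ (s + q + 1) ^ s := by
        rw [mul_comm, ← Nat.descFactorial_eq_factorial_mul_choose]
        exact (Nat.descFactorial_le_pow _ _).trans (Nat.pow_le_pow_left (by omega) _)
      have h5 : s.factorial ≤ (s + q + 1) ^ s :=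
        (Nat.factorial_le_pow s).trans (Nat.pow_le_pow_left (by omega) _)
      calc (s + q).choose s * s.factorial ^ 2 * (s + q + 1)
          = ((s + q).choose s * s.factorial) * s.factorial * (s + q + 1) := by ring
        _ ≤ (s + q + 1) ^ s * (s + q + 1) ^ s * (s + q + 1) :=
            Nat.mul_le_mul_right _ (Nat.mul_le_mul h4 h5)
        _ = (s + q + 1) ^ (2 * s + 1) := by rw [pow_succ, two_mul, pow_add]
        _ ≤ (2 ^ (k + 1)) ^ (2 * s + 1) := Nat.pow_le_pow_left hpk _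
        _ = _ := by rw [← pow_mul, mul_comm (k + 1)]
    rw [hF]
    simp only []
    rw [e1]
    calc (s + q).choose s * s.factorial ^ 2 *
          2 ^ ((s * (s + 2) + 2 * s * q) / 4 + q.choose 2) * 2 ^ (r * (s + q)) * (s + q + 1)
        = ((s + q).choose s * s.factorial ^ 2 * (s + q + 1)) *
          2 ^ (((s * (s + 2) + 2 * s * q) / 4 + q.choose 2) + r * (s + q)) := by
          rw [pow_add 2 ((s * (s + 2) + 2 * s * q) / 4 + q.choose 2)]; ring
      _ ≤ 2 ^ ((2 * s + 1) * (k + 1)) *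
          2 ^ (((s * (s + 2) + 2 * s * q) / 4 + q.choose 2) + r * (s + q)) :=
          Nat.mul_le_mul_right _ h3
      _ = 2 ^ ((2 * s + 1) * (k + 1) + (((s * (s + 2) + 2 * s * q) / 4 + q.choose 2) +
            r * (s + q))) := (pow_add _ _ _).symm
      _ ≤ 2 ^ (s + q).choose 2 := Nat.pow_le_pow_right (by norm_num) hexp
      _ ≤ _ := Nat.le_mul_of_pos_left _ (Nat.succ_pos _)

end Pool.Agent.MP_b5e4d4_co.AE
end

section

set_option autoImplicit false

/-!
# Task E10b: numerical estimate for bounded moved sets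

`p.choose s ≤ (p + 1) ^ s ≤ (p + 1) ^ (2 r (r + 1))`, and the exponent on the left is `s ^ 2 + (s - r) (p - s) + (p - s).choose 2 + r p = p.choose 2 + r s + s (s + 1) / 2` for `r ≤ s ≤ p`; for
`s > p` the left side is `0`. The constant: `s!` and `r s + s (s + 1) / 2` are bounded as `s ≤ 2 r (r + 1)`.
-/

namespace Pool.Agent.MP_b5e4d4_co.AE

open Equiv Pool.Agent.MP_b5e4d4_co.FP

private theorem E10b_choose (s q : ℕ) : s * q + q.choose 2 ≤ (s + q).choose 2 := by
  induction q with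
  | zero => simp
  | succ q ih =>
    have h1 : (s + (q + 1)).choose 2 = (s + q) + (s + q).choose 2 := by
      rw [← add_assoc, Nat.choose_succ_succ, Nat.choose_one_right]
    have h2 : (q + 1).choose 2 = q + q.choose 2 := by
      rw [Nat.choose_succ_succ, Nat.choose_one_right]
    rw [h1, h2]
    nlinarith

theorem E10_b (r : ℕ) : ∃ C : ℕ, ∀ p s : ℕ, r ≤ s → s ≤ 2 * r * (r + 1) →
    p.choose s * s.factorial ^ (r + 1) * 2 ^ (s ^ 2 + (s - r) * (p - s) + (p - s).choose 2) *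
      2 ^ (r * p) ≤ C * (p + 1) ^ (2 * r * (r + 1)) * 2 ^ p.choose 2 := by
  set M := 2 * r * (r + 1) with hM
  refine ⟨M.factorial ^ (r + 1) * 2 ^ (r * M + M ^ 2), fun p s hr hs => ?_⟩
  rcases lt_or_ge p s with h | h
  · rw [Nat.choose_eq_zero_of_lt h]
    simp
  · obtain ⟨q, rfl⟩ := Nat.exists_eq_add_of_le h
    have e1 : s + q - s = q := by omega
    rw [e1]
    have h1 : (s + q).choose s ≤ (s + q + 1) ^ M := by
      calc (s + q).choose s ≤ (s + q) ^ s := Nat.choose_le_pow _ _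
        _ ≤ (s + q + 1) ^ s := Nat.pow_le_pow_left (by omega) _
        _ ≤ (s + q + 1) ^ M := Nat.pow_le_pow_right (by omega) hs
    have h2 : s.factorial ^ (r + 1) ≤ M.factorial ^ (r + 1) :=
      Nat.pow_le_pow_left (Nat.factorial_le hs) _
    have h3 : (s ^ 2 + (s - r) * q + q.choose 2) + r * (s + q) ≤
        (r * M + M ^ 2) + (s + q).choose 2 := by
      have h4 := E10b_choose s q
      have h5 : (s - r) * q + r * q = s * q := by
        rw [← add_mul, Nat.sub_add_cancel hr]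
      have h6 : r * s ≤ r * M := Nat.mul_le_mul_left _ hs
      have h7 : s ^ 2 ≤ M ^ 2 := Nat.pow_le_pow_left hs 2
      nlinarith
    calc (s + q).choose s * s.factorial ^ (r + 1) * 2 ^ (s ^ 2 + (s - r) * q + q.choose 2) *
          2 ^ (r * (s + q))
        = ((s + q).choose s * s.factorial ^ (r + 1)) *
          2 ^ ((s ^ 2 + (s - r) * q + q.choose 2) + r * (s + q)) := by
          rw [pow_add 2 (s ^ 2 + (s - r) * q + q.choose 2)]; ring
      _ ≤ ((s + q + 1) ^ M * M.factorial ^ (r + 1)) *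
          2 ^ ((r * M + M ^ 2) + (s + q).choose 2) :=
          Nat.mul_le_mul (Nat.mul_le_mul h1 h2) (Nat.pow_le_pow_right (by norm_num) h3)
      _ = _ := by rw [pow_add 2 (r * M + M ^ 2)]; ring

end Pool.Agent.MP_b5e4d4_co.AE
end

section

set_option autoImplicit false

/-!
# Task E13r: the recurrence of the numbers `a n`

`a n = ∑ k, n! / (k! (n - 2 k)!)`: 1, 1, 3, 7, 25, 81, 331, ...
The divisions are exact (`k! (n - 2 k)!` divides `n!`; e.g. `n! / (k! (n - 2 k)!) = n.choose (2 k) * (2 k)! / k!`, or `= n.descFactorial ..`), and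
`n! / (k! (n - 2 k)!) = (n - 1)! / (k! (n - 1 - 2 k)!) + 2 (n - 1) * (n - 2)! / ((k - 1)! (n - 2 k)!)` since `n = (n - 2 k) + 2 k`. It may help to pass to rational numbers, or to sum over
`k ∈ range (n + 1)` with the convention `0` for `2 k > n`.
-/

namespace Pool.Agent.MP_b5e4d4_co.AE

open Equiv Pool.Agent.MP_b5e4d4_co.FP

theorem E13_pos (n : ℕ) : 0 < a n := by
  unfold a
  have h1 : 0 < n.factorial / ((0 : ℕ).factorial * (n - 2 * 0).factorial) := by
    rw [Nat.factorial_zero, one_mul, mul_zero, Nat.sub_zero, Nat.div_self (Nat.factorial_pos n)]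
    exact Nat.one_pos
  exact lt_of_lt_of_le h1 (Finset.single_le_sum
    (f := fun k => n.factorial / (k.factorial * (n - 2 * k).factorial))
    (fun k _ => Nat.zero_le _) (Finset.mem_range.2 (Nat.succ_pos _)))

/-- the terms, as rational numbers -/
private def E13r_A (n k : ℕ) : ℚ :=
  if 2 * k ≤ n then (n.factorial : ℚ) / (k.factorial * (n - 2 * k).factorial) else 0

private theorem E13r_dvd (n k : ℕ) (h : 2 * k ≤ n) :
    k.factorial * (n - 2 * k).factorial ∣ n.factorial :=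
  (Nat.mul_dvd_mul_right (Nat.factorial_dvd_factorial (by omega : k ≤ 2 * k)) _).trans
    (Nat.factorial_mul_factorial_dvd_factorial h)

private theorem E13r_sum (n N : ℕ) (hN : n / 2 + 1 ≤ N) :
    (a n : ℚ) = ∑ k ∈ Finset.range N, E13r_A n k := by
  have h1 : ∑ k ∈ Finset.range N, E13r_A n k = ∑ k ∈ Finset.range (n / 2 + 1), E13r_A n k := by
    refine (Finset.sum_subset (Finset.range_subset_range.2 hN) fun k _ hk => ?_).symm
    rw [Finset.mem_range, not_lt] at hk
    unfold E13r_A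
    rw [if_neg (by omega)]
  rw [h1]
  unfold a
  push_cast
  refine Finset.sum_congr rfl fun k hk => ?_
  rw [Finset.mem_range] at hk
  have h2 : 2 * k ≤ n := by omega
  unfold E13r_A
  rw [if_pos h2, Nat.cast_div (E13r_dvd n k h2)]
  · push_cast
    rfl
  · exact_mod_cast (Nat.mul_pos (Nat.factorial_pos _) (Nat.factorial_pos _)).ne'

private theorem E13r_zero (n : ℕ) : E13r_A n 0 = 1 := by
  unfold E13r_A
  rw [if_pos (by omega), Nat.factorial_zero, mul_zero, Nat.sub_zero, Nat.cast_one, one_mul]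
  exact div_self (by exact_mod_cast (Nat.factorial_pos n).ne')

private theorem E13r_step (n j : ℕ) :
    E13r_A (n + 2) (j + 1) = E13r_A (n + 1) (j + 1) + 2 * (n + 1) * E13r_A n j := by
  unfold E13r_A
  have hj : ((j.factorial : ℕ) : ℚ) ≠ 0 := by exact_mod_cast (Nat.factorial_pos j).ne'
  rcases lt_trichotomy n (2 * j) with h | h | h
  · rw [if_neg (by omega), if_neg (by omega), if_neg (by omega)]
    ring
  · subst h
    rw [if_pos (by omega), if_neg (by omega), if_pos le_rfl]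
    have e1 : 2 * j + 2 - 2 * (j + 1) = 0 := by omega
    rw [e1, Nat.sub_self, Nat.factorial_zero, Nat.factorial_succ (2 * j + 1), Nat.factorial_succ (2 * j),
      Nat.factorial_succ j]
    push_cast
    field_simp
    ring
  · obtain ⟨r, rfl⟩ : ∃ r, n = 2 * j + 1 + r := ⟨n - (2 * j + 1), by omega⟩
    rw [if_pos (by omega), if_pos (by omega), if_pos (by omega)]
    have e1 : 2 * j + 1 + r + 2 - 2 * (j + 1) = r + 1 := by omega
    have e2 : 2 * j + 1 + r + 1 - 2 * (j + 1) = r := by omega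
    have e3 : 2 * j + 1 + r - 2 * j = r + 1 := by omega
    have hr : ((r.factorial : ℕ) : ℚ) ≠ 0 := by exact_mod_cast (Nat.factorial_pos r).ne'
    have hr1 : ((r : ℚ) + 1) ≠ 0 := by positivity
    have hj1 : ((j : ℚ) + 1) ≠ 0 := by positivity
    rw [e1, e2, e3, Nat.factorial_succ (2 * j + 1 + r + 1), Nat.factorial_succ (2 * j + 1 + r),
      Nat.factorial_succ j, Nat.factorial_succ r]
    push_cast
    field_simp
    ring

theorem E13_rec (n : ℕ) : a (n + 2) = a (n + 1) + 2 * (n + 1) * a n := by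
  have h : ((a (n + 2) : ℕ) : ℚ) = ((a (n + 1) + 2 * (n + 1) * a n : ℕ) : ℚ) := by
    push_cast
    rw [E13r_sum (n + 2) (n + 3) (by omega), E13r_sum (n + 1) (n + 3) (by omega),
      E13r_sum n (n + 2) (by omega), Finset.sum_range_succ', Finset.sum_range_succ' _ (n + 2),
      E13r_zero, E13r_zero, Finset.mul_sum]
    rw [Finset.sum_congr rfl fun j _ => E13r_step n j, Finset.sum_add_distrib]
    ring
  exact_mod_cast h

end Pool.Agent.MP_b5e4d4_co.AE
end

section

set_option autoImplicit false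

/-!
# Task E13: growth of the numbers `a n`

`E13_sq`: with `x n = a (n + 1) / a n` (real numbers) the recurrence is `x (n + 1) = 1 + 2 (n + 1) / x n`; by induction `√(n + 1) ≤ x n ≤ 1 + 2 √(n + 1)`: upper bound
`1 + 2 (n + 1) / √(n + 1) ≤ 1 + 2 √(n + 2)`; lower bound `1 + 2 (n + 1) / (1 + 2 √(n + 1)) ≥ √(n + 1) + 1 / 2 ≥ √(n + 2)`.
`E13_pow`: iterate `E13_sq`: `(a (p - m)) ^ 2 * (p (p - 1) ⋯ (p - m + 1)) ≤ (a p) ^ 2`, and `p ^ m ≤ m ^ m * (p (p - 1) ⋯ (p - m + 1))` as `p ≤ m (p - i)` for `i < m ≤ p`.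
-/

namespace Pool.Agent.MP_b5e4d4_co.AE

open Equiv Pool.Agent.MP_b5e4d4_co.FP

private theorem E13_a0 : a 0 = 1 := by
  unfold a
  simp

private theorem E13_a1 : a 1 = 1 := by
  unfold a
  simp

theorem E13_mono : Monotone a := by
  apply monotone_nat_of_le_succ
  intro n
  rcases n with _ | n
  · rw [E13_a0, zero_add, E13_a1]
  · rw [show n + 1 + 1 = n + 2 from rfl, E13_rec]
    exact Nat.le_add_right _ _

private theorem E13_key (n : ℕ) :
    √((n : ℝ) + 1) * (a n : ℝ) ≤ a (n + 1) ∧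
      (a (n + 1) : ℝ) ≤ (1 + 2 * √((n : ℝ) + 1)) * a n := by
  induction n with
  | zero =>
    rw [E13_a0, zero_add, E13_a1]
    norm_num
  | succ n ih =>
    obtain ⟨h1, h2⟩ := ih
    have hrec : (a (n + 2) : ℝ) = a (n + 1) + 2 * ((n : ℝ) + 1) * a n := by
      rw [E13_rec]; push_cast; ring
    set s := √((n : ℝ) + 1) with hs
    have hs2 : s ^ 2 = (n : ℝ) + 1 := Real.sq_sqrt (by positivity)
    have hs1 : 1 ≤ s := by
      rw [hs]
      apply Real.one_le_sqrt.2
      have : (0 : ℝ) ≤ n := by positivity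
      linarith
    have ha0 : (0 : ℝ) ≤ a n := by positivity
    have ha1 : (0 : ℝ) ≤ a (n + 1) := by positivity
    have e : ((n + 1 : ℕ) : ℝ) + 1 = (n : ℝ) + 2 := by push_cast; ring
    rw [e]
    have hm : s ≤ √((n : ℝ) + 2) := Real.sqrt_le_sqrt (by linarith)
    have hm2 : √((n : ℝ) + 2) ≤ s + 1 / 2 := by
      apply Real.sqrt_le_iff.2
      constructor
      · linarith
      · nlinarith
    rw [show n + 1 + 1 = n + 2 from rfl, hrec, ← hs2]
    constructor
    · have h3 : (1 + 2 * s) * ((s + 1 / 2) * (a (n + 1) : ℝ)) ≤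
          (1 + 2 * s) * (a (n + 1) + 2 * s ^ 2 * a n) := by
        have h4 : s ^ 2 * (a (n + 1) : ℝ) ≤ s ^ 2 * ((1 + 2 * s) * a n) :=
          mul_le_mul_of_nonneg_left h2 (by positivity)
        nlinarith
      have h5 := le_of_mul_le_mul_left h3 (by linarith : (0 : ℝ) < 1 + 2 * s)
      refine le_trans ?_ h5
      exact mul_le_mul_of_nonneg_right hm2 ha1
    · have h3 : s * (s * (a n : ℝ)) ≤ s * a (n + 1) :=
        mul_le_mul_of_nonneg_left h1 (by linarith)
      have h4 : s * (a (n + 1) : ℝ) ≤ √((n : ℝ) + 2) * a (n + 1) :=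
        mul_le_mul_of_nonneg_right hm ha1
      nlinarith

theorem E13_sq (n : ℕ) : (n + 1) * a n ^ 2 ≤ a (n + 1) ^ 2 := by
  have h := (E13_key n).1
  have h2 : (√((n : ℝ) + 1) * (a n : ℝ)) ^ 2 ≤ (a (n + 1) : ℝ) ^ 2 :=
    pow_le_pow_left₀ (by positivity) h 2
  rw [mul_pow, Real.sq_sqrt (by positivity)] at h2
  exact_mod_cast h2

theorem E13_pow (m : ℕ) : ∃ C : ℕ, ∀ p : ℕ, m ≤ p → a (p - m) ^ 2 * p ^ m ≤ C * a p ^ 2 := by
  induction m with
  | zero => exact ⟨1, fun p _ => by simp⟩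
  | succ m ih =>
    obtain ⟨C, hC⟩ := ih
    refine ⟨(m + 1) * C, fun p hp => ?_⟩
    obtain ⟨q, rfl⟩ := Nat.exists_eq_add_of_le hp
    have e1 : m + 1 + q - (m + 1) = q := by omega
    have e2 : m + 1 + q - m = q + 1 := by omega
    have h1 := hC (m + 1 + q) (by omega)
    rw [e2] at h1
    rw [e1]
    have h2 : a q ^ 2 * (m + 1 + q) ≤ (m + 1) * a (q + 1) ^ 2 := by
      have h3 := E13_sq q
      have h4 : m + 1 + q ≤ (m + 1) * (q + 1) := by nlinarith
      calc a q ^ 2 * (m + 1 + q) ≤ a q ^ 2 * ((m + 1) * (q + 1)) := Nat.mul_le_mul_left _ h4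
        _ = (m + 1) * ((q + 1) * a q ^ 2) := by ring
        _ ≤ _ := Nat.mul_le_mul_left _ h3
    calc a q ^ 2 * (m + 1 + q) ^ (m + 1) = (a q ^ 2 * (m + 1 + q)) * (m + 1 + q) ^ m := by
          rw [pow_succ]; ring
      _ ≤ ((m + 1) * a (q + 1) ^ 2) * (m + 1 + q) ^ m := Nat.mul_le_mul_right _ h2
      _ = (m + 1) * (a (q + 1) ^ 2 * (m + 1 + q) ^ m) := by ring
      _ ≤ (m + 1) * (C * a (m + 1 + q) ^ 2) := Nat.mul_le_mul_left _ h1
      _ = _ := by ring

end Pool.Agent.MP_b5e4d4_co.AE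
end

section

set_option autoImplicit false

/-!
# Task E9: the bound for `NN`

`E9_split`, then `E9_gen` with `n = 1`, `B s = (s (s + 2) + 2 s (card V - s)) / 4 + (card V - s).choose 2`, `E7_a` (`ncard ≤ card V`), and with `n = r`,
`B s = s ^ 2 + (s - r) (card V - s) + (card V - s).choose 2`, `E7_b` (`r ≤ s` by `E1_add`).
-/

namespace Pool.Agent.MP_b5e4d4_co.AE

open Equiv Pool.Agent.MP_b5e4d4_co.FP

theorem E9 {V : Type} [Fintype V] (r : ℕ) (hr : 1 ≤ r) (p : ℕ) (hp : Fintype.card V = p) :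
    NN V r ≤
      (∑ s ∈ Finset.Icc (2 * r + 1) p, p.choose s * (s.factorial ^ 2 * a (p - s)) *
        2 ^ ((s * (s + 2) + 2 * s * (p - s)) / 4 + (p - s).choose 2)) +
      ∑ s ∈ Finset.Icc r (2 * r * (r + 1)), p.choose s * (s.factorial ^ (r + 1) * a (p - s)) *
        2 ^ (s ^ 2 + (s - r) * (p - s) + (p - s).choose 2) := by
  subst hp
  have hmem : ∀ (n : ℕ) (g : G V) (α : Fin n → Perm V), g ∈ cl g α := fun n g α =>
    Subgroup.subset_closure (Or.inl rfl)
  refine (E9_split r hr).trans (add_le_add ?_ ?_)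
  · refine E9_gen (V := V) 1 (fun (g : G V) (α : Fin 1 → Perm V) => 2 * r + 1 ≤ (Mv (cl g α)).ncard)
      (fun s => (s * (s + 2) + 2 * s * (Fintype.card V - s)) / 4 + (Fintype.card V - s).choose 2)
      (2 * r + 1) (Fintype.card V) ?_
    intro g α hg hP
    refine ⟨hP, ?_, E7_a (cl g α) g (hmem 1 g α) hg _ rfl⟩
    rw [← Nat.card_eq_fintype_card]
    exact Set.ncard_le_card _
  · refine E9_gen (V := V) r (fun (g : G V) (α : Fin r → Perm V) => no (cl g α) + r ≤ Fintype.card V ∧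
        (Mv (cl g α)).ncard ≤ 2 * r * (r + 1))
      (fun s => s ^ 2 + (s - r) * (Fintype.card V - s) + (Fintype.card V - s).choose 2)
      r (2 * r * (r + 1)) ?_
    intro g α hg hP
    refine ⟨?_, hP.2, E7_b (cl g α) g (hmem r g α) hg _ r rfl hP.1⟩
    have h1 := E1_add (cl g α)
    have h2 := hP.1
    omega

end Pool.Agent.MP_b5e4d4_co.AE
end

section

set_option autoImplicit false

/-!
# Task E12: the bound for `NN`

`E9`, `E10_a`, `E10_b`, and `a (p - s) ≤ a p` (`E13_mono`). The first sum has at most `p + 1` terms, each at most `C 2 ^ (p.choose 2) a p / ((p + 1) 2 ^ (r p))`.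
-/

namespace Pool.Agent.MP_b5e4d4_co.AE

open Equiv Pool.Agent.MP_b5e4d4_co.FP

theorem E12 (r : ℕ) (hr : 1 ≤ r) : ∃ C : ℕ, ∀ (V : Type) [Fintype V],
    NN V r * 2 ^ (r * Fintype.card V) ≤
      C * (Fintype.card V + 1) ^ C * 2 ^ (Fintype.card V).choose 2 * a (Fintype.card V) := by
  obtain ⟨C1, hC1⟩ := E10_a r
  obtain ⟨C2, hC2⟩ := E10_b r
  set M := 2 * r * (r + 1) with hM
  refine ⟨C1 + (M + 1) * C2 + M + 1, fun V _ => ?_⟩
  obtain ⟨p, hp⟩ : ∃ p, p = Fintype.card V := ⟨_, rfl⟩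
  rw [← hp]
  have h9 := E9 (V := V) r hr p hp.symm
  have ha : ∀ s, a (p - s) ≤ a p := fun s => E13_mono (Nat.sub_le _ _)
  -- the first sum
  have hS1 : (∑ s ∈ Finset.Icc (2 * r + 1) p, p.choose s * (s.factorial ^ 2 * a (p - s)) *
        2 ^ ((s * (s + 2) + 2 * s * (p - s)) / 4 + (p - s).choose 2)) * 2 ^ (r * p) ≤
      (p + 1) * (C1 * 2 ^ p.choose 2 * a p) := by
    rw [Finset.sum_mul]
    calc _ ≤ ∑ _s ∈ Finset.Icc (2 * r + 1) p, C1 * 2 ^ p.choose 2 * a p := by
          apply Finset.sum_le_sum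
          intro s hs
          rw [Finset.mem_Icc] at hs
          have h1 := hC1 p s hs.1 hs.2
          calc p.choose s * (s.factorial ^ 2 * a (p - s)) *
              2 ^ ((s * (s + 2) + 2 * s * (p - s)) / 4 + (p - s).choose 2) * 2 ^ (r * p)
              = (p.choose s * s.factorial ^ 2 *
                  2 ^ ((s * (s + 2) + 2 * s * (p - s)) / 4 + (p - s).choose 2) *
                  2 ^ (r * p)) * a (p - s) := by ring
            _ ≤ (C1 * 2 ^ p.choose 2) * a p := by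
                apply Nat.mul_le_mul _ (ha s)
                exact (Nat.le_mul_of_pos_right _ (Nat.succ_pos p)).trans h1
      _ = (Finset.Icc (2 * r + 1) p).card * (C1 * 2 ^ p.choose 2 * a p) := by
          rw [Finset.sum_const, smul_eq_mul]
      _ ≤ _ := by
          apply Nat.mul_le_mul_right
          rw [Nat.card_Icc]
          omega
  -- the second sum
  have hS2 : (∑ s ∈ Finset.Icc r (2 * r * (r + 1)), p.choose s * (s.factorial ^ (r + 1) * a (p - s)) *
        2 ^ (s ^ 2 + (s - r) * (p - s) + (p - s).choose 2)) * 2 ^ (r * p) ≤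
      (M + 1) * (C2 * (p + 1) ^ M * 2 ^ p.choose 2 * a p) := by
    rw [Finset.sum_mul]
    calc _ ≤ ∑ _s ∈ Finset.Icc r (2 * r * (r + 1)), C2 * (p + 1) ^ M * 2 ^ p.choose 2 * a p := by
          apply Finset.sum_le_sum
          intro s hs
          rw [Finset.mem_Icc] at hs
          have h1 := hC2 p s hs.1 hs.2
          calc p.choose s * (s.factorial ^ (r + 1) * a (p - s)) *
              2 ^ (s ^ 2 + (s - r) * (p - s) + (p - s).choose 2) * 2 ^ (r * p)
              = (p.choose s * s.factorial ^ (r + 1) *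
                  2 ^ (s ^ 2 + (s - r) * (p - s) + (p - s).choose 2) *
                  2 ^ (r * p)) * a (p - s) := by ring
            _ ≤ (C2 * (p + 1) ^ M * 2 ^ p.choose 2) * a p := Nat.mul_le_mul h1 (ha s)
      _ = (Finset.Icc r (2 * r * (r + 1))).card * (C2 * (p + 1) ^ M * 2 ^ p.choose 2 * a p) := by
          rw [Finset.sum_const, smul_eq_mul]
      _ ≤ _ := by
          apply Nat.mul_le_mul_right
          rw [Nat.card_Icc, ← hM]
          omega
  have hE : ∀ e, e ≤ C1 + (M + 1) * C2 + M + 1 → (p + 1) ^ e ≤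
      (p + 1) ^ (C1 + (M + 1) * C2 + M + 1) := fun e he => Nat.pow_le_pow_right (Nat.succ_pos p) he
  set X := (p + 1) ^ (C1 + (M + 1) * C2 + M + 1) with hX
  have hX1 : p + 1 ≤ X := by
    have := hE 1 (by omega)
    rwa [pow_one] at this
  have hX2 : (p + 1) ^ M ≤ X := hE M (by omega)
  calc NN V r * 2 ^ (r * p) ≤ _ := Nat.mul_le_mul_right _ h9
    _ ≤ (p + 1) * (C1 * 2 ^ p.choose 2 * a p) +
        (M + 1) * (C2 * (p + 1) ^ M * 2 ^ p.choose 2 * a p) := by
        rw [add_mul]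
        exact Nat.add_le_add hS1 hS2
    _ ≤ X * (C1 * 2 ^ p.choose 2 * a p) + (M + 1) * (C2 * X * 2 ^ p.choose 2 * a p) := by
        apply Nat.add_le_add (Nat.mul_le_mul_right _ hX1)
        apply Nat.mul_le_mul_left
        apply Nat.mul_le_mul_right
        apply Nat.mul_le_mul_right
        exact Nat.mul_le_mul_left _ hX2
    _ = (C1 + (M + 1) * C2) * X * 2 ^ p.choose 2 * a p := by ring
    _ ≤ _ := by
        apply Nat.mul_le_mul_right
        apply Nat.mul_le_mul_right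
        apply Nat.mul_le_mul_right
        omega

end Pool.Agent.MP_b5e4d4_co.AE
end

section

set_option autoImplicit false

/-!
# Task E14t: the size of the terms

A sum over `m ∈ Icc J (2 J)`; for `m ≤ p` the term satisfies `p.choose m ≤ p ^ m`, `(m - J) (p - m) + (p - m).choose 2 + J p + m (m - 1) / 2 = p.choose 2 + J m`, and
`p ^ m * a (p - m) ≤ C p ^ J * a p` by `E13_pow`: `(p ^ m a (p - m)) ^ 2 ≤ C p ^ m (a p) ^ 2 ≤ C (p ^ J a p) ^ 2` (`m ≤ 2 J`, `1 ≤ p`). For `m > p` the term is `0`.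
-/

namespace Pool.Agent.MP_b5e4d4_co.AE

open Equiv Pool.Agent.MP_b5e4d4_co.FP

private theorem E14t_choose (n k : ℕ) : (n + k).choose 2 = n.choose 2 + k.choose 2 + n * k := by
  induction k with
  | zero => simp
  | succ k ih =>
    rw [← add_assoc, Nat.choose_succ_succ' (n + k) 1, ih, Nat.choose_succ_succ' k 1,
      Nat.choose_one_right, Nat.choose_one_right]
    ring

private theorem E14t_exp {J m p : ℕ} (h1 : J ≤ m) (h2 : m ≤ p) :
    (m - J) * (p - m) + (p - m).choose 2 + J * p ≤ p.choose 2 + J * m := by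
  obtain ⟨k, rfl⟩ := Nat.exists_eq_add_of_le h2
  obtain ⟨l, rfl⟩ := Nat.exists_eq_add_of_le h1
  have h3 := E14t_choose (J + l) k
  rw [h3, Nat.add_sub_cancel_left, Nat.add_sub_cancel_left]
  nlinarith [Nat.zero_le ((J + l).choose 2)]

private theorem E14t_a {J m p C : ℕ} (h1 : m ≤ 2 * J) (hp : 1 ≤ p)
    (hC : a (p - m) ^ 2 * p ^ m ≤ C * a p ^ 2) : p ^ m * a (p - m) ≤ C * p ^ J * a p := by
  refine (Nat.pow_le_pow_iff_left (n := 2) (by norm_num)).1 ?_
  have h2 : p ^ m ≤ p ^ (2 * J) := Nat.pow_le_pow_right hp h1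
  have h3 : C ≤ C ^ 2 := by
    rcases Nat.eq_zero_or_pos C with h | h
    · rw [h]; norm_num
    · nlinarith
  calc (p ^ m * a (p - m)) ^ 2 = p ^ m * (a (p - m) ^ 2 * p ^ m) := by ring
    _ ≤ p ^ (2 * J) * (C ^ 2 * a p ^ 2) := by
        refine Nat.mul_le_mul h2 (hC.trans ?_)
        exact Nat.mul_le_mul_right _ h3
    _ = (C * p ^ J * a p) ^ 2 := by ring

private theorem E14t_term {J m p C : ℕ} (h1 : J ≤ m) (h2 : m ≤ 2 * J) (hp : 1 ≤ p)
    (hC : m ≤ p → a (p - m) ^ 2 * p ^ m ≤ C * a p ^ 2) :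
    p.choose m * 2 ^ ((m - J) * (p - m) + (p - m).choose 2) * a (p - m) * 2 ^ (J * p) ≤
      2 ^ (J * m) * C * p ^ J * 2 ^ p.choose 2 * a p := by
  rcases Nat.lt_or_ge p m with h3 | h3
  · rw [Nat.choose_eq_zero_of_lt h3]
    simp
  · have h4 := E14t_exp h1 h3
    have h5 := E14t_a h2 hp (hC h3)
    have h6 : p.choose m ≤ p ^ m := Nat.choose_le_pow p m
    have h7 : 2 ^ ((m - J) * (p - m) + (p - m).choose 2 + J * p) ≤ 2 ^ (p.choose 2 + J * m) :=
      Nat.pow_le_pow_right (by norm_num) h4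
    calc p.choose m * 2 ^ ((m - J) * (p - m) + (p - m).choose 2) * a (p - m) * 2 ^ (J * p)
        = (p.choose m * a (p - m)) * 2 ^ ((m - J) * (p - m) + (p - m).choose 2 + J * p) := by
          rw [pow_add _ _ (J * p)]; ring
      _ ≤ (p ^ m * a (p - m)) * 2 ^ (p.choose 2 + J * m) :=
          Nat.mul_le_mul (Nat.mul_le_mul_right _ h6) h7
      _ ≤ (C * p ^ J * a p) * 2 ^ (p.choose 2 + J * m) := Nat.mul_le_mul_right _ h5
      _ = _ := by rw [pow_add]; ring

theorem E14_t (γ : ℕ → ℕ → ℤ) (J : ℕ) : ∃ C : ℕ, ∀ p : ℕ, 1 ≤ p →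
    |t γ J p| * 2 ^ (J * p) ≤ C * p ^ J * 2 ^ p.choose 2 * a p := by
  choose Cm hCm using E13_pow
  refine ⟨∑ m ∈ Finset.Icc J (2 * J), (γ m (m - J)).natAbs * (2 ^ (J * m) * Cm m), fun p hp => ?_⟩
  unfold t
  have h1 : |∑ m ∈ Finset.Icc J (2 * J), (p.choose m : ℤ) * γ m (m - J) *
      2 ^ ((m - J) * (p - m) + (p - m).choose 2) * (a (p - m) : ℤ)| ≤
      ∑ m ∈ Finset.Icc J (2 * J), |(p.choose m : ℤ) * γ m (m - J) *
      2 ^ ((m - J) * (p - m) + (p - m).choose 2) * (a (p - m) : ℤ)| :=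
    Finset.abs_sum_le_sum_abs _ _
  refine (mul_le_mul_of_nonneg_right h1 (by positivity)).trans ?_
  rw [Finset.sum_mul]
  push_cast
  rw [Finset.sum_mul, Finset.sum_mul, Finset.sum_mul]
  refine Finset.sum_le_sum fun m hm => ?_
  rw [Finset.mem_Icc] at hm
  have h2 := E14t_term (J := J) (m := m) (p := p) (C := Cm m) hm.1 hm.2 hp (hCm m p)
  have h3 : ((p.choose m * 2 ^ ((m - J) * (p - m) + (p - m).choose 2) * a (p - m) * 2 ^ (J * p) : ℕ) : ℤ) ≤
      ((2 ^ (J * m) * Cm m * p ^ J * 2 ^ p.choose 2 * a p : ℕ) : ℤ) := by exact_mod_cast h2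
  push_cast at h3
  rw [abs_mul, abs_mul, abs_mul, Nat.abs_cast, Nat.abs_cast, abs_pow, abs_two]
  calc (p.choose m : ℤ) * |γ m (m - J)| * 2 ^ ((m - J) * (p - m) + (p - m).choose 2) *
        (a (p - m) : ℤ) * 2 ^ (J * p)
      = |γ m (m - J)| * ((p.choose m : ℤ) * 2 ^ ((m - J) * (p - m) + (p - m).choose 2) *
        (a (p - m) : ℤ) * 2 ^ (J * p)) := by ring
    _ ≤ |γ m (m - J)| * (2 ^ (J * m) * (Cm m : ℤ) * (p : ℤ) ^ J * 2 ^ p.choose 2 * (a p : ℤ)) :=
        mul_le_mul_of_nonneg_left h3 (abs_nonneg _)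
    _ = _ := by ring

end Pool.Agent.MP_b5e4d4_co.AE
end

section

set_option autoImplicit false

/-!
# Task E14: from the crude to the sharp error term

Apply the crude bound `hc` to `J + 1`: `|s p - ∑ j ≤ J + 1, t j| * 2 ^ ((J + 2) p) ≤ C (p + 1) ^ C 2 ^ (p.choose 2) a p`, and `(p + 1) ^ C ≤ C' 2 ^ p`, so the same with `2 ^ ((J + 1) p)` on the left and
`C C' 2 ^ (p.choose 2) a p` on the right (`2 ^ ((J + 2) p) = 2 ^ ((J + 1) p) * 2 ^ p`). The remaining term is `t γ (J + 1) p` (`Finset.sum_range_succ`), see `E14_t`.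
-/

namespace Pool.Agent.MP_b5e4d4_co.AE

open Equiv Pool.Agent.MP_b5e4d4_co.FP

private theorem E14_pow (C : ℕ) : ∃ K : ℕ, ∀ p : ℕ, (p + 1) ^ C ≤ K * 2 ^ p := by
  have h := tendsto_pow_const_div_const_pow_of_one_lt C (one_lt_two : (1 : ℝ) < 2)
  obtain ⟨M, hM⟩ := h.bddAbove_range
  have hM' : ∀ n : ℕ, (n : ℝ) ^ C / 2 ^ n ≤ M := fun n => hM (Set.mem_range_self n)
  refine ⟨⌈2 * M⌉₊, fun p => ?_⟩
  have h1 := hM' (p + 1)
  rw [div_le_iff₀ (by positivity)] at h1
  have h2 : ((p : ℝ) + 1) ^ C ≤ (2 * M) * 2 ^ p := by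
    push_cast at h1
    rw [pow_succ] at h1
    linarith
  have h3 : (2 * M) ≤ (⌈2 * M⌉₊ : ℝ) := Nat.le_ceil _
  have h4 : ((p : ℝ) + 1) ^ C ≤ (⌈2 * M⌉₊ : ℝ) * 2 ^ p :=
    h2.trans (mul_le_mul_of_nonneg_right h3 (by positivity))
  exact_mod_cast h4

theorem E14 (γ : ℕ → ℕ → ℤ) (s : ℕ → ℤ)
    (hc : ∀ J : ℕ, ∃ C : ℕ, ∀ p : ℕ, |s p - ∑ j ∈ Finset.range (J + 1), t γ j p| * 2 ^ ((J + 1) * p) ≤
      C * (p + 1) ^ C * 2 ^ p.choose 2 * a p) (J : ℕ) :
    ∃ C : ℕ, ∀ p : ℕ, 1 ≤ p → |s p - ∑ j ∈ Finset.range (J + 1), t γ j p| * 2 ^ ((J + 1) * p) ≤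
      C * p ^ (J + 1) * 2 ^ p.choose 2 * a p := by
  obtain ⟨C1, h1⟩ := hc (J + 1)
  obtain ⟨K, hK⟩ := E14_pow C1
  obtain ⟨C2, h2⟩ := E14_t γ (J + 1)
  refine ⟨C1 * K + C2, fun p hp => ?_⟩
  have h1p := h1 p
  have hKp : ((p : ℤ) + 1) ^ C1 ≤ K * 2 ^ p := by exact_mod_cast hK p
  have h2p := h2 p hp
  rw [Finset.sum_range_succ] at h1p
  set S := ∑ j ∈ Finset.range (J + 1), t γ j p with hS
  have ha : (0 : ℤ) ≤ 2 ^ p.choose 2 * a p := by positivity
  have e1 : (2 : ℤ) ^ ((J + 1 + 1) * p) = 2 ^ ((J + 1) * p) * 2 ^ p := by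
    rw [← pow_add]; congr 1; ring
  rw [e1] at h1p
  have h3 : |s p - (S + t γ (J + 1) p)| * 2 ^ ((J + 1) * p) * 2 ^ p ≤
      (C1 * K * (2 ^ p.choose 2 * a p)) * 2 ^ p := by
    calc |s p - (S + t γ (J + 1) p)| * 2 ^ ((J + 1) * p) * 2 ^ p
        = |s p - (S + t γ (J + 1) p)| * (2 ^ ((J + 1) * p) * 2 ^ p) := by ring
      _ ≤ C1 * ((p : ℤ) + 1) ^ C1 * 2 ^ p.choose 2 * a p := h1p
      _ = ((p : ℤ) + 1) ^ C1 * (C1 * (2 ^ p.choose 2 * a p)) := by ring
      _ ≤ (K * 2 ^ p) * (C1 * (2 ^ p.choose 2 * a p)) :=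
          mul_le_mul_of_nonneg_right hKp (by positivity)
      _ = _ := by ring
  have h4 : |s p - (S + t γ (J + 1) p)| * 2 ^ ((J + 1) * p) ≤ C1 * K * (2 ^ p.choose 2 * a p) :=
    le_of_mul_le_mul_right h3 (by positivity)
  have h5 : |s p - S| ≤ |s p - (S + t γ (J + 1) p)| + |t γ (J + 1) p| := by
    calc |s p - S| = |(s p - (S + t γ (J + 1) p)) + t γ (J + 1) p| := by congr 1; ring
      _ ≤ _ := abs_add_le _ _
  have hp1 : (1 : ℤ) ≤ (p : ℤ) ^ (J + 1) := by
    have : (1 : ℤ) ≤ (p : ℤ) := by exact_mod_cast hp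
    exact one_le_pow₀ this
  have h6 : (C1 : ℤ) * K * (2 ^ p.choose 2 * a p) ≤ C1 * K * (2 ^ p.choose 2 * a p) * (p : ℤ) ^ (J + 1) :=
    le_mul_of_one_le_right (by positivity) hp1
  calc |s p - S| * 2 ^ ((J + 1) * p)
      ≤ (|s p - (S + t γ (J + 1) p)| + |t γ (J + 1) p|) * 2 ^ ((J + 1) * p) :=
        mul_le_mul_of_nonneg_right h5 (by positivity)
    _ = |s p - (S + t γ (J + 1) p)| * 2 ^ ((J + 1) * p) + |t γ (J + 1) p| * 2 ^ ((J + 1) * p) := by ring
    _ ≤ C1 * K * (2 ^ p.choose 2 * a p) * (p : ℤ) ^ (J + 1) + C2 * p ^ (J + 1) * 2 ^ p.choose 2 * a p :=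
        add_le_add (h4.trans h6) h2p
    _ = _ := by push_cast; ring

end Pool.Agent.MP_b5e4d4_co.AE
end

section

set_option autoImplicit false

/-!
# Task E2: the weights of the groups with many orbits are bounded

`H = H'.map (phi p τ hτ)` with `p = Mv H` (`B4`), and `Mv H` has at most `2 J` points (`E1_two`); compose `phi` with the renaming
`Fin m ≃ Mv H` (`m = ncard`, `G (Fin m) ≃* G (Mv H)`): `w H = w₀ m H''` for a subgroup `H''` of `G (Fin m)`, `m ≤ 2 J` (`A3`; `w₀ m` from `A1_exists`). Take for `C` the sum of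
all `|w₀ m H''|`, `m ≤ 2 J`.
-/

namespace Pool.Agent.MP_b5e4d4_co.AE

open Equiv Pool.Agent.MP_b5e4d4_co.FP

open scoped Classical in
private theorem E2_bound (w₀ : ∀ m : ℕ, Subgroup (G (Fin m)) → ℤ) (J : ℕ) :
    ∃ C : ℕ, ∀ m ≤ 2 * J, ∀ H : Subgroup (G (Fin m)), (w₀ m H).natAbs ≤ C := by
  refine ⟨∑ m ∈ Finset.range (2 * J + 1), ∑ H : Subgroup (G (Fin m)), (w₀ m H).natAbs, ?_⟩
  intro m hm H
  have h1 : (w₀ m H).natAbs ≤ ∑ H : Subgroup (G (Fin m)), (w₀ m H).natAbs :=
    Finset.single_le_sum (f := fun H => (w₀ m H).natAbs) (fun _ _ => Nat.zero_le _)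
      (Finset.mem_univ H)
  refine h1.trans ?_
  exact Finset.single_le_sum (f := fun m => ∑ H : Subgroup (G (Fin m)), (w₀ m H).natAbs)
    (fun _ _ => Nat.zero_le _) (Finset.mem_range.2 (by omega))

theorem E2 (J : ℕ) : ∃ C : ℕ, ∀ (V : Type) [Fintype V] (w : Subgroup (G V) → ℤ), IsW w →
    ∀ H : Subgroup (G V), ¬ H ≤ S V → Fintype.card V ≤ no H + J → |w H| ≤ C := by
  classical
  choose w₀ hw₀ using fun m : ℕ => A1_exists (Fin m)
  obtain ⟨C, hC⟩ := E2_bound w₀ J
  refine ⟨C, ?_⟩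
  intro V _ w hw H hH hcard
  obtain ⟨τ, hτ, H', hH', _⟩ := B4 H hH (fun v => v ∈ Mv H) (fun _ => Iff.rfl)
  obtain ⟨m, hm⟩ : ∃ m, m = Nat.card {v : V // v ∈ Mv H} := ⟨_, rfl⟩
  have e : Fin m ≃ {v : V // v ∈ Mv H} := by
    rw [hm]
    exact (Finite.equivFin _).symm
  have hm2 : m ≤ 2 * J := by
    have h1 := E1_two H
    have h2 : (Mv H).ncard = m := by
      rw [hm]
      rfl
    omega
  let ψ : G (Fin m) ≃* G {v : V // v ∈ Mv H} :=
    MulEquiv.prodCongr e.permCongrHom (MulEquiv.refl ℤˣ)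
  let φ : G (Fin m) →* G V := (phi (fun v => v ∈ Mv H) τ hτ).comp ψ.toMonoidHom
  have hφ : Function.Injective φ := (phi_inj (fun v => v ∈ Mv H) τ hτ).comp ψ.injective
  have hs : ∀ g, (φ g).2 = g.2 := fun g => rfl
  have h3 : (H'.comap ψ.toMonoidHom).map φ = H := by
    have h4 : (H'.comap ψ.toMonoidHom).map φ =
        ((H'.comap ψ.toMonoidHom).map ψ.toMonoidHom).map (phi (fun v => v ∈ Mv H) τ hτ) := by
      rw [Subgroup.map_map]
    rw [h4, Subgroup.map_comap_eq_self_of_surjective ψ.surjective, ← hH']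
  have h5 := A3 w hw (w₀ m) (hw₀ m) φ hφ hs (H'.comap ψ.toMonoidHom)
  rw [h3] at h5
  rw [h5, Int.abs_eq_natAbs]
  exact_mod_cast hC m hm2 _

end Pool.Agent.MP_b5e4d4_co.AE
end

section

set_option autoImplicit false

/-!
# Task E3: there are few groups with many orbits

Send `H` to the triple (`M`, `H'`, `g`): `M` the finset of the moved points (at most `(card V + 1) ^ (2 J)` finsets with at most `2 J` elements, `E1_two`), `g ∈ H ≤ K` any
element of sign `-1`, `H'` with `H = H'.map (phi p τ hτ)` (`B4`, `p v ↔ v ∈ M`), renamed to a subgroup of `G (Fin m)` (by a fixed bijection `Fin m ≃ M`, `m ≤ 2 J`; so there are at most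
`C = ∑ m ≤ 2 J, card (Subgroup (G (Fin m)))` possible values). The map is injective: `τ` is `g.1` outside `M` (`phi_neg_neg`), so `H = H'.map (phi ..)` is determined.
-/

namespace Pool.Agent.MP_b5e4d4_co.AE

open Equiv Pool.Agent.MP_b5e4d4_co.FP

/-- the set of elements which is determined by the data: `f` names the moved points, `d` is the renamed group,
`g` an element of sign `-1` -/
private def E3_F {V : Type} (J : ℕ) (d : (m : Fin (2 * J + 1)) × Subgroup (G (Fin m.1)))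
    (f : ℕ → Option V) (g : G V) : Set (G V) :=
  {h | ∃ h' ∈ d.2, h.2 = h'.2 ∧
    (∀ i : Fin d.1.1, ∀ v, f i.1 = some v → f (h'.1 i).1 = some (h.1 v)) ∧
    ∀ v, (∀ i : Fin d.1.1, f i.1 ≠ some v) → (h.2 = 1 → h.1 v = v) ∧ (h.2 = -1 → h.1 v = g.1 v)}

private theorem E3_key {V : Type} [Fintype V] (J : ℕ) (H : Subgroup (G V)) (hH : ¬ H ≤ S V)
    (hcard : Fintype.card V ≤ no H + J) :
    ∃ (d : (m : Fin (2 * J + 1)) × Subgroup (G (Fin m.1))) (f : Fin (2 * J) → Option V) (g : G V),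
      (g ∈ H ∧ g.2 = -1) ∧
      (H : Set (G V)) = E3_F J d (fun n => if hn : n < 2 * J then f ⟨n, hn⟩ else none) g := by
  classical
  obtain ⟨τ, hτ, H', hH', _⟩ := B4 H hH (fun v => v ∈ Mv H) (fun _ => Iff.rfl)
  obtain ⟨m, hm⟩ : ∃ m, m = Nat.card {v : V // v ∈ Mv H} := ⟨_, rfl⟩
  have e : Fin m ≃ {v : V // v ∈ Mv H} := by
    rw [hm]
    exact (Finite.equivFin _).symm
  have hm2 : m ≤ 2 * J := by
    have h1 := E1_two H
    have h2 : (Mv H).ncard = m := by
      rw [hm]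
      rfl
    omega
  let ψ : G (Fin m) ≃* G {v : V // v ∈ Mv H} :=
    MulEquiv.prodCongr e.permCongrHom (MulEquiv.refl ℤˣ)
  obtain ⟨g, hg, hg2⟩ : ∃ g : G V, g ∈ H ∧ g.2 = -1 := by
    rw [SetLike.not_le_iff_exists] at hH
    obtain ⟨g, hg, hg2⟩ := hH
    refine ⟨g, hg, ?_⟩
    rcases Int.units_eq_one_or g.2 with h | h
    · exact absurd (show g ∈ S V from h) hg2
    · exact h
  -- `g` is `τ` outside of `Mv H`
  have hgτ : ∀ v (hv : ¬ v ∈ Mv H), g.1 v = (τ ⟨v, hv⟩ : V) := by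
    intro v hv
    rw [hH'] at hg
    obtain ⟨g', _, rfl⟩ := hg
    exact phi_neg_neg (fun v => v ∈ Mv H) τ hτ g' (by rw [← hg2]; rfl) v hv
  refine ⟨⟨⟨m, by omega⟩, H'.comap ψ.toMonoidHom⟩,
    fun i => if hi : i.1 < m then some (e ⟨i.1, hi⟩ : V) else none, g, ⟨hg, hg2⟩, ?_⟩
  have hf : ∀ i : Fin m, (fun n => if hn : n < 2 * J then
      (fun i : Fin (2 * J) => if hi : i.1 < m then some (e ⟨i.1, hi⟩ : V) else none) ⟨n, hn⟩ else none)
        i.1 = some (e i : V) := by
    intro i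
    have hi : i.1 < 2 * J := lt_of_lt_of_le i.2 hm2
    simp [hi]
  have hψ : ∀ (h : G (Fin m)) (i : Fin m), (((ψ h).1 (e i) : {v : V // v ∈ Mv H}) : V) = e (h.1 i) := by
    intro h i
    show ((e.permCongr h.1 (e i) : {v : V // v ∈ Mv H}) : V) = e (h.1 i)
    rw [Equiv.permCongr_apply, Equiv.symm_apply_apply]
  ext h
  constructor
  · intro hh
    have hh1 : h ∈ H := hh
    rw [hH'] at hh1
    obtain ⟨h', hh', rfl⟩ := hh1
    refine ⟨ψ.symm h', ?_, rfl, ?_, ?_⟩
    · show ψ (ψ.symm h') ∈ H'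
      rw [ψ.apply_symm_apply]
      exact hh'
    · intro i v hv
      have h1 := hf i
      rw [h1] at hv
      have h2 : (e i : V) = v := Option.some.inj hv
      subst h2
      have h3 := hf ((ψ.symm h').1 i)
      rw [h3]
      rw [phi_pos (fun v => v ∈ Mv H) τ hτ h' (e i : V) (e i).2, ← hψ, ψ.apply_symm_apply]
    · intro v hv
      have hvM : ¬ v ∈ Mv H := by
        intro hvM
        obtain ⟨i, hi⟩ := e.surjective ⟨v, hvM⟩
        refine hv i ?_
        have h1 := hf i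
        rw [h1, hi]
      refine ⟨fun h1 => ?_, fun h1 => ?_⟩
      · exact phi_neg_one (fun v => v ∈ Mv H) τ hτ h' h1 v hvM
      · rw [hgτ v hvM]
        exact phi_neg_neg (fun v => v ∈ Mv H) τ hτ h' h1 v hvM
  · rintro ⟨h', hh', h1, h2, h3⟩
    show h ∈ H
    rw [hH']
    refine ⟨ψ h', hh', ?_⟩
    refine Prod.ext ?_ h1.symm
    ext v
    by_cases hv : v ∈ Mv H
    · obtain ⟨i, hi⟩ := e.surjective ⟨v, hv⟩
      have h4 := h2 i v (by rw [hf i, hi])
      rw [hf (h'.1 i)] at h4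
      have h5 : (e (h'.1 i) : V) = h.1 v := Option.some.inj h4
      rw [← h5, phi_pos (fun v => v ∈ Mv H) τ hτ (ψ h') v hv, ← hψ, hi]
    · have h4 := h3 v (by
        intro i hi
        rw [hf i] at hi
        have h5 : (e i : V) = v := Option.some.inj hi
        exact hv (h5 ▸ (e i).2))
      rcases Int.units_eq_one_or h.2 with h5 | h5
      · rw [h4.1 h5]
        exact phi_neg_one (fun v => v ∈ Mv H) τ hτ (ψ h') (by rw [← h5, h1]; rfl) v hv
      · rw [h4.2 h5, hgτ v hv]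
        exact phi_neg_neg (fun v => v ∈ Mv H) τ hτ (ψ h') (by rw [← h5, h1]; rfl) v hv

theorem E3 (J : ℕ) : ∃ C : ℕ, ∀ (V : Type) [Fintype V] (K : Subgroup (G V)),
    Nat.card {H : Subgroup (G V) // H ≤ K ∧ ¬ H ≤ S V ∧ Fintype.card V ≤ no H + J} ≤
      C * (Fintype.card V + 1) ^ (2 * J) * Nat.card {g : G V // g ∈ K ∧ g.2 = -1} := by
  classical
  refine ⟨Nat.card ((m : Fin (2 * J + 1)) × Subgroup (G (Fin m.1))), ?_⟩
  intro V _ K
  choose d f g hg hF using fun H : {H : Subgroup (G V) // H ≤ K ∧ ¬ H ≤ S V ∧ Fintype.card V ≤ no H + J} =>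
    E3_key J H.1 H.2.2.1 H.2.2.2
  let Φ : {H : Subgroup (G V) // H ≤ K ∧ ¬ H ≤ S V ∧ Fintype.card V ≤ no H + J} →
      (((m : Fin (2 * J + 1)) × Subgroup (G (Fin m.1))) × (Fin (2 * J) → Option V)) ×
        {g : G V // g ∈ K ∧ g.2 = -1} := fun H =>
    ((d H, f H), ⟨g H, H.2.1 (hg H).1, (hg H).2⟩)
  have hΦ : Function.Injective Φ := by
    intro H₁ H₂ h
    have h1 : d H₁ = d H₂ := congrArg (fun x => x.1.1) h
    have h2 : f H₁ = f H₂ := congrArg (fun x => x.1.2) h
    have h3 : g H₁ = g H₂ := congrArg (fun x => x.2.1) h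
    refine Subtype.ext (SetLike.coe_injective ?_)
    rw [hF H₁, hF H₂, h1, h2, h3]
  have h := Nat.card_le_card_of_injective Φ hΦ
  rw [Nat.card_prod, Nat.card_prod] at h
  have h2 : Nat.card (Fin (2 * J) → Option V) = (Fintype.card V + 1) ^ (2 * J) := by
    rw [Nat.card_eq_fintype_card, Fintype.card_fun, Fintype.card_option, Fintype.card_fin]
  rw [h2] at h
  exact h

end Pool.Agent.MP_b5e4d4_co.AE
end

section

set_option autoImplicit false

/-!
# Task E4: the error is at most the number of pairs `NN`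

Both numbers are sums over `D : Arc V → Bool`: `Nat.card {D // SC D} = ∑ D, sumG (¬ H ≤ S ∧ H ≤ stab D) w` (`A2_ind`) and
`TJ w J = ∑ D, sumG (¬ H ≤ S ∧ card V ≤ no H + J ∧ H ≤ stab D) w` (`W1_fix` with `κ = Bool`, exchange the sums). If `card V ≤ no (stab D) + J`, then all
`H ≤ stab D` have `card V ≤ no H + J` (`E1_mono`), and the two inner sums agree. Otherwise `no (stab D) + (J + 1) ≤ card V` and the difference is at most
`1 + C₂ * (number of the H) ≤ (1 + C₂ C₃ (card V + 1) ^ (2 J)) * card {g ∈ stab D, g.2 = -1}` (`E2`, `E3`; if `SC D` fails then both sums are `0`, if it holds then there is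
such a `g`). The sum over these `D` of `card {g ∈ stab D, g.2 = -1}` is `NN V (J + 1)`.
-/

namespace Pool.Agent.MP_b5e4d4_co.AE

open Equiv Pool.Agent.MP_b5e4d4_co.FP

open scoped Classical in
private theorem E4_TJ {V : Type} [Fintype V] (w : Subgroup (G V) → ℤ) (J : ℕ) :
    TJ w J = ∑ D : Arc V → Bool,
      sumG (fun H : Subgroup (G V) => (¬ H ≤ S V ∧ Fintype.card V ≤ no H + J) ∧ H ≤ stab D) w := by
  unfold TJ sumG
  have h1 : ∀ H : Subgroup (G V), w H * 2 ^ orb H =
      ∑ D : Arc V → Bool, if H ≤ stab D then w H else 0 := by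
    intro H
    rw [← Finset.sum_filter, Finset.sum_const, nsmul_eq_mul, mul_comm]
    congr 1
    have h2 := W1_fix (κ := Bool) H
    rw [Fintype.card_bool, Nat.card_eq_fintype_card, Fintype.card_subtype] at h2
    have h3 : (Finset.univ.filter fun D : Arc V → Bool => H ≤ stab D).card = 2 ^ orb H := by
      rw [← h2]
    rw [h3]
    push_cast
    rfl
  rw [Finset.sum_congr rfl (fun H _ => h1 H), Finset.sum_comm]
  refine Finset.sum_congr rfl fun D _ => ?_
  rw [← Finset.sum_filter, Finset.filter_filter]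
  refine Finset.sum_congr ?_ fun _ _ => rfl
  ext H
  simp only [Finset.mem_filter, Finset.mem_univ, true_and]

private theorem E4_NN (V : Type) [Fintype V] (r : ℕ) :
    open scoped Classical in
    NN V r = ∑ D : Arc V → Bool,
      Nat.card {g : G V // g ∈ stab D ∧ g.2 = -1 ∧ no (stab D) + r ≤ Fintype.card V} := by
  classical
  unfold NN
  have e : {x : (Arc V → Bool) × G V //
      x.2 ∈ stab x.1 ∧ x.2.2 = -1 ∧ no (stab x.1) + r ≤ Fintype.card V} ≃
      Σ D : Arc V → Bool,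
        {g : G V // g ∈ stab D ∧ g.2 = -1 ∧ no (stab D) + r ≤ Fintype.card V} :=
    { toFun := fun x => ⟨x.1.1, ⟨x.1.2, x.2⟩⟩
      invFun := fun y => ⟨(y.1, y.2.1), y.2.2⟩
      left_inv := fun x => rfl
      right_inv := fun y => rfl }
  rw [Nat.card_congr e, Nat.card_sigma]

theorem E4 (J : ℕ) : ∃ C : ℕ, ∀ (V : Type) [Fintype V] (w : Subgroup (G V) → ℤ), IsW w →
    |(Nat.card {D : Arc V → Bool // SC D} : ℤ) - TJ w J| ≤
      ((C * (Fintype.card V + 1) ^ (2 * J) * NN V (J + 1) : ℕ) : ℤ) := by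
  obtain ⟨C₂, h2⟩ := E2 J
  obtain ⟨C₃, h3⟩ := E3 J
  refine ⟨1 + C₂ * C₃, fun V _ w hw => ?_⟩
  classical
  have hsc : (Nat.card {D : Arc V → Bool // SC D} : ℤ) = ∑ D : Arc V → Bool,
      sumG (fun H : Subgroup (G V) => ¬ H ≤ S V ∧ H ≤ stab D) w := by
    rw [Nat.card_eq_fintype_card, Fintype.card_subtype, Finset.card_filter]
    push_cast
    refine Finset.sum_congr rfl fun D _ => ?_
    rw [A2_ind w hw D]
  have htj := E4_TJ w J
  have hnn := E4_NN V (J + 1)
  rw [hsc, htj, ← Finset.sum_sub_distrib]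
  refine (Finset.abs_sum_le_sum_abs _ _).trans ?_
  have hR : (((1 + C₂ * C₃) * (Fintype.card V + 1) ^ (2 * J) * NN V (J + 1) : ℕ) : ℤ) =
      ∑ D : Arc V → Bool, (((1 + C₂ * C₃) * (Fintype.card V + 1) ^ (2 * J) *
        Nat.card {g : G V // g ∈ stab D ∧ g.2 = -1 ∧ no (stab D) + (J + 1) ≤ Fintype.card V} :
          ℕ) : ℤ) := by
    rw [hnn, Finset.mul_sum]
    push_cast
    rfl
  rw [hR]
  refine Finset.sum_le_sum fun D _ => ?_
  by_cases hD : Fintype.card V ≤ no (stab D) + J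
  · have h4 : sumG (fun H : Subgroup (G V) => ¬ H ≤ S V ∧ H ≤ stab D) w =
        sumG (fun H : Subgroup (G V) =>
          (¬ H ≤ S V ∧ Fintype.card V ≤ no H + J) ∧ H ≤ stab D) w := by
      unfold sumG
      refine Finset.sum_congr ?_ fun _ _ => rfl
      ext H
      simp only [Finset.mem_filter, Finset.mem_univ, true_and]
      constructor
      · rintro ⟨ha, hb⟩
        have := E1_mono H (stab D) hb
        exact ⟨⟨ha, by omega⟩, hb⟩
      · rintro ⟨⟨ha, _⟩, hb⟩
        exact ⟨ha, hb⟩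
    rw [h4, sub_self, abs_zero]
    exact Int.natCast_nonneg _
  · have hD' : no (stab D) + (J + 1) ≤ Fintype.card V := by omega
    by_cases hS : stab D ≤ S V
    · have h4 : sumG (fun H : Subgroup (G V) => ¬ H ≤ S V ∧ H ≤ stab D) w = 0 := by
        unfold sumG
        apply Finset.sum_eq_zero
        intro H hH
        simp only [Finset.mem_filter, Finset.mem_univ, true_and] at hH
        exact absurd (hH.2.trans hS) hH.1
      have h5 : sumG (fun H : Subgroup (G V) =>
          (¬ H ≤ S V ∧ Fintype.card V ≤ no H + J) ∧ H ≤ stab D) w = 0 := by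
        unfold sumG
        apply Finset.sum_eq_zero
        intro H hH
        simp only [Finset.mem_filter, Finset.mem_univ, true_and] at hH
        exact absurd (hH.2.trans hS) hH.1.1
      rw [h4, h5, sub_self, abs_zero]
      exact Int.natCast_nonneg _
    · have hcard : Nat.card {g : G V // g ∈ stab D ∧ g.2 = -1 ∧
          no (stab D) + (J + 1) ≤ Fintype.card V} = Nat.card {g : G V // g ∈ stab D ∧ g.2 = -1} :=
        Nat.card_congr (Equiv.subtypeEquivRight fun g => by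
          constructor
          · rintro ⟨ha, hb, _⟩
            exact ⟨ha, hb⟩
          · rintro ⟨ha, hb⟩
            exact ⟨ha, hb, hD'⟩)
      rw [hcard]
      have hpos : 1 ≤ Nat.card {g : G V // g ∈ stab D ∧ g.2 = -1} := by
        rw [SetLike.not_le_iff_exists] at hS
        obtain ⟨g, hg, hg2⟩ := hS
        have hg3 : g.2 = -1 := by
          rcases Int.units_eq_one_or g.2 with h | h
          · exact absurd h hg2
          · exact h
        have : Nonempty {g : G V // g ∈ stab D ∧ g.2 = -1} := ⟨⟨g, hg, hg3⟩⟩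
        exact Nat.card_pos
      have ha : |sumG (fun H : Subgroup (G V) => ¬ H ≤ S V ∧ H ≤ stab D) w| ≤ 1 := by
        rw [A2_ind w hw D]
        split_ifs <;> norm_num
      have hb : |sumG (fun H : Subgroup (G V) =>
          (¬ H ≤ S V ∧ Fintype.card V ≤ no H + J) ∧ H ≤ stab D) w| ≤
          ((C₂ * (C₃ * (Fintype.card V + 1) ^ (2 * J) *
            Nat.card {g : G V // g ∈ stab D ∧ g.2 = -1}) : ℕ) : ℤ) := by
        unfold sumG
        refine (Finset.abs_sum_le_sum_abs _ _).trans ?_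
        refine (Finset.sum_le_card_nsmul _ _ (C₂ : ℤ) (fun H hH => ?_)).trans ?_
        · simp only [Finset.mem_filter, Finset.mem_univ, true_and] at hH
          exact h2 V w hw H hH.1.1 hH.1.2
        · have h6 := h3 V (stab D)
          rw [Nat.card_eq_fintype_card, Fintype.card_subtype] at h6
          have h7 : (Finset.univ.filter fun H : Subgroup (G V) =>
              (¬ H ≤ S V ∧ Fintype.card V ≤ no H + J) ∧ H ≤ stab D).card ≤
              C₃ * (Fintype.card V + 1) ^ (2 * J) *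
                Nat.card {g : G V // g ∈ stab D ∧ g.2 = -1} := by
            refine le_trans (le_of_eq ?_) h6
            congr 1
            ext H
            simp only [Finset.mem_filter, Finset.mem_univ, true_and]
            tauto
          rw [nsmul_eq_mul]
          push_cast
          rw [mul_comm]
          apply mul_le_mul_of_nonneg_left _ (Int.natCast_nonneg _)
          exact_mod_cast h7
      have hc := abs_sub (sumG (fun H : Subgroup (G V) => ¬ H ≤ S V ∧ H ≤ stab D) w)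
        (sumG (fun H : Subgroup (G V) =>
          (¬ H ≤ S V ∧ Fintype.card V ≤ no H + J) ∧ H ≤ stab D) w)
      have hd : (1 : ℤ) ≤ (((Fintype.card V + 1) ^ (2 * J) *
          Nat.card {g : G V // g ∈ stab D ∧ g.2 = -1} : ℕ) : ℤ) := by
        exact_mod_cast Nat.mul_pos (pow_pos (Nat.succ_pos _) _) hpos
      push_cast at hb hd ⊢
      nlinarith [ha, hb, hc, hd]

end Pool.Agent.MP_b5e4d4_co.AE
end
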