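import Mathlib
import Pool.Agent.Lib.MP_b5e4d4_co.FP.Defs

section

set_option autoImplicit false

/-!
# Task A1: the formula for one digraph

`cj π K = π K π⁻¹`. `stab (relabel π D) = cj π (stab D)`.
`A1`: apply the formula to `f D' = #{π : relabel π D = D'}`, which is invariant
(`relabel π D = relabel σ D'` iff `relabel (σ⁻¹ π) D = D'`). For every predicate `P` on digraphs
`∑_{D' with P} f D' = #{π : P (relabel π D)}`. `SC (relabel π D) ↔ SC D`, so the left side is `|V|! [SC D]`; and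
`X i ⊆ stab (relabel π D) = cj π (stab D)` iff `closure (X i) ≤ cj π (stab D)`.
-/

namespace Pool.Agent.MP_b5e4d4_co.FP

open Equiv

/-- the conjugate subgroup `π K π⁻¹` -/
def cj {V : Type} (π : Perm V) (K : Subgroup (G V)) : Subgroup (G V) :=
  K.map (MulAut.conj ((π, 1) : G V)).toMonoidHom

theorem relabel_one {V κ : Type} (D : Arc V → κ) : relabel 1 D = D := by
  funext e
  change D (mv (1 : Perm V)⁻¹ e) = D e
  rw [inv_one]
  rfl

theorem relabel_mul {V κ : Type} (π σ : Perm V) (D : Arc V → κ) :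
    relabel (π * σ) D = relabel π (relabel σ D) := by
  funext e
  change D (mv (π * σ)⁻¹ e) = D (mv σ⁻¹ (mv π⁻¹ e))
  rw [mul_inv_rev, mv_mul]

private theorem A1_relabel_apply {V κ : Type} (π : Perm V) (D : Arc V → κ) (e : Arc V) :
    relabel π D e = D (((π, 1) : G V)⁻¹ • e) := by
  change D (mv π⁻¹ e) = _
  have h : ((π, 1) : G V)⁻¹ = (π⁻¹, 1) := by
    rw [Prod.inv_mk, inv_one]
  rw [h, smul_one]

theorem stab_relabel {V κ : Type} (π : Perm V) (D : Arc V → κ) :
    stab (relabel π D) = cj π (stab D) := by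
  ext g
  set c : G V := (π, 1) with hc
  have h1 : g ∈ stab (relabel π D) ↔ ∀ e, relabel π D (g • e) = relabel π D e := Iff.rfl
  have h2 : g ∈ cj π (stab D) ↔ c⁻¹ * g * c ∈ stab D := by
    constructor
    · rintro ⟨h, hh, rfl⟩
      have e : c⁻¹ * ((MulAut.conj c).toMonoidHom h) * c = h := by
        change c⁻¹ * (c * h * c⁻¹) * c = h
        group
      rw [← hc, e]
      exact hh
    · intro h
      refine ⟨c⁻¹ * g * c, h, ?_⟩
      change c * (c⁻¹ * g * c) * c⁻¹ = g
      group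
  rw [h1, h2]
  constructor
  · intro h e
    have h3 := h (c • e)
    rw [A1_relabel_apply, A1_relabel_apply, ← hc, inv_smul_smul] at h3
    rw [← h3, mul_smul, mul_smul]
  · intro h e
    rw [A1_relabel_apply, A1_relabel_apply, ← hc]
    have h3 := h (c⁻¹ • e)
    rw [mul_smul, mul_smul, smul_inv_smul] at h3
    exact h3

private theorem A1_SC {V κ : Type} (π : Perm V) {D : Arc V → κ} (h : SC D) :
    SC (relabel π D) := by
  obtain ⟨σ, hσ⟩ := h
  refine ⟨π * σ * π⁻¹, fun e => ?_⟩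
  change D (mv π⁻¹ (rev (mv (π * σ * π⁻¹) e))) = D (mv π⁻¹ e)
  rw [mv_rev, ← mv_mul]
  have h1 : π⁻¹ * (π * σ * π⁻¹) = σ * π⁻¹ := by group
  rw [h1, mv_mul]
  exact hσ (mv π⁻¹ e)

theorem SC_relabel {V κ : Type} (π : Perm V) (D : Arc V → κ) : SC (relabel π D) ↔ SC D := by
  constructor
  · intro h
    have h1 := A1_SC π⁻¹ h
    rwa [← relabel_mul, inv_mul_cancel, relabel_one] at h1
  · exact A1_SC π

private theorem A1_sum {V : Type} [Fintype V] [DecidableEq V] (D : Arc V → Bool)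
    (P : (Arc V → Bool) → Prop) [DecidablePred P] [DecidableEq (Arc V → Bool)] :
    ∑ D' with P D', (∑ π : Perm V, if relabel π D = D' then (1 : ℂ) else 0) =
      ∑ π : Perm V, if P (relabel π D) then (1 : ℂ) else 0 := by
  rw [Finset.sum_comm]
  refine Finset.sum_congr rfl fun π _ => ?_
  rw [Finset.sum_ite_eq]
  congr 1
  rw [Finset.mem_filter]
  exact propext ⟨fun h => h.2, fun h => ⟨Finset.mem_univ _, h⟩⟩

theorem A1 {V : Type} [Fintype V] [DecidableEq V] {n : ℕ} (X : Fin n → Set (G V)) (w : Fin n → ℂ)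
    (hF : Formula n X w) (D : Arc V → Bool) :
    open scoped Classical in
    (if SC D then ((Fintype.card V).factorial : ℂ) else 0) =
      ∑ i, w i * (Nat.card {π : Perm V // Subgroup.closure (X i) ≤ cj π (stab D)} : ℂ) := by
  classical
  have hinv : ∀ (τ : Perm V) (D' : Arc V → Bool),
      (∑ π : Perm V, if relabel π D = relabel τ D' then (1 : ℂ) else 0) =
        ∑ π : Perm V, if relabel π D = D' then (1 : ℂ) else 0 := by
    intro τ D'
    refine (Fintype.sum_equiv (Equiv.mulLeft τ) _ _ fun π => ?_).symm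
    have h : relabel π D = D' ↔ relabel ((Equiv.mulLeft τ) π) D = relabel τ D' := by
      change relabel π D = D' ↔ relabel (τ * π) D = relabel τ D'
      rw [relabel_mul]
      constructor
      · rintro rfl
        rfl
      · intro h
        have h1 := congrArg (relabel τ⁻¹) h
        rwa [← relabel_mul τ⁻¹ τ (relabel π D), ← relabel_mul τ⁻¹ τ D', inv_mul_cancel, relabel_one,
          relabel_one] at h1
    simp only [h]
  have hF1 := hF (fun D' => ∑ π : Perm V, if relabel π D = D' then (1 : ℂ) else 0) hinv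
  have hL : (∑ π : Perm V, if SC (relabel π D) then (1 : ℂ) else 0) =
      if SC D then ((Fintype.card V).factorial : ℂ) else 0 := by
    simp only [SC_relabel]
    rw [Finset.sum_const, Finset.card_univ, Fintype.card_perm, nsmul_eq_mul]
    split_ifs
    · rw [mul_one]
    · rw [mul_zero]
  have hR : ∀ i, (∑ π : Perm V, if X i ⊆ (stab (relabel π D) : Set (G V)) then (1 : ℂ) else 0) =
      (Nat.card {π : Perm V // Subgroup.closure (X i) ≤ cj π (stab D)} : ℂ) := by
    intro i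
    rw [Finset.sum_boole, Nat.card_eq_fintype_card, Fintype.card_subtype]
    congr 2
    apply Finset.filter_congr
    intro π _
    rw [Subgroup.closure_le, stab_relabel]
  have e2 : ∀ i, (Nat.card {π : Perm V // Subgroup.closure (X i) ≤ cj π (stab D)} : ℂ) =
      ∑ D' with X i ⊆ (stab D' : Set (G V)),
        (∑ π : Perm V, if relabel π D = D' then (1 : ℂ) else 0) := by
    intro i
    rw [← hR i, A1_sum D (fun D' => X i ⊆ (stab D' : Set (G V)))]
  rw [← hL, ← A1_sum D SC]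
  simp only [e2]
  convert hF1

end Pool.Agent.MP_b5e4d4_co.FP
end

section

set_option autoImplicit false

/-!
# Task P1: parity of the number of subgroups of an elementary abelian 2-group outside a subgroup of index two

`L` has exponent two (so it is commutative), `S` is a subgroup such that the product of two elements outside `S` is in `S`,
`L` is not contained in `S`, `L0 = L ⊓ S`. For `a ∈ L0` let `T_a : L → L`, `T_a x = x` for `x ∈ L0` and `T_a x = x * a` for
`x ∈ L \ L0`: a bijection, multiplicative (if `x, y` are both outside `L0` then `x * a * (y * a) = x * y`), and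
`T_a T_b = T_{a b}`. So `L0` acts on the set `M` of the subgroups `L' ≤ L` with `¬ L' ≤ S` (`L' ↦ T_a(L')`). If `L' ∈ M` is fixed by
all `T_a`, take `v ∈ L' \ S`: `v * a ∈ L'` for all `a ∈ L0`, so `L0 ≤ L'` and `L' = L` (`L = L0 ∪ v L0`). `L` itself is fixed.
`L0` is a 2-group (exponent two), so `|M| ≡ |fixed points| = 1 mod 2` (`IsPGroup.card_modEq_card_fixedPoints`), and the
number of `L' ≠ L` in `M` is even.

Other way: `M` is the disjoint union over the subgroups `L1 ≤ L0` of the sets `{L' ∈ M : L' ⊓ S = L1}`, which have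
`|L0 / L1|` elements (the cosets of `L1` in `L \ L0`), an even number if `L1 ≠ L0`.
-/

namespace Pool.Agent.MP_b5e4d4_co.FP

private theorem P1_comm {Γ : Type} [Group Γ] {L : Subgroup Γ} (h2 : ∀ x ∈ L, x * x = 1) {x y : Γ}
    (hx : x ∈ L) (hy : y ∈ L) : x * y = y * x := by
  have h1 := h2 _ (L.mul_mem hx hy)
  have h3 := h2 _ hx
  have h4 := h2 _ hy
  have e1 : x⁻¹ = x := inv_eq_of_mul_eq_one_left h3
  have e2 : y⁻¹ = y := inv_eq_of_mul_eq_one_left h4
  have e3 : (x * y)⁻¹ = x * y := inv_eq_of_mul_eq_one_left h1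
  rw [mul_inv_rev, e1, e2] at e3
  exact e3.symm

/-- the image of `L'` under the map which is the identity in `S` and `x ↦ x * a` outside `S` -/
private def P1_T {Γ : Type} [Group Γ] (S L : Subgroup Γ) (h2 : ∀ x ∈ L, x * x = 1)
    (hS : ∀ x y : Γ, x ∉ S → y ∉ S → x * y ∈ S) (a : Γ) (haL : a ∈ L) (haS : a ∈ S)
    (L' : Subgroup Γ) (hL' : L' ≤ L) : Subgroup Γ where
  carrier := {x | (x ∈ S ∧ x ∈ L') ∨ (x ∉ S ∧ x * a ∈ L')}
  one_mem' := Or.inl ⟨S.one_mem, L'.one_mem⟩
  mul_mem' := by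
    have key : ∀ z, z * a ∈ L' → z ∈ L := by
      intro z hz
      have h := L.mul_mem (hL' hz) (L.inv_mem haL)
      rwa [mul_inv_cancel_right] at h
    rintro x y (⟨hxS, hx⟩ | ⟨hxS, hx⟩) (⟨hyS, hy⟩ | ⟨hyS, hy⟩)
    · exact Or.inl ⟨S.mul_mem hxS hyS, L'.mul_mem hx hy⟩
    · refine Or.inr ⟨fun h => hyS ((S.mul_mem_cancel_left hxS).1 h), ?_⟩
      rw [mul_assoc]
      exact L'.mul_mem hx hy
    · refine Or.inr ⟨fun h => hxS ((S.mul_mem_cancel_right hyS).1 h), ?_⟩
      rw [mul_assoc, P1_comm h2 (hL' hy) haL, ← mul_assoc]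
      exact L'.mul_mem hx hy
    · refine Or.inl ⟨hS x y hxS hyS, ?_⟩
      have h := L'.mul_mem hx hy
      have e : x * a * (y * a) = x * y := by
        rw [mul_assoc, ← mul_assoc a y a, P1_comm h2 haL (key y hy), mul_assoc y a a, h2 a haL,
          mul_one]
      rwa [e] at h
  inv_mem' := by
    have key : ∀ z, z * a ∈ L' → z ∈ L := by
      intro z hz
      have h := L.mul_mem (hL' hz) (L.inv_mem haL)
      rwa [mul_inv_cancel_right] at h
    rintro x (⟨hxS, hx⟩ | ⟨hxS, hx⟩)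
    · exact Or.inl ⟨S.inv_mem hxS, L'.inv_mem hx⟩
    · have e : x⁻¹ = x := inv_eq_of_mul_eq_one_left (h2 x (key x hx))
      rw [e]
      exact Or.inr ⟨hxS, hx⟩

private theorem P1_even {α : Type} [Finite α] (f : α → α) (hf : ∀ x, f (f x) = x)
    (hn : ∀ x, f x ≠ x) : Even (Nat.card α) := by
  classical
  haveI := Fintype.ofFinite α
  have h : ∑ _x : α, (1 : ZMod 2) = 0 := by
    refine Finset.sum_involution (fun x _ => f x) ?_ ?_ ?_ ?_
    · intro x _
      decide
    · intro x _ _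
      exact hn x
    · intro x _
      exact Finset.mem_univ _
    · intro x _
      exact hf x
  rw [Finset.sum_const, nsmul_eq_mul, mul_one, Finset.card_univ] at h
  rw [Nat.card_eq_fintype_card]
  exact ZMod.natCast_eq_zero_iff_even.1 h

theorem P1 {Γ : Type} [Group Γ] [Finite Γ] (S L : Subgroup Γ) (h2 : ∀ x ∈ L, x * x = 1)
    (hS : ∀ x y : Γ, x ∉ S → y ∉ S → x * y ∈ S) (hL : ¬ L ≤ S) :
    Even (Nat.card {L' : Subgroup Γ // L' < L ∧ ¬ L' ≤ S}) := by
  classical
  let M := {L' : Subgroup Γ // L' < L ∧ ¬ L' ≤ S}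
  have hex : ∀ L' : M, ∃ a, (a ∈ L ∧ a ∈ S) ∧ a ∉ L'.1 ⊓ S := by
    intro L'
    by_contra hc
    push Not at hc
    obtain ⟨v, hv, hvS⟩ := SetLike.not_le_iff_exists.1 L'.2.2
    apply not_le_of_gt L'.2.1
    intro x hx
    by_cases hxS : x ∈ S
    · exact (hc x ⟨hx, hxS⟩).1
    · have h1 : v * x ∈ L'.1 :=
        (hc (v * x) ⟨L.mul_mem (L'.2.1.le hv) hx, hS v x hvS hxS⟩).1
      exact (L'.1.mul_mem_cancel_left hv).1 h1
  let A : Subgroup Γ → Γ := fun K => if h : ∃ a, (a ∈ L ∧ a ∈ S) ∧ a ∉ K then h.choose else 1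
  have hA : ∀ L' : M, (A (L'.1 ⊓ S) ∈ L ∧ A (L'.1 ⊓ S) ∈ S) ∧ A (L'.1 ⊓ S) ∉ L'.1 ⊓ S := by
    intro L'
    have h := hex L'
    have h1 : A (L'.1 ⊓ S) = h.choose := dif_pos h
    rw [h1]
    exact h.choose_spec
  have hAL : ∀ L' : M, A (L'.1 ⊓ S) ∉ L'.1 := fun L' h => (hA L').2 ⟨h, (hA L').1.2⟩
  let T : M → Subgroup Γ := fun L' =>
    P1_T S L h2 hS (A (L'.1 ⊓ S)) (hA L').1.1 (hA L').1.2 L'.1 L'.2.1.le
  have hTmem : ∀ (L' : M) (x : Γ), x ∈ T L' ↔
      (x ∈ S ∧ x ∈ L'.1) ∨ (x ∉ S ∧ x * A (L'.1 ⊓ S) ∈ L'.1) := fun _ _ => Iff.rfl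
  have hTS : ∀ (L' : M) (x : Γ), x ∈ S → (x ∈ T L' ↔ x ∈ L'.1) := by
    intro L' x hx
    rw [hTmem]
    constructor
    · rintro (h | h)
      · exact h.2
      · exact absurd hx h.1
    · intro h
      exact Or.inl ⟨hx, h⟩
  have hTN : ∀ (L' : M) (x : Γ), x ∉ S → (x ∈ T L' ↔ x * A (L'.1 ⊓ S) ∈ L'.1) := by
    intro L' x hx
    rw [hTmem]
    constructor
    · rintro (h | h)
      · exact absurd h.1 hx
      · exact h.2
    · intro h
      exact Or.inr ⟨hx, h⟩
  have hnot : ∀ (L' : M) (x : Γ), x ∉ S → x * A (L'.1 ⊓ S) ∉ S := fun L' x hx h =>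
    hx ((S.mul_mem_cancel_right (hA L').1.2).1 h)
  have hTM : ∀ L' : M, T L' < L ∧ ¬ T L' ≤ S := by
    intro L'
    have hle : T L' ≤ L := by
      intro x hx
      rcases (hTmem L' x).1 hx with h | h
      · exact L'.2.1.le h.2
      · exact (L.mul_mem_cancel_right (hA L').1.1).1 (L'.2.1.le h.2)
    refine ⟨lt_of_le_of_ne hle ?_, ?_⟩
    · intro h
      have h1 : A (L'.1 ⊓ S) ∈ T L' := by
        rw [h]
        exact (hA L').1.1
      exact hAL L' ((hTS L' _ (hA L').1.2).1 h1)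
    · obtain ⟨v, hv, hvS⟩ := SetLike.not_le_iff_exists.1 L'.2.2
      intro h
      apply hnot L' v hvS
      apply h
      rw [hTN L' _ (hnot L' v hvS), mul_assoc, h2 _ (hA L').1.1, mul_one]
      exact hv
  have hTinf : ∀ L' : M, T L' ⊓ S = L'.1 ⊓ S := by
    intro L'
    ext x
    rw [Subgroup.mem_inf, Subgroup.mem_inf]
    constructor
    · rintro ⟨h1, h3⟩
      exact ⟨(hTS L' x h3).1 h1, h3⟩
    · rintro ⟨h1, h3⟩
      exact ⟨(hTS L' x h3).2 h1, h3⟩
  let F : M → M := fun L' => ⟨T L', hTM L'⟩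
  refine P1_even F ?_ ?_
  · intro L'
    apply Subtype.ext
    change T (F L') = L'.1
    ext x
    by_cases hx : x ∈ S
    · rw [hTS _ x hx]
      exact hTS L' x hx
    · rw [hTN _ x hx]
      have e : A ((F L').1 ⊓ S) = A (L'.1 ⊓ S) := congrArg A (hTinf L')
      rw [e]
      change x * A (L'.1 ⊓ S) ∈ T L' ↔ _
      rw [hTN L' _ (hnot L' x hx), mul_assoc, h2 _ (hA L').1.1, mul_one]
  · intro L' h
    have h1 : T L' = L'.1 := congrArg Subtype.val h
    obtain ⟨v, hv, hvS⟩ := SetLike.not_le_iff_exists.1 L'.2.2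
    have h3 : v ∈ T L' := by
      rw [h1]
      exact hv
    exact hAL L' ((L'.1.mul_mem_cancel_left hv).1 ((hTN L' v hvS).1 h3))

end Pool.Agent.MP_b5e4d4_co.FP
end

section

set_option autoImplicit false

/-!
# Task P2: the weights are odd

By strong induction on `L` (`≤ K`): if `L ≤ S` then `B L = 0` (all `L' ≤ L` are in `S`, and `∑_{L' ≤ L} B L' = 0`); if `¬ L ≤ S` then
`B L = c * z` with `z` an odd integer: `B L = c - ∑_{L' < L} B L'`, where the `L' ≤ S` contribute `0` and the others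
contribute `c` times the sum of an even number (`P1`) of odd integers, an even integer. In particular `B K ≠ 0`.
-/

namespace Pool.Agent.MP_b5e4d4_co.FP

theorem P2 {Γ : Type} [Group Γ] [Fintype Γ] (S K : Subgroup Γ) (h2 : ∀ x ∈ K, x * x = 1)
    (hS : ∀ x y : Γ, x ∉ S → y ∉ S → x * y ∈ S) (hK : ¬ K ≤ S) (c : ℂ) (hc : c ≠ 0)
    (B : Subgroup Γ → ℂ)
    (hB : open scoped Classical in
      ∀ L : Subgroup Γ, L ≤ K → ∑ L' : Subgroup Γ with L' ≤ L, B L' = if L ≤ S then 0 else c) :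
    B K ≠ 0 := by
  classical
  have key : ∀ L : Subgroup Γ, L ≤ K → (L ≤ S → B L = 0) ∧
      (¬ L ≤ S → ∃ w : ℤ, B L = c * ((2 * w + 1 : ℤ) : ℂ)) := by
    intro L
    induction L using WellFoundedLT.induction with
    | ind L ih =>
      intro hLK
      have hsum := hB L hLK
      have hset : (Finset.univ.filter (fun L' : Subgroup Γ => L' ≤ L)) =
          insert L (Finset.univ.filter (fun L' : Subgroup Γ => L' < L)) := by
        ext L'
        simp only [Finset.mem_filter, Finset.mem_univ, true_and, Finset.mem_insert]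
        exact le_iff_eq_or_lt
      rw [hset, Finset.sum_insert (by simp)] at hsum
      constructor
      · intro hLS
        rw [if_pos hLS] at hsum
        have h0 : ∑ L' : Subgroup Γ with L' < L, B L' = 0 := by
          refine Finset.sum_eq_zero fun L' hL' => ?_
          rw [Finset.mem_filter] at hL'
          exact (ih L' hL'.2 (hL'.2.le.trans hLK)).1 (hL'.2.le.trans hLS)
        rw [h0, add_zero] at hsum
        exact hsum
      · intro hLS
        rw [if_neg hLS] at hsum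
        have hex : ∀ L' : Subgroup Γ, ∃ w : ℤ, L' < L → ¬ L' ≤ S →
            B L' = c * ((2 * w + 1 : ℤ) : ℂ) := by
          intro L'
          by_cases h : L' < L ∧ ¬ L' ≤ S
          · obtain ⟨w, hw⟩ := (ih L' h.1 (h.1.le.trans hLK)).2 h.2
            exact ⟨w, fun _ _ => hw⟩
          · exact ⟨0, fun h1 h2 => absurd ⟨h1, h2⟩ h⟩
        choose w hw using hex
        have hev := P1 S L (fun x hx => h2 x (hLK hx)) hS hLS
        rw [Nat.card_eq_fintype_card, Fintype.card_subtype] at hev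
        obtain ⟨r, hr⟩ := hev
        have h3 : ∑ L' : Subgroup Γ with L' < L, B L' =
            ∑ L' : Subgroup Γ with L' < L ∧ ¬ L' ≤ S, B L' := by
          symm
          refine Finset.sum_subset ?_ ?_
          · intro L' hL'
            rw [Finset.mem_filter] at hL' ⊢
            exact ⟨hL'.1, hL'.2.1⟩
          · intro L' hL' hn
            rw [Finset.mem_filter] at hL' hn
            have hLS' : L' ≤ S := by
              by_contra hcon
              exact hn ⟨hL'.1, hL'.2, hcon⟩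
            exact (ih L' hL'.2 (hL'.2.le.trans hLK)).1 hLS'
        have h4 : ∑ L' : Subgroup Γ with L' < L ∧ ¬ L' ≤ S, B L' =
            c * ((2 * (∑ L' : Subgroup Γ with L' < L ∧ ¬ L' ≤ S, w L') + 2 * r : ℤ) : ℂ) := by
          have h5 : ∑ L' : Subgroup Γ with L' < L ∧ ¬ L' ≤ S, B L' =
              ∑ L' : Subgroup Γ with L' < L ∧ ¬ L' ≤ S, c * ((2 * w L' + 1 : ℤ) : ℂ) := by
            refine Finset.sum_congr rfl fun L' hL' => ?_
            rw [Finset.mem_filter] at hL'
            exact hw L' hL'.2.1 hL'.2.2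
          rw [h5, ← Finset.mul_sum, ← Int.cast_sum]
          congr 2
          rw [Finset.sum_add_distrib, ← Finset.mul_sum]
          simp only [Finset.sum_const, nsmul_eq_mul, mul_one]
          rw [hr]
          push_cast
          ring
        refine ⟨-(∑ L' : Subgroup Γ with L' < L ∧ ¬ L' ≤ S, w L') - r, ?_⟩
        rw [h3, h4] at hsum
        have h6 : B L = c - c * ((2 * (∑ L' : Subgroup Γ with L' < L ∧ ¬ L' ≤ S, w L') + 2 * r : ℤ) : ℂ) := by
          exact eq_sub_of_add_eq hsum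
        rw [h6]
        push_cast
        ring
  obtain ⟨w, hw⟩ := (key K le_rfl).2 hK
  rw [hw]
  refine mul_ne_zero hc ?_
  rw [Int.cast_ne_zero]
  omega

end Pool.Agent.MP_b5e4d4_co.FP
end

section

set_option autoImplicit false

/-!
# Task B1: every formula contains generators of a conjugate of `K`

`B L := ∑ i, w i * #{π : cj π⁻¹ (closure (X i)) = L}`. For `L ≤ K` choose `D` with `stab D = L`; `A1` for `D` and
`closure (X i) ≤ cj π L ↔ cj π⁻¹ (closure (X i)) ≤ L` give `∑_{L' ≤ L} B L' = |V|! [SC D]`, and `SC D ↔ ¬ L ≤ S V` (some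
`(π, -1) ∈ stab D = L`). `P2` with `c = |V|!`, `S = S V` gives `B K ≠ 0`, so some `i` has a `π` with
`cj π⁻¹ (closure (X i)) = K`, i.e. `closure (X i) = cj π K`.
-/

namespace Pool.Agent.MP_b5e4d4_co.FP

open Equiv

private theorem B1_cj_cj {V : Type} (π σ : Perm V) (K : Subgroup (G V)) :
    cj π (cj σ K) = cj (π * σ) K := by
  ext x
  simp only [cj, Subgroup.mem_map]
  constructor
  · rintro ⟨y, ⟨z, hz, rfl⟩, rfl⟩
    refine ⟨z, hz, ?_⟩
    show ((π * σ, 1) : G V) * z * ((π * σ, 1) : G V)⁻¹ =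
      ((π, 1) : G V) * (((σ, 1) : G V) * z * ((σ, 1) : G V)⁻¹) * ((π, 1) : G V)⁻¹
    have h1 : ((π * σ, 1) : G V) = (π, 1) * (σ, 1) := by rw [Prod.mk_mul_mk, mul_one]
    rw [h1, mul_inv_rev]
    group
  · rintro ⟨z, hz, rfl⟩
    refine ⟨_, ⟨z, hz, rfl⟩, ?_⟩
    show ((π, 1) : G V) * (((σ, 1) : G V) * z * ((σ, 1) : G V)⁻¹) * ((π, 1) : G V)⁻¹ =
      ((π * σ, 1) : G V) * z * ((π * σ, 1) : G V)⁻¹
    have h1 : ((π * σ, 1) : G V) = (π, 1) * (σ, 1) := by rw [Prod.mk_mul_mk, mul_one]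
    rw [h1, mul_inv_rev]
    group

private theorem B1_cj_one {V : Type} (K : Subgroup (G V)) : cj 1 K = K := by
  ext x
  simp only [cj, Subgroup.mem_map]
  constructor
  · rintro ⟨z, hz, rfl⟩
    have : (MulAut.conj ((1, 1) : G V)).toMonoidHom z = z := by
      show ((1, 1) : G V) * z * ((1, 1) : G V)⁻¹ = z
      have h1 : ((1, 1) : G V) = 1 := rfl
      rw [h1]
      group
    rw [this]
    exact hz
  · intro hx
    refine ⟨x, hx, ?_⟩
    show ((1, 1) : G V) * x * ((1, 1) : G V)⁻¹ = x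
    have h1 : ((1, 1) : G V) = 1 := rfl
    rw [h1]
    group

private theorem B1_cj_mono {V : Type} (π : Perm V) {K L : Subgroup (G V)} (h : K ≤ L) :
    cj π K ≤ cj π L := Subgroup.map_mono h

private theorem B1_le_iff {V : Type} (π : Perm V) (K L : Subgroup (G V)) :
    K ≤ cj π L ↔ cj π⁻¹ K ≤ L := by
  constructor
  · intro h
    have := B1_cj_mono π⁻¹ h
    rwa [B1_cj_cj, inv_mul_cancel, B1_cj_one] at this
  · intro h
    have := B1_cj_mono π h
    rwa [B1_cj_cj, mul_inv_cancel, B1_cj_one] at this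

theorem B1 {V : Type} [Fintype V] [DecidableEq V] {n : ℕ} (X : Fin n → Set (G V)) (w : Fin n → ℂ)
    (hF : Formula n X w) (K : Subgroup (G V)) (h2 : ∀ x ∈ K, x * x = 1) (hK : ¬ K ≤ S V)
    (hst : ∀ L : Subgroup (G V), L ≤ K → ∃ D : Arc V → Bool, stab D = L) :
    ∃ (i : Fin n) (π : Perm V), Subgroup.closure (X i) = cj π K := by
  classical
  let B : Subgroup (G V) → ℂ := fun L =>
    ∑ i, w i * (((Finset.univ : Finset (Perm V)).filter
      (fun π => cj π⁻¹ (Subgroup.closure (X i)) = L)).card : ℂ)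
  have hB : ∀ L : Subgroup (G V), L ≤ K →
      ∑ L' : Subgroup (G V) with L' ≤ L, B L' =
        if L ≤ S V then 0 else ((Fintype.card V).factorial : ℂ) := by
    intro L hL
    obtain ⟨D, hD⟩ := hst L hL
    have h1 := A1 X w hF D
    rw [hD] at h1
    have hSC : SC D ↔ ¬ L ≤ S V := by
      rw [← hD]
      constructor
      · rintro ⟨π, hπ⟩ hle
        have h3 : ((π, -1) : G V) ∈ stab D := fun e => by rw [smul_neg]; exact hπ e
        have h4 : ((-1 : ℤˣ)) = 1 := hle h3
        exact absurd h4 (by decide)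
      · intro h
        rw [SetLike.not_le_iff_exists] at h
        obtain ⟨⟨π, ε⟩, hg, hgS⟩ := h
        rcases Int.units_eq_one_or ε with rfl | rfl
        · exact absurd rfl hgS
        · refine ⟨π, fun e => ?_⟩
          have h3 := hg e
          rw [smul_neg] at h3
          exact h3
    have h5 : ∑ L' : Subgroup (G V) with L' ≤ L, B L' =
        ∑ i, w i * (Nat.card {π : Perm V // Subgroup.closure (X i) ≤ cj π L} : ℂ) := by
      simp only [B]
      rw [Finset.sum_comm]
      refine Finset.sum_congr rfl fun i _ => ?_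
      rw [← Finset.mul_sum]
      congr 1
      rw [← Nat.cast_sum]
      congr 1
      rw [Nat.card_eq_fintype_card, Fintype.card_subtype]
      rw [← Finset.card_biUnion]
      · congr 1
        ext π
        simp only [Finset.mem_biUnion, Finset.mem_filter, Finset.mem_univ, true_and]
        constructor
        · rintro ⟨L', hL', h⟩
          rw [B1_le_iff, h]
          exact hL'
        · intro h
          exact ⟨_, (B1_le_iff π _ L).1 h, rfl⟩
      · intro a _ b _ hab
        rw [Function.onFun, Finset.disjoint_left]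
        intro π hπ hπ'
        simp only [Finset.mem_filter, Finset.mem_univ, true_and] at hπ hπ'
        exact hab (hπ.symm.trans hπ')
    rw [h5, ← h1]
    by_cases hS : L ≤ S V
    · rw [if_pos hS, if_neg (fun h => (hSC.1 h) hS)]
    · rw [if_neg hS, if_pos (hSC.2 hS)]
  have hSS : ∀ x y : G V, x ∉ S V → y ∉ S V → x * y ∈ S V := by
    rintro ⟨π, a⟩ ⟨σ, b⟩ hx hy
    rcases Int.units_eq_one_or a with rfl | rfl
    · exact absurd rfl hx
    rcases Int.units_eq_one_or b with rfl | rfl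
    · exact absurd rfl hy
    show (-1 : ℤˣ) * -1 = 1
    decide
  have hne := P2 (S V) K h2 hSS hK ((Fintype.card V).factorial : ℂ)
    (by exact_mod_cast Nat.factorial_ne_zero _) B (by
      intro L hL
      convert! hB L hL)
  by_contra hcon
  push Not at hcon
  apply hne
  simp only [B]
  refine Finset.sum_eq_zero fun i _ => ?_
  rw [Finset.filter_false_of_mem]
  · simp
  · intro π _ h
    apply hcon i π
    rw [← h, B1_cj_cj, mul_inv_cancel, B1_cj_one]

end Pool.Agent.MP_b5e4d4_co.FP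
end

section

set_option autoImplicit false

/-!
# The family of subgroups and the digraphs

`A m = Y × B m`, `Y = F_2 ^ 2`, `B m = F_2 ^ m`; `co i` are the coordinates of `A m`; `h : Fin l → (B m →+ Y)`;
`tau h j (y, b) = y + h j b`. The points: `Vt q m l = Fin q ⊕ S0 m l`, `S0 m l = A m ⊕ (I m × F_2) ⊕ (Fin l × Y)`.
`e ∈ A m` acts on `S0` by translations (`aS h e`), trivially on `Fin q` (`aV h e`); `rho` reverses `Fin q`.
`Kf h = {(aV h e, 1)} ∪ {(aV h e * rho, -1)}`.
-/

namespace Pool.Agent.MP_b5e4d4_co.FP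

open Equiv

abbrev Y : Type := Fin 2 → ZMod 2
abbrev B (m : ℕ) : Type := Fin m → ZMod 2
abbrev A (m : ℕ) : Type := Y × B m
abbrev I (m : ℕ) : Type := Fin 2 ⊕ Fin m

/-- the coordinates of `A m` -/
def co {m : ℕ} (i : I m) (a : A m) : ZMod 2 :=
  match i with
  | Sum.inl i => a.1 i
  | Sum.inr i => a.2 i

/-- the homomorphism `(y, b) ↦ y + h j b` -/
def tau {m l : ℕ} (h : Fin l → (B m →+ Y)) (j : Fin l) (a : A m) : Y := a.1 + h j a.2

theorem co_add {m : ℕ} (i : I m) (a b : A m) : co i (a + b) = co i a + co i b := by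
  cases i <;> rfl

theorem co_ext {m : ℕ} {a b : A m} (h : ∀ i : I m, co i a = co i b) : a = b :=
  Prod.ext (funext fun i => h (Sum.inl i)) (funext fun i => h (Sum.inr i))

theorem tau_add {m l : ℕ} (h : Fin l → (B m →+ Y)) (j : Fin l) (a b : A m) :
    tau h j (a + b) = tau h j a + tau h j b := by
  simp only [tau, Prod.fst_add, Prod.snd_add, map_add]
  abel

theorem tau_surj {m l : ℕ} (h : Fin l → (B m →+ Y)) (j : Fin l) (y : Y) : tau h j (y, 0) = y := by
  simp [tau]

abbrev S0 (m l : ℕ) : Type := A m ⊕ (I m × ZMod 2) ⊕ (Fin l × Y)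
abbrev Vt (q m l : ℕ) : Type := Fin q ⊕ S0 m l

instance instDS (m l : ℕ) : DecidableEq (S0 m l) := inferInstance
instance instDV (q m l : ℕ) : DecidableEq (Vt q m l) := inferInstance

/-- the action of `e` on `S0` -/
def aSf {m l : ℕ} (h : Fin l → (B m →+ Y)) (e : A m) : S0 m l → S0 m l
  | Sum.inl x => Sum.inl (x + e)
  | Sum.inr (Sum.inl (i, v)) => Sum.inr (Sum.inl (i, v + co i e))
  | Sum.inr (Sum.inr (j, v)) => Sum.inr (Sum.inr (j, v + tau h j e))

theorem two_add {M : Type} [AddCommGroup M] (h : ∀ x : M, x + x = 0) (x e : M) : x + e + e = x := by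
  rw [add_assoc, h, add_zero]

theorem zz (x : ZMod 2) : x + x = 0 := CharTwo.add_self_eq_zero x

theorem yy (x : Y) : x + x = 0 := funext fun i => zz (x i)

theorem aa {m : ℕ} (x : A m) : x + x = 0 :=
  Prod.ext (yy x.1) (funext fun i => zz (x.2 i))

theorem aSf_invol {m l : ℕ} (h : Fin l → (B m →+ Y)) (e : A m) (s : S0 m l) :
    aSf h e (aSf h e s) = s := by
  rcases s with x | ⟨i, v⟩ | ⟨j, v⟩
  · simp only [aSf, two_add aa]
  · simp only [aSf, two_add zz]
  · simp only [aSf, two_add yy]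

def aS {m l : ℕ} (h : Fin l → (B m →+ Y)) (e : A m) : Perm (S0 m l) :=
  ⟨aSf h e, aSf h e, aSf_invol h e, aSf_invol h e⟩

def aV {m l : ℕ} (q : ℕ) (h : Fin l → (B m →+ Y)) (e : A m) : Perm (Vt q m l) :=
  Equiv.sumCongr (Equiv.refl (Fin q)) (aS h e)

def rho (q m l : ℕ) : Perm (Vt q m l) := Equiv.sumCongr Fin.revPerm (Equiv.refl (S0 m l))

theorem aV_inl {m l q : ℕ} (h : Fin l → (B m →+ Y)) (e : A m) (i : Fin q) :
    aV q h e (Sum.inl i) = Sum.inl i := rfl

theorem aV_inr {m l q : ℕ} (h : Fin l → (B m →+ Y)) (e : A m) (s : S0 m l) :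
    aV q h e (Sum.inr s) = Sum.inr (aSf h e s) := rfl

theorem rho_inl {m l q : ℕ} (i : Fin q) : rho q m l (Sum.inl i) = Sum.inl i.rev := rfl

theorem rho_inr {m l q : ℕ} (s : S0 m l) : rho q m l (Sum.inr s) = Sum.inr s := rfl

theorem aSf_add {m l : ℕ} (h : Fin l → (B m →+ Y)) (e e' : A m) (s : S0 m l) :
    aSf h (e + e') s = aSf h e (aSf h e' s) := by
  rcases s with x | ⟨i, v⟩ | ⟨j, v⟩
  · simp only [aSf]
    congr 1
    abel
  · simp only [aSf, co_add]
    congr 3
    abel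
  · simp only [aSf, tau_add]
    congr 3
    abel

theorem aSf_zero {m l : ℕ} (h : Fin l → (B m →+ Y)) (s : S0 m l) : aSf h 0 s = s := by
  have h1 := aSf_add h 0 0 s
  rw [add_zero, aSf_invol] at h1
  exact h1

theorem aV_add {m l : ℕ} (q : ℕ) (h : Fin l → (B m →+ Y)) (e e' : A m) :
    aV q h (e + e') = aV q h e * aV q h e' := by
  ext v
  rcases v with i | s
  · rfl
  · show Sum.inr (aSf h (e + e') s) = Sum.inr (aSf h e (aSf h e' s))
    rw [aSf_add]

theorem aV_zero {m l : ℕ} (q : ℕ) (h : Fin l → (B m →+ Y)) : aV q h 0 = 1 := by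
  ext v
  rcases v with i | s
  · rfl
  · show Sum.inr (aSf h 0 s) = Sum.inr s
    rw [aSf_zero]

theorem aV_rho {m l : ℕ} (q : ℕ) (h : Fin l → (B m →+ Y)) (e : A m) :
    aV q h e * rho q m l = rho q m l * aV q h e := by
  ext v
  rcases v with i | s <;> rfl

theorem rho_rho (q m l : ℕ) : rho q m l * rho q m l = 1 := by
  ext v
  rcases v with i | s
  · show Sum.inl i.rev.rev = Sum.inl i
    rw [Fin.rev_rev]
  · rfl

theorem aV_inj {m l : ℕ} (q : ℕ) (h : Fin l → (B m →+ Y)) {e e' : A m} (he : aV q h e = aV q h e') :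
    e = e' := by
  have h1 : aV q h e (Sum.inr (Sum.inl 0)) = aV q h e' (Sum.inr (Sum.inl 0)) := by rw [he]
  have h2 : (Sum.inr (Sum.inl (0 + e)) : Vt q m l) = Sum.inr (Sum.inl (0 + e')) := h1
  rw [zero_add, zero_add] at h2
  exact Sum.inl.inj (Sum.inr.inj h2)

/-- the subgroup of the family -/
def Kf {m l : ℕ} (q : ℕ) (h : Fin l → (B m →+ Y)) : Subgroup (G (Vt q m l)) where
  carrier := {g | ∃ e : A m, g = (aV q h e, 1) ∨ g = (aV q h e * rho q m l, -1)}
  one_mem' := ⟨0, Or.inl (by rw [aV_zero]; rfl)⟩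
  mul_mem' := by
    rintro _ _ ⟨e, rfl | rfl⟩ ⟨e', rfl | rfl⟩
    · exact ⟨e + e', Or.inl (by rw [aV_add]; rfl)⟩
    · exact ⟨e + e', Or.inr (by rw [aV_add]; rfl)⟩
    · refine ⟨e + e', Or.inr ?_⟩
      rw [aV_add, Prod.mk_mul_mk, mul_one, mul_assoc, ← aV_rho, ← mul_assoc]
    · refine ⟨e + e', Or.inl ?_⟩
      rw [aV_add, Prod.mk_mul_mk, neg_mul_neg, mul_one, mul_assoc, ← mul_assoc (rho q m l), ← aV_rho,
        mul_assoc (aV q h e'), rho_rho, mul_one]
  inv_mem' := by
    rintro _ ⟨e, rfl | rfl⟩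
    · refine ⟨e, Or.inl ?_⟩
      rw [Prod.inv_mk, inv_one, Prod.mk.injEq]
      exact ⟨inv_eq_of_mul_eq_one_left (by rw [← aV_add, aa, aV_zero]), rfl⟩
    · refine ⟨e, Or.inr ?_⟩
      rw [Prod.inv_mk, Prod.mk.injEq]
      refine ⟨inv_eq_of_mul_eq_one_left ?_, by decide⟩
      rw [mul_assoc, ← mul_assoc (rho q m l), ← aV_rho, mul_assoc (aV q h e), rho_rho, mul_one,
        ← aV_add, aa, aV_zero]

theorem mem_Kf_one {m l : ℕ} (q : ℕ) (h : Fin l → (B m →+ Y)) (π : Perm (Vt q m l)) :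
    ((π, 1) : G (Vt q m l)) ∈ Kf q h ↔ ∃ e, π = aV q h e := by
  constructor
  · rintro ⟨e, he | he⟩
    · exact ⟨e, congrArg Prod.fst he⟩
    · have h1 : (1 : ℤˣ) = -1 := congrArg Prod.snd he
      exact absurd h1 (by decide)
  · rintro ⟨e, rfl⟩
    exact ⟨e, Or.inl rfl⟩

theorem mem_Kf_neg {m l : ℕ} (q : ℕ) (h : Fin l → (B m →+ Y)) (π : Perm (Vt q m l)) :
    ((π, -1) : G (Vt q m l)) ∈ Kf q h ↔ ∃ e, π = aV q h e * rho q m l := by
  constructor
  · rintro ⟨e, he | he⟩
    · have h1 : (-1 : ℤˣ) = 1 := congrArg Prod.snd he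
      exact absurd h1 (by decide)
    · exact ⟨e, congrArg Prod.fst he⟩
  · rintro ⟨e, rfl⟩
    exact ⟨e, Or.inr rfl⟩

theorem Kf_sq {m l : ℕ} (q : ℕ) (h : Fin l → (B m →+ Y)) : ∀ x ∈ Kf q h, x * x = 1 := by
  rintro _ ⟨e, rfl | rfl⟩
  · rw [Prod.mk_mul_mk, ← aV_add, aa, aV_zero]
    rfl
  · rw [Prod.mk_mul_mk, neg_mul_neg, mul_one, mul_assoc, ← mul_assoc (rho q m l), ← aV_rho,
      mul_assoc (aV q h e), rho_rho, mul_one, ← aV_add, aa, aV_zero]
    rfl

theorem Kf_not_le {m l : ℕ} (q : ℕ) (h : Fin l → (B m →+ Y)) : ¬ Kf q h ≤ S (Vt q m l) := by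
  intro hle
  have h1 : ((aV q h 0 * rho q m l, -1) : G (Vt q m l)) ∈ S (Vt q m l) := hle ⟨0, Or.inr rfl⟩
  have h2 : ((-1 : ℤˣ)) = 1 := h1
  exact absurd h2 (by decide)

/-- the symmetric graph on `S0` -/
def adj {m l : ℕ} (h : Fin l → (B m →+ Y)) : S0 m l → S0 m l → Prop
  | Sum.inl x, Sum.inr (Sum.inl (i, v)) => co i x = v
  | Sum.inr (Sum.inl (i, v)), Sum.inl x => co i x = v
  | Sum.inl x, Sum.inr (Sum.inr (j, v)) => tau h j x = v
  | Sum.inr (Sum.inr (j, v)), Sum.inl x => tau h j x = v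
  | _, _ => False

theorem adj_symm {m l : ℕ} (h : Fin l → (B m →+ Y)) (s s' : S0 m l) : adj h s s' ↔ adj h s' s := by
  rcases s with x | ⟨i, v⟩ | ⟨j, v⟩ <;> rcases s' with x' | ⟨i', v'⟩ | ⟨j', v'⟩ <;> exact Iff.rfl

theorem adj_aSf {m l : ℕ} (h : Fin l → (B m →+ Y)) (e : A m) (s s' : S0 m l) :
    adj h (aSf h e s) (aSf h e s') ↔ adj h s s' := by
  rcases s with x | ⟨i, v⟩ | ⟨j, v⟩ <;> rcases s' with x' | ⟨i', v'⟩ | ⟨j', v'⟩ <;>
    simp only [adj, aSf, co_add, tau_add, add_left_inj]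

/-- the relation of the digraph with patterns `In`, `Out` -/
def arcR {m l : ℕ} (q : ℕ) (h : Fin l → (B m →+ Y)) (In Out : S0 m l → Finset (Fin q)) :
    Vt q m l → Vt q m l → Prop
  | Sum.inl i, Sum.inl j => i < j
  | Sum.inl i, Sum.inr s => i ∈ In s
  | Sum.inr s, Sum.inl i => i ∈ Out s
  | Sum.inr s, Sum.inr s' => adj h s s'

open scoped Classical in
/-- the digraph with patterns `In`, `Out` -/
noncomputable def Dg {m l : ℕ} (q : ℕ) (h : Fin l → (B m →+ Y))
    (In Out : S0 m l → Finset (Fin q)) : Arc (Vt q m l) → Bool :=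
  fun e => decide (arcR q h In Out e.1.1 e.1.2)

/-- `(π, 1)` fixes the digraph iff it preserves the relation -/
theorem mem_stab_one {m l : ℕ} (q : ℕ) (h : Fin l → (B m →+ Y))
    (In Out : S0 m l → Finset (Fin q)) (π : Perm (Vt q m l)) :
    ((π, 1) : G (Vt q m l)) ∈ stab (Dg q h In Out) ↔
      ∀ u v, u ≠ v → (arcR q h In Out (π u) (π v) ↔ arcR q h In Out u v) := by
  constructor
  · intro H u v huv
    have h1 := H ⟨(u, v), huv⟩
    rw [smul_one] at h1
    exact decide_eq_decide.1 h1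
  · intro H e
    rw [smul_one]
    exact decide_eq_decide.2 (H e.1.1 e.1.2 e.2)

/-- `(π, -1)` fixes the digraph iff it reverses the relation -/
theorem mem_stab_neg {m l : ℕ} (q : ℕ) (h : Fin l → (B m →+ Y))
    (In Out : S0 m l → Finset (Fin q)) (π : Perm (Vt q m l)) :
    ((π, -1) : G (Vt q m l)) ∈ stab (Dg q h In Out) ↔
      ∀ u v, u ≠ v → (arcR q h In Out (π v) (π u) ↔ arcR q h In Out u v) := by
  constructor
  · intro H u v huv
    have h1 := H ⟨(u, v), huv⟩
    rw [smul_neg] at h1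
    exact decide_eq_decide.1 h1
  · intro H e
    rw [smul_neg]
    exact decide_eq_decide.2 (H e.1.1 e.1.2 e.2)

end Pool.Agent.MP_b5e4d4_co.FP
end
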