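import Pool.Agent.Lib.MP_b5e4d4_co.Mg.G007
import Pool.Agent.Lib.MP_b5e4d4_co.Mg.G006

section

set_option autoImplicit false

/-!
# Task F4: every subgroup of `Kf q h` is the stabiliser of a digraph

`L0 = {e : (aV q h e, 1) ∈ L}`, an additive subgroup of `A m` (`aV_add`, `aV_zero`; `-e = e`).
`F4_pattern`: there is `In : S0 m l → Finset (Fin q)`, all values of card `≤ c`, with `In s = In s' ↔ ∃ e ∈ L0, s' = aSf h e s`: the
orbits of `L0` on `S0 m l` are at most `2 ^ c` many, so they inject into the subsets of the first `c` points of `Fin q`.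
Case 1, `¬ L ≤ S`: some `(aV q h a * rho, -1) ∈ L` (`hL`). `Out s := (In (aSf h a s)).image Fin.rev`. Cards: `≤ c + c`, and `2 c + 1 < q`.
`In` and `Out` are constant on `L0`-orbits (`aSf_add`, commutativity of `A m`). `L ≤ stab D`: an element of `L` is in `Kf q h`, so it is
`(aV q h e, 1)` with `e ∈ L0` (`F3a`) or `(aV q h e * rho, -1)`; the latter is `(aV q h (e + a), 1) * (aV q h a * rho, -1)` with
`e + a ∈ L0` (`F3a`, `F3b`: `Out (aSf h a s) = (In s).image Fin.rev` by `aSf_invol`). `stab D ≤ L`: `(π, 1) ∈ stab D` gives `π = aV q h e`,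
`e ∈ L0` (`F2`), so it is in `L`; if `(π, -1) ∈ stab D` then its product with `(aV q h a * rho, -1)` has sign `1` and is in
`stab D`, hence in `L`.
Case 2, `L ≤ S`: `Out := fun _ => ∅`. `In` has two different values (`inl 0` and a point `inr (inl (i, 0))` are in different
`L0`-orbits), so some `In s` is nonempty and `F3c` excludes sign `-1`; sign `1` as in case 1.
-/

namespace Pool.Agent.MP_b5e4d4_co.FP

open Equiv

theorem F4_pattern {m l q c : ℕ} (hc : Fintype.card (S0 m l) ≤ 2 ^ c) (hq : c ≤ q)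
    (h : Fin l → (B m →+ Y)) (L0 : AddSubgroup (A m)) :
    ∃ In : S0 m l → Finset (Fin q), (∀ s, (In s).card ≤ c) ∧
      ∀ s s', In s = In s' ↔ ∃ e ∈ L0, s' = aSf h e s := by
  classical
  let st : Setoid (S0 m l) :=
    { r := fun s s' => ∃ e ∈ L0, s' = aSf h e s
      iseqv :=
        { refl := fun s => ⟨0, L0.zero_mem, (aSf_zero h s).symm⟩
          symm := by
            rintro s s' ⟨e, he, rfl⟩
            exact ⟨e, he, (aSf_invol h e s).symm⟩
          trans := by
            rintro s s' s'' ⟨e, he, rfl⟩ ⟨e', he', rfl⟩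
            exact ⟨e' + e, L0.add_mem he' he, (aSf_add h e' e s).symm⟩ } }
  have : Fintype (Quotient st) := Fintype.ofFinite _
  have h1 : Fintype.card (Quotient st) ≤ Fintype.card (S0 m l) :=
    Fintype.card_le_of_surjective (Quotient.mk st) Quotient.mk_surjective
  have h2 : Fintype.card (Quotient st) ≤ Fintype.card (Finset (Fin c)) := by
    rw [Fintype.card_finset, Fintype.card_fin]
    exact h1.trans hc
  obtain ⟨φ⟩ := Function.Embedding.nonempty_of_card_le h2
  refine ⟨fun s => (φ (Quotient.mk st s)).map (Fin.castLEEmb hq), fun s => ?_, fun s s' => ?_⟩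
  · rw [Finset.card_map]
    exact (Finset.card_le_univ _).trans (by rw [Fintype.card_fin])
  · simp only [Finset.map_inj, EmbeddingLike.apply_eq_iff_eq]
    constructor
    · intro h3
      exact Quotient.exact h3
    · intro h3
      exact Quotient.sound h3

theorem F4 {m l q c : ℕ} (hc : Fintype.card (S0 m l) ≤ 2 ^ c) (hq : 2 * c + 2 ≤ q)
    (h : Fin l → (B m →+ Y)) (L : Subgroup (G (Vt q m l))) (hL : L ≤ Kf q h) :
    ∃ D : Arc (Vt q m l) → Bool, stab D = L := by
  classical
  obtain ⟨L0, hL0⟩ : ∃ L0 : AddSubgroup (A m), ∀ e, e ∈ L0 ↔ ((aV q h e, 1) : G (Vt q m l)) ∈ L := by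
    refine ⟨{ carrier := {e | ((aV q h e, 1) : G (Vt q m l)) ∈ L}, add_mem' := ?_, zero_mem' := ?_, neg_mem' := ?_ },
      fun e => Iff.rfl⟩
    · intro e e' he he'
      have h1 : ((aV q h (e + e'), 1) : G (Vt q m l)) = (aV q h e, 1) * (aV q h e', 1) := by
        rw [aV_add, Prod.mk_mul_mk, mul_one]
      show ((aV q h (e + e'), 1) : G (Vt q m l)) ∈ L
      rw [h1]
      exact L.mul_mem he he'
    · show ((aV q h 0, 1) : G (Vt q m l)) ∈ L
      rw [aV_zero]
      exact L.one_mem
    · intro e he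
      have h1 : -e = e := neg_eq_of_add_eq_zero_left (aa e)
      show ((aV q h (-e), 1) : G (Vt q m l)) ∈ L
      rw [h1]
      exact he
  obtain ⟨In, hIc, hIn⟩ := F4_pattern hc (by omega : c ≤ q) h L0
  have hInO : ∀ e ∈ L0, ∀ s, In (aSf h e s) = In s := fun e he s => ((hIn s (aSf h e s)).2 ⟨e, he, rfl⟩).symm
  -- reduction to the sign one
  have main : ∀ Out : S0 m l → Finset (Fin q), (∀ s, (In s).card + (Out s).card + 1 < q) →
      (∀ e ∈ L0, ∀ s, Out (aSf h e s) = Out s) →
      ∀ π : Perm (Vt q m l), ((π, 1) : G (Vt q m l)) ∈ stab (Dg q h In Out) ↔ ((π, 1) : G (Vt q m l)) ∈ L := by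
    intro Out hcard hOut π
    constructor
    · intro h1
      obtain ⟨e, he, rfl⟩ := F2 h In Out hcard L0 (fun s s' h2 => (hIn s s').1 h2) π h1
      exact (hL0 e).1 he
    · intro h1
      obtain ⟨e, rfl⟩ := (mem_Kf_one q h π).1 (hL h1)
      have he := (hL0 e).2 h1
      exact F3a h In Out e (hInO e he) (hOut e he)
  by_cases hk : ∃ k ∈ L, k.2 = (-1 : ℤˣ)
  · obtain ⟨⟨κ, σ⟩, hkL, hk2⟩ := hk
    obtain rfl : σ = -1 := hk2
    obtain ⟨a, rfl⟩ := (mem_Kf_neg q h κ).1 (hL hkL)
    obtain ⟨Out, hOd⟩ : ∃ Out : S0 m l → Finset (Fin q), ∀ s, Out s = (In (aSf h a s)).image Fin.rev := ⟨_, fun _ => rfl⟩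
    have hcard : ∀ s, (In s).card + (Out s).card + 1 < q := by
      intro s
      have h1 := hIc s
      have h2 : (Out s).card ≤ c := by
        rw [hOd]
        exact Finset.card_image_le.trans (hIc _)
      omega
    have hOut : ∀ e ∈ L0, ∀ s, Out (aSf h e s) = Out s := by
      intro e he s
      rw [hOd, hOd, ← aSf_add, add_comm, aSf_add, hInO e he]
    have hm := main Out hcard hOut
    have hks : ((aV q h a * rho q m l, -1) : G (Vt q m l)) ∈ stab (Dg q h In Out) :=
      F3b h In Out a (fun s => by rw [hOd, aSf_invol])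
    refine ⟨Dg q h In Out, ?_⟩
    ext ⟨π, σ⟩
    rcases Int.units_eq_one_or σ with rfl | rfl
    · exact hm π
    · have e1 : ((π, -1) : G (Vt q m l)) * (aV q h a * rho q m l, -1) = (π * (aV q h a * rho q m l), 1) := by
        rw [Prod.mk_mul_mk, neg_mul_neg, mul_one]
      have h1 := hm (π * (aV q h a * rho q m l))
      rw [← e1] at h1
      rw [(stab (Dg q h In Out)).mul_mem_cancel_right hks, L.mul_mem_cancel_right hkL] at h1
      exact h1
  · push Not at hk
    have hcard : ∀ s, (In s).card + ((fun _ => ∅ : S0 m l → Finset (Fin q)) s).card + 1 < q := by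
      intro s
      have h1 := hIc s
      simp only [Finset.card_empty]
      omega
    have hm := main (fun _ => ∅) hcard (fun _ _ _ => rfl)
    obtain ⟨s, hs⟩ : ∃ s, (In s).Nonempty := by
      by_contra hcon
      have hcon' : ∀ s, In s = ∅ := fun s => Finset.not_nonempty_iff_eq_empty.1 (fun hs => hcon ⟨s, hs⟩)
      have h1 : In (Sum.inl 0) = In (Sum.inr (Sum.inl (Sum.inl 0, 0))) := by
        rw [hcon', hcon']
      obtain ⟨e, _, h2⟩ := (hIn _ _).1 h1
      simp only [aSf] at h2
      exact absurd h2 (by simp)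
    refine ⟨Dg q h In (fun _ => ∅), ?_⟩
    ext ⟨π, σ⟩
    rcases Int.units_eq_one_or σ with rfl | rfl
    · exact hm π
    · constructor
      · intro h1
        exact absurd h1 (F3c h In _ hcard (fun _ => rfl) s hs π)
      · intro h1
        exact absurd rfl (hk _ h1)

end Pool.Agent.MP_b5e4d4_co.FP
end

section

set_option autoImplicit false

/-!
# Task N2: counting the terms

For every `h : Fin l → (B m →+ Y)` the theorem `B1` for `K = Kf q h` (`Kf_sq`, `Kf_not_le`, `F4`) gives an index `i h` and a `π` with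
`closure (X (i h)) = cj π (Kf q h)`. Two `h`, `h0` with the same index have conjugate `Kf q h`, `Kf q h0`, so every fibre of
`h ↦ i h` has at most `2 ^ ((m + 2) * (m + 2)) * (card V) ^ l` elements (`N1`; `Kf q h = cj (π⁻¹ * π0) (Kf q h0)`: prove
`cj π (cj σ K) = cj (π * σ) K`). The number of all `h` is `(card (B m →+ Y)) ^ l = 4 ^ (m * l)` (`card_BY`: a homomorphism
`F_2 ^ m → F_2 ^ 2` is an arbitrary choice of the images of the `m` unit vectors).
-/

namespace Pool.Agent.MP_b5e4d4_co.FP

open Equiv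

/-- the homomorphism with the given images of the unit vectors -/
private def N2_hom (m : ℕ) (v : Fin m → Y) : B m →+ Y where
  toFun b := ∑ i, b i • v i
  map_zero' := by simp
  map_add' a b := by
    rw [← Finset.sum_add_distrib]
    exact Finset.sum_congr rfl fun i _ => by rw [Pi.add_apply, add_smul]

private theorem N2_hom_inj (m : ℕ) : Function.Injective (N2_hom m) := by
  intro v w h
  funext i
  have h1 : N2_hom m v (Pi.single i 1) = N2_hom m w (Pi.single i 1) := by rw [h]
  have key : ∀ u : Fin m → Y, N2_hom m u (Pi.single i 1) = u i := by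
    intro u
    show ∑ j, (Pi.single i (1 : ZMod 2) : Fin m → ZMod 2) j • u j = u i
    rw [Finset.sum_eq_single i]
    · rw [Pi.single_eq_same, one_smul]
    · intro j _ hj
      rw [Pi.single_eq_of_ne hj, zero_smul]
    · intro hi
      exact absurd (Finset.mem_univ i) hi
  rw [key, key] at h1
  exact h1

private theorem N2_finite (m : ℕ) : Finite (B m →+ Y) :=
  Finite.of_injective (fun f : B m →+ Y => (f : B m → Y)) DFunLike.coe_injective

theorem card_BY (m : ℕ) : 4 ^ m ≤ Nat.card (B m →+ Y) := by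
  have := N2_finite m
  have h1 := Nat.card_le_card_of_injective _ (N2_hom_inj m)
  have h2 : Nat.card (Fin m → Y) = 4 ^ m := by
    rw [Nat.card_eq_fintype_card, Fintype.card_fun, Fintype.card_fin, Fintype.card_fun, ZMod.card, Fintype.card_fin]
    norm_num
  rw [h2] at h1
  exact h1

theorem card_S0 (m l : ℕ) :
    Fintype.card (S0 m l) = 2 ^ (m + 2) + 2 * (m + 2) + 4 * l := by
  have e1 : Fintype.card (A m) = 2 ^ (m + 2) := by
    rw [Fintype.card_prod, Fintype.card_fun, Fintype.card_fun, ZMod.card, Fintype.card_fin, Fintype.card_fin, pow_add]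
    ring
  have e2 : Fintype.card (I m × ZMod 2) = 2 * (m + 2) := by
    rw [Fintype.card_prod, Fintype.card_sum, ZMod.card, Fintype.card_fin, Fintype.card_fin]
    ring
  have e3 : Fintype.card (Fin l × Y) = 4 * l := by
    rw [Fintype.card_prod, Fintype.card_fun, ZMod.card, Fintype.card_fin, Fintype.card_fin]
    ring
  rw [Fintype.card_sum, Fintype.card_sum, e1, e2, e3]
  ring

private theorem N2_cj_cj {V : Type} (π σ : Perm V) (K : Subgroup (G V)) : cj π (cj σ K) = cj (π * σ) K := by
  unfold cj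
  rw [Subgroup.map_map]
  congr 1
  ext g : 1
  show ((π, 1) : G V) * (((σ, 1) : G V) * g * ((σ, 1) : G V)⁻¹) * ((π, 1) : G V)⁻¹ =
    ((π * σ, 1) : G V) * g * ((π * σ, 1) : G V)⁻¹
  have h1 : ((π * σ, 1) : G V) = ((π, 1) : G V) * ((σ, 1) : G V) := by
    rw [Prod.mk_mul_mk, one_mul]
  rw [h1, mul_inv_rev]
  simp only [mul_assoc]

private theorem N2_cj_one {V : Type} (K : Subgroup (G V)) : cj 1 K = K := by
  unfold cj
  have h1 : (MulAut.conj ((1, 1) : G V)).toMonoidHom = MonoidHom.id (G V) := by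
    ext g : 1
    show ((1, 1) : G V) * g * ((1, 1) : G V)⁻¹ = g
    have h2 : ((1, 1) : G V) = 1 := rfl
    rw [h2, one_mul, inv_one, mul_one]
  rw [h1, Subgroup.map_id]

theorem N2 {m l q c n : ℕ} (hc : Fintype.card (S0 m l) ≤ 2 ^ c) (hq : 2 * c + 2 ≤ q)
    (X : Fin n → Set (G (Vt q m l))) (w : Fin n → ℂ) (hF : Formula n X w) :
    4 ^ (m * l) ≤ n * (2 ^ ((m + 2) * (m + 2)) * Nat.card (Vt q m l) ^ l) := by
  have := N2_finite m
  have : Finite (Fin l → (B m →+ Y)) := Pi.finite
  have hB : ∀ h : Fin l → (B m →+ Y), ∃ (i : Fin n) (π : Perm (Vt q m l)),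
      Subgroup.closure (X i) = cj π (Kf q h) := fun h =>
    B1 X w hF (Kf q h) (Kf_sq q h) (Kf_not_le q h) (fun L hL => F4 hc hq h L hL)
  choose ix px hx using hB
  have hfib : ∀ i : Fin n, Nat.card {h : Fin l → (B m →+ Y) // ix h = i} ≤
      2 ^ ((m + 2) * (m + 2)) * Nat.card (Vt q m l) ^ l := by
    intro i
    by_cases hne : Nonempty {h : Fin l → (B m →+ Y) // ix h = i}
    · obtain ⟨h0, hh0⟩ := hne
      refine le_trans ?_ (N1 (q := q) h0)
      refine Nat.card_le_card_of_injective (fun h => ⟨h.1, (px h.1)⁻¹ * px h0, ?_⟩) ?_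
      · have h1 := hx h.1
        have h2 := hx h0
        rw [h.2] at h1
        rw [hh0, h1] at h2
        have h3 : cj (px h.1)⁻¹ (cj (px h.1) (Kf q h.1)) = cj (px h.1)⁻¹ (cj (px h0) (Kf q h0)) := by rw [h2]
        rw [N2_cj_cj, N2_cj_cj, inv_mul_cancel, N2_cj_one] at h3
        exact h3
      · intro a b hab
        exact Subtype.ext (congrArg (fun z => z.1) hab)
    · rw [not_nonempty_iff] at hne
      rw [Nat.card_of_isEmpty]
      exact Nat.zero_le _
  have htot : Nat.card (Fin l → (B m →+ Y)) ≤ n * (2 ^ ((m + 2) * (m + 2)) * Nat.card (Vt q m l) ^ l) := by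
    have h1 : Nat.card (Fin l → (B m →+ Y)) = ∑ i : Fin n, Nat.card {h : Fin l → (B m →+ Y) // ix h = i} := by
      rw [← Nat.card_sigma]
      exact Nat.card_congr (Equiv.sigmaFiberEquiv ix).symm
    rw [h1]
    calc ∑ i : Fin n, Nat.card {h : Fin l → (B m →+ Y) // ix h = i}
        ≤ ∑ _i : Fin n, 2 ^ ((m + 2) * (m + 2)) * Nat.card (Vt q m l) ^ l := Finset.sum_le_sum fun i _ => hfib i
      _ = n * (2 ^ ((m + 2) * (m + 2)) * Nat.card (Vt q m l) ^ l) := by
        rw [Finset.sum_const, Finset.card_univ, Fintype.card_fin, smul_eq_mul]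
  refine le_trans ?_ htot
  rw [Nat.card_fun, Nat.card_eq_fintype_card (α := Fin l), Fintype.card_fin, pow_mul]
  exact Nat.pow_le_pow_left (card_BY m) l

end Pool.Agent.MP_b5e4d4_co.FP
end
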