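import Mathlib
import Pool.Agent.Lib.MP_b5e4d4_co.Mg.G006

section

set_option autoImplicit false

/-!
# Task N3: the parameters

`m = Nat.log 2 (p / 16) ≥ 9`, `l = 2 ^ m`, `c = m + 4`, `q = p - (2 ^ (m + 2) + 2 (m + 2) + 4 l)`. `2 ^ m ≤ p / 16`, so `16 * 2 ^ m ≤ p`, and
`p < 2 ^ (m + 5)`. `2 ^ (m + 2) + 2 (m + 2) + 4 * 2 ^ m = 8 * 2 ^ m + 2 m + 4 ≤ 16 * 2 ^ m = 2 ^ c`, `q ≥ 8 * 2 ^ m - 2 m - 4 ≥ 2 m + 10`.
If `4 ^ (m l) ≤ n * (2 ^ ((m+2)(m+2)) * p ^ l)` then `2 ^ (2 m l) ≤ n * 2 ^ ((m+2)(m+2) + (m+5) l)`, so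
`2 ^ ((m - 5) 2 ^ m - (m+2)(m+2)) ≤ n`, and `(m - 5) 2 ^ m - (m+2)(m+2) ≥ 2 ^ m (m + 5) / 4` for `m ≥ 9`
(i.e. `4 (m - 5) 2 ^ m ≥ 4 (m+2)(m+2) + 2 ^ m (m + 5)`, `(3 m - 25) 2 ^ m ≥ 4 (m+2)(m+2)`; `m = 9`: `1024 ≥ 484`), so
`n ^ 128 ≥ 2 ^ (32 * 2 ^ m (m + 5)) = (2 ^ (m + 5)) ^ (2 ^ (m + 5)) ≥ p ^ p ≥ p!`.
-/

namespace Pool.Agent.MP_b5e4d4_co.FP

theorem N3 (p : ℕ) (hp : 8192 ≤ p) :
    ∃ m l q c : ℕ, q + (2 ^ (m + 2) + 2 * (m + 2) + 4 * l) = p ∧
      2 ^ (m + 2) + 2 * (m + 2) + 4 * l ≤ 2 ^ c ∧ 2 * c + 2 ≤ q ∧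
      ∀ n : ℕ, 4 ^ (m * l) ≤ n * (2 ^ ((m + 2) * (m + 2)) * p ^ l) → p.factorial ≤ n ^ 128 := by
  obtain ⟨m, hm⟩ : ∃ m, m = Nat.log 2 (p / 16) := ⟨_, rfl⟩
  have h512 : 512 ≤ p / 16 := by omega
  have hm9 : 9 ≤ m := by
    rw [hm]
    exact (Nat.le_log_iff_pow_le (by norm_num) (by omega)).2 (by norm_num; exact h512)
  have hlo : 2 ^ m ≤ p / 16 := by
    rw [hm]; exact Nat.pow_log_le_self 2 (by omega)
  have hhi : p / 16 < 2 ^ (m + 1) := by
    rw [hm]; exact Nat.lt_pow_succ_log_self (by norm_num) _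
  obtain ⟨t, rfl⟩ : ∃ t, m = t + 9 := ⟨m - 9, by omega⟩
  obtain ⟨l, hl⟩ : ∃ l, l = 2 ^ (t + 9) := ⟨_, rfl⟩
  have h16 : 16 * l ≤ p := by rw [hl]; omega
  have hp5 : p < 2 ^ (t + 9 + 5) := by
    have : 2 ^ (t + 9 + 5) = 16 * 2 ^ (t + 9 + 1) := by ring
    omega
  have hlt : 512 * (t + 1) ≤ l := by
    have h1 : t + 1 ≤ 2 ^ t := Nat.lt_two_pow_self
    have h2 : l = 512 * 2 ^ t := by rw [hl]; ring
    omega
  have h4l : 2 ^ (t + 9 + 2) = 4 * l := by rw [hl]; ring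
  refine ⟨t + 9, l, p - (2 ^ (t + 9 + 2) + 2 * (t + 9 + 2) + 4 * l), t + 9 + 4, ?_, ?_, ?_, ?_⟩
  · rw [h4l]; omega
  · have : 2 ^ (t + 9 + 4) = 16 * l := by rw [hl]; ring
    rw [h4l, this]; omega
  · rw [h4l]; omega
  · intro n hn
    -- exponent bookkeeping
    obtain ⟨K, hK⟩ : ∃ K, K = (t + 9 + 2) * (t + 9 + 2) + (t + 9 + 5) * l := ⟨_, rfl⟩
    have hbig : 4 * K + l * (t + 9 + 5) ≤ 4 * (2 * ((t + 9) * l)) := by
      have h1 : 4 * ((t + 9 + 2) * (t + 9 + 2)) ≤ (3 * t + 2) * (512 * (t + 1)) := by nlinarith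
      have h2 : (3 * t + 2) * (512 * (t + 1)) ≤ (3 * t + 2) * l := Nat.mul_le_mul_left _ hlt
      have h3 : 4 * ((t + 9 + 2) * (t + 9 + 2)) ≤ (3 * t + 2) * l := h1.trans h2
      rw [hK]
      nlinarith
    obtain ⟨E, hE⟩ : ∃ E, E + K = 2 * ((t + 9) * l) :=
      ⟨2 * ((t + 9) * l) - K, by omega⟩
    have hE4 : l * (t + 9 + 5) ≤ 4 * E := by omega
    have hnE : 2 ^ E ≤ n := by
      by_contra hc
      push Not at hc
      have h1 : p ^ l ≤ 2 ^ ((t + 9 + 5) * l) := by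
        rw [pow_mul]; exact Nat.pow_le_pow_left hp5.le _
      have h2 : n * (2 ^ ((t + 9 + 2) * (t + 9 + 2)) * p ^ l) ≤ n * 2 ^ K := by
        rw [hK, pow_add]
        exact Nat.mul_le_mul_left _ (Nat.mul_le_mul_left _ h1)
      have h3 : n * 2 ^ K < 2 ^ E * 2 ^ K :=
        Nat.mul_lt_mul_of_pos_right hc (by positivity)
      have h4 : 2 ^ E * 2 ^ K = 4 ^ ((t + 9) * l) := by
        rw [← pow_add, hE, pow_mul]; norm_num
      omega
    have hPP : p ^ p ≤ 2 ^ ((t + 9 + 5) * 2 ^ (t + 9 + 5)) := by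
      calc p ^ p ≤ (2 ^ (t + 9 + 5)) ^ p := Nat.pow_le_pow_left hp5.le _
        _ ≤ (2 ^ (t + 9 + 5)) ^ (2 ^ (t + 9 + 5)) :=
            Nat.pow_le_pow_right (by positivity) hp5.le
        _ = 2 ^ ((t + 9 + 5) * 2 ^ (t + 9 + 5)) := by rw [← pow_mul]
    have h32 : 2 ^ (t + 9 + 5) = 32 * l := by rw [hl]; ring
    have hexp : (t + 9 + 5) * 2 ^ (t + 9 + 5) ≤ E * 128 := by
      rw [h32]; nlinarith
    calc p.factorial ≤ p ^ p := Nat.factorial_le_pow p
      _ ≤ 2 ^ ((t + 9 + 5) * 2 ^ (t + 9 + 5)) := hPP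
      _ ≤ 2 ^ (E * 128) := Nat.pow_le_pow_right (by norm_num) hexp
      _ = (2 ^ E) ^ 128 := by rw [pow_mul]
      _ ≤ n ^ 128 := Nat.pow_le_pow_left hnE _

end Pool.Agent.MP_b5e4d4_co.FP
end

section

set_option autoImplicit false

/-!
# Task T1: transport of a formula along a bijection of the points

`e : V ≃ V'` induces `Arc V ≃ Arc V'`, `G V ≃* G V'` (`(π, ε) ↦ (e.symm.trans (π.trans e), ε)`) and a bijection of the digraphs, compatible
with the actions, `SC`, `relabel` and `stab`. `X' i` is the image of `X i`.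
-/

namespace Pool.Agent.MP_b5e4d4_co.FP

open Equiv

/-- the induced bijection of the arcs -/
private def T1arc {V V' : Type} (e : V ≃ V') : Arc V ≃ Arc V' where
  toFun u := ⟨(e u.1.1, e u.1.2), fun h => u.2 (e.injective h)⟩
  invFun u := ⟨(e.symm u.1.1, e.symm u.1.2), fun h => u.2 (e.symm.injective h)⟩
  left_inv u := Subtype.ext (Prod.ext (e.symm_apply_apply _) (e.symm_apply_apply _))
  right_inv u := Subtype.ext (Prod.ext (e.apply_symm_apply _) (e.apply_symm_apply _))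

private theorem T1arc_mv {V V' : Type} (e : V ≃ V') (π : Perm V) (u : Arc V) :
    T1arc e (mv π u) = mv (e.permCongr π) (T1arc e u) := by
  refine Subtype.ext (Prod.ext ?_ ?_)
  · show e (π u.1.1) = e (π (e.symm (e u.1.1)))
    rw [e.symm_apply_apply]
  · show e (π u.1.2) = e (π (e.symm (e u.1.2)))
    rw [e.symm_apply_apply]

private theorem T1arc_rev {V V' : Type} (e : V ≃ V') (u : Arc V) :
    T1arc e (rev u) = rev (T1arc e u) := rfl

private theorem T1arc_smul {V V' : Type} (e : V ≃ V') (g : G V) (u : Arc V) :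
    T1arc e (g • u) = ((e.permCongr g.1, g.2) : G V') • T1arc e u := by
  obtain ⟨π, a⟩ := g
  rcases Int.units_eq_one_or a with rfl | rfl
  · rw [smul_one, smul_one, T1arc_mv]
  · rw [smul_neg, smul_neg, T1arc_rev, T1arc_mv]

/-- the induced bijection of the digraphs -/
private def T1dig {V V' : Type} (e : V ≃ V') : (Arc V → Bool) ≃ (Arc V' → Bool) where
  toFun D := fun u => D ((T1arc e).symm u)
  invFun D := fun u => D (T1arc e u)
  left_inv D := funext fun u => congrArg D ((T1arc e).symm_apply_apply u)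
  right_inv D := funext fun u => congrArg D ((T1arc e).apply_symm_apply u)

private theorem T1dig_apply {V V' : Type} (e : V ≃ V') (D : Arc V → Bool) (u : Arc V) :
    T1dig e D (T1arc e u) = D u := congrArg D ((T1arc e).symm_apply_apply u)

private theorem T1dig_relabel {V V' : Type} (e : V ≃ V') (π : Perm V) (D : Arc V → Bool) :
    T1dig e (relabel π D) = relabel (e.permCongr π) (T1dig e D) := by
  funext u'
  obtain ⟨u, rfl⟩ := (T1arc e).surjective u'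
  rw [T1dig_apply]
  show D (mv π⁻¹ u) = T1dig e D (mv (e.permCongr π)⁻¹ (T1arc e u))
  have h : (e.permCongr π)⁻¹ = e.permCongr π⁻¹ := rfl
  rw [h, ← T1arc_mv, T1dig_apply]

private theorem T1dig_SC {V V' : Type} (e : V ≃ V') (D : Arc V → Bool) :
    SC (T1dig e D) ↔ SC D := by
  constructor
  · rintro ⟨π, h⟩
    refine ⟨e.permCongr.symm π, fun u => ?_⟩
    have h1 := h (T1arc e u)
    rw [T1dig_apply] at h1
    rw [← h1, ← T1dig_apply e D (rev (mv (e.permCongr.symm π) u)), T1arc_rev, T1arc_mv,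
      Equiv.apply_symm_apply]
  · rintro ⟨π, h⟩
    refine ⟨e.permCongr π, fun u' => ?_⟩
    obtain ⟨u, rfl⟩ := (T1arc e).surjective u'
    rw [← T1arc_mv, ← T1arc_rev, T1dig_apply, T1dig_apply, h]

private theorem T1dig_stab {V V' : Type} (e : V ≃ V') (D : Arc V → Bool) (g : G V) :
    ((e.permCongr g.1, g.2) : G V') ∈ stab (T1dig e D) ↔ g ∈ stab D := by
  constructor
  · intro h u
    have h1 := h (T1arc e u)
    rw [← T1arc_smul, T1dig_apply, T1dig_apply] at h1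
    exact h1
  · intro h u'
    obtain ⟨u, rfl⟩ := (T1arc e).surjective u'
    rw [← T1arc_smul, T1dig_apply, T1dig_apply]
    exact h u

theorem T1 {V V' : Type} [Fintype V] [DecidableEq V] [Fintype V'] [DecidableEq V'] (e : V ≃ V')
    {n : ℕ} (X : Fin n → Set (G V)) (w : Fin n → ℂ) (hF : Formula n X w) :
    ∃ X' : Fin n → Set (G V'), Formula n X' w := by
  classical
  refine ⟨fun i => (fun g : G V => ((e.permCongr g.1, g.2) : G V')) '' X i, ?_⟩
  intro f' hf'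
  have hinv : ∀ (π : Perm V) D, f' (T1dig e (relabel π D)) = f' (T1dig e D) := by
    intro π D
    rw [T1dig_relabel, hf']
  have h := hF (fun D => f' (T1dig e D)) hinv
  have hsub : ∀ i D, (fun g : G V => ((e.permCongr g.1, g.2) : G V')) '' X i ⊆
      (stab (T1dig e D) : Set (G V')) ↔ X i ⊆ (stab D : Set (G V)) := by
    intro i D
    rw [Set.image_subset_iff]
    constructor
    · intro h1 g hg
      exact (T1dig_stab e D g).1 (h1 hg)
    · intro h1 g hg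
      exact (T1dig_stab e D g).2 (h1 hg)
  have hL : ∑ D' with SC D', f' D' = ∑ D with SC D, f' (T1dig e D) := by
    symm
    refine Finset.sum_equiv (T1dig e) (fun D => ?_) (fun D _ => rfl)
    rw [Finset.mem_filter, Finset.mem_filter, T1dig_SC]
    simp
  have hR : ∀ i, ∑ D' with (fun g : G V => ((e.permCongr g.1, g.2) : G V')) '' X i ⊆
      (stab D' : Set (G V')), f' D' =
      ∑ D with X i ⊆ (stab D : Set (G V)), f' (T1dig e D) := by
    intro i
    symm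
    refine Finset.sum_equiv (T1dig e) (fun D => ?_) (fun D _ => rfl)
    rw [Finset.mem_filter, Finset.mem_filter, hsub]
    simp
  calc _ = ∑ D with SC D, f' (T1dig e D) := by convert hL
    _ = _ := by convert h
    _ = _ := by
      refine Finset.sum_congr rfl fun i _ => ?_
      congr 1
      convert (hR i).symm

end Pool.Agent.MP_b5e4d4_co.FP
end
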