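import Pool.Agent.Lib.MP_b5e4d4_co.Mg.G010

section

set_option autoImplicit false

/-!
# The algorithm which counts the labelled self-converse digraphs

Arcs are coded by `u * p + v`. An element of `Sym(p) × {1,-1}` is coded by the list of the images and a Boolean (`true` =
sign `-1`). A partition of the arcs is coded by the list (length `p * p`) of the least codes of the classes (codes `u * p + u` are alone).
-/

namespace Pool.Agent.MP_b5e4d4_co.FT

/-- codes of the arcs -/
def arcs (p : ℕ) : List ℕ := (List.range (p * p)).filter fun k => decide (k / p ≠ k % p)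

/-- one more entry, different from the old ones, in all ways -/
def ext1 (p : ℕ) (l : List ℕ) : List (List ℕ) :=
  ((List.range p).filter fun x => decide (x ∉ l)).map fun x => l ++ [x]

/-- the permutations of `range p` -/
def perms (p : ℕ) : List (List ℕ) := (fun ls : List (List ℕ) => ls.flatMap (ext1 p))^[p] [[]]

/-- the elements of `Sym(p) × {1,-1}` -/
def gens (p : ℕ) : List (List ℕ × Bool) := (perms p).flatMap fun l => [(l, false), (l, true)]

/-- the image of the code `k` under `g` -/
def ap (p : ℕ) (g : List ℕ × Bool) (k : ℕ) : ℕ :=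
  if g.2 = true then g.1.getD (k % p) 0 * p + g.1.getD (k / p) 0
  else g.1.getD (k / p) 0 * p + g.1.getD (k % p) 0

/-- the classes with the labels `a` and `b` are united -/
def mrg1 (L : List ℕ) (a b : ℕ) : List ℕ := L.map fun x => if x = max a b then min a b else x

/-- the classes of `k` and of the image of `k` under `g` are united -/
def mrgk (p : ℕ) (g : List ℕ × Bool) (L : List ℕ) (k : ℕ) : List ℕ :=
  mrg1 L (L.getD k 0) (L.getD (ap p g k) 0)

/-- the same for all arcs -/
def mrg (p : ℕ) (g : List ℕ × Bool) (L : List ℕ) : List ℕ := (arcs p).foldl (mrgk p g) L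

/-- one more generator in all ways -/
def stp (p : ℕ) (Gs : List (List ℕ × Bool)) (Ls : List (List ℕ)) : List (List ℕ) :=
  Ls.flatMap fun L => Gs.map fun g => mrg p g L

/-- the number of generators -/
def tt (p : ℕ) : ℕ := Nat.size (p * (p - 1))

/-- removal of duplicates -/
def dd (Ls : List (List ℕ)) : List (List ℕ) :=
  Ls.foldl (fun acc L => if L ∈ acc then acc else L :: acc) []

/-- the orbit partitions of all subgroups -/
def parts (p : ℕ) : List (List ℕ) := dd ((stp p (gens p))^[tt p] [List.range (p * p)])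

/-- `g` preserves every class of `L` -/
def pres (p : ℕ) (L : List ℕ) (g : List ℕ × Bool) : Bool :=
  (arcs p).all fun k => decide (L.getD (ap p g k) 0 = L.getD k 0)

/-- `1` if some element of sign `-1` preserves every class of `L` -/
def Fv (p : ℕ) (Gs : List (List ℕ × Bool)) (L : List ℕ) : ℤ :=
  if (Gs.any fun g => g.2 && pres p L g) = true then 1 else 0

/-- the partition `Q` is finer than `P` (or equal) -/
def finer (p : ℕ) (P Q : List ℕ) : Bool :=
  (arcs p).all fun k => decide (P.getD (Q.getD k 0) 0 = P.getD k 0)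

/-- one step of the recursion for the weights -/
def wstp (p : ℕ) (Gs : List (List ℕ × Bool)) (Ps : List (List ℕ)) (W : List ℤ) : List ℤ :=
  Ps.map fun P => Fv p Gs P -
    (List.zipWith (fun Q w => if finer p P Q = true ∧ Q ≠ P then w else 0) Ps W).sum

/-- the weights -/
def Wl (p : ℕ) (Gs : List (List ℕ × Bool)) (Ps : List (List ℕ)) : List ℤ :=
  (wstp p Gs Ps)^[Ps.length] (Ps.map fun _ => 0)

/-- the number of classes of arcs -/
def norb (p : ℕ) (L : List ℕ) : ℕ := ((arcs p).filter fun k => decide (L.getD k 0 = k)).length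

/-- the number of labelled self-converse digraphs -/
def cnt (p : ℕ) : ℤ :=
  (List.zipWith (fun P w => w * 2 ^ norb p P) (parts p) (Wl p (gens p) (parts p))).sum

end Pool.Agent.MP_b5e4d4_co.FT
end

section

set_option autoImplicit false

/-!
# Task K1: codes of the arcs and of the group elements

`cd e = u * p + v`, so `cd e / p = u`, `cd e % p = v`, `cd e < p * p`. `gl g` is the code of a group element. `perms p` is the list of all
lists of length `p` without repetition with entries `< p` (by induction the `k`-th iterate is the list of all such lists of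
length `k`, without duplicates, and it has at most `p ! / (p - k)! ≤ p!` members for `k ≤ p`: `perms_iter`), i.e. of the lists
`List.ofFn (fun i => (π i : ℕ))`.
-/

namespace Pool.Agent.MP_b5e4d4_co.FT

open Equiv Pool.Agent.MP_b5e4d4_co.FP

/-- the code of an arc -/
def cd {p : ℕ} (e : Arc (Fin p)) : ℕ := (e.1.1 : ℕ) * p + (e.1.2 : ℕ)

open scoped Classical in
/-- the code of a group element -/
noncomputable def gl {p : ℕ} (g : G (Fin p)) : List ℕ × Bool :=
  (List.ofFn fun i => ((g.1 i : Fin p) : ℕ), decide (g.2 = -1))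

private theorem K1_div {p : ℕ} (u v : Fin p) : ((u : ℕ) * p + (v : ℕ)) / p = u := by
  have hp : 0 < p := lt_of_le_of_lt (Nat.zero_le _) u.2
  rw [mul_comm, Nat.mul_add_div hp, Nat.div_eq_of_lt v.2, add_zero]

private theorem K1_mod {p : ℕ} (u v : Fin p) : ((u : ℕ) * p + (v : ℕ)) % p = v := by
  rw [mul_comm, Nat.mul_add_mod, Nat.mod_eq_of_lt v.2]

private theorem K1_lt {p : ℕ} (u v : Fin p) : (u : ℕ) * p + (v : ℕ) < p * p := by
  have h1 := u.2
  have h2 := v.2
  calc (u : ℕ) * p + (v : ℕ) < (u : ℕ) * p + p := by omega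
    _ = ((u : ℕ) + 1) * p := by ring
    _ ≤ p * p := Nat.mul_le_mul_right _ h1

theorem cd_lt {p : ℕ} (e : Arc (Fin p)) : cd e < p * p := K1_lt _ _

theorem cd_inj {p : ℕ} {e e' : Arc (Fin p)} (h : cd e = cd e') : e = e' := by
  unfold cd at h
  have h1 := K1_div e.1.1 e.1.2
  have h2 := K1_mod e.1.1 e.1.2
  rw [h, K1_div] at h1
  rw [h, K1_mod] at h2
  apply Subtype.ext
  apply Prod.ext
  · exact (Fin.ext h1).symm
  · exact (Fin.ext h2).symm

theorem mem_arcs {p k : ℕ} : k ∈ arcs p ↔ ∃ e : Arc (Fin p), cd e = k := by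
  unfold arcs
  rw [List.mem_filter, List.mem_range, decide_eq_true_eq]
  constructor
  · rintro ⟨h1, h2⟩
    have hp : 0 < p := by
      rcases Nat.eq_zero_or_pos p with h | h
      · rw [h] at h1
        omega
      · exact h
    have h3 : k / p < p := Nat.div_lt_of_lt_mul h1
    have h4 : k % p < p := Nat.mod_lt _ hp
    refine ⟨⟨(⟨k / p, h3⟩, ⟨k % p, h4⟩), ?_⟩, ?_⟩
    · intro h5
      exact h2 (Fin.ext_iff.1 h5)
    · show k / p * p + k % p = k
      rw [mul_comm]
      exact Nat.div_add_mod k p
  · rintro ⟨e, rfl⟩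
    refine ⟨cd_lt e, ?_⟩
    unfold cd
    rw [K1_div, K1_mod]
    intro h
    exact e.2 (Fin.ext h)

theorem arcs_nodup (p : ℕ) : (arcs p).Nodup := List.Nodup.filter _ List.nodup_range

private theorem K1_ext1_length {p : ℕ} {l : List ℕ} (h1 : l.Nodup) (h2 : ∀ x ∈ l, x < p) :
    (ext1 p l).length = p - l.length := by
  unfold ext1
  rw [List.length_map, ← List.toFinset_card_of_nodup (List.Nodup.filter _ List.nodup_range)]
  have h3 : ((List.range p).filter fun x => decide (x ∉ l)).toFinset =
      Finset.range p \ l.toFinset := by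
    ext x
    simp
  rw [h3, Finset.card_sdiff_of_subset, Finset.card_range, List.toFinset_card_of_nodup h1]
  intro x hx
  rw [List.mem_toFinset] at hx
  exact Finset.mem_range.2 (h2 x hx)

theorem perms_iter (p k : ℕ) (hk : k ≤ p) :
    ((fun ls : List (List ℕ) => ls.flatMap (ext1 p))^[k] [[]]).length * (p - k).factorial =
      p.factorial ∧
    ∀ l : List ℕ, l ∈ (fun ls : List (List ℕ) => ls.flatMap (ext1 p))^[k] [[]] ↔
      l.length = k ∧ l.Nodup ∧ ∀ x ∈ l, x < p := by
  induction k with
  | zero =>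
    refine ⟨by simp, ?_⟩
    intro l
    simp only [Function.iterate_zero, id, List.mem_singleton]
    constructor
    · rintro rfl
      simp
    · rintro ⟨h, _⟩
      exact List.length_eq_zero_iff.1 h
  | succ k ih =>
    obtain ⟨ih1, ih2⟩ := ih (by omega)
    rw [Function.iterate_succ_apply']
    generalize (fun ls : List (List ℕ) => ls.flatMap (ext1 p))^[k] [[]] = ls at ih1 ih2 ⊢
    refine ⟨?_, ?_⟩
    · have h1 : (ls.flatMap (ext1 p)).length = ls.length * (p - k) := by
        rw [List.length_flatMap]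
        have h2 : ls.map (fun l => (ext1 p l).length) = ls.map (fun _ => p - k) := by
          refine List.map_congr_left fun l hl => ?_
          obtain ⟨h3, h4, h5⟩ := (ih2 l).1 hl
          rw [K1_ext1_length h4 h5, h3]
        rw [h2, List.map_const', List.sum_replicate, smul_eq_mul]
      show (ls.flatMap (ext1 p)).length * (p - (k + 1)).factorial = p.factorial
      rw [h1, ← ih1, mul_assoc]
      have h3 : p - k = (p - (k + 1)) + 1 := by omega
      rw [h3, Nat.factorial_succ]
    · intro l
      show l ∈ ls.flatMap (ext1 p) ↔ _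
      rw [List.mem_flatMap]
      constructor
      · rintro ⟨l', h1, h2⟩
        obtain ⟨h3, h4, h5⟩ := (ih2 l').1 h1
        unfold ext1 at h2
        rw [List.mem_map] at h2
        obtain ⟨x, hx, rfl⟩ := h2
        rw [List.mem_filter, List.mem_range, decide_eq_true_eq] at hx
        refine ⟨by simp [h3], ?_, ?_⟩
        · rw [List.nodup_append]
          refine ⟨h4, List.nodup_singleton x, ?_⟩
          intro a ha b hb
          rw [List.mem_singleton] at hb
          rw [hb]
          rintro rfl
          exact hx.2 ha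
        · intro y hy
          rcases List.mem_append.1 hy with h6 | h6
          · exact h5 y h6
          · rw [List.mem_singleton.1 h6]
            exact hx.1
      · rintro ⟨h1, h2, h3⟩
        rcases List.eq_nil_or_concat l with h4 | ⟨l', x, h4⟩
        · rw [h4] at h1
          simp at h1
        · rw [List.concat_eq_append] at h4
          subst h4
          rw [List.nodup_append] at h2
          refine ⟨l', (ih2 l').2 ⟨?_, h2.1, ?_⟩, ?_⟩
          · rw [List.length_append, List.length_singleton] at h1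
            omega
          · intro y hy
            exact h3 y (List.mem_append_left _ hy)
          · unfold ext1
            rw [List.mem_map]
            refine ⟨x, ?_, rfl⟩
            rw [List.mem_filter, List.mem_range, decide_eq_true_eq]
            refine ⟨h3 x (List.mem_append_right _ (List.mem_singleton.2 rfl)), ?_⟩
            intro h5
            exact h2.2.2 x h5 x (List.mem_singleton.2 rfl) rfl

private theorem K1_mem_perms {p : ℕ} (l : List ℕ) :
    l ∈ perms p ↔ ∃ π : Perm (Fin p), l = List.ofFn fun i => ((π i : Fin p) : ℕ) := by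
  unfold perms
  rw [(perms_iter p p le_rfl).2 l]
  constructor
  · rintro ⟨h1, h2, h3⟩
    have hf : Function.Injective (fun i : Fin p =>
        (⟨l[(i : ℕ)]'(by rw [h1]; exact i.2), h3 _ (List.getElem_mem _)⟩ : Fin p)) := by
      intro i j hij
      have h4 := Fin.ext_iff.1 hij
      exact Fin.ext ((List.Nodup.getElem_inj_iff h2).1 h4)
    refine ⟨Equiv.ofBijective _ (Finite.injective_iff_bijective.1 hf), ?_⟩
    apply List.ext_getElem
    · rw [List.length_ofFn, h1]
    · intro n h4 h5
      rw [List.getElem_ofFn]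
      rfl
  · rintro ⟨π, rfl⟩
    refine ⟨List.length_ofFn, ?_, ?_⟩
    · rw [List.nodup_ofFn]
      intro i j hij
      exact π.injective (Fin.ext hij)
    · intro x hx
      rw [List.mem_ofFn] at hx
      obtain ⟨i, rfl⟩ := hx
      exact (π i).2

theorem mem_gens {p : ℕ} {x : List ℕ × Bool} : x ∈ gens p ↔ ∃ g : G (Fin p), x = gl g := by
  have hm : (1 : ℤˣ) ≠ -1 := by decide
  unfold gens
  rw [List.mem_flatMap]
  constructor
  · rintro ⟨l, hl, hx⟩
    obtain ⟨π, rfl⟩ := (K1_mem_perms l).1 hl
    rw [List.mem_cons, List.mem_singleton] at hx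
    rcases hx with rfl | rfl
    · refine ⟨(π, 1), ?_⟩
      unfold gl
      rw [decide_eq_false hm]
    · refine ⟨(π, -1), ?_⟩
      unfold gl
      rw [decide_eq_true rfl]
  · rintro ⟨g, rfl⟩
    refine ⟨_, (K1_mem_perms _).2 ⟨g.1, rfl⟩, ?_⟩
    rw [List.mem_cons, List.mem_singleton]
    unfold gl
    by_cases h : g.2 = -1
    · right
      rw [decide_eq_true h]
    · left
      rw [decide_eq_false h]

theorem length_gens (p : ℕ) : (gens p).length = 2 * p.factorial := by
  have h1 := (perms_iter p p le_rfl).1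
  rw [Nat.sub_self, Nat.factorial_zero, mul_one] at h1
  unfold gens perms
  rw [List.length_flatMap]
  have h2 : ∀ ls : List (List ℕ), (ls.map fun l => [(l, false), (l, true)].length).sum =
      2 * ls.length := by
    intro ls
    simp [mul_comm]
  rw [← h1]
  exact h2 _

theorem ap_gl {p : ℕ} (g : G (Fin p)) (e : Arc (Fin p)) : ap p (gl g) (cd e) = cd (g • e) := by
  have hget : ∀ (π : Perm (Fin p)) (i : Fin p),
      (List.ofFn fun j => ((π j : Fin p) : ℕ)).getD (i : ℕ) 0 = ((π i : Fin p) : ℕ) := by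
    intro π i
    rw [List.getD_eq_getElem _ _ (by rw [List.length_ofFn]; exact i.2), List.getElem_ofFn]
  obtain ⟨π, a⟩ := g
  have hm : (1 : ℤˣ) ≠ -1 := by decide
  rcases Int.units_eq_one_or a with rfl | rfl
  · rw [smul_one]
    unfold ap gl cd
    rw [decide_eq_false hm]
    rw [K1_div, K1_mod]
    simp only [Bool.false_eq_true, if_false]
    rw [hget, hget]
    rfl
  · rw [smul_neg]
    unfold ap gl cd
    rw [decide_eq_true rfl]
    rw [K1_div, K1_mod]
    simp only [if_true]
    rw [hget, hget]
    rfl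

end Pool.Agent.MP_b5e4d4_co.FT
end

section

set_option autoImplicit false

/-!
# Task K2: the list of labels of an equivalence relation on the arcs

`lbv r k` is the least code in the class of the arc with code `k`, and `k` if `k` is not the code of an arc. `lb r` is the list of
all `lbv r k`, `k < p * p`.
-/

namespace Pool.Agent.MP_b5e4d4_co.FT

open Equiv Pool.Agent.MP_b5e4d4_co.FP

/-- the label of the code `k` -/
noncomputable def lbv {p : ℕ} (r : Setoid (Arc (Fin p))) (k : ℕ) : ℕ :=
  sInf {j | j = k ∨ ∃ e e' : Arc (Fin p), cd e = k ∧ cd e' = j ∧ r e e'}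

/-- the list of labels -/
noncomputable def lb {p : ℕ} (r : Setoid (Arc (Fin p))) : List ℕ :=
  (List.range (p * p)).map (lbv r)

private theorem K2_mem {p : ℕ} (r : Setoid (Arc (Fin p))) (k : ℕ) :
    lbv r k = k ∨ ∃ e e' : Arc (Fin p), cd e = k ∧ cd e' = lbv r k ∧ r e e' := by
  have h : lbv r k ∈ {j | j = k ∨ ∃ e e' : Arc (Fin p), cd e = k ∧ cd e' = j ∧ r e e'} :=
    Nat.sInf_mem ⟨k, Or.inl rfl⟩
  exact h

theorem lb_length {p : ℕ} (r : Setoid (Arc (Fin p))) : (lb r).length = p * p := by
  unfold lb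
  rw [List.length_map, List.length_range]

theorem lb_getD {p : ℕ} (r : Setoid (Arc (Fin p))) {k : ℕ} (hk : k < p * p) :
    (lb r).getD k 0 = lbv r k := by
  rw [List.getD_eq_getElem _ _ (by rw [lb_length]; exact hk)]
  unfold lb
  rw [List.getElem_map, List.getElem_range]

/-- the label is the code of a member of the class -/
theorem lbv_mem {p : ℕ} (r : Setoid (Arc (Fin p))) (e : Arc (Fin p)) :
    ∃ e' : Arc (Fin p), cd e' = lbv r (cd e) ∧ r e e' := by
  rcases K2_mem r (cd e) with h | ⟨e1, e2, h1, h2, h3⟩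
  · exact ⟨e, h.symm, r.refl' e⟩
  · rw [cd_inj h1] at h3
    exact ⟨e2, h2, h3⟩

theorem lbv_le {p : ℕ} (r : Setoid (Arc (Fin p))) (e e' : Arc (Fin p)) (h : r e e') :
    lbv r (cd e) ≤ cd e' := Nat.sInf_le (Or.inr ⟨e, e', rfl, rfl, h⟩)

theorem lbv_eq {p : ℕ} (r : Setoid (Arc (Fin p))) (e e' : Arc (Fin p)) :
    lbv r (cd e) = lbv r (cd e') ↔ r e e' := by
  obtain ⟨e1, h1, h2⟩ := lbv_mem r e
  obtain ⟨e2, h3, h4⟩ := lbv_mem r e'
  constructor
  · intro h
    have h5 : e1 = e2 := cd_inj (by rw [h1, h3, h])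
    subst h5
    exact r.trans' h2 (r.symm' h4)
  · intro h
    apply le_antisymm
    · rw [← h3]
      exact lbv_le r e e2 (r.trans' h h4)
    · rw [← h1]
      exact lbv_le r e' e1 (r.trans' (r.symm' h) h2)

theorem lbv_other {p : ℕ} (r : Setoid (Arc (Fin p))) {k : ℕ} (hk : ∀ e : Arc (Fin p), cd e ≠ k) :
    lbv r k = k := by
  rcases K2_mem r k with h | ⟨e1, _, h1, _, _⟩
  · exact h
  · exact absurd h1 (hk e1)

theorem lb_inj {p : ℕ} (r r' : Setoid (Arc (Fin p))) (h : lb r = lb r') : r = r' := by
  have h1 : ∀ e : Arc (Fin p), lbv r (cd e) = lbv r' (cd e) := by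
    intro e
    rw [← lb_getD r (cd_lt e), ← lb_getD r' (cd_lt e), h]
  ext e e'
  rw [← lbv_eq r e e', ← lbv_eq r' e e', h1, h1]

theorem lb_bot (p : ℕ) : lb (⊥ : Setoid (Arc (Fin p))) = List.range (p * p) := by
  have h : ∀ k, lbv (⊥ : Setoid (Arc (Fin p))) k = k := by
    intro k
    rcases K2_mem (⊥ : Setoid (Arc (Fin p))) k with h | ⟨e1, e2, h1, h2, h3⟩
    · exact h
    · have h4 : e1 = e2 := h3
      rw [← h2, ← h4, h1]
  unfold lb
  rw [List.map_congr_left (g := id) fun k _ => h k, List.map_id]

end Pool.Agent.MP_b5e4d4_co.FT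
end

section

set_option autoImplicit false

/-!
# Task K3: uniting classes

`mrg1_lb`: the classes of `e` and `e'` in `r` have the labels `a`, `b`; replacing `max a b` by `min a b` gives the labels of the relation
`r ⊔ {(e, e')}`, whose classes are the classes of `r`, with the classes of `e` and `e'` united (if `r e e'` nothing changes);
the least code of the union is `min a b`; codes which are not codes of arcs have labels which are not labels of arcs
(`lbv_other`, `lbv_mem`), so they are unchanged.
`mrg_lb`: by induction over the list `arcs p` (`mem_arcs`, `ap_gl`): the relation is the join of `r` and of all `(e, g • e)`.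
-/

namespace Pool.Agent.MP_b5e4d4_co.FT

open Equiv Pool.Agent.MP_b5e4d4_co.FP

/-- the equivalence relation generated by one pair -/
def pr1 {p : ℕ} (e e' : Arc (Fin p)) : Setoid (Arc (Fin p)) :=
  Relation.EqvGen.setoid fun a b => a = e ∧ b = e'

/-- the equivalence relation generated by all pairs `(e, g • e)` -/
def prg {p : ℕ} (g : G (Fin p)) : Setoid (Arc (Fin p)) :=
  Relation.EqvGen.setoid fun a b => b = g • a

private theorem pr1_le {p : ℕ} {e e' : Arc (Fin p)} {s : Setoid (Arc (Fin p))} :
    pr1 e e' ≤ s ↔ s e e' := by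
  constructor
  · intro h
    exact h (Relation.EqvGen.rel _ _ ⟨rfl, rfl⟩)
  · intro h
    refine Setoid.eqvGen_le ?_
    rintro x y ⟨rfl, rfl⟩
    exact h

private theorem prg_le {p : ℕ} {g : G (Fin p)} {s : Setoid (Arc (Fin p))} :
    prg g ≤ s ↔ ∀ e, s e (g • e) := by
  constructor
  · intro h e
    exact h (Relation.EqvGen.rel _ _ rfl)
  · intro h
    refine Setoid.eqvGen_le ?_
    rintro x y rfl
    exact h x

/-- the classes of `e` and `e'` united -/
private def un {p : ℕ} (r : Setoid (Arc (Fin p))) (e e' : Arc (Fin p)) :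
    Setoid (Arc (Fin p)) where
  r x y := r x y ∨ ((r x e ∨ r x e') ∧ (r y e ∨ r y e'))
  iseqv := by
    refine ⟨fun x => Or.inl (r.refl x), ?_, ?_⟩
    · intro x y h
      rcases h with h | ⟨h1, h2⟩
      · exact Or.inl (r.symm h)
      · exact Or.inr ⟨h2, h1⟩
    · intro x y z h h'
      rcases h with h | ⟨h1, h2⟩
      · rcases h' with h' | ⟨h1', h2'⟩
        · exact Or.inl (r.trans h h')
        · exact Or.inr ⟨h1'.imp (r.trans h) (r.trans h), h2'⟩
      · rcases h' with h' | ⟨h1', h2'⟩
        · exact Or.inr ⟨h1, h2.imp (r.trans (r.symm h')) (r.trans (r.symm h'))⟩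
        · exact Or.inr ⟨h1, h2'⟩

private theorem un_iff {p : ℕ} (r : Setoid (Arc (Fin p))) (e e' x y : Arc (Fin p)) :
    (r ⊔ pr1 e e') x y ↔ r x y ∨ ((r x e ∨ r x e') ∧ (r y e ∨ r y e')) := by
  constructor
  · intro h
    have hle : r ⊔ pr1 e e' ≤ un r e e' := by
      refine sup_le ?_ ?_
      · intro a b hab
        exact Or.inl hab
      · rw [pr1_le]
        exact Or.inr ⟨Or.inl (r.refl e), Or.inr (r.refl e')⟩
    exact hle h
  · intro h
    have h0 : r ≤ r ⊔ pr1 e e' := le_sup_left
    have h1 : (r ⊔ pr1 e e') e e' := pr1_le.mp le_sup_right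
    have key : ∀ z, (r z e ∨ r z e') → (r ⊔ pr1 e e') z e := by
      intro z hz
      rcases hz with hz | hz
      · exact h0 hz
      · exact (r ⊔ pr1 e e').trans (h0 hz) ((r ⊔ pr1 e e').symm h1)
    rcases h with h | ⟨hx, hy⟩
    · exact h0 h
    · exact (r ⊔ pr1 e e').trans (key x hx) ((r ⊔ pr1 e e').symm (key y hy))

private theorem lbv_uniq {p : ℕ} (r : Setoid (Arc (Fin p))) (x : Arc (Fin p)) (m : ℕ)
    (h1 : ∃ y, cd y = m ∧ r x y) (h2 : ∀ y, r x y → m ≤ cd y) : lbv r (cd x) = m := by
  obtain ⟨y, rfl, hy⟩ := h1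
  obtain ⟨z, hz, hxz⟩ := lbv_mem r x
  refine le_antisymm (lbv_le r x y hy) ?_
  rw [← hz]
  exact h2 z hxz

private theorem lbv_sup {p : ℕ} (r : Setoid (Arc (Fin p))) (e e' x : Arc (Fin p)) :
    (if lbv r (cd x) = max (lbv r (cd e)) (lbv r (cd e')) then
      min (lbv r (cd e)) (lbv r (cd e')) else lbv r (cd x)) = lbv (r ⊔ pr1 e e') (cd x) := by
  by_cases hx : r x e ∨ r x e'
  · have h1 : lbv (r ⊔ pr1 e e') (cd x) = min (lbv r (cd e)) (lbv r (cd e')) := by
      refine lbv_uniq _ _ _ ?_ ?_
      · rcases le_total (lbv r (cd e)) (lbv r (cd e')) with hle | hle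
        · rw [min_eq_left hle]
          obtain ⟨y, hy, hey⟩ := lbv_mem r e
          exact ⟨y, hy, (un_iff r e e' x y).mpr (Or.inr ⟨hx, Or.inl (r.symm hey)⟩)⟩
        · rw [min_eq_right hle]
          obtain ⟨y, hy, hey⟩ := lbv_mem r e'
          exact ⟨y, hy, (un_iff r e e' x y).mpr (Or.inr ⟨hx, Or.inr (r.symm hey)⟩)⟩
      · intro y hy
        have hy' : r y e ∨ r y e' := by
          rcases (un_iff r e e' x y).mp hy with h | ⟨_, h⟩
          · exact hx.imp (r.trans (r.symm h)) (r.trans (r.symm h))
          · exact h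
        rcases hy' with h | h
        · exact (min_le_left _ _).trans (lbv_le r e y (r.symm h))
        · exact (min_le_right _ _).trans (lbv_le r e' y (r.symm h))
    rw [h1]
    split_ifs with hc
    · rfl
    · have h2 : lbv r (cd x) = lbv r (cd e) ∨ lbv r (cd x) = lbv r (cd e') :=
        hx.imp (lbv_eq r x e).mpr (lbv_eq r x e').mpr
      omega
  · have hne : ¬ lbv r (cd x) = max (lbv r (cd e)) (lbv r (cd e')) := by
      intro hc
      apply hx
      rcases le_total (lbv r (cd e)) (lbv r (cd e')) with hle | hle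
      · rw [max_eq_right hle] at hc
        exact Or.inr ((lbv_eq r x e').mp hc)
      · rw [max_eq_left hle] at hc
        exact Or.inl ((lbv_eq r x e).mp hc)
    rw [if_neg hne]
    symm
    refine lbv_uniq _ _ _ ?_ ?_
    · obtain ⟨y, hy, hxy⟩ := lbv_mem r x
      exact ⟨y, hy, (un_iff r e e' x y).mpr (Or.inl hxy)⟩
    · intro y hy
      rcases (un_iff r e e' x y).mp hy with h | ⟨h, _⟩
      · exact lbv_le r x y h
      · exact absurd h hx

theorem mrg1_lb {p : ℕ} (r : Setoid (Arc (Fin p))) (e e' : Arc (Fin p)) :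
    mrg1 (lb r) (lbv r (cd e)) (lbv r (cd e')) = lb (r ⊔ pr1 e e') := by
  unfold mrg1 lb
  rw [List.map_map]
  refine List.map_congr_left ?_
  intro k _
  show (if lbv r k = max (lbv r (cd e)) (lbv r (cd e')) then
      min (lbv r (cd e)) (lbv r (cd e')) else lbv r k) = lbv (r ⊔ pr1 e e') k
  by_cases hk : ∃ x : Arc (Fin p), cd x = k
  · obtain ⟨x, rfl⟩ := hk
    exact lbv_sup r e e' x
  · have hk' : ∀ x : Arc (Fin p), cd x ≠ k := fun x hx => hk ⟨x, hx⟩
    rw [lbv_other r hk', lbv_other _ hk', if_neg]
    intro hc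
    obtain ⟨y, hy, _⟩ := lbv_mem r e
    obtain ⟨y', hy', _⟩ := lbv_mem r e'
    rcases le_total (lbv r (cd e)) (lbv r (cd e')) with hle | hle
    · rw [max_eq_right hle] at hc
      exact hk' y' (by rw [hy', hc])
    · rw [max_eq_left hle] at hc
      exact hk' y (by rw [hy, hc])

private theorem mrgk_lb {p : ℕ} (r : Setoid (Arc (Fin p))) (g : G (Fin p)) (e : Arc (Fin p)) :
    mrgk p (gl g) (lb r) (cd e) = lb (r ⊔ pr1 e (g • e)) := by
  unfold mrgk
  rw [ap_gl, lb_getD r (cd_lt e), lb_getD r (cd_lt (g • e)), mrg1_lb]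

/-- the join over a list of codes -/
private def prl {p : ℕ} (g : G (Fin p)) (l : List ℕ) : Setoid (Arc (Fin p)) :=
  Relation.EqvGen.setoid fun a b => cd a ∈ l ∧ b = g • a

private theorem prl_le {p : ℕ} {g : G (Fin p)} {l : List ℕ} {s : Setoid (Arc (Fin p))} :
    prl g l ≤ s ↔ ∀ e, cd e ∈ l → s e (g • e) := by
  constructor
  · intro h e he
    exact h (Relation.EqvGen.rel _ _ ⟨he, rfl⟩)
  · intro h
    refine Setoid.eqvGen_le ?_
    rintro x y ⟨hx, rfl⟩
    exact h x hx

private theorem foldl_lb {p : ℕ} (g : G (Fin p)) (l : List ℕ)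
    (hl : ∀ k ∈ l, ∃ e : Arc (Fin p), cd e = k) (r : Setoid (Arc (Fin p))) :
    l.foldl (mrgk p (gl g)) (lb r) = lb (r ⊔ prl g l) := by
  induction l generalizing r with
  | nil =>
    have h : prl g ([] : List ℕ) = (⊥ : Setoid (Arc (Fin p))) := by
      refine le_antisymm ?_ bot_le
      rw [prl_le]
      intro e he
      simp at he
    rw [List.foldl_nil, h, sup_bot_eq]
  | cons k l ih =>
    obtain ⟨e, rfl⟩ := hl k (by simp)
    rw [List.foldl_cons, mrgk_lb, ih (fun k hk => hl k (by simp [hk]))]
    congr 1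
    rw [sup_assoc]
    congr 1
    refine le_antisymm ?_ ?_
    · refine sup_le ?_ ?_
      · rw [pr1_le]
        exact prl_le.mp le_rfl e (by simp)
      · rw [prl_le]
        intro x hx
        exact prl_le.mp le_rfl x (by simp [hx])
    · rw [prl_le]
      intro x hx
      rcases List.mem_cons.mp hx with hx | hx
      · have hxe : x = e := cd_inj hx
        subst hxe
        have h1 : pr1 x (g • x) ≤ pr1 x (g • x) ⊔ prl g l := le_sup_left
        exact pr1_le.mp h1
      · have h1 : prl g l ≤ pr1 e (g • e) ⊔ prl g l := le_sup_right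
        exact prl_le.mp h1 x hx

theorem mrg_lb {p : ℕ} (r : Setoid (Arc (Fin p))) (g : G (Fin p)) :
    mrg p (gl g) (lb r) = lb (r ⊔ prg g) := by
  unfold mrg
  rw [foldl_lb g (arcs p) (fun k hk => mem_arcs.mp hk) r]
  congr 2
  refine le_antisymm ?_ ?_
  · rw [prl_le]
    intro e _
    exact prg_le.mp le_rfl e
  · rw [prg_le]
    intro e
    exact prl_le.mp le_rfl e (mem_arcs.mpr ⟨e, rfl⟩)

end Pool.Agent.MP_b5e4d4_co.FT
end

section

set_option autoImplicit false

/-!
# Task K4: orbit partitions of generated subgroups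

`orb_sup`: the orbit relation of `K ⊔ ⟨g⟩` is the join of the orbit relation of `K` and `prg g` (`≥`: clear; `≤`: the set of the
`x ∈ G` with `x • e` related to `e` for all `e` is a subgroup which contains `K` and `g`).
`mem_stp`: by induction on `t` (`Function.iterate_succ_apply'`, `mem_gens`, `mrg_lb`, `orb_sup`; `Fin.snoc`, the closure of the range
of `Fin.snoc h g` is `closure (range h) ⊔ zpowers g`; `lb_bot` for `t = 0`: the orbit relation of the trivial group is `⊥`).
-/

namespace Pool.Agent.MP_b5e4d4_co.FT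

open Equiv Pool.Agent.MP_b5e4d4_co.FP

/-- the labels of the orbits of a subgroup -/
noncomputable def rp {p : ℕ} (K : Subgroup (G (Fin p))) : List ℕ :=
  lb (MulAction.orbitRel K (Arc (Fin p)))

theorem orb_sup {p : ℕ} (K : Subgroup (G (Fin p))) (g : G (Fin p)) :
    MulAction.orbitRel (K ⊔ Subgroup.zpowers g : Subgroup (G (Fin p))) (Arc (Fin p)) =
      MulAction.orbitRel K (Arc (Fin p)) ⊔ prg g := by
  apply le_antisymm
  · let s : Setoid (Arc (Fin p)) := MulAction.orbitRel K (Arc (Fin p)) ⊔ prg g
    let H : Subgroup (G (Fin p)) :=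
      { carrier := {x | ∀ e : Arc (Fin p), s (x • e) e}
        one_mem' := fun e => by
          rw [one_smul]
        mul_mem' := fun {x y} hx hy e => by
          rw [mul_smul]
          exact s.trans (hx (y • e)) (hy e)
        inv_mem' := fun {x} hx e => by
          have h := hx (x⁻¹ • e)
          rw [smul_inv_smul] at h
          exact s.symm h }
    have hK : K ≤ H := by
      intro k hk e
      have h : MulAction.orbitRel K (Arc (Fin p)) ≤ s := le_sup_left
      exact h (show k • e ∈ MulAction.orbit K e from ⟨⟨k, hk⟩, rfl⟩)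
    have hg : g ∈ H := by
      intro e
      have h : prg g ≤ s := le_sup_right
      have h1 : prg g e (g • e) := Relation.EqvGen.rel _ _ rfl
      exact s.symm (h h1)
    have hH : K ⊔ Subgroup.zpowers g ≤ H := sup_le hK (by rwa [Subgroup.zpowers_le])
    rintro a b ⟨x, hx⟩
    have h := hH x.2 b
    rw [← hx]
    exact h
  · refine sup_le ?_ ?_
    · rintro a b ⟨k, hk⟩
      exact ⟨⟨k, Subgroup.mem_sup_left k.2⟩, hk⟩
    · refine Setoid.eqvGen_le fun a b hab => ?_
      refine ⟨⟨g⁻¹, inv_mem (Subgroup.mem_sup_right (Subgroup.mem_zpowers g))⟩, ?_⟩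
      rw [hab]
      exact inv_smul_smul g a

private theorem K4_bot {p : ℕ} :
    MulAction.orbitRel (⊥ : Subgroup (G (Fin p))) (Arc (Fin p)) = ⊥ := by
  rw [eq_bot_iff]
  rintro a b ⟨x, hx⟩
  have h1 : (x : G (Fin p)) = 1 := Subgroup.mem_bot.1 x.2
  have h2 : (x : G (Fin p)) • b = a := hx
  rw [h1, one_smul] at h2
  exact h2.symm

private theorem K4_cons {p t : ℕ} (g : G (Fin p)) (h : Fin t → G (Fin p)) :
    rp (Subgroup.closure (Set.range (Fin.cons g h : Fin (t + 1) → G (Fin p)))) =
      mrg p (gl g) (rp (Subgroup.closure (Set.range h))) := by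
  unfold rp
  rw [mrg_lb, ← orb_sup, Fin.range_cons, Set.insert_eq, Subgroup.closure_union,
    ← Subgroup.zpowers_eq_closure, sup_comm]

theorem mem_stp (p t : ℕ) (L : List ℕ) :
    L ∈ (stp p (gens p))^[t] [List.range (p * p)] ↔
      ∃ h : Fin t → G (Fin p), L = rp (Subgroup.closure (Set.range h)) := by
  induction t generalizing L with
  | zero =>
    have h0 : ∀ h : Fin 0 → G (Fin p),
        rp (Subgroup.closure (Set.range h)) = List.range (p * p) := by
      intro h
      rw [Set.range_eq_empty, Subgroup.closure_empty]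
      unfold rp
      rw [K4_bot, lb_bot]
    rw [Function.iterate_zero, id, List.mem_singleton]
    constructor
    · intro h
      exact ⟨fun i => i.elim0, by rw [h, h0]⟩
    · rintro ⟨h, rfl⟩
      exact h0 h
  | succ t ih =>
    rw [Function.iterate_succ_apply']
    unfold stp
    rw [List.mem_flatMap]
    constructor
    · rintro ⟨L', hL', hL⟩
      obtain ⟨h, rfl⟩ := (ih L').1 hL'
      obtain ⟨x, hx, rfl⟩ := List.mem_map.1 hL
      obtain ⟨g, rfl⟩ := mem_gens.1 hx
      exact ⟨Fin.cons g h, (K4_cons g h).symm⟩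
    · rintro ⟨h, rfl⟩
      refine ⟨rp (Subgroup.closure (Set.range (Fin.tail h))), (ih _).2 ⟨_, rfl⟩, ?_⟩
      refine List.mem_map.2 ⟨gl (h 0), mem_gens.2 ⟨_, rfl⟩, ?_⟩
      rw [← K4_cons, Fin.cons_self_tail]

end Pool.Agent.MP_b5e4d4_co.FT
end

section

set_option autoImplicit false

/-!
# Task K5: the list `parts p` is the list of the label lists of the closed subgroups

`orbit_cl`: `H ≤ cl H` and the orbits are equal; so `cl (cl H) = cl H` (`cl_congr`).
`rp_cl`: `rp (cl H) = rp H`. `rp_inj`: for closed `K`, `K'` with equal labels the orbit relations are equal (`lb_inj`), so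
`K = cl K = cl K' = K'`.
`mem_parts`: `parts p = dd (...)`, `L ∈ dd Ls ↔ L ∈ Ls`, `mem_stp`. From left to right take `K = cl (closure (range h))`. From right to
left: `O2` for `K` gives `h : Fin (Nat.clog 2 (card Arc)) → G`, `card Arc = p * (p - 1)` (`card_arc`), and `Nat.clog 2 n ≤ Nat.size n`
(`n < 2 ^ size n`); fill up with `1`.
-/

namespace Pool.Agent.MP_b5e4d4_co.FT

open Equiv Pool.Agent.MP_b5e4d4_co.FP

theorem orbit_cl {p : ℕ} (H : Subgroup (G (Fin p))) (e : Arc (Fin p)) :
    MulAction.orbit (cl H) e = MulAction.orbit H e := by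
  ext a
  constructor
  · rintro ⟨⟨g, hg⟩, rfl⟩
    exact hg e
  · rintro ⟨⟨g, hg⟩, rfl⟩
    exact ⟨⟨g, fun e' => ⟨⟨g, hg⟩, rfl⟩⟩, rfl⟩

theorem closed_cl {p : ℕ} (H : Subgroup (G (Fin p))) : Closed (cl H) := by
  show cl (cl H) = cl H
  ext g
  show (∀ e, g • e ∈ MulAction.orbit (cl H) e) ↔ (∀ e, g • e ∈ MulAction.orbit H e)
  constructor
  · intro h e
    rw [← orbit_cl]
    exact h e
  · intro h e
    rw [orbit_cl]
    exact h e

private theorem K5_rp {p : ℕ} {K K' : Subgroup (G (Fin p))}
    (h : ∀ e : Arc (Fin p), MulAction.orbit K e = MulAction.orbit K' e) : rp K = rp K' := by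
  unfold rp
  congr 1
  ext a b
  rw [MulAction.orbitRel_apply, MulAction.orbitRel_apply, h]

private theorem K5_card (p : ℕ) : Nat.card (Arc (Fin p)) = p * (p - 1) := by
  rw [Nat.card_eq_fintype_card, Fintype.card_subtype_compl]
  have h1 : Fintype.card {e : Fin p × Fin p // e.1 = e.2} = p := by
    have h2 : Fintype.card {e : Fin p × Fin p // e.1 = e.2} = Fintype.card (Fin p) := by
      apply Fintype.card_congr
      exact
        { toFun := fun e => e.1.1
          invFun := fun i => ⟨(i, i), rfl⟩
          left_inv := by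
            rintro ⟨⟨a, b⟩, h⟩
            have h' : a = b := h
            subst h'
            rfl
          right_inv := fun i => rfl }
    rw [h2, Fintype.card_fin]
  rw [h1, Fintype.card_prod, Fintype.card_fin, Nat.mul_sub_one]

theorem rp_inj {p : ℕ} {K K' : Subgroup (G (Fin p))} (hK : Closed K) (hK' : Closed K')
    (h : rp K = rp K') : K = K' := by
  have h1 := lb_inj _ _ h
  have h2 : ∀ e : Arc (Fin p), MulAction.orbit K e = MulAction.orbit K' e := by
    intro e
    ext a
    rw [← MulAction.orbitRel_apply, ← MulAction.orbitRel_apply, h1]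
  have h3 : cl K = cl K' := by
    ext g
    show (∀ e, g • e ∈ MulAction.orbit K e) ↔ (∀ e, g • e ∈ MulAction.orbit K' e)
    constructor
    · intro h4 e
      rw [← h2]
      exact h4 e
    · intro h4 e
      rw [h2]
      exact h4 e
  have hK1 : cl K = K := hK
  have hK2 : cl K' = K' := hK'
  rw [← hK1, h3, hK2]

private theorem K5_dd (Ls : List (List ℕ)) (L : List ℕ) : ∀ acc : List (List ℕ),
    L ∈ Ls.foldl (fun acc L => if L ∈ acc then acc else L :: acc) acc ↔ L ∈ acc ∨ L ∈ Ls := by
  induction Ls with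
  | nil => intro acc; simp
  | cons M Ls ih =>
    intro acc
    rw [List.foldl_cons, ih]
    by_cases hM : M ∈ acc
    · rw [if_pos hM, List.mem_cons]
      constructor
      · rintro (h | h)
        · exact Or.inl h
        · exact Or.inr (Or.inr h)
      · rintro (h | h | h)
        · exact Or.inl h
        · rw [h]
          exact Or.inl hM
        · exact Or.inr h
    · rw [if_neg hM, List.mem_cons, List.mem_cons]
      constructor
      · rintro ((h | h) | h)
        · exact Or.inr (Or.inl h)
        · exact Or.inl h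
        · exact Or.inr (Or.inr h)
      · rintro (h | h | h)
        · exact Or.inl (Or.inr h)
        · exact Or.inl (Or.inl h)
        · exact Or.inr h

theorem dd_mem (Ls : List (List ℕ)) (L : List ℕ) : L ∈ dd Ls ↔ L ∈ Ls := by
  unfold dd
  rw [K5_dd]
  simp

private theorem K5_nd (Ls : List (List ℕ)) : ∀ acc : List (List ℕ), acc.Nodup →
    (Ls.foldl (fun acc L => if L ∈ acc then acc else L :: acc) acc).Nodup := by
  induction Ls with
  | nil => intro acc h; exact h
  | cons M Ls ih =>
    intro acc h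
    rw [List.foldl_cons]
    apply ih
    split_ifs with hM
    · exact h
    · exact List.nodup_cons.mpr ⟨hM, h⟩

theorem dd_nodup (Ls : List (List ℕ)) : (dd Ls).Nodup := K5_nd Ls [] List.nodup_nil

theorem mem_parts {p : ℕ} {L : List ℕ} :
    L ∈ parts p ↔ ∃ K : Subgroup (G (Fin p)), Closed K ∧ L = rp K := by
  unfold parts
  rw [dd_mem, mem_stp]
  constructor
  · rintro ⟨h, rfl⟩
    refine ⟨cl (Subgroup.closure (Set.range h)), closed_cl _, ?_⟩
    exact K5_rp (fun e => (orbit_cl _ e).symm)
  · rintro ⟨K, _, rfl⟩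
    obtain ⟨h, hK, ho⟩ := O2 (Γ := G (Fin p)) (Ω := Arc (Fin p)) K
    have hle : Nat.clog 2 (Nat.card (Arc (Fin p))) ≤ tt p := by
      unfold tt
      rw [K5_card]
      apply Nat.clog_le_of_le_pow
      exact (Nat.lt_size_self _).le
    generalize Nat.clog 2 (Nat.card (Arc (Fin p))) = c at h hK ho hle
    refine ⟨fun i => if hi : i.val < c then h ⟨i.val, hi⟩ else 1, ?_⟩
    have hcl : Subgroup.closure (Set.range (fun i : Fin (tt p) => if hi : i.val < c then h ⟨i.val, hi⟩ else 1)) =
        Subgroup.closure (Set.range h) := by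
      apply le_antisymm
      · rw [Subgroup.closure_le]
        rintro _ ⟨i, rfl⟩
        show (if hi : i.val < c then h ⟨i.val, hi⟩ else 1) ∈ Subgroup.closure (Set.range h)
        split_ifs with hi
        · exact Subgroup.subset_closure ⟨_, rfl⟩
        · exact Subgroup.one_mem _
      · rw [Subgroup.closure_le]
        rintro _ ⟨i, rfl⟩
        apply Subgroup.subset_closure
        refine ⟨⟨i.val, i.isLt.trans_le hle⟩, ?_⟩
        show (if hi : i.val < c then h ⟨i.val, hi⟩ else 1) = h i
        rw [dif_pos i.isLt]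
    rw [hcl]
    exact K5_rp (fun e => (ho e).symm)

theorem parts_nodup (p : ℕ) : (parts p).Nodup := dd_nodup _

end Pool.Agent.MP_b5e4d4_co.FT
end

section

set_option autoImplicit false

/-!
# Task K6: the tests on label lists

`pres_rp`: `pres p (rp K) (gl g)` iff `lbv r (cd (g • e)) = lbv r (cd e)` for all arcs `e` iff `g • e ∈ orbit K e` for all `e` iff `g ∈ cl K`
(`mem_arcs`, `ap_gl`, `lb_getD`, `cd_lt`, `lbv_eq`).
`Fv_rp`: `K` closed; `Fv = 1` iff some `g` with `g.2 = -1` is in `cl K = K` (`mem_gens`) iff `¬ K ≤ S`.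
`finer_rp`: `finer p (rp K') (rp K)` iff for all arcs `e`: with `e'` the arc of code `lbv r (cd e)` (`lbv_mem`) `e' ∈ orbit K' e`; as `K'` is closed
this is `K ≤ K'`: if `K ≤ K'` then `e' ∈ K e ⊆ K' e`; conversely for `g ∈ K`, `e` and `g • e` have the same label in `rp K`, so they have
the same label in `rp K'`: `g • e ∈ orbit K' e`, `g ∈ cl K' = K'`.
`norb_rp`: the arcs `e` with `lbv r (cd e) = cd e` are one in every orbit; `arcs_nodup`.
-/

namespace Pool.Agent.MP_b5e4d4_co.FT

open Equiv Pool.Agent.MP_b5e4d4_co.FP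

private lemma K6_getD {p : ℕ} (K : Subgroup (G (Fin p))) (e : Arc (Fin p)) :
    (rp K).getD (cd e) 0 = lbv (MulAction.orbitRel K (Arc (Fin p))) (cd e) :=
  lb_getD _ (cd_lt e)

private lemma K6_all {p : ℕ} (P : ℕ → Prop) [DecidablePred P] :
    ((arcs p).all fun k => decide (P k)) = true ↔ ∀ e : Arc (Fin p), P (cd e) := by
  rw [List.all_eq_true]
  constructor
  · intro h e
    simpa using h (cd e) (mem_arcs.2 ⟨e, rfl⟩)
  · intro h k hk
    obtain ⟨e, rfl⟩ := mem_arcs.1 hk
    simpa using h e

theorem pres_rp {p : ℕ} (K : Subgroup (G (Fin p))) (g : G (Fin p)) :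
    pres p (rp K) (gl g) = true ↔ g ∈ cl K := by
  unfold pres
  rw [K6_all (fun k => (rp K).getD (ap p (gl g) k) 0 = (rp K).getD k 0)]
  show _ ↔ ∀ e : Arc (Fin p), g • e ∈ MulAction.orbit K e
  refine forall_congr' fun e => ?_
  rw [ap_gl, K6_getD, K6_getD, lbv_eq]
  exact MulAction.orbitRel_apply

open scoped Classical in
theorem Fv_rp {p : ℕ} (K : Subgroup (G (Fin p))) (hK : Closed K) :
    Fv p (gens p) (rp K) = if K ≤ S (Fin p) then 0 else 1 := by
  have h1 : ((gens p).any fun g => g.2 && pres p (rp K) g) = true ↔ ¬ K ≤ S (Fin p) := by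
    rw [List.any_eq_true]
    constructor
    · rintro ⟨x, hx, hx2⟩ hle
      obtain ⟨g, rfl⟩ := mem_gens.1 hx
      rw [Bool.and_eq_true] at hx2
      have hg : g ∈ K := by
        have := (pres_rp K g).1 hx2.2
        rwa [hK] at this
      have h2 : g.2 = 1 := hle hg
      have h3 : g.2 = -1 := by simpa [gl] using hx2.1
      rw [h2] at h3
      exact absurd h3 (by decide)
    · intro hle
      obtain ⟨g, hg, hg2⟩ := SetLike.not_le_iff_exists.1 hle
      refine ⟨gl g, mem_gens.2 ⟨g, rfl⟩, ?_⟩
      rw [Bool.and_eq_true]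
      constructor
      · have h3 : g.2 = -1 := by
          rcases Int.units_eq_one_or g.2 with h | h
          · exact absurd h hg2
          · exact h
        simpa [gl] using h3
      · rw [pres_rp, hK]
        exact hg
  unfold Fv
  by_cases h : K ≤ S (Fin p)
  · rw [if_neg (fun h2 => (h1.1 h2) h), if_pos h]
  · rw [if_pos (h1.2 h), if_neg h]

theorem finer_rp {p : ℕ} (K K' : Subgroup (G (Fin p))) (hK' : Closed K') :
    finer p (rp K') (rp K) = true ↔ K ≤ K' := by
  unfold finer
  rw [K6_all (fun k => (rp K').getD ((rp K).getD k 0) 0 = (rp K').getD k 0)]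
  constructor
  · intro h g hg
    rw [← hK']
    show ∀ e : Arc (Fin p), g • e ∈ MulAction.orbit K' e
    intro e
    have h1 := h e
    have h2 := h (g • e)
    have h3 : lbv (MulAction.orbitRel K (Arc (Fin p))) (cd (g • e)) =
        lbv (MulAction.orbitRel K (Arc (Fin p))) (cd e) :=
      (lbv_eq _ _ _).2 (MulAction.orbitRel_apply.2 ⟨⟨g, hg⟩, rfl⟩)
    rw [K6_getD, K6_getD] at h1 h2
    rw [h3, h1] at h2
    exact MulAction.orbitRel_apply.1 ((lbv_eq _ _ _).1 h2.symm)
  · intro h e
    rw [K6_getD, K6_getD]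
    obtain ⟨e', he', hr⟩ := lbv_mem (MulAction.orbitRel K (Arc (Fin p))) e
    rw [← he', K6_getD, lbv_eq]
    have h1 := MulAction.orbitRel_apply.1 hr
    obtain ⟨g, hg⟩ := h1
    have h2 : MulAction.orbitRel K' (Arc (Fin p)) e e' :=
      MulAction.orbitRel_apply.2 ⟨⟨g.1, h g.2⟩, hg⟩
    exact Setoid.symm' _ h2

theorem norb_rp {p : ℕ} (K : Subgroup (G (Fin p))) : norb p (rp K) = orb K := by
  unfold norb orb
  have hnd : ((arcs p).filter fun k => decide ((rp K).getD k 0 = k)).Nodup :=
    (arcs_nodup p).filter _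
  rw [← List.toFinset_card_of_nodup hnd]
  let f : MulAction.orbitRel.Quotient K (Arc (Fin p)) → ℕ :=
    Quotient.lift (fun e => lbv (MulAction.orbitRel K (Arc (Fin p))) (cd e))
      (fun a b hab => (lbv_eq _ a b).2 hab)
  have hf : Function.Injective f := by
    intro a b hab
    induction a using Quotient.inductionOn with
    | h a =>
      induction b using Quotient.inductionOn with
      | h b => exact Quotient.sound ((lbv_eq _ a b).1 hab)
  have hr : Set.range f =
      (((arcs p).filter fun k => decide ((rp K).getD k 0 = k)).toFinset : Set ℕ) := by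
    ext k
    simp only [Set.mem_range, List.coe_toFinset, List.mem_filter, decide_eq_true_eq]
    constructor
    · rintro ⟨q, rfl⟩
      induction q using Quotient.inductionOn with
      | h e =>
        obtain ⟨e', he', hr⟩ := lbv_mem (MulAction.orbitRel K (Arc (Fin p))) e
        have h1 : f (Quotient.mk _ e) = cd e' := he'.symm
        show f (Quotient.mk _ e) ∈ arcs p ∧ (rp K).getD (f (Quotient.mk _ e)) 0 = f (Quotient.mk _ e)
        rw [h1]
        refine ⟨mem_arcs.2 ⟨e', rfl⟩, ?_⟩
        rw [K6_getD]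
        rw [← (lbv_eq _ e e').2 hr]
        exact he'.symm
    · rintro ⟨hk, hk2⟩
      obtain ⟨e, rfl⟩ := mem_arcs.1 hk
      rw [K6_getD] at hk2
      exact ⟨Quotient.mk _ e, hk2⟩
  rw [← Nat.card_range_of_injective hf, hr]
  exact (Set.ncard_coe_finset _).symm

end Pool.Agent.MP_b5e4d4_co.FT
end
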