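import Pool.Agent.Lib.MP_b5e4d4_co.Mg.G006

section

set_option autoImplicit false

/-!
# Task F1: the set `Fin q` is preserved

For a point `v` let `sd v` be the number of points `u ≠ v` such that exactly one of `arc v u`, `arc u v` holds. For
`v = Sum.inl i` all `q - 1` points `Sum.inl j`, `j ≠ i`, count (`i < j` or `j < i`), so `q - 1 ≤ sd v`. For `v = Sum.inr s` no point
`Sum.inr s'` counts (`adj_symm`) and `Sum.inl i` counts only if `i ∈ In s ∪ Out s`, so `sd v ≤ (In s).card + (Out s).card < q - 1`.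
Every `g` in the stabiliser (sign `1`: `mem_stab_one`; sign `-1`: `mem_stab_neg`) satisfies `sd (g.1 v) = sd v`.
-/

namespace Pool.Agent.MP_b5e4d4_co.FP

open Equiv

open scoped Classical in
/-- the points joined to `v` by exactly one arc -/
private noncomputable def f1sd {m l q : ℕ} (h : Fin l → (B m →+ Y))
    (In Out : S0 m l → Finset (Fin q)) (v : Vt q m l) : Finset (Vt q m l) :=
  Finset.univ.filter fun u => u ≠ v ∧ ¬ (arcR q h In Out v u ↔ arcR q h In Out u v)

private theorem f1_card {m l q : ℕ} (h : Fin l → (B m →+ Y)) (In Out : S0 m l → Finset (Fin q))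
    (π : Perm (Vt q m l))
    (hπ : ∀ u v, u ≠ v → ((arcR q h In Out (π v) (π u) ↔ arcR q h In Out (π u) (π v)) ↔
      (arcR q h In Out v u ↔ arcR q h In Out u v))) (v : Vt q m l) :
    (f1sd h In Out (π v)).card = (f1sd h In Out v).card := by
  classical
  symm
  refine Finset.card_bij (fun u _ => π u) ?_ ?_ ?_
  · intro u hu
    simp only [f1sd, Finset.mem_filter, Finset.mem_univ, true_and] at hu ⊢
    exact ⟨fun e => hu.1 (π.injective e), fun e => hu.2 ((hπ u v hu.1).1 e)⟩
  · intro u _ u' _ e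
    exact π.injective e
  · intro u hu
    simp only [f1sd, Finset.mem_filter, Finset.mem_univ, true_and] at hu
    refine ⟨π.symm u, ?_, π.apply_symm_apply u⟩
    simp only [f1sd, Finset.mem_filter, Finset.mem_univ, true_and]
    have hne : π.symm u ≠ v := fun e => hu.1 (by rw [← e, π.apply_symm_apply])
    refine ⟨hne, fun e => hu.2 ?_⟩
    have := (hπ (π.symm u) v hne).2 e
    rwa [π.apply_symm_apply] at this

private theorem f1_inl {m l q : ℕ} (h : Fin l → (B m →+ Y)) (In Out : S0 m l → Finset (Fin q))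
    (i : Fin q) : q - 1 ≤ (f1sd h In Out (Sum.inl i)).card := by
  classical
  have hsub : (Finset.univ.erase i).image (Sum.inl : Fin q → Vt q m l) ⊆
      f1sd h In Out (Sum.inl i) := by
    intro u hu
    rw [Finset.mem_image] at hu
    obtain ⟨j, hj, rfl⟩ := hu
    have hji : j ≠ i := Finset.ne_of_mem_erase hj
    simp only [f1sd, Finset.mem_filter, Finset.mem_univ, true_and]
    refine ⟨fun e => hji (Sum.inl.inj e), ?_⟩
    show ¬ (i < j ↔ j < i)
    intro e
    rcases lt_or_gt_of_ne hji with h1 | h1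
    · exact lt_asymm h1 (e.2 h1)
    · exact lt_asymm h1 (e.1 h1)
  have h1 := Finset.card_le_card hsub
  rw [Finset.card_image_of_injective _ Sum.inl_injective, Finset.card_erase_of_mem (Finset.mem_univ i),
    Finset.card_univ, Fintype.card_fin] at h1
  exact h1

private theorem f1_inr {m l q : ℕ} (h : Fin l → (B m →+ Y)) (In Out : S0 m l → Finset (Fin q))
    (s : S0 m l) : (f1sd h In Out (Sum.inr s)).card ≤ (In s).card + (Out s).card := by
  classical
  have hsub : f1sd h In Out (Sum.inr s) ⊆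
      (In s ∪ Out s).image (Sum.inl : Fin q → Vt q m l) := by
    intro u hu
    simp only [f1sd, Finset.mem_filter, Finset.mem_univ, true_and] at hu
    rw [Finset.mem_image]
    rcases u with j | s'
    · refine ⟨j, ?_, rfl⟩
      have h1 : ¬ (j ∈ Out s ↔ j ∈ In s) := hu.2
      rw [Finset.mem_union]
      by_contra hcon
      rw [not_or] at hcon
      exact h1 ⟨fun e => absurd e hcon.2, fun e => absurd e hcon.1⟩
    · exact absurd (adj_symm h s s') hu.2
  refine (Finset.card_le_card hsub).trans ?_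
  refine Finset.card_image_le.trans ?_
  exact Finset.card_union_le _ _

theorem F1 {m l q : ℕ} (h : Fin l → (B m →+ Y)) (In Out : S0 m l → Finset (Fin q))
    (hc : ∀ s, (In s).card + (Out s).card + 1 < q) (g : G (Vt q m l))
    (hg : g ∈ stab (Dg q h In Out)) :
    (∀ i : Fin q, ∃ i' : Fin q, g.1 (Sum.inl i) = Sum.inl i') ∧
      ∀ s : S0 m l, ∃ s' : S0 m l, g.1 (Sum.inr s) = Sum.inr s' := by
  obtain ⟨π, ε⟩ := g
  have hπ : ∀ u v, u ≠ v → ((arcR q h In Out (π v) (π u) ↔ arcR q h In Out (π u) (π v)) ↔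
      (arcR q h In Out v u ↔ arcR q h In Out u v)) := by
    intro u v huv
    rcases Int.units_eq_one_or ε with rfl | rfl
    · have h1 := (mem_stab_one q h In Out π).1 hg
      rw [h1 v u huv.symm, h1 u v huv]
    · have h1 := (mem_stab_neg q h In Out π).1 hg
      rw [h1 v u huv.symm, h1 u v huv]
      exact Iff.comm
  constructor
  · intro i
    show ∃ i' : Fin q, π (Sum.inl i) = Sum.inl i'
    rcases he : π (Sum.inl i) with i' | s
    · exact ⟨i', rfl⟩
    · exfalso
      have h1 := f1_card h In Out π hπ (Sum.inl i)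
      rw [he] at h1
      have h2 := f1_inl h In Out i
      have h3 := f1_inr h In Out s
      have h4 := hc s
      omega
  · intro s
    show ∃ s' : S0 m l, π (Sum.inr s) = Sum.inr s'
    rcases he : π (Sum.inr s) with i | s'
    · exfalso
      have h1 := f1_card h In Out π hπ (Sum.inr s)
      rw [he] at h1
      have h2 := f1_inl h In Out i
      have h3 := f1_inr h In Out s
      have h4 := hc s
      omega
    · exact ⟨s', rfl⟩

end Pool.Agent.MP_b5e4d4_co.FP
end

section

set_option autoImplicit false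

/-!
# Task F2: automorphisms of the digraph

`π` preserves `Fin q` and `S0` (`F1`). On `Fin q` it preserves `<` (the arcs between the points `Sum.inl`), so it is a
strictly monotone bijection of `Fin q` and fixes every `Sum.inl i`. So `In` is preserved: `π (inr s) = inr s'` with
`In s' = In s` (`i ∈ In s` iff arc `inl i → inr s` iff arc `inl i → inr s'`), so `s' = aSf h e s` for some `e ∈ L0` (depending
on `s`). In particular `π` preserves `A m` (`inl x`), every block `{i} × F_2` and every block `{j} × Y`.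
Let `π (inr (inl 0)) = inr (inl e)`, `e ∈ L0`. Coordinate blocks: `inl x` is joined (`adj`) to exactly one point of the block `i`,
the point `(i, co i x)`; so `π (i, co i x) = (i, co i (π x))`. For `x = 0`: `π (i, 0) = (i, co i e)`; `π` is injective on the two
points of the block, so `π (i, v) = (i, v + co i e)` for `v = 0, 1`, and `co i (π x) = co i x + co i e` for all `i`, `x`: `π x = x + e`
(`co_ext`). Block `j`: `inl x` is joined to exactly one point of the block, `(j, tau h j x)`, so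
`π (j, tau h j x) = (j, tau h j (x + e)) = (j, tau h j x + tau h j e)`, and every `v : Y` is `tau h j x` for some `x` (`tau_surj`).
So `π = aV q h e`.
-/

namespace Pool.Agent.MP_b5e4d4_co.FP

open Equiv

private theorem F2_zmod_two (a b : ZMod 2) (hab : a ≠ b) : a = 1 + b := by
  revert a b
  decide

theorem F2 {m l q : ℕ} (h : Fin l → (B m →+ Y)) (In Out : S0 m l → Finset (Fin q))
    (hc : ∀ s, (In s).card + (Out s).card + 1 < q) (L0 : AddSubgroup (A m))
    (hIn : ∀ s s', In s = In s' → ∃ e ∈ L0, s' = aSf h e s) (π : Perm (Vt q m l))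
    (hπ : ((π, 1) : G (Vt q m l)) ∈ stab (Dg q h In Out)) : ∃ e ∈ L0, π = aV q h e := by
  have hst := (mem_stab_one q h In Out π).1 hπ
  obtain ⟨h1, h2⟩ := F1 h In Out hc (π, 1) hπ
  choose f hf using h1
  choose g hg using h2
  have hf' : ∀ i, π (Sum.inl i) = Sum.inl (f i) := hf
  have hg' : ∀ s, π (Sum.inr s) = Sum.inr (g s) := hg
  have hmono : StrictMono f := by
    intro i j hij
    have h3 := hst (Sum.inl i) (Sum.inl j) (fun h4 => hij.ne (Sum.inl.inj h4))
    rw [hf', hf'] at h3
    exact h3.2 hij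
  have hid : ∀ i, f i = i := fun i => le_antisymm hmono.apply_le hmono.le_apply
  have hg2 : ∀ s, ∃ e ∈ L0, g s = aSf h e s := by
    intro s
    refine hIn s (g s) ?_
    ext i
    have h3 := hst (Sum.inl i) (Sum.inr s) (by simp)
    rw [hf', hg', hid] at h3
    exact h3.symm
  have hadj : ∀ s s', s ≠ s' → (adj h (g s) (g s') ↔ adj h s s') := by
    intro s s' hss
    have h3 := hst (Sum.inr s) (Sum.inr s') (fun h4 => hss (Sum.inr.inj h4))
    rw [hg', hg'] at h3
    exact h3
  have hp : ∀ x : A m, ∃ y : A m, g (Sum.inl x) = Sum.inl y := fun x => by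
    obtain ⟨e, -, he⟩ := hg2 (Sum.inl x)
    exact ⟨x + e, he⟩
  choose p hp using hp
  have hw : ∀ (i : I m) (v : ZMod 2), ∃ w : ZMod 2,
      g (Sum.inr (Sum.inl (i, v))) = Sum.inr (Sum.inl (i, w)) := fun i v => by
    obtain ⟨e, -, he⟩ := hg2 (Sum.inr (Sum.inl (i, v)))
    exact ⟨v + co i e, he⟩
  choose w hw using hw
  have hw' : ∀ (j : Fin l) (v : Y), ∃ w : Y,
      g (Sum.inr (Sum.inr (j, v))) = Sum.inr (Sum.inr (j, w)) := fun j v => by
    obtain ⟨e, -, he⟩ := hg2 (Sum.inr (Sum.inr (j, v)))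
    exact ⟨v + tau h j e, he⟩
  choose w' hw' using hw'
  obtain ⟨e, heL, he⟩ := hg2 (Sum.inl 0)
  have hp0 : p 0 = e := by
    have h3 : (Sum.inl (p 0) : S0 m l) = Sum.inl (0 + e) := by rw [← hp 0, he]; rfl
    rw [Sum.inl.inj h3, zero_add]
  have hco : ∀ (i : I m) (x : A m) (v : ZMod 2), co i (p x) = w i v ↔ co i x = v := by
    intro i x v
    have h3 := hadj (Sum.inl x) (Sum.inr (Sum.inl (i, v))) (by simp)
    rw [hp, hw] at h3
    exact h3
  have htau : ∀ (j : Fin l) (x : A m) (v : Y), tau h j (p x) = w' j v ↔ tau h j x = v := by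
    intro j x v
    have h3 := hadj (Sum.inl x) (Sum.inr (Sum.inr (j, v))) (by simp)
    rw [hp, hw'] at h3
    exact h3
  have hco0 : ∀ i : I m, co i (0 : A m) = 0 := fun i => by cases i <;> rfl
  have hwv : ∀ (i : I m) (v : ZMod 2), w i v = v + co i e := by
    intro i v
    have h0 : w i 0 = co i e := by
      have h3 := (hco i 0 0).2 (hco0 i)
      rw [hp0] at h3
      exact h3.symm
    have h01 : w i 1 = 1 + co i e := by
      apply F2_zmod_two
      intro h4
      have h5 := (hco i 0 1).1 (by rw [hp0, h4])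
      rw [hco0] at h5
      exact absurd h5 (by decide)
    have hv : v = 0 ∨ v = 1 := by
      revert v
      decide
    rcases hv with rfl | rfl
    · rw [h0, zero_add]
    · exact h01
  have hpx : ∀ x, p x = x + e := by
    intro x
    apply co_ext
    intro i
    rw [(hco i x (co i x)).2 rfl, hwv, co_add]
  have hwt : ∀ (j : Fin l) (v : Y), w' j v = v + tau h j e := by
    intro j v
    have h3 := (htau j (v, 0) v).2 (tau_surj h j v)
    rw [← h3, hpx, tau_add, tau_surj]
  refine ⟨e, heL, ?_⟩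
  ext1 v
  rcases v with i | x | ⟨i, v⟩ | ⟨j, v⟩
  · rw [hf', hid, aV_inl]
  · rw [hg', hp, hpx, aV_inr]
    rfl
  · rw [hg', hw, hwv, aV_inr]
    rfl
  · rw [hg', hw', hwt, aV_inr]
    rfl

end Pool.Agent.MP_b5e4d4_co.FP
end

section

set_option autoImplicit false

/-!
# Task F3: elements which fix the digraph, and no anti-automorphism

`F3a`: `mem_stab_one`; cases on the points; `adj_aSf`.
`F3b`: `mem_stab_neg`; `aV q h a * rho` maps `inl i` to `inl i.rev` and `inr s` to `inr (aSf h a s)`.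
`inl i, inl j`: `j.rev < i.rev ↔ i < j`. Arc `inl i → inr s`: `i.rev ∈ Out (aSf h a s) ↔ i ∈ In s` by `hIO`. Arc `inr s → inl i`:
`i.rev ∈ In (aSf h a s) ↔ i ∈ Out s`, because `Out s = Out (aSf h a (aSf h a s)) = (In (aSf h a s)).image Fin.rev` (`aSf_invol`).
`inr s, inr s'`: `adj_symm`, `adj_aSf`.
`F3c`: take `i ∈ In s`: there is an arc `inl i → inr s`; `(π, -1)` fixes the digraph, so there is an arc from
`π (inr s)` to `π (inl i)`; by `F1` these are `inr s'` and `inl i'`, so `i' ∈ Out s' = ∅`.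
-/

namespace Pool.Agent.MP_b5e4d4_co.FP

open Equiv

theorem F3a {m l q : ℕ} (h : Fin l → (B m →+ Y)) (In Out : S0 m l → Finset (Fin q)) (e : A m)
    (hIn : ∀ s, In (aSf h e s) = In s) (hOut : ∀ s, Out (aSf h e s) = Out s) :
    ((aV q h e, 1) : G (Vt q m l)) ∈ stab (Dg q h In Out) := by
  rw [mem_stab_one]
  rintro (i | s) (j | s') _
  · exact Iff.rfl
  · show i ∈ In (aSf h e s') ↔ i ∈ In s'
    rw [hIn]
  · show j ∈ Out (aSf h e s) ↔ j ∈ Out s
    rw [hOut]
  · exact adj_aSf h e s s'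

theorem F3b {m l q : ℕ} (h : Fin l → (B m →+ Y)) (In Out : S0 m l → Finset (Fin q)) (a : A m)
    (hIO : ∀ s, Out (aSf h a s) = (In s).image Fin.rev) :
    ((aV q h a * rho q m l, -1) : G (Vt q m l)) ∈ stab (Dg q h In Out) := by
  rw [mem_stab_neg]
  rintro (i | s) (j | s') _
  · show j.rev < i.rev ↔ i < j
    exact Fin.rev_lt_rev
  · show i.rev ∈ Out (aSf h a s') ↔ i ∈ In s'
    rw [hIO, Finset.mem_image]
    constructor
    · rintro ⟨x, hx, h1⟩
      rwa [← Fin.rev_inj.1 h1]
    · intro hi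
      exact ⟨i, hi, rfl⟩
  · show j.rev ∈ In (aSf h a s) ↔ j ∈ Out s
    have h1 := hIO (aSf h a s)
    rw [aSf_invol] at h1
    rw [h1, Finset.mem_image]
    constructor
    · intro hi
      exact ⟨j.rev, hi, Fin.rev_rev j⟩
    · rintro ⟨x, hx, h2⟩
      rw [← h2, Fin.rev_rev]
      exact hx
  · show adj h (aSf h a s') (aSf h a s) ↔ adj h s s'
    rw [adj_aSf, adj_symm]

theorem F3c {m l q : ℕ} (h : Fin l → (B m →+ Y)) (In Out : S0 m l → Finset (Fin q))
    (hc : ∀ s, (In s).card + (Out s).card + 1 < q) (hOut : ∀ s, Out s = ∅) (s : S0 m l)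
    (hs : (In s).Nonempty) (π : Perm (Vt q m l)) :
    ((π, -1) : G (Vt q m l)) ∉ stab (Dg q h In Out) := by
  intro hmem
  obtain ⟨i, hi⟩ := hs
  obtain ⟨h1, h2⟩ := F1 h In Out hc (π, -1) hmem
  obtain ⟨i', hi'⟩ := h1 i
  obtain ⟨s', hs'⟩ := h2 s
  have hi'' : π (Sum.inl i) = Sum.inl i' := hi'
  have hs'' : π (Sum.inr s) = Sum.inr s' := hs'
  have h3 := (mem_stab_neg q h In Out π).1 hmem (Sum.inl i) (Sum.inr s) (by simp)
  rw [hi'', hs''] at h3
  have h4 : i' ∈ Out s' := h3.2 hi
  rw [hOut] at h4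
  exact absurd h4 (Finset.notMem_empty _)

end Pool.Agent.MP_b5e4d4_co.FP
end

section

set_option autoImplicit false

/-!
# Task N1: few members of the family are conjugate to a given one

Let `Kf q h = cj π (Kf q h0)`. For `e : A m` the element `(aV q h e, 1)` of `Kf q h` is `(π, 1) * k * (π, 1)⁻¹` with
`k ∈ Kf q h0` of sign `1`, so `k = (aV q h0 (θ e), 1)` for exactly one `θ e` (`aV_inj`): `aV q h e = π * aV q h0 (θ e) * π⁻¹`, and `θ`
is additive (`aV_add`, `aV_inj`). Let `y j := π⁻¹ (inr (inr (inr (j, 0))))`. Then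
`tau h j e = 0` iff `aV q h e` fixes `inr (inr (inr (j, 0)))` iff `aV q h0 (θ e)` fixes `y j`. So `(θ, y)` determines the sets
`{e : tau h j e = 0} = {(z, b) : z = - h j b}`, hence `h`. The number of pairs is at most
`card (A m →+ A m) * (card V) ^ l`, and `card (A m →+ A m) ≤ (2 ^ (m + 2)) ^ (m + 2)`: a homomorphism is determined by its
values on the `m + 2` unit vectors (or embed `A m →+ A m` into the functions `I m → A m`).
-/

namespace Pool.Agent.MP_b5e4d4_co.FP

open Equiv

private theorem N1_zmod (x : ZMod 2) : x = 0 ∨ x = 1 := by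
  revert x; decide

/-- the values of a homomorphism on the unit vectors -/
private def N1_ev (m : ℕ) (f : A m →+ A m) : I m → A m
  | Sum.inl i => f (Pi.single i 1, 0)
  | Sum.inr i => f (0, Pi.single i 1)

private theorem N1_ev_inj (m : ℕ) : Function.Injective (N1_ev m) := by
  intro f g hfg
  have h1 : f.comp (AddMonoidHom.inl Y (B m)) = g.comp (AddMonoidHom.inl Y (B m)) := by
    apply AddMonoidHom.functions_ext
    intro i x
    rcases N1_zmod x with rfl | rfl
    · rw [Pi.single_zero, map_zero, map_zero]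
    · exact congrFun hfg (Sum.inl i)
  have h2 : f.comp (AddMonoidHom.inr Y (B m)) = g.comp (AddMonoidHom.inr Y (B m)) := by
    apply AddMonoidHom.functions_ext
    intro i x
    rcases N1_zmod x with rfl | rfl
    · rw [Pi.single_zero, map_zero, map_zero]
    · exact congrFun hfg (Sum.inr i)
  refine AddMonoidHom.ext fun a => ?_
  have h3 : a = (a.1, 0) + (0, a.2) := by ext <;> simp
  rw [h3, map_add, map_add]
  have h4 : f (a.1, 0) = g (a.1, 0) := DFunLike.congr_fun h1 a.1
  have h5 : f (0, a.2) = g (0, a.2) := DFunLike.congr_fun h2 a.2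
  rw [h4, h5]

theorem card_hom (m : ℕ) : Nat.card (A m →+ A m) ≤ 2 ^ ((m + 2) * (m + 2)) := by
  have h1 := Nat.card_le_card_of_injective (N1_ev m) (N1_ev_inj m)
  refine h1.trans (le_of_eq ?_)
  rw [Nat.card_fun, Nat.card_sum, Nat.card_prod, Nat.card_fun, Nat.card_fun]
  simp only [Nat.card_eq_fintype_card, ZMod.card, Fintype.card_fin]
  rw [← pow_add, ← pow_mul]
  congr 1
  ring

private theorem N1_pair {m l q : ℕ} (h0 h : Fin l → (B m →+ Y)) (π : Perm (Vt q m l))
    (hπ : Kf q h = cj π (Kf q h0)) :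
    ∃ θ : A m →+ A m, ∀ e, aV q h e = π * aV q h0 (θ e) * π⁻¹ := by
  have h1 : ∀ e, ∃ e', aV q h e = π * aV q h0 e' * π⁻¹ := by
    intro e
    have h2 : ((aV q h e, 1) : G (Vt q m l)) ∈ Kf q h := ⟨e, Or.inl rfl⟩
    rw [hπ] at h2
    obtain ⟨k, hk, hk2⟩ := h2
    obtain ⟨e', rfl | rfl⟩ := hk
    · exact ⟨e', (congrArg Prod.fst hk2).symm⟩
    · exfalso
      have h3 := congrArg Prod.snd hk2
      have h4 : ((1 : ℤˣ) * (-1) * (1 : ℤˣ)⁻¹) = 1 := h3
      exact absurd h4 (by decide)
  choose θ hθ using h1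
  refine ⟨AddMonoidHom.mk' θ ?_, hθ⟩
  intro a b
  apply aV_inj q h0
  have h2 : π * aV q h0 (θ (a + b)) * π⁻¹ = π * aV q h0 (θ a + θ b) * π⁻¹ := by
    rw [← hθ, aV_add q h, hθ a, hθ b, aV_add q h0]
    group
  exact mul_left_cancel (mul_right_cancel h2)

private theorem N1_zero {m l q : ℕ} {h0 h : Fin l → (B m →+ Y)} {π : Perm (Vt q m l)}
    {θ : A m →+ A m} (hθ : ∀ e, aV q h e = π * aV q h0 (θ e) * π⁻¹) (j : Fin l) (e : A m) :
    tau h j e = 0 ↔ aV q h0 (θ e) (π⁻¹ (Sum.inr (Sum.inr (Sum.inr (j, 0))))) =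
      π⁻¹ (Sum.inr (Sum.inr (Sum.inr (j, 0)))) := by
  have h1 : aV q h e (Sum.inr (Sum.inr (Sum.inr (j, 0)))) =
      Sum.inr (Sum.inr (Sum.inr (j, tau h j e))) := by
    rw [aV_inr]
    show Sum.inr (Sum.inr (Sum.inr (j, 0 + tau h j e))) = _
    rw [zero_add]
  rw [hθ e] at h1
  constructor
  · intro h2
    rw [h2] at h1
    rw [Perm.eq_inv_iff_eq]
    exact h1
  · intro h2
    have h3 : (π * aV q h0 (θ e) * π⁻¹) (Sum.inr (Sum.inr (Sum.inr (j, 0)))) =
        Sum.inr (Sum.inr (Sum.inr (j, 0))) := by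
      show π (aV q h0 (θ e) (π⁻¹ _)) = _
      rw [h2]
      exact π.apply_symm_apply _
    rw [h3] at h1
    have h4 := Sum.inr.inj (Sum.inr.inj (Sum.inr.inj h1))
    exact (congrArg Prod.snd h4).symm

theorem N1 {m l q : ℕ} (h0 : Fin l → (B m →+ Y)) :
    Nat.card {h : Fin l → (B m →+ Y) // ∃ π : Perm (Vt q m l), Kf q h = cj π (Kf q h0)} ≤
      2 ^ ((m + 2) * (m + 2)) * Nat.card (Vt q m l) ^ l := by
  classical
  have key : ∀ h : {h : Fin l → (B m →+ Y) // ∃ π : Perm (Vt q m l), Kf q h = cj π (Kf q h0)},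
      ∃ p : (A m →+ A m) × (Fin l → Vt q m l),
        ∀ (j : Fin l) (e : A m), tau h.1 j e = 0 ↔ aV q h0 (p.1 e) (p.2 j) = p.2 j := by
    rintro ⟨h, π, hπ⟩
    obtain ⟨θ, hθ⟩ := N1_pair h0 h π hπ
    exact ⟨(θ, fun j => π⁻¹ (Sum.inr (Sum.inr (Sum.inr (j, 0))))), fun j e => N1_zero hθ j e⟩
  choose p hp using key
  have hinj : Function.Injective p := by
    intro h h' hh
    apply Subtype.ext
    funext j
    refine AddMonoidHom.ext fun b => ?_
    have h1 : tau h.1 j (-(h.1 j b), b) = 0 := by simp [tau]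
    have h2 : tau h'.1 j (-(h.1 j b), b) = 0 := by
      rw [hp h', ← hh, ← hp h]
      exact h1
    have h3 : -(h.1 j b) + h'.1 j b = 0 := h2
    exact (neg_add_eq_zero.1 h3)
  haveI : Finite (A m →+ A m) := Finite.of_injective (N1_ev m) (N1_ev_inj m)
  have h1 := Nat.card_le_card_of_injective p hinj
  refine h1.trans ?_
  rw [Nat.card_prod, Nat.card_fun, Nat.card_eq_fintype_card (α := Fin l), Fintype.card_fin]
  exact Nat.mul_le_mul_right _ (card_hom m)

end Pool.Agent.MP_b5e4d4_co.FP
end
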