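import Pool.Agent.Lib.MP_b5e4d4_co.FP.O0
import Pool.Agent.Lib.MP_b5e4d4_co.FP.Defs

section

set_option autoImplicit false

/-!
# Task O1a: random elements move orbits

`K ≤ H` subgroups of a finite group `Γ` acting on a finite set `Ω`. The sum over `h ∈ H` of the number of
`K`-orbits which are not kept by `h` is at least `|H| (no K - no H)`.

Proof. Fix a `K`-orbit `q`, a point `x ∈ q`, and let `Δ` be the `H`-orbit of `x` (it contains `q`). If `h` keeps `q` then
`h • x ∈ q`. The number of `h ∈ H` with `h • x = y` is `|H| / |Δ|` for every `y ∈ Δ` (a coset of the stabiliser: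
`MulAction.card_orbit_mul_card_stabilizer_eq_card_group`, `MulAction.orbitEquivQuotientStabilizer`), so the number of
`h ∈ H` which keep `q` is at most `|H| |q| / |Δ|`. The sum over all `q` inside a fixed `Δ` of `|H| |q| / |Δ|` is `|H|`
(the `K`-orbits partition `Δ`). So the number of pairs `(h, q)` with `q` kept by `h` is at most `|H| no H`, and the number
of all pairs is `|H| no K`.

Variant which avoids division: for every `H`-orbit `Δ`, `∑_{q ⊆ Δ} #{h ∈ H kept q} ≤ |H|`, because
`#{h : h x_q ∈ q} * |Δ| = |H| * |q|`.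
-/

namespace Pool.Agent.MP_b5e4d4_co.FP

/-- the number of orbits of the larger group is at most the number of orbits of the smaller group -/
theorem no_anti {Γ Ω : Type} [Group Γ] [Finite Ω] [MulAction Γ Ω] {K H : Subgroup Γ} (hKH : K ≤ H) :
    no Ω H ≤ no Ω K := by
  unfold no
  have hf : ∀ a b : Ω, (MulAction.orbitRel K Ω) a b → (MulAction.orbitRel H Ω) a b := by
    intro a b hab
    rw [MulAction.orbitRel_apply] at hab ⊢
    obtain ⟨g, hg⟩ := hab
    exact ⟨⟨g.1, hKH g.2⟩, hg⟩
  let f : MulAction.orbitRel.Quotient K Ω → MulAction.orbitRel.Quotient H Ω :=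
    Quotient.map id hf
  have hs : Function.Surjective f := by
    intro b
    induction b using Quotient.inductionOn with
    | h x => exact ⟨Quotient.mk _ x, rfl⟩
  exact Nat.card_le_card_of_surjective f hs

theorem O1a {Γ Ω : Type} [Group Γ] [Fintype Γ] [Finite Ω] [MulAction Γ Ω] (K H : Subgroup Γ)
    (hKH : K ≤ H) :
    Nat.card H * (no Ω K - no Ω H) ≤
      open scoped Classical in
      ∑ h : H, Nat.card {q : MulAction.orbitRel.Quotient K Ω // ¬ Kept K (h : Γ) q} := by
  classical
  have hg : ∀ q : MulAction.orbitRel.Quotient K Ω, ∃ g : H,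
      (g : Γ) • (Quotient.out (Quotient.mk (MulAction.orbitRel H Ω) q.out) : Ω) = q.out := by
    intro q
    have h1 : Quotient.mk (MulAction.orbitRel H Ω)
        (Quotient.out (Quotient.mk (MulAction.orbitRel H Ω) q.out)) =
        Quotient.mk (MulAction.orbitRel H Ω) q.out := Quotient.out_eq _
    have h2 := Quotient.exact h1.symm
    obtain ⟨g, hg⟩ := (MulAction.orbitRel_apply (G := H)).mp h2
    exact ⟨g, hg⟩
  choose g hg using hg
  let P : H × MulAction.orbitRel.Quotient K Ω → Prop := fun a => Kept K (a.1 : Γ) a.2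
  let φ : {a // P a} → H × MulAction.orbitRel.Quotient H Ω := fun a =>
    (a.1.1 * g a.1.2, Quotient.mk (MulAction.orbitRel H Ω) a.1.2.out)
  have hφ : Function.Injective φ := by
    have key : ∀ a : {a // P a}, Quotient.mk (MulAction.orbitRel K Ω)
        (((φ a).1 : Γ) • (φ a).2.out) = a.1.2 := by
      intro a
      have h1 : (((φ a).1 : Γ) • (φ a).2.out) = (a.1.1 : Γ) • a.1.2.out := by
        change ((a.1.1 * g a.1.2 : H) : Γ) •
          (Quotient.out (Quotient.mk (MulAction.orbitRel H Ω) a.1.2.out) : Ω) = _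
        rw [Subgroup.coe_mul, mul_smul, hg]
      rw [h1]
      have h2 : a.1.2.out ∈ a.1.2.orbit := by
        rw [MulAction.orbitRel.Quotient.mem_orbit]
        exact Quotient.out_eq _
      have h3 := a.2 _ h2
      rw [MulAction.orbitRel.Quotient.mem_orbit] at h3
      exact h3
    intro a b hab
    have h4 : a.1.2 = b.1.2 := by rw [← key a, ← key b, hab]
    have h5 : a.1.1 * g a.1.2 = b.1.1 * g b.1.2 := congrArg Prod.fst hab
    rw [h4] at h5
    have h6 : a.1.1 = b.1.1 := mul_right_cancel h5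
    exact Subtype.ext (Prod.ext h6 h4)
  have hk : Nat.card {a // P a} ≤ Nat.card H * no Ω H := by
    have h1 := Nat.card_le_card_of_injective φ hφ
    rwa [Nat.card_prod] at h1
  have htot : Nat.card {a // P a} + Nat.card {a // ¬ P a} = Nat.card H * no Ω K := by
    have h1 : Nat.card (H × MulAction.orbitRel.Quotient K Ω) =
        Nat.card {a // P a} + Nat.card {a // ¬ P a} := by
      rw [← Nat.card_sum]
      exact Nat.card_congr (Equiv.sumCompl P).symm
    rw [← h1, Nat.card_prod]
    rfl
  have hsum : ∑ h : H, Nat.card {q : MulAction.orbitRel.Quotient K Ω // ¬ Kept K (h : Γ) q} =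
      Nat.card {a // ¬ P a} := by
    have e : {a // ¬ P a} ≃ Σ h : H, {q : MulAction.orbitRel.Quotient K Ω // ¬ Kept K (h : Γ) q} :=
      { toFun := fun a => ⟨a.1.1, a.1.2, a.2⟩
        invFun := fun a => ⟨(a.1, a.2.1), a.2.2⟩
        left_inv := fun a => rfl
        right_inv := fun a => rfl }
    rw [Nat.card_congr e, Nat.card_sigma]
  rw [hsum, Nat.mul_sub]
  omega

end Pool.Agent.MP_b5e4d4_co.FP
end

section

set_option autoImplicit false

/-!
# Task O1b: moved orbits are merged

Every orbit of `K ⊔ ⟨h⟩` is a union of `K`-orbits. If it contains a `K`-orbit `q` which is not kept by `h` then it contains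
at least two `K`-orbits (a point `h • x`, `x ∈ q`, outside `q`). So
`no K - no (K ⊔ ⟨h⟩) = ∑ over the orbits of K ⊔ ⟨h⟩ of (number of K-orbits inside - 1) ≥ (number of moved K-orbits) / 2`, since
`m ≤ 2 (m - 1)` for `m ≥ 2`.

In Lean: the map `f : Quotient K → Quotient (K ⊔ ⟨h⟩)` (`Quotient.map'`-like, orbit of `x` to orbit of `x`) is surjective;
for every `b` in the target the fibre has at least one element, and at least two if it contains a moved element; sum over `b`:
`#moved ≤ ∑ b, (if fibre has ≥ 2 elements then #fibre else 0) ≤ ∑ b, 2 (#fibre - 1)`.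
-/

namespace Pool.Agent.MP_b5e4d4_co.FP

theorem O1b {Γ Ω : Type} [Group Γ] [Finite Ω] [MulAction Γ Ω] (K : Subgroup Γ) (h : Γ) :
    Nat.card {q : MulAction.orbitRel.Quotient K Ω // ¬ Kept K h q} ≤
      2 * (no Ω K - no Ω (K ⊔ Subgroup.zpowers h)) := by
  classical
  set H := K ⊔ Subgroup.zpowers h with hH
  have hKH : K ≤ H := le_sup_left
  have hh : h ∈ H := (le_sup_right : Subgroup.zpowers h ≤ H) (Subgroup.mem_zpowers h)
  have hf : ∀ a b : Ω, (MulAction.orbitRel K Ω) a b → (MulAction.orbitRel H Ω) a b := by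
    intro a b hab
    rw [MulAction.orbitRel_apply] at hab ⊢
    obtain ⟨g, hg⟩ := hab
    exact ⟨⟨g.1, hKH g.2⟩, hg⟩
  let f : MulAction.orbitRel.Quotient K Ω → MulAction.orbitRel.Quotient H Ω :=
    Quotient.map id hf
  have hs : Function.Surjective f := by
    intro b
    induction b using Quotient.inductionOn with
    | h x => exact ⟨Quotient.mk _ x, rfl⟩
  choose s hs using hs
  have hinj : Function.Injective s := fun a b hab => by rw [← hs a, ← hs b, hab]
  let S : Type := {q : MulAction.orbitRel.Quotient K Ω // q ∉ Set.range s}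
  have hS : Nat.card S = no Ω K - no Ω H := by
    have h1 : Nat.card (MulAction.orbitRel.Quotient K Ω) =
        Nat.card {q // q ∈ Set.range s} + Nat.card {q // q ∉ Set.range s} := by
      rw [← Nat.card_sum]
      exact Nat.card_congr (Equiv.sumCompl (fun q => q ∈ Set.range s)).symm
    have h2 : Nat.card {q // q ∈ Set.range s} = Nat.card (MulAction.orbitRel.Quotient H Ω) :=
      Nat.card_congr (Equiv.ofInjective s hinj).symm
    rw [h2] at h1
    unfold no
    change Nat.card {q // q ∉ Set.range s} = _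
    omega
  -- a moved orbit has a companion
  have hm : ∀ q : MulAction.orbitRel.Quotient K Ω,
      ∃ q' : MulAction.orbitRel.Quotient K Ω, ¬ Kept K h q → (q' ≠ q ∧ f q' = f q) := by
    intro q
    by_cases hq : Kept K h q
    · exact ⟨q, fun h' => absurd hq h'⟩
    unfold Kept at hq
    push Not at hq
    obtain ⟨x, hx, hx'⟩ := hq
    rw [MulAction.orbitRel.Quotient.mem_orbit] at hx hx'
    refine ⟨Quotient.mk _ (h • x), fun _ => ⟨hx', ?_⟩⟩
    rw [← hx]
    change Quotient.mk (MulAction.orbitRel H Ω) (h • x) = Quotient.mk (MulAction.orbitRel H Ω) x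
    refine Quotient.sound ?_
    exact ⟨⟨h, hh⟩, rfl⟩
  choose c hc using hm
  have hc1 : ∀ q, ¬ Kept K h q → c q ≠ q := fun q hq => (hc q hq).1
  have hc2 : ∀ q, ¬ Kept K h q → f (c q) = f q := fun q hq => (hc q hq).2
  have hrange : ∀ q, q ∈ Set.range s → ¬ Kept K h q → c q ∉ Set.range s := by
    rintro q ⟨b, rfl⟩ hq ⟨b', hb'⟩
    refine hc1 _ hq ?_
    have h1 := hc2 _ hq
    rw [← hb', hs, hs] at h1
    rw [← hb', h1]
  let φ : {q : MulAction.orbitRel.Quotient K Ω // ¬ Kept K h q} → S ⊕ S := fun q =>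
    if hq : q.1 ∈ Set.range s then Sum.inr ⟨c q.1, hrange q.1 hq q.2⟩ else Sum.inl ⟨q.1, hq⟩
  have hφ : Function.Injective φ := by
    intro q q' hqq
    by_cases h1 : q.1 ∈ Set.range s <;> by_cases h2 : q'.1 ∈ Set.range s
    · simp only [φ, h1, h2, dite_true] at hqq
      have h3 : c q.1 = c q'.1 := congrArg Subtype.val (Sum.inr.inj hqq)
      have h4 : f q.1 = f q'.1 := by rw [← hc2 _ q.2, ← hc2 _ q'.2, h3]
      obtain ⟨b, hb⟩ := h1
      obtain ⟨b', hb'⟩ := h2
      rw [← hb, ← hb', hs, hs] at h4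
      refine Subtype.ext ?_
      rw [← hb, ← hb', h4]
    · simp only [φ, h1, h2, dite_true, dite_false] at hqq
      exact absurd hqq (by simp)
    · simp only [φ, h1, h2, dite_true, dite_false] at hqq
      exact absurd hqq (by simp)
    · simp only [φ, h1, h2, dite_false] at hqq
      have h3 : (⟨q.1, h1⟩ : S) = ⟨q'.1, h2⟩ := Sum.inl.inj hqq
      have h3 : q.1 = q'.1 := Subtype.mk.inj h3
      exact Subtype.ext h3
  have h1 := Nat.card_le_card_of_injective φ hφ
  rw [Nat.card_sum, hS] at h1
  omega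

end Pool.Agent.MP_b5e4d4_co.FP
end

section

set_option autoImplicit false

/-!
# Task O2: a subgroup with the same orbits and few generators

(1) `O2_halve`: from `O1a`, `O1b`: `|H| e(K) ≤ ∑_{h ∈ H} 2 (no K - no (K ⊔ ⟨h⟩))`, so some `h ∈ H` has
`e(K) ≤ 2 (no K - no (K ⊔ ⟨h⟩))`, `e(K) = no K - no H`; with `no H ≤ no (K ⊔ ⟨h⟩) ≤ no K` (`no_anti`) this is
`2 (no (K ⊔ ⟨h⟩) - no H) ≤ no K - no H`.
(2) `O2_eq`: if `K ≤ H` and `no K ≤ no H` then the orbits are equal: the surjection from the `K`-orbits to the `H`-orbits is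
injective.
(3) `O2`: start with `⊥` (`no ⊥ - no H ≤ |Ω| - 1 < 2 ^ t` if `Ω` is not empty), `t = Nat.clog 2 |Ω|` steps
(`Nat.le_pow_clog`); by induction on `j`: there is `h : Fin j → Γ` in `H` with
`2 ^ j * (no (closure (range h)) - no H) ≤ |Ω| - 1`. After `t` steps the difference is `0`.
-/

namespace Pool.Agent.MP_b5e4d4_co.FP

theorem O2_halve {Γ Ω : Type} [Group Γ] [Finite Γ] [Finite Ω] [MulAction Γ Ω] (K H : Subgroup Γ)
    (hKH : K ≤ H) :
    ∃ h ∈ H, 2 * (no Ω (K ⊔ Subgroup.zpowers h) - no Ω H) ≤ no Ω K - no Ω H := by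
  classical
  have : Fintype Γ := Fintype.ofFinite Γ
  by_contra hcon
  push Not at hcon
  have h1 := O1a (Ω := Ω) K H hKH
  have hb : ∀ h : H, Nat.card {q : MulAction.orbitRel.Quotient K Ω // ¬ Kept K (h : Γ) q} <
      no Ω K - no Ω H := by
    intro h
    have h2 := O1b (Ω := Ω) K (h : Γ)
    have h3 := hcon h h.2
    have h4 : no Ω H ≤ no Ω (K ⊔ Subgroup.zpowers (h : Γ)) :=
      no_anti (sup_le hKH (by rw [Subgroup.zpowers_le]; exact h.2))
    have h5 : no Ω (K ⊔ Subgroup.zpowers (h : Γ)) ≤ no Ω K := no_anti le_sup_left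
    omega
  have h6 : ∑ h : H, Nat.card {q : MulAction.orbitRel.Quotient K Ω // ¬ Kept K (h : Γ) q} <
      ∑ _h : H, (no Ω K - no Ω H) :=
    Finset.sum_lt_sum_of_nonempty Finset.univ_nonempty fun h _ => hb h
  rw [Finset.sum_const, Finset.card_univ, ← Nat.card_eq_fintype_card, smul_eq_mul] at h6
  have h7 : ∑ h : H, Nat.card {q : MulAction.orbitRel.Quotient K Ω // ¬ Kept K (h : Γ) q} =
      (open scoped Classical in
      ∑ h : H, Nat.card {q : MulAction.orbitRel.Quotient K Ω // ¬ Kept K (h : Γ) q}) := by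
    congr
  omega

theorem O2_eq {Γ Ω : Type} [Group Γ] [Finite Ω] [MulAction Γ Ω] (K H : Subgroup Γ)
    (hKH : K ≤ H) (hno : no Ω K ≤ no Ω H) (x : Ω) :
    MulAction.orbit K x = MulAction.orbit H x := by
  have hsub : ∀ x y : Ω, x ∈ MulAction.orbit K y → x ∈ MulAction.orbit H y := by
    rintro x y ⟨k, rfl⟩
    exact ⟨⟨k, hKH k.2⟩, rfl⟩
  let f : MulAction.orbitRel.Quotient K Ω → MulAction.orbitRel.Quotient H Ω :=
    Quotient.map' id fun a b hab => hsub a b hab
  have hf : Function.Surjective f := by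
    intro q
    induction q using Quotient.inductionOn' with
    | h a => exact ⟨Quotient.mk'' a, rfl⟩
  have hbij : Function.Bijective f := hf.bijective_of_nat_card_le hno
  refine Set.Subset.antisymm (fun y hy => hsub y x hy) fun y hy => ?_
  have h1 : f (Quotient.mk'' y) = f (Quotient.mk'' x) := Quotient.sound' hy
  exact Quotient.exact' (hbij.1 h1)

private theorem O2_aux {Γ Ω : Type} [Group Γ] [Finite Γ] [Finite Ω] [MulAction Γ Ω]
    (H : Subgroup Γ) (j : ℕ) : ∃ h : Fin j → Γ, (∀ i, h i ∈ H) ∧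
      2 ^ j * (no Ω (Subgroup.closure (Set.range h)) - no Ω H) ≤ Nat.card Ω - 1 := by
  induction j with
  | zero =>
    refine ⟨fun i => i.elim0, fun i => i.elim0, ?_⟩
    rw [pow_zero, one_mul]
    have h1 : no Ω (Subgroup.closure (Set.range (fun i : Fin 0 => (i.elim0 : Γ)))) ≤ Nat.card Ω :=
      Nat.card_le_card_of_surjective (fun a : Ω => (Quotient.mk'' a :
        MulAction.orbitRel.Quotient _ Ω)) Quotient.mk''_surjective
    rcases isEmpty_or_nonempty Ω with hΩ | ⟨⟨a⟩⟩
    · have : Nat.card Ω = 0 := Nat.card_of_isEmpty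
      omega
    · have h2 : 0 < no Ω H := by
        have : Nonempty (MulAction.orbitRel.Quotient H Ω) := ⟨Quotient.mk'' a⟩
        exact Nat.card_pos
      omega
  | succ j ih =>
    obtain ⟨h, hH, hle⟩ := ih
    have hK : Subgroup.closure (Set.range h) ≤ H := by
      rw [Subgroup.closure_le]
      rintro _ ⟨i, rfl⟩
      exact hH i
    obtain ⟨g, hg, hg'⟩ := O2_halve (Ω := Ω) _ H hK
    refine ⟨Fin.cons g h, fun i => ?_, ?_⟩
    · refine Fin.cases ?_ (fun i => ?_) i
      · simpa using hg
      · simpa using hH i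
    · have hcl : Subgroup.closure (Set.range (Fin.cons g h : Fin (j + 1) → Γ)) =
          Subgroup.closure (Set.range h) ⊔ Subgroup.zpowers g := by
        rw [Fin.range_cons, Set.insert_eq, Subgroup.closure_union,
          ← Subgroup.zpowers_eq_closure, sup_comm]
      rw [hcl, pow_succ, mul_assoc]
      exact (Nat.mul_le_mul_left _ hg').trans hle

theorem O2 {Γ Ω : Type} [Group Γ] [Finite Γ] [Finite Ω] [MulAction Γ Ω] (H : Subgroup Γ) :
    ∃ h : Fin (Nat.clog 2 (Nat.card Ω)) → Γ, (∀ i, h i ∈ H) ∧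
      ∀ x : Ω, MulAction.orbit (Subgroup.closure (Set.range h)) x = MulAction.orbit H x := by
  obtain ⟨h, hH, hle⟩ := O2_aux (Ω := Ω) H (Nat.clog 2 (Nat.card Ω))
  refine ⟨h, hH, fun x => O2_eq _ H ?_ ?_ x⟩
  · rw [Subgroup.closure_le]
    rintro _ ⟨i, rfl⟩
    exact hH i
  · have h1 : 0 < Nat.card Ω := by
      have : Nonempty Ω := ⟨x⟩
      exact Nat.card_pos
    have h2 : Nat.card Ω ≤ 2 ^ Nat.clog 2 (Nat.card Ω) := Nat.le_pow_clog (by norm_num) _
    by_contra hlt
    push Not at hlt
    have h3 : 1 ≤ no Ω (Subgroup.closure (Set.range h)) - no Ω H := by omega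
    have h4 := Nat.mul_le_mul_left (2 ^ Nat.clog 2 (Nat.card Ω)) h3
    omega

end Pool.Agent.MP_b5e4d4_co.FP
end

section

set_option autoImplicit false

/-!
# Task C1: closed subgroups, their number

`closed_stab`: if `g` preserves every orbit of `stab D` then `D (g • e) = D e`.
`cl_congr`: `cl` only depends on the orbits.
`card_closed`: every closed `H` is `cl (closure (range h))` for the `h : Fin t → G V` of `O2` (with `Ω = Arc V`), because
`cl (closure (range h)) = cl H = H` by `cl_congr`; so `h ↦ cl (closure (range h))` maps `Fin t → G V` onto the set of closed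
subgroups and the number is at most `(card (G V)) ^ t`.  For `V = Fin p`: `card (G V) = p! * 2`, `card (Arc V) = p * (p - 1)`.
-/

namespace Pool.Agent.MP_b5e4d4_co.FP

open Equiv

theorem closed_stab {V κ : Type} (D : Arc V → κ) : Closed (stab D) := by
  refine le_antisymm ?_ ?_
  · intro g hg e
    obtain ⟨k, hk⟩ := (hg e : g • e ∈ MulAction.orbit (stab D) e)
    have h1 : (k : G V) • e = g • e := hk
    rw [← h1]
    exact k.2 e
  · intro g hg e
    exact ⟨⟨g, hg⟩, rfl⟩

theorem cl_congr {V : Type} (H K : Subgroup (G V))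
    (h : ∀ e : Arc V, MulAction.orbit H e = MulAction.orbit K e) : cl H = cl K := by
  refine le_antisymm ?_ ?_
  · intro g hg e
    show g • e ∈ MulAction.orbit K e
    rw [← h e]
    exact hg e
  · intro g hg e
    show g • e ∈ MulAction.orbit H e
    rw [h e]
    exact hg e

theorem card_arc (p : ℕ) : Nat.card (Arc (Fin p)) = p * (p - 1) := by
  classical
  have h1 : (Finset.univ.filter fun e : Fin p × Fin p => e.1 ≠ e.2) =
      (Finset.univ : Finset (Fin p)).offDiag := by
    ext e
    simp [Finset.mem_offDiag]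
  rw [Nat.card_eq_fintype_card, Fintype.card_subtype, h1, Finset.offDiag_card, Finset.card_univ,
    Fintype.card_fin, Nat.mul_sub, mul_one]

theorem card_G (p : ℕ) : Nat.card (G (Fin p)) = 2 * p.factorial := by
  rw [Nat.card_prod, Nat.card_eq_fintype_card, Fintype.card_perm, Fintype.card_fin,
    Nat.card_eq_fintype_card, Fintype.card_units_int, mul_comm]

theorem card_closed (p : ℕ) :
    Nat.card {H : Subgroup (G (Fin p)) // Closed H} ≤
      (2 * p.factorial) ^ Nat.clog 2 (p * (p - 1)) := by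
  have h1 : ∀ H : {H : Subgroup (G (Fin p)) // Closed H},
      ∃ h : Fin (Nat.clog 2 (Nat.card (Arc (Fin p)))) → G (Fin p),
        cl (Subgroup.closure (Set.range h)) = H.1 := by
    rintro ⟨H, hH⟩
    obtain ⟨h, -, ho⟩ := O2 (Ω := Arc (Fin p)) H
    exact ⟨h, (cl_congr _ _ ho).trans hH⟩
  choose F hF using h1
  have h2 : Function.Injective F := by
    intro H K hHK
    apply Subtype.ext
    rw [← hF H, ← hF K, hHK]
  have h3 := Nat.card_le_card_of_injective F h2
  rw [Nat.card_fun, card_G, Nat.card_eq_fintype_card (α := Fin _), Fintype.card_fin, card_arc] at h3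
  exact h3

end Pool.Agent.MP_b5e4d4_co.FP
end
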